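import Pool.Agent.Lib.MP_3d51eb_gt.PB.Spec

set_option autoImplicit false

/-!
# project PB, module Bd: the point is not torsion, bends of the classes `e i` (helper86)
-/

noncomputable section

namespace ToricPB

open Finset MvPolynomial

namespace Bd_aux

variable {n k : ℕ} {K : Finset (Finset (Vec n))}

lemma e_mon {e : Fin k → Coh K} {a : Fin k → Vec n → ℤ}
    (h : ∀ i v, e i * cls K v = a i v • (e i * e i)) (i : Fin k) (s : Finset (Vec n)) :
    e i * mon K s = (∏ v ∈ s, a i v) • (e i) ^ (s.card + 1) := by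
  classical
  induction s using Finset.induction_on with
  | empty => simp [mon_empty]
  | insert v s hv ih =>
    rw [mon_insert hv, Finset.prod_insert hv, Finset.card_insert_of_notMem hv]
    have e1 : e i * (cls K v * mon K s) = cls K v * (e i * mon K s) := by ring
    rw [e1, ih]
    have e2 : cls K v * ((∏ w ∈ s, a i w) • (e i) ^ (s.card + 1)) =
        (∏ w ∈ s, a i w) • ((e i) ^ s.card * (e i * cls K v)) := by
      rw [mul_smul_comm]
      congr 1
      ring
    rw [e2, h i v, mul_smul_comm, smul_smul, mul_comm (a i v)]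
    congr 1
    ring

/-- the support has at least `n` elements -/
lemma card_supp (hD : StDual) {a : Vec n → ℤ} {ψ : Vec n → ℤ} (hK : IsFan K)
    (hs : ∀ s : Finset (Vec n), (∀ v ∈ s, a v ≠ 0) → s.card + 1 ≤ n → s ∈ K)
    (hr : ∑ v ∈ verts K, a v • v = 0) (h1 : ∑ v ∈ verts K, a v * ψ v = 1) :
    n ≤ ((verts K).filter (fun v => a v ≠ 0)).card := by
  classical
  by_contra hc
  push Not at hc
  obtain ⟨A, hA⟩ : ∃ A, A = (verts K).filter (fun v => a v ≠ 0) := ⟨_, rfl⟩
  rw [← hA] at hc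
  have hm : ∀ v, v ∈ A ↔ v ∈ verts K ∧ a v ≠ 0 := by
    intro v
    rw [hA, Finset.mem_filter]
  have hAK : A ∈ K := hs A (fun v hv => ((hm v).1 hv).2) hc
  obtain ⟨-, -, hind, -⟩ := hD n A (hK.smooth A hAK)
  have hrA : ∑ v ∈ A, a v • v = 0 := by
    rw [← hr]
    refine Finset.sum_subset (fun v hv => ((hm v).1 hv).1) ?_
    intro v hv hvA
    have h0 : a v = 0 := by
      by_contra h0
      exact hvA ((hm v).2 ⟨hv, h0⟩)
    rw [h0, zero_smul]
  have hl : lin A (fun v => (a v : ℝ)) = 0 := by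
    rw [lin_int, hrA, toR_zero]
  have h0 := hind _ hl
  have h2 : ∑ v ∈ verts K, a v * ψ v = 0 := by
    refine Finset.sum_eq_zero ?_
    intro v hv
    have h3 : a v = 0 := by
      by_contra h3
      have h4 := h0 v ((hm v).2 ⟨hv, h3⟩)
      exact h3 (by exact_mod_cast h4)
    rw [h3, zero_mul]
  rw [h2] at h1
  exact zero_ne_one h1

end Bd_aux

open Bd_aux

theorem tBd : StDual → StWall → StMul → StPt → StSkel → StBd := by
  classical
  intro hD hW hM hP hS n K k e U a hK hn hsp hdat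
  obtain ⟨-, d2, -, d4, d5⟩ := id hdat
  have hNT : 0 < k → NT K := by
    intro hk σ hσ hσn N hN
    obtain ⟨i, -⟩ : ∃ i : Fin k, i = i := ⟨⟨0, hk⟩, rfl⟩
    obtain ⟨ψ, hψ⟩ := exists_cl (hsp.he i)
    have hsk := hS n K k e U a hK hn hsp hdat i
    have hcard := card_supp hD hK hsk (d4 i) (d5 i ψ hψ)
    obtain ⟨τ, hτA, hτc⟩ := Finset.exists_subset_card_eq (show n - 1 ≤ _ by omega : n - 1 ≤
      ((verts K).filter (fun v => a i v ≠ 0)).card)
    have hτa : ∀ v ∈ τ, a i v ≠ 0 := fun v hv => (Finset.mem_filter.1 (hτA hv)).2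
    have hτn : τ.card + 1 = n := by omega
    have hτK : τ ∈ K := hsk τ hτa (by omega)
    obtain ⟨p, q, b, hw⟩ := hW n K hK τ hτK hτn
    obtain ⟨m1, -⟩ := hM n K hK τ p q b hw
    obtain ⟨-, -, hp, -, -, hpK, -⟩ := hw
    have h1 : mon K σ = mon K (insert p τ) := hP n K hK (by omega) σ hσ (insert p τ) hpK hσn
      (by rw [Finset.card_insert_of_notMem hp]; exact hτn)
    have h2 : N • (e i * mon K τ) = 0 := by
      rw [hψ, m1 ψ, smul_comm, ← h1, hN, smul_zero]
    rw [e_mon d2 i τ, hτn, smul_smul] at h2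
    have h3 := hsp.top i _ h2
    rcases mul_eq_zero.1 h3 with h4 | h4
    · exact h4
    · exact absurd h4 (Finset.prod_ne_zero_iff.2 hτa)
  refine ⟨hNT, ?_⟩
  intro i ψ hψ τ p q b hw hb v hv h0
  have hk : 0 < k := lt_of_le_of_lt (Nat.zero_le _) i.2
  obtain ⟨m1, -⟩ := hM n K hK τ p q b hw
  obtain ⟨-, hτn, hp, -, -, hpK, -⟩ := hw
  apply hb
  refine hNT hk (insert p τ) hpK (by rw [Finset.card_insert_of_notMem hp]; exact hτn) _ ?_
  rw [← m1 ψ, ← hψ, e_mon d2 i τ, Finset.prod_eq_zero hv h0, zero_smul]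

end ToricPB
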