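import Pool.Agent.Lib.MP_3d51eb_gt.PB.Spec

set_option autoImplicit false

/-!
# project PB, module CardA: at most `n + 1` rays
-/

noncomputable section

namespace ToricPB

open Finset MvPolynomial

/-- More than `n` vectors have a nontrivial relation. -/
private lemma CardA_rel {n : ℕ} (B : Finset (Vec n)) (h : n < B.card) :
    ∃ w : Vec n → ℝ, lin B w = 0 ∧ ∃ v ∈ B, w v ≠ 0 := by
  classical
  have hc : (B.image toR).card = B.card := Finset.card_image_of_injective _ fun _ _ => toR_inj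
  have h1 : Module.finrank ℝ (Fin n → ℝ) < (B.image toR).card := by
    rw [Module.finrank_fin_fun, hc]
    exact h
  obtain ⟨f, hf, x, hx, hfx⟩ := Module.exists_nontrivial_relation_of_finrank_lt_card h1
  obtain ⟨v, hv, rfl⟩ := Finset.mem_image.1 hx
  refine ⟨fun v => f (toR v), ?_, v, hv, hfx⟩
  rw [Finset.sum_image fun _ _ _ _ => toR_inj] at hf
  exact hf

/-- The same with a prescribed zero. -/
private lemma CardA_rel0 {n : ℕ} (B : Finset (Vec n)) (h : B.card = n + 2) {u : Vec n}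
    (hu : u ∈ B) : ∃ w : Vec n → ℝ, lin B w = 0 ∧ w u = 0 ∧ ∃ v ∈ B, w v ≠ 0 := by
  classical
  obtain ⟨w, hw, v, hv, hwv⟩ := CardA_rel (B.erase u) (by rw [Finset.card_erase_of_mem hu, h]; omega)
  rw [Finset.mem_erase] at hv
  refine ⟨fun x => if x = u then 0 else w x, ?_, if_pos rfl, v, hv.2, ?_⟩
  · rw [lin_subset (Finset.erase_subset u B), lin_congr (d := w), hw]
    · intro x hx
      exact if_neg (Finset.mem_erase.1 hx).1
    · intro x hx hx'
      refine if_pos ?_
      by_contra hne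
      exact hx' (Finset.mem_erase.2 ⟨hne, hx⟩)
  · change (if v = u then (0 : ℝ) else w v) ≠ 0
    rw [if_neg hv.1]
    exact hwv

theorem tCardA : StRel1 → StCardA := by
  classical
  intro hRel n K hK hn A hA
  by_contra hc
  obtain ⟨B, hBA, hB⟩ := Finset.exists_subset_card_eq (show n + 2 ≤ A.card by omega)
  have hne : B.Nonempty := by
    rw [← Finset.card_pos, hB]
    omega
  obtain ⟨v1, hv1⟩ := hne
  obtain ⟨w, hw, -, v2, hv2, hwv2⟩ := CardA_rel0 B hB hv1
  obtain ⟨w', hw', hw'2, v3, hv3, hw'3⟩ := CardA_rel0 B hB hv2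
  obtain ⟨c, hcw⟩ := hRel n K hK hn B (fun s hs h => hA s (hs.trans hBA) h) hB.le w w' hw hw'
    ⟨v2, hv2, hwv2⟩
  have h1 := hcw v2 hv2
  rw [hw'2] at h1
  have h2 : c = 0 := (mul_eq_zero.1 h1.symm).resolve_right hwv2
  have h3 := hcw v3 hv3
  rw [h2, zero_mul] at h3
  exact hw'3 h3

end ToricPB
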