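import Pool.Agent.Lib.MP_3d51eb_gt.PB.Spec

set_option autoImplicit false

/-!
# project PB: coordinates of the divisor classes
-/

noncomputable section

namespace ToricPB

open Finset MvPolynomial

namespace Coef_aux

theorem pr_single {n : ℕ} (j : Fin n) (w : Vec n) : pr (Pi.single j 1) w = w j := by
  simp [pr, Pi.single_apply]

theorem uniq {n : ℕ} {K : Finset (Finset (Vec n))} {k : ℕ} {e : Fin k → Coh K}
    {U : Submodule ℤ (Coh K)} (hS : Split K k e U) (i : Fin k) {t t' : ℤ}
    (h : t • (e i) ^ n = t' • (e i) ^ n) : t = t' := by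
  have h1 : (t - t') • (e i) ^ n = 0 := by rw [sub_smul, h, sub_self]
  exact sub_eq_zero.1 (hS.top i _ h1)

/-- the multiplication by `e ^ (n - 1)` -/
theorem mul_pow {n : ℕ} {K : Finset (Finset (Vec n))} (hn : 3 ≤ n) {x y : Coh K} {c : ℤ}
    (h : x * y = c • (x * x)) : x ^ (n - 1) * y = c • x ^ n := by
  obtain ⟨m, rfl⟩ : ∃ m, n = m + 2 := ⟨n - 2, by omega⟩
  have e1 : m + 2 - 1 = m + 1 := by omega
  rw [e1, pow_succ, mul_assoc, h, mul_smul_comm, pow_succ, pow_succ, mul_assoc]

theorem sum_mul {n : ℕ} {K : Finset (Finset (Vec n))} (hn : 3 ≤ n) {x : Coh K}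
    {a : Vec n → ℤ} (h : ∀ v, x * cls K v = a v • (x * x)) (ψ : Vec n → ℤ) :
    x ^ (n - 1) * ∑ v ∈ verts K, ψ v • cls K v = (∑ v ∈ verts K, a v * ψ v) • x ^ n := by
  rw [Finset.mul_sum, Finset.sum_smul]
  refine Finset.sum_congr rfl (fun v _ => ?_)
  rw [mul_smul_comm, mul_pow hn (h v), smul_smul, mul_comm]

end Coef_aux

open Coef_aux in
theorem tCoef : StCoef := by
  classical
  intro n K k e U hK hn hS
  have hex : ∀ v : Vec n, ∃ c : Fin k → ℤ, cls K v - ∑ i, c i • e i ∈ U ∧
      (∀ i, c i ≠ 0 → v ∈ verts K) := by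
    intro v
    by_cases hv : v ∈ verts K
    · obtain ⟨u, hu, c, hc⟩ := hS.gen (cls K v) (cls_mem v)
      refine ⟨c, ?_, fun _ _ => hv⟩
      rw [hc, add_sub_cancel_right]
      exact hu
    · refine ⟨fun _ => 0, ?_, fun i hi => absurd rfl hi⟩
      rw [cls_eq_zero hv]
      simp
  choose c hc1 hc2 using hex
  have h2 : ∀ i v, e i * cls K v = c v i • (e i * e i) := by
    intro i v
    have h3 : e i * (cls K v - ∑ j, c v j • e j) = 0 := hS.eu i _ (hc1 v)
    have h4 : e i * ∑ j, c v j • e j = c v i • (e i * e i) := by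
      rw [Finset.mul_sum, Finset.sum_eq_single i]
      · rw [mul_smul_comm]
      · intro j _ hj
        rw [mul_smul_comm, hS.ee i j (Ne.symm hj), smul_zero]
      · intro h
        exact absurd (Finset.mem_univ i) h
    rw [mul_sub, h4, sub_eq_zero] at h3
    exact h3
  refine ⟨fun i v => c v i, hc1, h2, fun i v h => hc2 v i h, ?_, ?_⟩
  · intro i
    have h5 : ∀ u : Vec n, pr u (∑ v ∈ verts K, c v i • v) = 0 := by
      intro u
      have h6 := sum_mul hn (h2 i) (pr u)
      rw [lin_rel, mul_zero] at h6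
      have h7 := hS.top i _ h6.symm
      rw [pr_sum, ← h7]
      exact Finset.sum_congr rfl (fun v _ => pr_smul _ _ _)
    funext j
    have h8 := h5 (Pi.single j 1)
    rw [pr_single] at h8
    exact h8
  · intro i ψ hψ
    have h6 := sum_mul hn (h2 i) ψ
    have e1 : ∑ v ∈ verts K, ψ v • cls K v = e i := hψ.symm
    rw [e1] at h6
    have h7 : (1 : ℤ) • e i ^ n = (∑ v ∈ verts K, c v i * ψ v) • e i ^ n := by
      rw [← h6, one_smul, ← pow_succ]
      congr 1
      omega
    exact (uniq hS i h7).symm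

end ToricPB
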