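import Pool.Agent.Lib.MP_3d51eb_gt.PB.Spec

set_option autoImplicit false

/-!
# project PB: connectedness (`StConn`)
-/

noncomputable section

namespace ToricPB

open Finset MvPolynomial

namespace Conn_aux

variable {n : ℕ}

/-- the closed cone -/
private def CC (s : Finset (Vec n)) (x : Fin n → ℝ) : Prop :=
  ∃ c : Vec n → ℝ, (∀ v ∈ s, 0 ≤ c v) ∧ x = lin s c

private lemma CC_of_InRel {s : Finset (Vec n)} {x : Fin n → ℝ} (h : InRel s x) : CC s x := by
  obtain ⟨c, hc, hx⟩ := h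
  exact ⟨c, fun v hv => (hc v hv).le, hx⟩

private lemma CC_of_subset {s t : Finset (Vec n)} (hst : s ⊆ t) {x : Fin n → ℝ} (h : InRel s x) :
    CC t x := by
  classical
  obtain ⟨c, hc, hx⟩ := h
  refine ⟨fun v => if v ∈ s then c v else 0, fun v _ => ?_, ?_⟩
  · by_cases hv : v ∈ s
    · simp only [if_pos hv]
      exact (hc v hv).le
    · simp only [if_neg hv]
      exact le_rfl
  · rw [lin_subset hst _ (fun v _ hv => if_neg hv), hx]
    exact lin_congr (fun v hv => (if_pos hv).symm)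

private lemma dual_dot {s : Finset (Vec n)} {v u : Vec n} (hv : v ∈ s)
    (hu : pr u v = 1 ∧ ∀ w ∈ s, w ≠ v → pr u w = 0) (c : Vec n → ℝ) :
    dot (toR u) (lin s c) = c v := by
  rw [dot_lin, Finset.sum_eq_single v]
  · rw [dot_toR, hu.1]
    simp
  · intro w hw hwv
    rw [dot_toR, hu.2 w hw hwv]
    simp
  · intro h
    exact absurd hv h

private lemma closed_CC (hD : StDual) (s : Finset (Vec n)) (hs : Uni s) (hc : s.card = n) :
    IsClosed {x : Fin n → ℝ | CC s x} := by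
  obtain ⟨-, h2, -, h4⟩ := hD n s hs
  choose u hu using h2
  have e : {x : Fin n → ℝ | CC s x} = ⋂ v : s, {x | 0 ≤ dot (toR (u v.1 v.2)) x} := by
    ext x
    rw [Set.mem_iInter]
    constructor
    · rintro ⟨c, hc0, rfl⟩ v
      show 0 ≤ dot (toR (u v.1 v.2)) (lin s c)
      rw [dual_dot v.2 (hu v.1 v.2)]
      exact hc0 v.1 v.2
    · intro h
      obtain ⟨c, rfl⟩ := (h4 hc).2 x
      refine ⟨c, fun v hv => ?_, rfl⟩
      have h5 : 0 ≤ dot (toR (u v hv)) (lin s c) := h ⟨v, hv⟩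
      rwa [dual_dot hv (hu v hv)] at h5
  rw [e]
  exact isClosed_iInter fun v => isClosed_le continuous_const (dot_continuous _)

private lemma open_InRel (hD : StDual) (s : Finset (Vec n)) (hs : Uni s) (hc : s.card = n) :
    IsOpen {x : Fin n → ℝ | InRel s x} := by
  obtain ⟨-, h2, -, h4⟩ := hD n s hs
  choose u hu using h2
  have e : {x : Fin n → ℝ | InRel s x} = ⋂ v : s, {x | 0 < dot (toR (u v.1 v.2)) x} := by
    ext x
    rw [Set.mem_iInter]
    constructor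
    · rintro ⟨c, hc0, rfl⟩ v
      show 0 < dot (toR (u v.1 v.2)) (lin s c)
      rw [dual_dot v.2 (hu v.1 v.2)]
      exact hc0 v.1 v.2
    · intro h
      obtain ⟨c, rfl⟩ := (h4 hc).2 x
      refine ⟨c, fun v hv => ?_, rfl⟩
      have h5 : 0 < dot (toR (u v hv)) (lin s c) := h ⟨v, hv⟩
      rwa [dual_dot hv (hu v hv)] at h5
  rw [e]
  exact isOpen_iInter_of_finite fun v => isOpen_lt continuous_const (dot_continuous _)

/-- a point of an open set outside of finitely many proper subspaces -/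
private lemma generic (U : Set (Fin n → ℝ)) (hU : IsOpen U) (hne : U.Nonempty)
    (F : Finset (Finset (Vec n))) (W : Finset (Vec n) → Submodule ℝ (Fin n → ℝ))
    (hF : ∀ κ ∈ F, W κ ≠ ⊤) : ∃ b ∈ U, ∀ κ ∈ F, b ∉ W κ := by
  by_contra hcon
  push Not at hcon
  have h1 : U ⊆ ⋃ κ ∈ (F : Set (Finset (Vec n))), ((W κ : Submodule ℝ (Fin n → ℝ)) : Set (Fin n → ℝ)) := by
    intro b hb
    obtain ⟨κ, hκ, hbκ⟩ := hcon b hb
    exact Set.mem_biUnion (Finset.mem_coe.2 hκ) hbκ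
  have h2 : MeasureTheory.volume (⋃ κ ∈ (F : Set (Finset (Vec n))),
      ((W κ : Submodule ℝ (Fin n → ℝ)) : Set (Fin n → ℝ))) = 0 := by
    rw [MeasureTheory.measure_biUnion_null_iff F.countable_toSet]
    intro κ hκ
    exact MeasureTheory.Measure.addHaar_submodule _ _ (hF κ (Finset.mem_coe.1 hκ))
  exact (hU.measure_pos MeasureTheory.volume hne).ne' (MeasureTheory.measure_mono_null h1 h2)

/-- the span of a cone and a vector -/
private def Wsp (a0 : Fin n → ℝ) (κ : Finset (Vec n)) : Submodule ℝ (Fin n → ℝ) :=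
  Submodule.span ℝ (((κ.image toR : Finset (Fin n → ℝ)) : Set (Fin n → ℝ)) ∪ {a0})

private lemma Wsp_ne_top (a0 : Fin n → ℝ) (κ : Finset (Vec n)) (h : κ.card + 2 ≤ n) :
    Wsp a0 κ ≠ ⊤ := by
  classical
  intro ht
  have h1 : Wsp a0 κ = Submodule.span ℝ ((κ.image toR ∪ {a0} : Finset (Fin n → ℝ)) : Set (Fin n → ℝ)) := by
    unfold Wsp
    rw [Finset.coe_union, Finset.coe_singleton]
  have h2 : Module.finrank ℝ (Submodule.span ℝ
      ((κ.image toR ∪ {a0} : Finset (Fin n → ℝ)) : Set (Fin n → ℝ))) ≤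
      (κ.image toR ∪ {a0} : Finset (Fin n → ℝ)).card :=
    finrank_span_finset_le_card (R := ℝ) (κ.image toR ∪ {a0} : Finset (Fin n → ℝ))
  rw [← h1, ht, finrank_top, Module.finrank_fin_fun] at h2
  have h3 : (κ.image toR ∪ {a0} : Finset (Fin n → ℝ)).card ≤ κ.card + 1 := by
    refine (Finset.card_union_le _ _).trans ?_
    rw [Finset.card_singleton]
    exact Nat.add_le_add_right Finset.card_image_le 1
  omega

private lemma lin_mem_Wsp (a0 : Fin n → ℝ) (κ : Finset (Vec n)) (c : Vec n → ℝ) :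
    lin κ c ∈ Wsp a0 κ := by
  refine Submodule.sum_mem _ (fun v hv => Submodule.smul_mem _ _ (Submodule.subset_span (Or.inl ?_)))
  rw [Finset.mem_coe]
  exact Finset.mem_image_of_mem _ hv

private lemma self_mem_Wsp (a0 : Fin n → ℝ) (κ : Finset (Vec n)) : a0 ∈ Wsp a0 κ :=
  Submodule.subset_span (Or.inr rfl)

end Conn_aux

open Conn_aux in
theorem tConn : StDual → StUq → StNear → StConn := by
  classical
  intro hD hU hN n K hK _hn Ω hΩc hΩo α f hf σ hσ σ' hσ' hcσ hcσ' hmσ hmσ'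
  by_contra hne
  obtain ⟨a0, ha0, hra⟩ := hmσ
  obtain ⟨b0, hb0, hrb⟩ := hmσ'
  -- the generic point
  obtain ⟨b, ⟨hbΩ, hbr⟩, hbW⟩ := generic (Ω ∩ {x | InRel σ' x})
    (hΩo.inter (open_InRel hD σ' (hK.smooth σ' hσ') hcσ')) ⟨b0, hb0, hrb⟩
    (K.filter fun κ => κ.card + 2 ≤ n) (Wsp a0)
    (fun κ hκ => Wsp_ne_top a0 κ (Finset.mem_filter.1 hκ).2)
  have hbr' : InRel σ' b := hbr
  set z : ℝ → (Fin n → ℝ) := fun t => (1 - t) • a0 + t • b with hz
  have hzc : Continuous z := by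
    rw [hz]
    fun_prop
  have hzΩ : ∀ t ∈ Set.Icc (0 : ℝ) 1, z t ∈ Ω := fun t ht =>
    hΩc ha0 hbΩ (sub_nonneg.2 ht.2) ht.1 (sub_add_cancel _ _)
  -- the faces which are met have at least `n - 1` elements
  have hbig : ∀ t ∈ Set.Icc (0 : ℝ) 1, ∀ κ ∈ K, InRel κ (z t) → n ≤ κ.card + 1 := by
    intro t ht κ hκ hr
    by_contra hlt
    push Not at hlt
    have hκ2 : κ.card + 2 ≤ n := by omega
    rcases eq_or_lt_of_le ht.1 with h0 | h0
    · have h1 : z t = a0 := by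
        rw [hz, ← h0]
        simp
      rw [h1] at hr
      have h2 := hK.uniq hκ hσ hr hra
      rw [h2] at hκ2
      omega
    · obtain ⟨c, -, hc⟩ := hr
      refine hbW κ (Finset.mem_filter.2 ⟨hκ, hκ2⟩) ?_
      have h1 : b = t⁻¹ • (lin κ c - (1 - t) • a0) := by
        rw [← hc, hz]
        simp only [add_sub_cancel_left]
        rw [smul_smul, inv_mul_cancel₀ h0.ne', one_smul]
      rw [h1]
      exact Submodule.smul_mem _ _ (Submodule.sub_mem _ (lin_mem_Wsp _ _ _)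
        (Submodule.smul_mem _ _ (self_mem_Wsp _ _)))
  -- the two closed sets
  set 𝒜 : Finset (Finset (Vec n)) := K.filter fun s => s.card = n ∧ f s = f σ with hA
  set ℬ : Finset (Finset (Vec n)) := K.filter fun s => s.card = n ∧ f s ≠ f σ with hB
  have hcl : ∀ S : Finset (Finset (Vec n)), (∀ s ∈ S, s ∈ K ∧ s.card = n) →
      IsClosed (⋃ s ∈ S, {t : ℝ | CC s (z t)}) := by
    intro S hS
    refine isClosed_biUnion_finset (fun s hs => ?_)
    exact (closed_CC hD s (hK.smooth s (hS s hs).1) (hS s hs).2).preimage hzc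
  have hAK : ∀ s ∈ 𝒜, s ∈ K ∧ s.card = n := fun s hs =>
    ⟨(Finset.mem_filter.1 hs).1, (Finset.mem_filter.1 hs).2.1⟩
  have hBK : ∀ s ∈ ℬ, s ∈ K ∧ s.card = n := fun s hs =>
    ⟨(Finset.mem_filter.1 hs).1, (Finset.mem_filter.1 hs).2.1⟩
  have hcov : Set.Icc (0 : ℝ) 1 ⊆ (⋃ s ∈ 𝒜, {t : ℝ | CC s (z t)}) ∪ ⋃ s ∈ ℬ, {t : ℝ | CC s (z t)} := by
    intro t ht
    obtain ⟨κ, ⟨hκ, hr⟩, -⟩ := hK.cover (z t)
    obtain ⟨s, hs, hκs, hsn, -⟩ := hN n K hK Ω hΩo κ hκ (z t) (hzΩ t ht) hr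
    by_cases h : f s = f σ
    · left
      exact Set.mem_biUnion (Finset.mem_filter.2 ⟨hs, hsn, h⟩) (CC_of_subset hκs hr)
    · right
      exact Set.mem_biUnion (Finset.mem_filter.2 ⟨hs, hsn, h⟩) (CC_of_subset hκs hr)
  have hz0 : z 0 = a0 := by
    rw [hz]
    simp
  have hz1 : z 1 = b := by
    rw [hz]
    simp
  obtain ⟨t, ht, htA, htB⟩ := isPreconnected_closed_iff.1 (isPreconnected_Icc (a := (0 : ℝ)) (b := 1))
    _ _ (hcl 𝒜 hAK) (hcl ℬ hBK) hcov
    ⟨0, Set.left_mem_Icc.2 zero_le_one, Set.mem_biUnion (Finset.mem_filter.2 ⟨hσ, hcσ, rfl⟩)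
      (show CC σ (z 0) by rw [hz0]; exact CC_of_InRel hra)⟩
    ⟨1, Set.right_mem_Icc.2 zero_le_one, Set.mem_biUnion
      (Finset.mem_filter.2 ⟨hσ', hcσ', fun h => hne h.symm⟩)
      (show CC σ' (z 1) by rw [hz1]; exact CC_of_InRel hbr')⟩
  rw [Set.mem_iUnion₂] at htA htB
  obtain ⟨s1, hs1, c1, hc1, hx1⟩ := htA
  obtain ⟨s2, hs2, c2, hc2, hx2⟩ := htB
  obtain ⟨κ, ⟨hκ, hr⟩, -⟩ := hK.cover (z t)
  have hk1 : κ ⊆ s1 := by
    have h := (hU n K hK).2 s1 (hAK s1 hs1).1 κ hκ c1 hc1 (by rw [← hx1]; exact hr)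
    rw [h]
    exact Finset.filter_subset _ _
  have hk2 : κ ⊆ s2 := by
    have h := (hU n K hK).2 s2 (hBK s2 hs2).1 κ hκ c2 hc2 (by rw [← hx2]; exact hr)
    rw [h]
    exact Finset.filter_subset _ _
  have h12 : f s1 ≠ f s2 := by
    rw [(Finset.mem_filter.1 hs1).2.2]
    exact fun h => (Finset.mem_filter.1 hs2).2.2 h.symm
  have hle : κ.card ≤ n := (Finset.card_le_card hk1).trans_eq (hAK s1 hs1).2
  have hge := hbig t ht κ hκ hr
  rcases Nat.eq_or_lt_of_le hle with h | h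
  · have e1 : κ = s1 := Finset.eq_of_subset_of_card_le hk1 (by rw [(hAK s1 hs1).2, h])
    have e2 : κ = s2 := Finset.eq_of_subset_of_card_le hk2 (by rw [(hBK s2 hs2).2, h])
    exact h12 (by rw [← e1, ← e2])
  · exact h12 (hf κ hκ (by omega) ⟨z t, hzΩ t ht, hr⟩ s1 (hAK s1 hs1).1 s2 (hBK s2 hs2).1 hk1 hk2
      (hAK s1 hs1).2 (hBK s2 hs2).2)

end ToricPB
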