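import Pool.Agent.Lib.MP_3d51eb_gt.PB.Spec

set_option autoImplicit false

/-!
# MP_3d51eb_gt, project PB, module DR: the real dual basis (helper2)
-/

noncomputable section

namespace ToricPB

open Finset MvPolynomial

/-- A linear functional on the real vectors is a scalar product. -/
private lemma dr_fun {n : ℕ} (φ : (Fin n → ℝ) →ₗ[ℝ] ℝ) (x : Fin n → ℝ) :
    dot (fun j => φ (Pi.single j 1)) x = φ x := by
  have h : x = ∑ j, x j • (Pi.single j (1 : ℝ) : Fin n → ℝ) := by
    funext i
    rw [Finset.sum_apply]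
    simp [Pi.single_apply]
  conv_rhs => rw [h]
  rw [map_sum]
  unfold dot
  refine Finset.sum_congr rfl fun j _ => ?_
  rw [map_smul, smul_eq_mul, mul_comm]

theorem tDR : StDR := by
  intro n B hB hli
  have hind : LinearIndependent ℝ (fun v : B => toR (v : Vec n)) := by
    rw [Fintype.linearIndependent_iff]
    intro g hg i
    have h1 := hli (fun v => if h : v ∈ B then g ⟨v, h⟩ else 0) (by
      rw [lin, ← Finset.sum_coe_sort B, ← hg]
      refine Finset.sum_congr rfl fun v _ => ?_
      rw [dif_pos v.2]) i.1 i.2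
    rwa [dif_pos i.2] at h1
  have hcard : Fintype.card B = Module.finrank ℝ (Fin n → ℝ) := by
    rw [Fintype.card_coe, hB, Module.finrank_fin_fun]
  have hspan := hind.span_eq_top_of_card_eq_finrank' hcard
  obtain ⟨b, hb⟩ : ∃ b : Module.Basis B ℝ (Fin n → ℝ), ∀ v : B, b v = toR (v : Vec n) :=
    ⟨Module.Basis.mk hind hspan.ge, fun v => Module.Basis.mk_apply _ _ v⟩
  constructor
  · intro x
    refine ⟨fun v => if h : v ∈ B then b.repr x ⟨v, h⟩ else 0, ?_⟩
    rw [lin, ← Finset.sum_coe_sort B]
    conv_lhs => rw [← b.sum_repr x]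
    refine Finset.sum_congr rfl fun v _ => ?_
    rw [dif_pos v.2, hb]
  · intro v hv
    refine ⟨fun j => b.coord ⟨v, hv⟩ (Pi.single j 1), fun w hw => ?_⟩
    rw [dr_fun, ← hb ⟨w, hw⟩, Module.Basis.coord_apply, Module.Basis.repr_self,
      Finsupp.single_apply]
    simp only [Subtype.mk.injEq]

end ToricPB
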