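import Pool.Agent.Lib.MP_3d51eb_gt.PB.Spec3

set_option autoImplicit false

/-!
# MP_3d51eb_gt, project PB, module Deg: the class of a point is not torsion
-/

noncomputable section

namespace ToricPB

open Finset MvPolynomial

namespace Deg_aux

variable {n : ℕ} {K : Finset (Finset (Vec n))}

/-- the top level -/
lemma top (hDual : StDual) (hK : IsFan K) :
    DegSys K n (fun _ => MvPolynomial.lcoeff (R := ℤ) (0 : Vec n →₀ ℕ)) := by
  classical
  intro τ hτ hn
  have hle := (hDual n τ (hK.smooth τ hτ)).1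
  have h0 : ∀ f : MvPolynomial (Vec n) ℤ,
      MvPolynomial.lcoeff (R := ℤ) (0 : Vec n →₀ ℕ) f = constantCoeff f := by
    intro f
    rfl
  refine ⟨fun _ => ?_, fun h => absurd h (by omega), fun ρ hρ f => ?_, fun w f => ?_⟩
  · rw [h0]
    simp
  · rw [h0, h0, map_mul, constantCoeff_X, zero_mul]
    rw [if_neg]
    intro hc
    have := (hDual n _ (hK.smooth _ hc)).1
    rw [Finset.card_insert_of_notMem hρ] at this
    omega
  · rw [h0, map_mul, map_sum]
    rw [Finset.sum_eq_zero (fun v _ => by rw [map_mul, constantCoeff_X, mul_zero]), zero_mul]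

lemma all (hDual : StDual) (hStep : StDegStep) (hK : IsFan K) : ∃ D, DegSys K 0 D := by
  have h : ∀ j : ℕ, j ≤ n → ∃ D, DegSys K (n - j) D := by
    intro j
    induction j with
    | zero => intro _; exact ⟨_, top hDual hK⟩
    | succ j ih =>
      intro hj
      refine hStep n K hK (n - (j + 1)) (by omega) ?_
      have := ih (by omega)
      rwa [show n - (j + 1) + 1 = n - j by omega]
  have := h n le_rfl
  rwa [Nat.sub_self] at this

lemma prod_rule (hK : IsFan K) {D : Finset (Vec n) → (MvPolynomial (Vec n) ℤ →ₗ[ℤ] ℤ)}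
    (hD : DegSys K 0 D) (s : Finset (Vec n)) :
    ∀ τ ∈ K, Disjoint τ s → ∀ f, D τ ((∏ v ∈ s, X v) * f) =
      if τ ∪ s ∈ K then D (τ ∪ s) f else 0 := by
  classical
  induction s using Finset.induction_on with
  | empty =>
    intro τ hτ _ f
    simp [hτ]
  | insert v s hv ih =>
    intro τ hτ hd f
    rw [Finset.disjoint_insert_right] at hd
    rw [Finset.prod_insert hv, mul_assoc, (hD τ hτ (Nat.zero_le _)).2.2.1 v hd.1]
    have hu : τ ∪ insert v s = insert v τ ∪ s := by
      rw [Finset.union_insert, Finset.insert_union]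
    by_cases h1 : insert v τ ∈ K
    · rw [if_pos h1, ih (insert v τ) h1 (Finset.disjoint_insert_left.2 ⟨hv, hd.2⟩) f, hu]
    · rw [if_neg h1, if_neg]
      intro h2
      apply h1
      refine hK.down _ h2 _ ?_
      rw [hu]
      exact Finset.subset_union_left

end Deg_aux

theorem tDeg : StDual → StDegStep → StDeg := by
  classical
  intro hDual hStep n K hK σ hσ hcard N hN
  obtain ⟨D, hD⟩ := Deg_aux.all hDual hStep hK
  have hE := hK.empty_mem
  have hgen : ∀ g ∈ relIdeal K, D ∅ g = 0 := by
    intro g hg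
    refine Submodule.span_induction (p := fun g _ => ∀ f, D ∅ (f * g) = 0) ?_ ?_ ?_ ?_ hg 1
      |> fun h => by simpa using h
    · rintro g (⟨s, hs, rfl⟩ | ⟨u, rfl⟩) f
      · rw [mul_comm, Deg_aux.prod_rule hK hD s ∅ hE (Finset.disjoint_empty_left _) f, if_neg]
        rwa [Finset.empty_union]
      · rw [mul_comm]
        exact (hD ∅ hE (Nat.zero_le _)).2.2.2 u f
    · intro f
      rw [mul_zero, map_zero]
    · intro x y _ _ hx hy f
      rw [mul_add, map_add, hx f, hy f, add_zero]
    · intro a x _ hx f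
      rw [smul_eq_mul, ← mul_assoc]
      exact hx (f * a)
  have h1 : N • (∏ v ∈ σ, (X v : MvPolynomial (Vec n) ℤ)) ∈ relIdeal K := by
    rw [← Ideal.Quotient.eq_zero_iff_mem, map_zsmul, mk_prod]
    exact hN
  have h2 := hgen _ h1
  rw [map_zsmul] at h2
  have h3 := Deg_aux.prod_rule hK hD σ ∅ hE (Finset.disjoint_empty_left _) 1
  rw [mul_one, Finset.empty_union, if_pos hσ, (hD σ hσ (Nat.zero_le _)).1 hcard] at h3
  rw [h3] at h2
  simpa using h2

end ToricPB
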