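import Pool.Agent.Lib.MP_3d51eb_gt.PB.Spec3

set_option autoImplicit false

/-!
# project PB: the degree functionals, downward step (`StDegStep`)
-/

noncomputable section

namespace ToricPB

open Finset MvPolynomial

namespace DegStep_aux

/-- a functional with given values on the multiples of the variables -/
private lemma exists_div {σ : Type} (E : σ → (MvPolynomial σ ℤ →ₗ[ℤ] ℤ))
    (hE : ∀ ρ ρ' f, E ρ (X ρ' * f) = E ρ' (X ρ * f)) :
    ∃ D : MvPolynomial σ ℤ →ₗ[ℤ] ℤ, D 1 = 0 ∧ ∀ ρ f, D (X ρ * f) = E ρ f := by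
  classical
  have hex : ∀ s : σ →₀ ℕ, s ≠ 0 → ∃ ρ, ρ ∈ s.support := fun s hs => by
    by_contra h
    push Not at h
    exact hs (Finsupp.support_eq_empty.1 (Finset.eq_empty_of_forall_notMem h))
  let g : (σ →₀ ℕ) → ℤ := fun s =>
    if h : s ≠ 0 then E (hex s h).choose (monomial (s - Finsupp.single (hex s h).choose 1) 1) else 0
  let D : MvPolynomial σ ℤ →ₗ[ℤ] ℤ := (basisMonomials σ ℤ).constr ℤ g
  have hDm : ∀ s, D (monomial s 1) = g s := by
    intro s
    have h := (basisMonomials σ ℤ).constr_basis ℤ g s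
    rwa [coe_basisMonomials] at h
  refine ⟨D, ?_, ?_⟩
  · have h1 : (1 : MvPolynomial σ ℤ) = monomial 0 1 := rfl
    rw [h1, hDm]
    show (if h : (0 : σ →₀ ℕ) ≠ 0 then _ else 0) = (0 : ℤ)
    rw [dif_neg (fun h => h rfl)]
  · intro ρ f
    have hm : ∀ s, D (X ρ * monomial s 1) = E ρ (monomial s 1) := by
      intro s
      have h1 : X ρ * monomial s (1 : ℤ) = monomial (s + Finsupp.single ρ 1) 1 := by
        rw [X, monomial_mul, one_mul, add_comm]
      have hs : s + Finsupp.single ρ 1 ≠ 0 := by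
        intro h
        have h2 := DFunLike.congr_fun h ρ
        rw [Finsupp.add_apply, Finsupp.single_eq_same, Finsupp.zero_apply] at h2
        omega
      have h2 : g (s + Finsupp.single ρ 1) = E (hex _ hs).choose
          (monomial (s + Finsupp.single ρ 1 - Finsupp.single (hex _ hs).choose 1) 1) := dif_pos hs
      rw [h1, hDm, h2]
      generalize hρ' : (hex _ hs).choose = ρ'
      have hmem : ρ' ∈ (s + Finsupp.single ρ 1).support := hρ' ▸ (hex _ hs).choose_spec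
      by_cases h : ρ' = ρ
      · rw [h, add_tsub_cancel_right]
      · have h3 : 1 ≤ s ρ' := by
          rw [Finsupp.mem_support_iff, Finsupp.add_apply, Finsupp.single_eq_of_ne h, add_zero] at hmem
          omega
        obtain ⟨t, rfl⟩ : ∃ t, s = t + Finsupp.single ρ' 1 :=
          ⟨s - Finsupp.single ρ' 1, (tsub_add_cancel_of_le (by
            intro x
            by_cases hx : x = ρ'
            · rw [hx, Finsupp.single_eq_same]
              exact h3
            · rw [Finsupp.single_eq_of_ne hx]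
              exact Nat.zero_le _)).symm⟩
        have h4 : t + Finsupp.single ρ' 1 + Finsupp.single ρ 1 - Finsupp.single ρ' 1 =
            t + Finsupp.single ρ 1 := by
          rw [add_right_comm, add_tsub_cancel_right]
        have h5 : ∀ x, monomial (t + Finsupp.single x 1) (1 : ℤ) = X x * monomial t 1 := by
          intro x
          rw [X, monomial_mul, one_mul, add_comm]
        rw [h4, h5, h5, hE]
    induction f using MvPolynomial.induction_on' with
    | monomial s a =>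
      have h1 : (monomial s a : MvPolynomial σ ℤ) = a • monomial s 1 := by
        rw [smul_monomial, smul_eq_mul, mul_one]
      rw [h1, mul_smul_comm, map_smul, map_smul, hm]
    | add p q hp hq =>
      rw [mul_add, map_add, map_add, hq, hp]

variable {n : ℕ}

open Classical in
/-- the functional of `insert v τ`, or `0` -/
private def Tv (K : Finset (Finset (Vec n))) (τ : Finset (Vec n))
    (D : Finset (Vec n) → (MvPolynomial (Vec n) ℤ →ₗ[ℤ] ℤ)) (v : Vec n) : MvPolynomial (Vec n) ℤ →ₗ[ℤ] ℤ :=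
  if insert v τ ∈ K then D (insert v τ) else 0

private lemma Tv_pos {K : Finset (Finset (Vec n))} {τ : Finset (Vec n)}
    {D : Finset (Vec n) → (MvPolynomial (Vec n) ℤ →ₗ[ℤ] ℤ)} {v : Vec n} (h : insert v τ ∈ K) :
    Tv K τ D v = D (insert v τ) := if_pos h

private lemma Tv_neg {K : Finset (Finset (Vec n))} {τ : Finset (Vec n)}
    {D : Finset (Vec n) → (MvPolynomial (Vec n) ℤ →ₗ[ℤ] ℤ)} {v : Vec n} (h : insert v τ ∉ K) :
    Tv K τ D v = 0 := if_neg h

/-- expansion of a linear form -/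
private lemma lin_exp (K : Finset (Finset (Vec n))) (T : MvPolynomial (Vec n) ℤ →ₗ[ℤ] ℤ) (w : Vec n)
    (f : MvPolynomial (Vec n) ℤ) :
    T ((∑ v ∈ verts K, C (pr w v) * X v) * f) = ∑ v ∈ verts K, pr w v * T (X v * f) := by
  rw [Finset.sum_mul, map_sum]
  refine Finset.sum_congr rfl fun v _ => ?_
  rw [mul_assoc, C_mul', map_smul, smul_eq_mul]

section

variable {K : Finset (Finset (Vec n))} {m : ℕ} {τ : Finset (Vec n)}
  {D : Finset (Vec n) → (MvPolynomial (Vec n) ℤ →ₗ[ℤ] ℤ)}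

private lemma TT (hK : IsFan K) (hD : DegSys K (m + 1) D) (hτ : τ.card = m) {ρ ρ' : Vec n} (h1 : ρ ∉ τ)
    (h2 : ρ' ∉ τ) (h3 : ρ ≠ ρ') (f : MvPolynomial (Vec n) ℤ) :
    Tv K τ D ρ (X ρ' * f) = if insert ρ' (insert ρ τ) ∈ K then D (insert ρ' (insert ρ τ)) f else 0 := by
  by_cases h : insert ρ τ ∈ K
  · rw [Tv_pos h]
    refine (hD _ h ?_).2.2.1 ρ' ?_ f
    · rw [Finset.card_insert_of_notMem h1, hτ]
    · rw [Finset.mem_insert, not_or]
      exact ⟨h3.symm, h2⟩
  · rw [Tv_neg h, if_neg fun h' => h (hK.down _ h' _ (Finset.subset_insert _ _))]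
    rfl

private lemma TTs (hK : IsFan K) (hD : DegSys K (m + 1) D) (hτ : τ.card = m) {ρ ρ' : Vec n} (h1 : ρ ∉ τ)
    (h2 : ρ' ∉ τ) (f : MvPolynomial (Vec n) ℤ) : Tv K τ D ρ (X ρ' * f) = Tv K τ D ρ' (X ρ * f) := by
  by_cases h : ρ = ρ'
  · rw [h]
  · rw [TT hK hD hτ h1 h2 h, TT hK hD hτ h2 h1 (Ne.symm h), Finset.insert_comm]

private lemma ZZ (hD : DegSys K (m + 1) D) (hτ : τ.card = m) {ρ : Vec n} (h1 : ρ ∉ τ) (w : Vec n)
    (f : MvPolynomial (Vec n) ℤ) : Tv K τ D ρ ((∑ v ∈ verts K, C (pr w v) * X v) * f) = 0 := by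
  by_cases h : insert ρ τ ∈ K
  · rw [Tv_pos h]
    refine (hD _ h ?_).2.2.2 w f
    rw [Finset.card_insert_of_notMem h1, hτ]
  · rw [Tv_neg h]
    rfl

end

/-- the new functional for one cone -/
private lemma step (hS : StDual) (hW : StWall) (K : Finset (Finset (Vec n))) (hK : IsFan K) (m : ℕ) (hm : m < n)
    (D : Finset (Vec n) → (MvPolynomial (Vec n) ℤ →ₗ[ℤ] ℤ)) (hD : DegSys K (m + 1) D) (τ : Finset (Vec n))
    (hτK : τ ∈ K) (hτ : τ.card = m) :
    ∃ D' : MvPolynomial (Vec n) ℤ →ₗ[ℤ] ℤ, D' 1 = 0 ∧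
      (∀ ρ, ρ ∉ τ → ∀ f, D' (X ρ * f) = if insert ρ τ ∈ K then D (insert ρ τ) f else 0) ∧
      ∀ (w : Vec n) (f : MvPolynomial (Vec n) ℤ), D' ((∑ v ∈ verts K, C (pr w v) * X v) * f) = 0 := by
  classical
  obtain ⟨-, hdual, -, -⟩ := hS n τ (hK.smooth τ hτK)
  choose! u hu using hdual
  have hτv : ∀ v ∈ τ, v ∈ verts K := fun v hv => mem_verts_of_mem hτK hv
  have hsplit : ∀ g : Vec n → ℤ, ∑ v ∈ verts K, g v = ∑ v ∈ τ, g v + ∑ v ∈ verts K \ τ, g v := by
    intro g
    rw [add_comm]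
    exact (Finset.sum_sdiff hτv).symm
  have hpu : ∀ ρ ∈ τ, ∀ g : Vec n → ℤ, ∑ v ∈ τ, pr (u ρ) v * g v = g ρ := by
    intro ρ hρ g
    rw [Finset.sum_eq_single ρ]
    · rw [(hu ρ hρ).1, one_mul]
    · intro v hv hne
      rw [(hu ρ hρ).2 v hv hne, zero_mul]
    · exact fun h => absurd hρ h
  let T : Vec n → (MvPolynomial (Vec n) ℤ →ₗ[ℤ] ℤ) := Tv K τ D
  let E : Vec n → (MvPolynomial (Vec n) ℤ →ₗ[ℤ] ℤ) := fun ρ =>
    if ρ ∈ τ then -∑ v ∈ verts K \ τ, pr (u ρ) v • T v else T ρ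
  have hE1 : ∀ ρ ∈ τ, ∀ f, E ρ f = -∑ v ∈ verts K \ τ, pr (u ρ) v * T v f := by
    intro ρ hρ f
    show (if ρ ∈ τ then -∑ v ∈ verts K \ τ, pr (u ρ) v • T v else T ρ) f = _
    rw [if_pos hρ, LinearMap.neg_apply, LinearMap.sum_apply]
    rfl
  have hE2 : ∀ ρ, ρ ∉ τ → ∀ f, E ρ f = T ρ f := by
    intro ρ hρ f
    show (if ρ ∈ τ then -∑ v ∈ verts K \ τ, pr (u ρ) v • T v else T ρ) f = _
    rw [if_neg hρ]
  -- the claim
  have hb : ∀ ρ, ρ ∉ τ → ∀ ρ' ∈ τ, ∀ f, E ρ (X ρ' * f) = E ρ' (X ρ * f) := by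
    intro ρ hρ ρ' hρ' f
    have h1 := ZZ hD hτ hρ (u ρ') f
    rw [lin_exp, hsplit, hpu ρ' hρ' fun v => Tv K τ D ρ (X v * f)] at h1
    rw [hE2 ρ hρ, hE1 ρ' hρ', eq_neg_iff_add_eq_zero, ← h1]
    congr 1
    refine Finset.sum_congr rfl fun v hv => ?_
    rw [TTs hK hD hτ hρ (Finset.mem_sdiff.1 hv).2]
  have hc : ∀ ρ ∈ τ, ∀ ρ' ∈ τ, ∀ f, E ρ (X ρ' * f) =
      ∑ v ∈ verts K \ τ, ∑ x ∈ verts K \ τ, pr (u ρ) v * (pr (u ρ') x * T x (X v * f)) := by
    intro ρ hρ ρ' hρ' f
    rw [hE1 ρ hρ, ← Finset.sum_neg_distrib]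
    refine Finset.sum_congr rfl fun v hv => ?_
    have hv' := (Finset.mem_sdiff.1 hv).2
    rw [← hE2 v hv', hb v hv' ρ' hρ', hE1 ρ' hρ', mul_neg, neg_neg, Finset.mul_sum]
  have hE : ∀ ρ ρ' f, E ρ (X ρ' * f) = E ρ' (X ρ * f) := by
    intro ρ ρ' f
    by_cases hρ : ρ ∈ τ
    · by_cases hρ' : ρ' ∈ τ
      · rw [hc ρ hρ ρ' hρ', hc ρ' hρ' ρ hρ, Finset.sum_comm]
        refine Finset.sum_congr rfl fun x hx => Finset.sum_congr rfl fun v hv => ?_
        have h1 : T x (X v * f) = T v (X x * f) :=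
          TTs hK hD hτ (Finset.mem_sdiff.1 hx).2 (Finset.mem_sdiff.1 hv).2 f
        rw [h1]
        ring
      · exact (hb ρ' hρ' ρ hρ f).symm
    · by_cases hρ' : ρ' ∈ τ
      · exact hb ρ hρ ρ' hρ' f
      · rw [hE2 ρ hρ, hE2 ρ' hρ']
        exact TTs hK hD hτ hρ hρ' f
  obtain ⟨D', hD1, hDX⟩ := exists_div E hE
  have hEl : ∀ ρ w f, E ρ ((∑ v ∈ verts K, C (pr w v) * X v) * f) = 0 := by
    intro ρ w f
    by_cases hρ : ρ ∈ τ
    · rw [hE1 ρ hρ, neg_eq_zero]
      refine Finset.sum_eq_zero fun v hv => ?_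
      have h1 : T v ((∑ v ∈ verts K, C (pr w v) * X v) * f) = 0 := ZZ hD hτ (Finset.mem_sdiff.1 hv).2 w f
      rw [h1, mul_zero]
    · rw [hE2 ρ hρ]
      exact ZZ hD hτ hρ w f
  -- the value on a linear form
  have hlin : ∀ w, D' (∑ v ∈ verts K, C (pr w v) * X v) = 0 := by
    intro w
    have h1 := lin_exp K D' w 1
    rw [mul_one] at h1
    rw [h1]
    simp only [hDX]
    have hcard : ∀ v, v ∉ τ → (insert v τ).card = m + 1 := fun v hv => by
      rw [Finset.card_insert_of_notMem hv, hτ]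
    rcases Nat.lt_or_ge (m + 1) n with hlt | hge
    · have hT : ∀ v, v ∉ τ → T v 1 = 0 := by
        intro v hv
        by_cases h : insert v τ ∈ K
        · show Tv K τ D v 1 = 0
          rw [Tv_pos h]
          exact (hD _ h (hcard v hv).ge).2.1 (by rw [hcard v hv]; exact hlt)
        · show Tv K τ D v 1 = 0
          rw [Tv_neg h]
          rfl
      refine Finset.sum_eq_zero fun v _ => ?_
      by_cases hv : v ∈ τ
      · rw [hE1 v hv, Finset.sum_eq_zero fun x hx => by rw [hT x (Finset.mem_sdiff.1 hx).2, mul_zero], neg_zero,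
          mul_zero]
      · rw [hE2 v hv, hT v hv, mul_zero]
    · have hmn : m + 1 = n := by omega
      obtain ⟨p, q, b, -, -, hp, hq, hpq, hpK, hqK, huniq, hrel⟩ := hW n K hK τ hτK (by rw [hτ]; exact hmn)
      have hT1 : ∀ v, v ∉ τ → insert v τ ∈ K → T v 1 = 1 := by
        intro v hv h
        show Tv K τ D v 1 = 1
        rw [Tv_pos h]
        exact (hD _ h (hcard v hv).ge).1 (by rw [hcard v hv]; exact hmn)
      have hT0 : ∀ v, v ∉ τ → v ≠ p → v ≠ q → T v 1 = 0 := by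
        intro v hv h1 h2
        show Tv K τ D v 1 = 0
        rw [Tv_neg fun h => by
          rcases huniq v hv h with h3 | h3
          · exact h1 h3
          · exact h2 h3]
        rfl
      have hsum : ∀ g : Vec n → ℤ, ∑ v ∈ verts K \ τ, g v * T v 1 = g p + g q := by
        intro g
        have hpm : p ∈ verts K \ τ := Finset.mem_sdiff.2 ⟨mem_verts_of_mem hpK (Finset.mem_insert_self _ _), hp⟩
        have hqm : q ∈ verts K \ τ := Finset.mem_sdiff.2 ⟨mem_verts_of_mem hqK (Finset.mem_insert_self _ _), hq⟩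
        have hsub : ({p, q} : Finset (Vec n)) ⊆ verts K \ τ := by
          intro x hx
          rcases Finset.mem_insert.1 hx with h | h
          · rw [h]
            exact hpm
          · rw [Finset.mem_singleton.1 h]
            exact hqm
        rw [← Finset.sum_subset hsub, Finset.sum_pair hpq, hT1 p hp hpK, hT1 q hq hqK, mul_one, mul_one]
        intro x hx hx2
        rw [Finset.mem_insert, Finset.mem_singleton, not_or] at hx2
        rw [hT0 x (Finset.mem_sdiff.1 hx).2 hx2.1 hx2.2, mul_zero]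
      rw [hsplit]
      have h2 : ∑ v ∈ verts K \ τ, pr w v * E v 1 = pr w p + pr w q := by
        rw [← hsum (pr w)]
        exact Finset.sum_congr rfl fun v hv => by rw [hE2 v (Finset.mem_sdiff.1 hv).2]
      have h3 : ∑ v ∈ τ, pr w v * E v 1 = ∑ v ∈ τ, b v * pr w v := by
        refine Finset.sum_congr rfl fun v hv => ?_
        have h4 := congrArg (pr (u v)) hrel
        rw [pr_add, pr_add, pr_sum, pr_zero] at h4
        have h5 : ∑ x ∈ τ, pr (u v) (b x • x) = b v := by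
          have h6 := hpu v hv b
          rw [← h6]
          exact Finset.sum_congr rfl fun x _ => by rw [pr_smul, mul_comm]
        rw [h5] at h4
        rw [hE1 v hv, hsum (pr (u v))]
        have h7 : -(pr (u v) p + pr (u v) q) = b v := by linarith
        rw [h7, mul_comm]
      have h8 := congrArg (pr w) hrel
      rw [pr_add, pr_add, pr_sum, pr_zero] at h8
      have h9 : ∑ x ∈ τ, pr w (b x • x) = ∑ x ∈ τ, b x * pr w x :=
        Finset.sum_congr rfl fun x _ => pr_smul _ _ _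
      rw [h2, h3, ← h9]
      linarith
  refine ⟨D', hD1, ?_, ?_⟩
  · intro ρ hρ f
    rw [hDX, hE2 ρ hρ]
    show Tv K τ D ρ f = _
    by_cases h : insert ρ τ ∈ K
    · rw [Tv_pos h, if_pos h]
    · rw [Tv_neg h, if_neg h]
      rfl
  · intro w f
    induction f using MvPolynomial.induction_on with
    | C a =>
      rw [mul_comm, C_mul', map_smul, hlin, smul_zero]
    | add p q hp hq => rw [mul_add, map_add, hp, hq, add_zero]
    | mul_X p x _ =>
      rw [← mul_assoc, mul_comm, hDX, hEl]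

end DegStep_aux

open DegStep_aux in
theorem tDegStep : StDual → StWall → StDegStep := by
  classical
  intro hS hW n K hK m hm ⟨D, hD⟩
  choose! D1 hD1 using fun τ (h : τ ∈ K ∧ τ.card = m) => step hS hW K hK m hm D hD τ h.1 h.2
  let D' : Finset (Vec n) → (MvPolynomial (Vec n) ℤ →ₗ[ℤ] ℤ) := fun τ => if τ.card = m then D1 τ else D τ
  have e1 : ∀ τ : Finset (Vec n), τ.card = m → D' τ = D1 τ := fun τ h => if_pos h
  have e2 : ∀ τ : Finset (Vec n), τ.card ≠ m → D' τ = D τ := fun τ h => if_neg h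
  refine ⟨D', fun τ hτ hc => ?_⟩
  have e3 : ∀ ρ, ρ ∉ τ → D' (insert ρ τ) = D (insert ρ τ) := fun ρ hρ => e2 _ (by
    rw [Finset.card_insert_of_notMem hρ]
    omega)
  by_cases h : τ.card = m
  · obtain ⟨a1, a2, a3⟩ := hD1 τ ⟨hτ, h⟩
    rw [e1 τ h]
    refine ⟨fun hn => ?_, fun _ => a1, fun ρ hρ f => ?_, a3⟩
    · exact absurd (hn.symm.trans h) hm.ne'
    · rw [e3 ρ hρ]
      exact a2 ρ hρ f
  · obtain ⟨a1, a2, a3, a4⟩ := hD τ hτ (by omega)
    rw [e2 τ h]
    refine ⟨a1, a2, fun ρ hρ f => ?_, a4⟩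
    rw [e3 ρ hρ]
    exact a3 ρ hρ f

end ToricPB
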