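import Pool.Agent.Lib.MP_3d51eb_gt.PB.Spec2

set_option autoImplicit false

/-!
# project PB: blow-down of a fan
-/

noncomputable section

namespace ToricPB

open Finset MvPolynomial

namespace Down_aux

variable {n : ℕ} {S : Finset (Vec n)} {v0 : Vec n}

theorem one_eq (hv0 : v0 = ∑ v ∈ S, v) : lin S (fun _ => (1 : ℝ)) = toR v0 := by
  have h := lin_int S (fun _ => (1 : ℤ))
  simp only [Int.cast_one, one_smul] at h
  rw [h, ← hv0]

theorem const_eq (hv0 : v0 = ∑ v ∈ S, v) (m : ℝ) : lin S (fun _ => m) = m • toR v0 := by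
  have h := lin_smul S m (fun _ => (1 : ℝ))
  simp only [mul_one] at h
  rw [h, one_eq hv0]

theorem key1 (hne : S.Nonempty) (hv0 : v0 = ∑ v ∈ S, v) (hv0S : v0 ∉ S) {t : Vec n → ℝ}
    (ht : ∀ v ∈ S, 0 < t v) : ∃ s, s ⊆ S ∧ s ≠ S ∧ InRel (insert v0 s) (lin S t) := by
  classical
  obtain ⟨v1, hv1, hm⟩ := S.exists_min_image t hne
  refine ⟨S.filter (fun v => t v1 < t v), Finset.filter_subset _ _, fun h => ?_,
    fun w => if w = v0 then t v1 else t w - t v1, fun w hw => ?_, ?_⟩
  · rw [← h, Finset.mem_filter] at hv1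
    exact lt_irrefl _ hv1.2
  · by_cases hw0 : w = v0
    · simp only [hw0, if_true]
      exact ht v1 hv1
    · simp only [hw0, if_false]
      rcases Finset.mem_insert.1 hw with h | h
      · exact absurd h hw0
      · exact sub_pos.2 (Finset.mem_filter.1 h).2
  · have hns : v0 ∉ S.filter (fun v => t v1 < t v) := fun h => hv0S (Finset.mem_filter.1 h).1
    rw [lin_insert hns]
    have h1 : lin (S.filter (fun v => t v1 < t v)) (fun w => if w = v0 then t v1 else t w - t v1) =
        lin (S.filter (fun v => t v1 < t v)) (fun w => t w - t v1) :=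
      lin_congr fun w hw => by
        have : w ≠ v0 := fun h => hns (h ▸ hw)
        simp only [this, if_false]
    have h2 : lin S (fun w => t w - t v1) =
        lin (S.filter (fun v => t v1 < t v)) (fun w => t w - t v1) := by
      refine lin_subset (Finset.filter_subset _ _) _ fun v hv hns => ?_
      have h3 : ¬ t v1 < t v := fun h => hns (Finset.mem_filter.2 ⟨hv, h⟩)
      have h4 := hm v hv
      linarith [not_lt.1 h3]
    rw [h1, ← h2, lin_sub, const_eq hv0]
    simp only [if_true]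
    rw [add_sub_cancel]

theorem key2 (hv0 : v0 = ∑ v ∈ S, v) (hv0S : v0 ∉ S) {s : Finset (Vec n)} (hs : s ⊆ S)
    {x : Fin n → ℝ} (h : InRel (insert v0 s) x) : InRel S x := by
  classical
  obtain ⟨c, hc, rfl⟩ := h
  have h0 : v0 ∉ s := fun h => hv0S (hs h)
  have hc0 : 0 < c v0 := hc v0 (Finset.mem_insert_self _ _)
  refine ⟨fun v => c v0 + (if v ∈ s then c v else 0), fun v _ => ?_, ?_⟩
  · by_cases hv : v ∈ s
    · simp only [hv, if_true]
      exact add_pos hc0 (hc v (Finset.mem_insert_of_mem hv))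
    · simp only [hv, if_false, add_zero]
      exact hc0
  · rw [lin_add, const_eq hv0, lin_insert h0]
    have h1 : lin S (fun v => if v ∈ s then c v else 0) = lin s (fun v => if v ∈ s then c v else 0) :=
      lin_subset hs _ fun v _ hv => by simp only [hv, if_false]
    rw [h1]
    congr 1
    exact lin_congr fun v hv => by simp only [hv, if_true]

theorem small (_hne : S.Nonempty) (d : Vec n → ℝ) : ∃ δ : ℝ, 0 < δ ∧ ∀ v ∈ S, 0 < 1 + δ * d v := by
  have h0 : 0 ≤ ∑ v ∈ S, |d v| := Finset.sum_nonneg fun _ _ => abs_nonneg _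
  refine ⟨1 / (1 + ∑ v ∈ S, |d v|), by positivity, fun v hv => ?_⟩
  have h1 : |d v| ≤ ∑ v ∈ S, |d v| := Finset.single_le_sum (f := fun v => |d v|)
    (fun _ _ => abs_nonneg _) hv
  have h2 : -|d v| ≤ d v := neg_abs_le _
  have h3 : 0 < 1 + ∑ v ∈ S, |d v| := by linarith
  have h4 : 1 + 1 / (1 + ∑ v ∈ S, |d v|) * d v =
      (1 + ∑ v ∈ S, |d v| + d v) / (1 + ∑ v ∈ S, |d v|) := by
    field_simp
  rw [h4]
  exact div_pos (by linarith) h3

end Down_aux

open Down_aux

theorem tDown : StDual → StUq → StDown := by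
  classical
  intro hDual _ n K S v0 hK hn hBD
  obtain ⟨hSc, hSu, hv0, hv0K, hv0S, hsub, hins⟩ := hBD
  obtain ⟨-, -, -, hspan⟩ := hDual n S hSu
  obtain ⟨-, hspan⟩ := hspan hSc
  have hne : S.Nonempty := Finset.card_pos.1 (by omega)
  have hv0s : ({v0} : Finset (Vec n)) ∈ K := hK.single hv0K
  -- (3)
  have h3 : ∀ s ⊆ S, s ≠ S → insert v0 s ∈ K := by
    intro s hs hne'
    obtain ⟨l, hl, hls⟩ := Finset.exists_of_ssubset (Finset.ssubset_iff_subset_ne.2 ⟨hs, hne'⟩)
    refine hK.down _ (hins l hl) _ (Finset.insert_subset_insert _ fun v hv => ?_)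
    exact Finset.mem_erase.2 ⟨fun h => hls (h ▸ hv), hs hv⟩
  -- (1)
  have h1 : S ∉ K := by
    intro hS
    have h4 : InRel S (toR v0) := by
      rw [← one_eq hv0]
      exact InRel.one S
    have h5 := hK.uniq hS hv0s h4 (InRel.singleton v0)
    exact hv0S (h5 ▸ Finset.mem_singleton_self v0)
  -- (2)
  have h2 : ∀ F ∈ K, v0 ∈ F → ∃ s, s ⊆ S ∧ s ≠ S ∧ F = insert v0 s := by
    intro F hF hv
    obtain ⟨d, hd⟩ := hspan (lin (F.erase v0) (fun _ => (1 : ℝ)))
    obtain ⟨δ, hδ, hδ1⟩ := small hne d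
    obtain ⟨s, hs, hs1, hs2⟩ := key1 hne hv0 hv0S (t := fun v => 1 + δ * d v) hδ1
    refine ⟨s, hs, hs1, ?_⟩
    refine hK.uniq hF (h3 s hs hs1) ?_ hs2
    refine ⟨fun w => if w = v0 then 1 else δ, fun w _ => ?_, ?_⟩
    · by_cases hw : w = v0
      · simp only [hw, if_true]
        exact one_pos
      · simp only [hw, if_false]
        exact hδ
    · have h4 : lin F (fun w => if w = v0 then (1 : ℝ) else δ) =
          toR v0 + lin (F.erase v0) (fun w => if w = v0 then (1 : ℝ) else δ) := by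
        have h5 := lin_insert (Finset.notMem_erase v0 F) (fun w => if w = v0 then (1 : ℝ) else δ)
        rw [Finset.insert_erase hv] at h5
        rw [h5]
        simp
      have h6 : lin (F.erase v0) (fun w => if w = v0 then (1 : ℝ) else δ) =
          lin (F.erase v0) (fun _ => δ * (1 : ℝ)) := by
        refine lin_congr fun w hw => ?_
        simp only [(Finset.mem_erase.1 hw).1, if_false, mul_one]
      rw [h4, h6, lin_smul, hd, lin_add, lin_smul, one_eq hv0]
  have hmem : ∀ t, t ∈ down K S v0 ↔ t = S ∨ (t ∈ K ∧ v0 ∉ t) := by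
    intro t
    unfold down
    rw [Finset.mem_insert, Finset.mem_filter]
  -- (4)
  have h4 : IsFan (down K S v0) := by
    refine ⟨?_, ?_, ?_⟩
    · intro s hs t hts
      rw [hmem] at hs ⊢
      rcases hs with rfl | ⟨hs, hvs⟩
      · by_cases ht : t = s
        · exact Or.inl ht
        · exact Or.inr ⟨hsub t hts ht, fun h => hv0S (hts h)⟩
      · exact Or.inr ⟨hK.down s hs t hts, fun h => hvs (hts h)⟩
    · intro s hs
      rcases (hmem s).1 hs with rfl | ⟨hs, -⟩
      · exact hSu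
      · exact hK.smooth s hs
    · intro x
      obtain ⟨s, ⟨hs, hx⟩, -⟩ := hK.cover x
      by_cases hvs : v0 ∈ s
      · obtain ⟨s', hs', -, rfl⟩ := h2 s hs hvs
        refine ⟨S, ⟨(hmem S).2 (Or.inl rfl), key2 hv0 hv0S hs' hx⟩, ?_⟩
        rintro t ⟨ht, htx⟩
        rcases (hmem t).1 ht with h | ⟨ht1, ht2⟩
        · exact h
        · exact absurd (hK.uniq ht1 hs htx hx ▸ hvs) ht2
      · refine ⟨s, ⟨(hmem s).2 (Or.inr ⟨hs, hvs⟩), hx⟩, ?_⟩
        rintro t ⟨ht, htx⟩
        rcases (hmem t).1 ht with rfl | ⟨ht1, ht2⟩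
        · obtain ⟨c, hc, rfl⟩ := htx
          obtain ⟨s', hs', hs1, hs2⟩ := key1 hne hv0 hv0S hc
          have h5 := hK.uniq hs (h3 s' hs' hs1) hx hs2
          exact absurd (h5 ▸ Finset.mem_insert_self v0 s') hvs
        · exact hK.uniq ht1 hs htx hx
  have hSd : S ∈ down K S v0 := (hmem S).2 (Or.inl rfl)
  refine ⟨h1, h2, h3, h4, ?_, ?_, ?_, fun v hv => mem_verts_of_mem hSd hv⟩
  · ext t
    unfold blow
    rw [Finset.mem_union, Finset.mem_filter, hmem, Finset.mem_image, ← hv0]
    constructor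
    · intro ht
      by_cases hvt : v0 ∈ t
      · obtain ⟨s, hs, hs1, rfl⟩ := h2 t ht hvt
        exact Or.inr ⟨s, Finset.mem_erase.2 ⟨hs1, Finset.mem_powerset.2 hs⟩, rfl⟩
      · exact Or.inl ⟨Or.inr ⟨ht, hvt⟩, fun h => h1 (hK.down t ht S h)⟩
    · rintro (⟨rfl | ⟨ht, -⟩, h⟩ | ⟨a, ha, rfl⟩)
      · exact absurd (Finset.Subset.refl _) h
      · exact ht
      · obtain ⟨ha1, ha2⟩ := Finset.mem_erase.1 ha
        exact h3 a (Finset.mem_powerset.1 ha2) ha1
  · ext v
    rw [Finset.mem_insert]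
    constructor
    · intro hv
      by_cases hvv : v = v0
      · exact Or.inl hvv
      · refine Or.inr (mem_verts_of_single ((hmem _).2 (Or.inr ⟨hK.single hv, fun h => ?_⟩)))
        exact hvv (Finset.mem_singleton.1 h).symm
    · rintro (rfl | hv)
      · exact hv0K
      · obtain ⟨s, hs, hvs⟩ := mem_verts.1 hv
        rcases (hmem s).1 hs with rfl | ⟨hs, -⟩
        · refine mem_verts_of_single (hsub {v} (Finset.singleton_subset_iff.2 hvs) fun h => ?_)
          rw [← h, Finset.card_singleton] at hSc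
          omega
        · exact mem_verts_of_mem hs hvs
  · intro h
    obtain ⟨s, hs, hvs⟩ := mem_verts.1 h
    rcases (hmem s).1 hs with rfl | ⟨-, h5⟩
    · exact hv0S hvs
    · exact h5 hvs

end ToricPB
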