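import Pool.Agent.Lib.MP_3d51eb_gt.PB.Spec

set_option autoImplicit false

/-!
# MP_3d51eb_gt, project PB: generic vectors avoid finitely many proper subspaces
-/

noncomputable section

namespace ToricPB

open Finset MvPolynomial

/-- The real span of the vectors of `s`. -/
private def Ls {n : ℕ} (s : Finset (Vec n)) : Submodule ℝ (Fin n → ℝ) where
  carrier := {x | ∃ c : Vec n → ℝ, x = lin s c}
  zero_mem' := ⟨fun _ => 0, (lin_zero s).symm⟩
  add_mem' := by
    rintro _ _ ⟨c, rfl⟩ ⟨d, rfl⟩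
    exact ⟨_, (lin_add s c d).symm⟩
  smul_mem' := by
    rintro a _ ⟨c, rfl⟩
    exact ⟨_, (lin_smul s a c).symm⟩

private theorem mem_Ls {n : ℕ} {s : Finset (Vec n)} {x : Fin n → ℝ} :
    x ∈ Ls s ↔ ∃ c : Vec n → ℝ, x = lin s c := Iff.rfl

private theorem Ls_ne {n : ℕ} {s : Finset (Vec n)} (h : s.card < n) : Ls s ≠ ⊤ := by
  classical
  intro ht
  have h1 : Submodule.span ℝ ((s.image toR : Finset (Fin n → ℝ)) : Set (Fin n → ℝ)) = ⊤ := by
    rw [eq_top_iff, ← ht]
    rintro _ ⟨c, rfl⟩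
    refine Submodule.sum_mem _ (fun v hv => Submodule.smul_mem _ _ (Submodule.subset_span ?_))
    exact Finset.mem_coe.2 (Finset.mem_image_of_mem toR hv)
  have h2 := finrank_span_finset_le_card (R := ℝ) (s.image toR)
  rw [Set.finrank, h1, finrank_top, Module.finrank_fin_fun] at h2
  have h3 : (s.image toR).card ≤ s.card := Finset.card_image_le
  omega

/-- The vectors orthogonal to `τ`. -/
private def Ws {n : ℕ} (τ : Finset (Vec n)) : Submodule ℝ (Fin n → ℝ) where
  carrier := {w | ∀ v ∈ τ, dot w (toR v) = 0}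
  zero_mem' := fun v _ => dot_zero_left _
  add_mem' := by
    intro a b ha hb v hv
    rw [dot_add_left, ha v hv, hb v hv, add_zero]
  smul_mem' := by
    intro c a ha v hv
    rw [dot_smul_left, ha v hv, mul_zero]

/-- The elements of `Ws τ` orthogonal to `z`. -/
private def Wz {n : ℕ} (τ : Finset (Vec n)) (z : Fin n → ℝ) : Submodule ℝ (Ws τ) where
  carrier := {w | dot (w : Fin n → ℝ) z = 0}
  zero_mem' := dot_zero_left _
  add_mem' := by
    intro a b ha hb
    show dot ((a : Fin n → ℝ) + (b : Fin n → ℝ)) z = 0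
    rw [dot_add_left]
    have ha' : dot (a : Fin n → ℝ) z = 0 := ha
    have hb' : dot (b : Fin n → ℝ) z = 0 := hb
    rw [ha', hb', add_zero]
  smul_mem' := by
    intro c a ha
    show dot (c • (a : Fin n → ℝ)) z = 0
    have ha' : dot (a : Fin n → ℝ) z = 0 := ha
    rw [dot_smul_left, ha', mul_zero]

private theorem Wz_ne {n : ℕ} {τ : Finset (Vec n)} {z : Fin n → ℝ}
    (hz : ∀ c : Vec n → ℝ, z ≠ lin τ c) : Wz τ z ≠ ⊤ := by
  have h0 : z ∉ Ls τ := by
    rintro ⟨c, hc⟩
    exact hz c hc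
  obtain ⟨f, hf, hf'⟩ := Submodule.exists_le_ker_of_notMem h0
  have hdot : ∀ x : Fin n → ℝ, dot (fun i => f (Pi.single i 1)) x = f x := by
    intro x
    rw [LinearMap.pi_apply_eq_sum_univ f x]
    refine Finset.sum_congr rfl (fun i _ => ?_)
    have e : (Pi.single i 1 : Fin n → ℝ) = fun j => if i = j then 1 else 0 := by
      funext j
      rw [Pi.single_apply]
      simp [eq_comm]
    show f (Pi.single i 1) * x i = x i • f (fun j => if i = j then 1 else 0)
    rw [e, smul_eq_mul, mul_comm]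
  intro ht
  have hw : (fun i => f (Pi.single i 1) : Fin n → ℝ) ∈ Ws τ := by
    intro v hv
    rw [hdot]
    exact LinearMap.mem_ker.1 (hf' ⟨_, (lin_single hv).symm⟩)
  have h1 : (⟨_, hw⟩ : Ws τ) ∈ Wz τ z := by
    rw [ht]
    exact Submodule.mem_top
  have h2 : dot (fun i => f (Pi.single i 1)) z = 0 := h1
  rw [hdot] at h2
  exact hf h2

theorem tGen : StGen := by
  classical
  intro n
  constructor
  · intro 𝒮 h𝒮
    have h1 : (⊤ : Submodule ℝ (Fin n → ℝ)) ∉ 𝒮.image Ls := by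
      intro h
      obtain ⟨s, hs, hs'⟩ := Finset.mem_image.1 h
      exact Ls_ne (h𝒮 s hs) hs'
    have h2 := Subspace.biUnion_ne_univ_of_top_notMem h1
    obtain ⟨y, hy⟩ := (Set.ne_univ_iff_exists_notMem _).1 h2
    refine ⟨y, fun s hs c hc => hy ?_⟩
    exact Set.mem_biUnion (Finset.mem_coe.2 (Finset.mem_image_of_mem Ls hs)) ⟨c, hc⟩
  · intro τ Z hZ
    have h1 : (⊤ : Submodule ℝ (Ws τ)) ∉ Z.image (Wz τ) := by
      intro h
      obtain ⟨z, hz, hz'⟩ := Finset.mem_image.1 h
      exact Wz_ne (hZ z hz) hz'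
    have h2 := Subspace.biUnion_ne_univ_of_top_notMem h1
    obtain ⟨w, hw⟩ := (Set.ne_univ_iff_exists_notMem _).1 h2
    refine ⟨w, w.2, fun z hz h0 => hw ?_⟩
    exact Set.mem_biUnion (Finset.mem_coe.2 (Finset.mem_image_of_mem (Wz τ) hz)) h0

end ToricPB
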