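import Pool.Agent.Lib.MP_3d51eb_gt.PB.Spec2

set_option autoImplicit false

/-!
# MP_3d51eb_gt, project PB: the inside of a unimodular cone
-/

noncomputable section

namespace ToricPB

open Finset MvPolynomial

namespace Inside_aux

variable {n : ℕ}

/-- the first point where one of the coordinates vanishes -/
lemma touch {B : Finset (Vec n)} {d c : Vec n → ℝ} (hd : ∀ v ∈ B, 0 < d v)
    (hc : ∃ v ∈ B, c v < 0) :
    ∃ t : ℝ, 0 < t ∧ (∀ v ∈ B, 0 ≤ d v + t * c v) ∧ ∃ v ∈ B, d v + t * c v = 0 := by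
  classical
  obtain ⟨v0, hv0, hcv0⟩ := hc
  have hne : (B.filter (fun v => c v < 0)).Nonempty := ⟨v0, mem_filter.2 ⟨hv0, hcv0⟩⟩
  obtain ⟨w, hw, hmin⟩ := Finset.exists_min_image (B.filter (fun v => c v < 0))
    (fun v => d v / (-c v)) hne
  rw [mem_filter] at hw
  have hcw : 0 < -c w := by linarith [hw.2]
  refine ⟨d w / (-c w), div_pos (hd w hw.1) hcw, fun v hv => ?_, w, hw.1, ?_⟩
  · by_cases hcv : c v < 0
    · have h1 := hmin v (mem_filter.2 ⟨hv, hcv⟩)
      have h2 : 0 < -c v := by linarith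
      have h3 : d w / (-c w) * (-c v) ≤ d v / (-c v) * (-c v) :=
        mul_le_mul_of_nonneg_right h1 h2.le
      rw [div_mul_cancel₀ _ h2.ne'] at h3
      linarith
    · have h1 : 0 ≤ c v := not_lt.1 hcv
      have h2 := mul_nonneg (div_pos (hd w hw.1) hcw).le h1
      linarith [hd v hv]
  · have : d w / (-c w) * (-c w) = d w := div_mul_cancel₀ _ hcw.ne'
    linarith

/-- a point on the boundary of the cone of `B` is in a proper face -/
lemma bdry {K : Finset (Finset (Vec n))} {B : Finset (Vec n)}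
    (hB : ∀ s ⊆ B, s ≠ B → s ∈ K) {g : Vec n → ℝ} (hg : ∀ v ∈ B, 0 ≤ g v)
    (h0 : ∃ v ∈ B, g v = 0) :
    ∃ B' ∈ K, B' ⊆ B ∧ InRel B' (lin B g) := by
  classical
  refine ⟨B.filter (fun v => 0 < g v), hB _ (filter_subset _ _) ?_, filter_subset _ _, g,
    fun v hv => (mem_filter.1 hv).2, ?_⟩
  · intro h
    obtain ⟨v, hv, hgv⟩ := h0
    rw [← h, mem_filter] at hv
    exact absurd hgv hv.2.ne'
  · refine lin_subset (filter_subset _ _) g (fun v hv hs => ?_)
    have h1 := hg v hv
    by_contra hne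
    exact hs (mem_filter.2 ⟨hv, lt_of_le_of_ne h1 (Ne.symm hne)⟩)

end Inside_aux

open Inside_aux

theorem tInside : StDual → StUq → StInside := by
  classical
  intro hDual _ n K B hK hn hcard hUni hB
  obtain ⟨-, -, hind, hspan⟩ := hDual n B hUni
  obtain ⟨-, hsp⟩ := hspan hcard
  have huniq : ∀ c d : Vec n → ℝ, lin B c = lin B d → ∀ v ∈ B, c v = d v := by
    intro c d h v hv
    have h1 : lin B (fun v => c v - d v) = 0 := by rw [lin_sub, h, sub_self]
    have h2 : c v - d v = 0 := hind _ h1 v hv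
    linarith
  have h4 : ∀ p ∈ B, ¬ InRel B (toR p) := by
    rintro p hp ⟨c, hc, hpc⟩
    obtain ⟨q, hq, hqp⟩ : ∃ q ∈ B, q ≠ p := by
      refine Finset.exists_mem_ne ?_ p
      omega
    have h1 := huniq _ _ ((lin_single hp).trans hpc) q hq
    rw [if_neg hqp] at h1
    exact absurd h1 (hc q hq).ne
  have h2 : ∀ ρ ∈ verts K, ∀ c : Vec n → ℝ, (∀ v ∈ B, 0 ≤ c v) → toR ρ = lin B c →
      ρ ∈ B ∨ InRel B (toR ρ) := by
    intro ρ hρ c hc hρc
    by_cases h0 : ∃ v ∈ B, c v = 0
    · left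
      obtain ⟨B', hB'K, hB'B, hin⟩ := bdry hB hc h0
      rw [← hρc] at hin
      have := hK.uniq (hK.single hρ) hB'K (InRel.singleton ρ) hin
      exact hB'B (this ▸ mem_singleton_self ρ)
    · right
      push Not at h0
      exact ⟨c, fun v hv => lt_of_le_of_ne (hc v hv) (Ne.symm (h0 v hv)), hρc⟩
  refine ⟨?_, h2, ?_, h4⟩
  · intro F hF p hp hpin w hw
    obtain ⟨d, hd, hpd⟩ := hpin
    by_cases hwp : w = p
    · subst hwp
      exact ⟨d, fun v hv => (hd v hv).le, hpd⟩
    obtain ⟨c, hwc⟩ := hsp (toR w)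
    refine ⟨c, ?_, hwc⟩
    by_contra hneg
    push Not at hneg
    obtain ⟨t, ht, hge, hz⟩ := touch hd hneg
    obtain ⟨B', hB'K, hB'B, hin⟩ := bdry hB hge hz
    have hpw : ({p, w} : Finset (Vec n)) ∈ K := by
      refine hK.down F hF _ ?_
      intro x hx
      rw [mem_insert, mem_singleton] at hx
      rcases hx with rfl | rfl
      · exact hp
      · exact hw
    have hin2 : InRel {p, w} (lin B (fun v => d v + t * c v)) := by
      refine ⟨fun v => if v = p then 1 else t, fun v _ => ?_, ?_⟩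
      · show 0 < (if v = p then (1 : ℝ) else t)
        split_ifs
        · exact one_pos
        · exact ht
      · rw [lin_insert (by rw [mem_singleton]; exact fun h => hwp h.symm), lin_singleton,
          lin_add, lin_smul, ← hpd, ← hwc, if_pos rfl, if_neg hwp, one_smul]
    have heq := hK.uniq hpw hB'K hin2 hin
    exact h4 p (hB'B (heq ▸ mem_insert_self _ _)) ⟨d, hd, hpd⟩
  · intro hBK
    obtain ⟨κ, ⟨hκ, hκx⟩, -⟩ := hK.cover (lin B (fun _ => (1 : ℝ)))
    obtain ⟨c, hc, hxc⟩ := hκx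
    have hnot : ¬ κ ⊆ B := by
      intro hsub
      have hne : κ ≠ B := fun h => hBK (h ▸ hκ)
      obtain ⟨v, hv, hvκ⟩ : ∃ v ∈ B, v ∉ κ := by
        by_contra hcon
        push Not at hcon
        exact hne (Finset.Subset.antisymm hsub hcon)
      have h1 : lin B (fun w => if w ∈ κ then c w else 0) = lin κ c := by
        rw [lin_subset hsub _ (fun w _ hw => if_neg hw)]
        exact lin_congr (fun w hw => if_pos hw)
      have h3 := huniq _ _ (hxc.trans h1.symm) v hv
      simp only [if_neg hvκ] at h3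
      exact one_ne_zero h3
    obtain ⟨ρ, hρκ, hρB⟩ := Finset.not_subset.1 hnot
    obtain ⟨r, hr⟩ := hsp (toR ρ)
    have hρv : ρ ∈ verts K := mem_verts_of_mem hκ hρκ
    have hr0 : ∀ v ∈ B, 0 ≤ r v := by
      by_contra hneg
      push Not at hneg
      obtain ⟨t, ht, hge, hz⟩ := touch (d := fun _ => (1 : ℝ)) (fun _ _ => one_pos) hneg
      obtain ⟨B', hB'K, hB'B, hin⟩ := bdry hB hge hz
      have hin2 : InRel κ (lin B (fun v => (1 : ℝ) + t * r v)) := by
        refine ⟨fun v => c v + t * (if v = ρ then (1 : ℝ) else 0), fun v hv => ?_, ?_⟩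
        · show 0 < c v + t * (if v = ρ then (1 : ℝ) else 0)
          have h5 := hc v hv
          split_ifs
          · linarith
          · linarith
        · rw [lin_add, lin_smul, lin_add, lin_smul, ← hr, lin_single hρκ, hxc]
      have heq := hK.uniq hκ hB'K hin2 hin
      exact hnot (heq ▸ hB'B)
    refine ⟨ρ, hρv, ?_⟩
    rcases h2 ρ hρv r hr0 hr with h | h
    · exact absurd h hρB
    · exact h

end ToricPB
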