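import Pool.Agent.Lib.MP_3d51eb_gt.PB.Spec

set_option autoImplicit false

/-!
# MP_3d51eb_gt, project PB, module Int: interpolation by integral linear forms
-/

noncomputable section

namespace ToricPB

open Finset MvPolynomial

private lemma Int_pr_single {n : ℕ} (m : Vec n) (j : Fin n) : pr m (Pi.single j 1) = m j := by
  rw [pr, Finset.sum_eq_single j]
  · simp
  · intro i _ hij
    rw [Pi.single_eq_of_ne hij, mul_zero]
  · intro h
    exact absurd (Finset.mem_univ j) h

theorem tInt : StDual → StInt := by
  intro hD n s hs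
  classical
  obtain ⟨-, hdual, -, hspan⟩ := hD n s hs
  refine ⟨fun ψ => ?_, fun hcard m m' h => ?_⟩
  · choose! u hu1 hu0 using hdual
    refine ⟨∑ v ∈ s, ψ v • u v, fun v hv => ?_⟩
    rw [pr_sum_left, Finset.sum_eq_single v]
    · rw [pr_smul_left, hu1 v hv, mul_one]
    · intro w hw hwv
      rw [pr_smul_left, hu0 w hw v hv (Ne.symm hwv), mul_zero]
    · intro h
      exact absurd hv h
  · obtain ⟨h1, -⟩ := hspan hcard
    have h2 : ∀ y : Vec n, pr m y = pr m' y := by
      intro y
      obtain ⟨c, rfl⟩ := h1 y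
      rw [pr_sum, pr_sum]
      refine Finset.sum_congr rfl fun v hv => ?_
      rw [pr_smul, pr_smul, h v hv]
    funext j
    rw [← Int_pr_single m j, ← Int_pr_single m' j, h2]

end ToricPB
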