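import Pool.Agent.Lib.MP_3d51eb_gt.PB.Spec2

set_option autoImplicit false

noncomputable section

namespace ToricPB

open Finset MvPolynomial

namespace Leaf_aux

variable {n : ℕ}

lemma lin_sum (B : Finset (Vec n)) (s : Finset (Vec n)) (c : Vec n → Vec n → ℝ) :
    lin B (fun b => ∑ i ∈ s, c i b) = ∑ i ∈ s, lin B (c i) := by
  classical
  induction s using Finset.induction_on with
  | empty => simp [lin_zero]
  | insert a s ha ih =>
    rw [Finset.sum_insert ha, ← ih, ← lin_add]
    exact lin_congr (fun v _ => by rw [Finset.sum_insert ha])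

/-- closed cone -/
def InC (B : Finset (Vec n)) (x : Fin n → ℝ) : Prop :=
  ∃ c : Vec n → ℝ, (∀ v ∈ B, 0 ≤ c v) ∧ x = lin B c

lemma InC_lin {B : Finset (Vec n)} (s : Finset (Vec n)) (c : Vec n → ℝ) (hc : ∀ v ∈ s, 0 ≤ c v)
    (h : ∀ v ∈ s, InC B (toR v)) : InC B (lin s c) := by
  classical
  have h' : ∀ v : Vec n, ∃ d : Vec n → ℝ, v ∈ s → (∀ b ∈ B, 0 ≤ d b) ∧ toR v = lin B d := by
    intro v
    by_cases hv : v ∈ s
    · obtain ⟨d, hd⟩ := h v hv
      exact ⟨d, fun _ => hd⟩
    · exact ⟨0, fun h => absurd h hv⟩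
  choose d hd using h'
  refine ⟨fun b => ∑ v ∈ s, c v * d v b, fun b hb => Finset.sum_nonneg
    (fun v hv => mul_nonneg (hc v hv) ((hd v hv).1 b hb)), ?_⟩
  rw [lin_sum]
  show (∑ v ∈ s, c v • toR v) = _
  refine Finset.sum_congr rfl (fun v hv => ?_)
  rw [lin_smul, ← (hd v hv).2]

/-- number of rays in the closed cone -/
def cnt (K : Finset (Finset (Vec n))) (B : Finset (Vec n)) : ℕ := by
  classical
  exact ((verts K).filter (fun ρ => InC B (toR ρ))).card

lemma cnt_lt {K : Finset (Finset (Vec n))} {B B' : Finset (Vec n)}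
    (h : ∀ x, InC B' x → InC B x) (l : Vec n) (hl : l ∈ verts K) (h1 : InC B (toR l))
    (h2 : ¬ InC B' (toR l)) : cnt K B' < cnt K B := by
  classical
  unfold cnt
  apply Finset.card_lt_card
  refine ⟨?_, ?_⟩
  · intro ρ hρ
    rw [Finset.mem_filter] at hρ ⊢
    exact ⟨hρ.1, h _ hρ.2⟩
  · intro hs
    have : l ∈ (verts K).filter (fun ρ => InC B (toR ρ)) := Finset.mem_filter.2 ⟨hl, h1⟩
    exact h2 (Finset.mem_filter.1 (hs this)).2

lemma step (hD : StDual) (hI : StInside) (hN : StNoU) (n : ℕ) (K : Finset (Finset (Vec n)))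
    (k : ℕ) (e : Fin k → Coh K) (U : Submodule ℤ (Coh K)) (a : Fin k → Vec n → ℤ) (hK : IsFan K)
    (hn : 3 ≤ n) (hS : Split K k e U) (hDat : Dat K k e U a) (hNT : NT K)
    (hA : ∀ i, Simp K (sup K (a i))) (hU : U = ⊥ ∨ SqZero K U) :
    ∀ m : ℕ, ∀ i l, l ∈ sup K (a i) → (sup K (a i)).erase l ∉ K →
      cnt K ((sup K (a i)).erase l) = m →
    ∃ i, (∃ v0 ∈ sup K (a i), v0 = ∑ v ∈ (sup K (a i)).erase v0, v ∧
      ∀ l ∈ (sup K (a i)).erase v0, (sup K (a i)).erase l ∈ K) ∨
    (∑ v ∈ sup K (a i), v = 0 ∧ ∀ l ∈ sup K (a i), (sup K (a i)).erase l ∈ K) := by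
  classical
  intro m
  induction m using Nat.strong_induction_on with
  | _ m ih =>
  intro i l hl hBK hm
  set B := (sup K (a i)).erase l with hB
  have hcardA := (hA i).card
  have hBc : B.card = n := by
    rw [hB, Finset.card_erase_of_mem hl, hcardA]; omega
  have hBu : Uni B := (hA i).uni l hl
  have hBp : ∀ s ⊆ B, s ≠ B → s ∈ K := by
    intro s hs hne
    have h1 : s.card < B.card := Finset.card_lt_card (Finset.ssubset_iff_subset_ne.2 ⟨hs, hne⟩)
    exact (hA i).skel s (hs.trans (Finset.erase_subset _ _)) (by omega)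
  obtain ⟨I1, I2, I3, I4⟩ := hI n K B hK (by omega) hBc hBu hBp
  have hex : ∃ p ∈ verts K, InRel B (toR p) ∧ ∃ j, a j p ≠ 0 := by
    by_contra hcon
    refine hN n K k e U a hK hn hS hDat hNT hU B hBc hBu hBp (I3 hBK) ?_
    intro p hp hpB j
    by_contra hj
    exact hcon ⟨p, hp, hpB, j, hj⟩
  obtain ⟨p, hp, hpB, j, hj⟩ := hex
  have hpA : p ∈ sup K (a j) := Finset.mem_filter.2 ⟨hp, hj⟩
  have hcone : ∀ w ∈ sup K (a j), InC B (toR w) := by
    intro w hw
    have hpw : ({p, w} : Finset (Vec n)) ∈ K := by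
      apply (hA j).skel
      · intro x hx
        rw [Finset.mem_insert, Finset.mem_singleton] at hx
        rcases hx with rfl | rfl
        · exact hpA
        · exact hw
      · have := Finset.card_le_two (a := p) (b := w)
        omega
    exact I1 {p, w} hpw p (by simp) hpB w (by simp)
  obtain ⟨-, -, hindB, -⟩ := hD n B hBu
  have hBne : B.Nonempty := by
    rw [← Finset.card_pos, hBc]; omega
  have hsum : ∑ v ∈ sup K (a j), v ≠ 0 := by
    intro h0
    obtain ⟨d, hd, hpd⟩ := hpB
    have h1 : InC B (lin ((sup K (a j)).erase p) (fun _ => (1 : ℝ))) :=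
      InC_lin _ _ (fun _ _ => zero_le_one) (fun v hv => hcone v (Finset.mem_of_mem_erase hv))
    obtain ⟨c, hc, hcc⟩ := h1
    have h2 : lin (sup K (a j)) (fun _ => (1 : ℝ)) = 0 := by
      have h3 := congrArg toR h0
      rw [toR_sum, toR_zero] at h3
      rw [← h3]
      exact Finset.sum_congr rfl (fun v _ => one_smul _ _)
    have h4 : lin (sup K (a j)) (fun _ => (1 : ℝ)) = toR p +
        lin ((sup K (a j)).erase p) (fun _ => (1 : ℝ)) := by
      conv_lhs => rw [← Finset.insert_erase hpA]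
      rw [lin_insert (Finset.notMem_erase _ _), one_smul]
    rw [h2, hcc, hpd, ← lin_add] at h4
    obtain ⟨b, hb⟩ := hBne
    have h5 := hindB _ h4.symm b hb
    have h6 := hd b hb
    have h7 := hc b hb
    linarith
  rcases (hA j).type with h0 | ⟨v0, hv0, hv0s⟩
  · exact absurd h0 hsum
  by_cases hcl : ∀ l' ∈ (sup K (a j)).erase v0, (sup K (a j)).erase l' ∈ K
  · exact ⟨j, Or.inl ⟨v0, hv0, hv0s, hcl⟩⟩
  · push Not at hcl
    obtain ⟨l', hl', hB'⟩ := hcl
    have hl'A : l' ∈ sup K (a j) := Finset.mem_of_mem_erase hl'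
    have hne : l' ≠ v0 := Finset.ne_of_mem_erase hl'
    refine ih _ ?_ j l' hl'A hB' rfl
    rw [← hm]
    refine cnt_lt (fun x hx => ?_) l' ((hA j).vert l' hl'A) (hcone l' hl'A) ?_
    · obtain ⟨c, hc, rfl⟩ := hx
      exact InC_lin _ _ hc (fun v hv => hcone v (Finset.mem_of_mem_erase hv))
    · rintro ⟨c, hc, hlc⟩
      obtain ⟨-, -, hind', -⟩ := hD n _ ((hA j).uni l' hl'A)
      have hcard' : ((sup K (a j)).erase l').card = n := by
        rw [Finset.card_erase_of_mem hl'A, (hA j).card]; omega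
      have hv0' : v0 ∈ (sup K (a j)).erase l' := Finset.mem_erase.2 ⟨hne.symm, hv0⟩
      have h1 : toR v0 = toR l' +
          lin (((sup K (a j)).erase l').erase v0) (fun _ => (1 : ℝ)) := by
        have h2 := congrArg toR hv0s
        rw [toR_sum, ← Finset.insert_erase hl', Finset.sum_insert (Finset.notMem_erase _ _)] at h2
        rw [h2, Finset.erase_right_comm]
        congr 1
        exact Finset.sum_congr rfl (fun v _ => (one_smul _ _).symm)
      have h2 : toR l' = lin ((sup K (a j)).erase l') (fun v => if v = v0 then (1 : ℝ) else -1) := by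
        conv_rhs => rw [← Finset.insert_erase hv0']
        rw [lin_insert (Finset.notMem_erase _ _), if_pos rfl, one_smul, h1, add_assoc]
        have h3 : lin (((sup K (a j)).erase l').erase v0) (fun v => if v = v0 then (1 : ℝ) else -1)
            = (-1 : ℝ) • lin (((sup K (a j)).erase l').erase v0) (fun _ => (1 : ℝ)) := by
          rw [← lin_smul]
          refine lin_congr (fun v hv => ?_)
          rw [if_neg (Finset.ne_of_mem_erase hv)]; norm_num
        rw [h3]
        simp
      have h3 : lin ((sup K (a j)).erase l') (fun v => c v - if v = v0 then (1 : ℝ) else -1) = 0 := by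
        rw [lin_sub, ← hlc, ← h2, sub_self]
      obtain ⟨w, hw, hwv⟩ : ∃ w ∈ (sup K (a j)).erase l', w ≠ v0 := by
        by_contra hcon
        push Not at hcon
        have : (sup K (a j)).erase l' ⊆ {v0} := fun w hw => by
          rw [Finset.mem_singleton]; exact hcon w hw
        have := Finset.card_le_card this
        rw [hcard', Finset.card_singleton] at this
        omega
      have h4 := hind' _ h3 w hw
      have h5 := hc w hw
      simp only [if_neg hwv] at h4
      linarith

end Leaf_aux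

theorem tLeaf : StDual → StInside → StNoU → StLeaf := by
  intro hD hI hN n K k e U a hK hn hk hS hDat hNT hA hU
  by_cases hall : ∀ i, ∀ l ∈ sup K (a i), (sup K (a i)).erase l ∈ K
  · refine ⟨⟨0, hk⟩, ?_⟩
    rcases (hA ⟨0, hk⟩).type with h0 | ⟨v0, hv0, hv0s⟩
    · exact Or.inr ⟨h0, hall _⟩
    · exact Or.inl ⟨v0, hv0, hv0s, fun l hl => hall _ l (Finset.mem_of_mem_erase hl)⟩
  · push Not at hall
    obtain ⟨i, l, hl, hB⟩ := hall
    exact Leaf_aux.step hD hI hN n K k e U a hK hn hS hDat hNT hA hU _ i l hl hB rfl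

end ToricPB
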