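import Pool.Agent.Lib.MP_3d51eb_gt.PB.Spec

set_option autoImplicit false

/-!
# MP_3d51eb_gt, project PB, module Ll: the class is linear on the chambers
-/

noncomputable section

namespace ToricPB

open Finset MvPolynomial

variable {n : ℕ}

namespace Ll_aux

/-- the support is not larger than one exceptional element -/
lemma exc {A : Finset (Vec n)} (hA : A.card = n + 1) (P : Vec n → Prop) [DecidablePred P]
    (h : n ≤ (A.filter P).card) : ∀ v ∈ A, ∀ v' ∈ A, ¬ P v → ¬ P v' → v = v' := by
  intro v hv v' hv' h1 h2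
  have h3 : (A.filter P).card + (A.filter (fun v => ¬ P v)).card = A.card :=
    Finset.card_filter_add_card_filter_not P
  have h4 : (A.filter (fun v => ¬ P v)).card ≤ 1 := by omega
  exact Finset.card_le_one.1 h4 v (Finset.mem_filter.2 ⟨hv, h1⟩) v' (Finset.mem_filter.2 ⟨hv', h2⟩)

lemma posSet_convex (B : Finset (Vec n)) (h : Vec n → Fin n → ℝ) :
    Convex ℝ {x : Fin n → ℝ | ∀ v ∈ B, 0 < dot (h v) x} := by
  intro x hx y hy α β hα hβ hab v hv
  have h1 := hx v hv
  have h2 := hy v hv
  show 0 < dot (h v) (α • x + β • y)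
  rw [dot_add, dot_smul, dot_smul]
  rcases eq_or_lt_of_le hα with h3 | h3
  · have hb : β = 1 := by linarith
    rw [hb, ← h3]
    simpa using h2
  · have h4 := mul_pos h3 h1
    have h5 := mul_nonneg hβ h2.le
    linarith

lemma posSet_open (B : Finset (Vec n)) (h : Vec n → Fin n → ℝ) :
    IsOpen {x : Fin n → ℝ | ∀ v ∈ B, 0 < dot (h v) x} := by
  have e : {x : Fin n → ℝ | ∀ v ∈ B, 0 < dot (h v) x} = ⋂ v ∈ B, {x : Fin n → ℝ | 0 < dot (h v) x} := by
    ext x
    simp
  rw [e]
  exact isOpen_biInter_finset fun v _ => isOpen_lt continuous_const (dot_continuous (h v))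

lemma negSet_convex (h : Fin n → ℝ) : Convex ℝ {x : Fin n → ℝ | dot h x < 0} := by
  intro x hx y hy α β hα hβ hab
  have h1 : dot h x < 0 := hx
  have h2 : dot h y < 0 := hy
  show dot h (α • x + β • y) < 0
  rw [dot_add, dot_smul, dot_smul]
  rcases eq_or_lt_of_le hα with h3 | h3
  · have hb : β = 1 := by linarith
    rw [hb, ← h3]
    simpa using h2
  · have h4 := mul_neg_of_pos_of_neg h3 h1
    have h5 := mul_nonpos_of_nonneg_of_nonpos hβ h2.le
    linarith

lemma negSet_open (h : Fin n → ℝ) : IsOpen {x : Fin n → ℝ | dot h x < 0} :=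
  isOpen_lt (dot_continuous h) continuous_const

end Ll_aux

open Ll_aux in
theorem tLl : StDual → StInt → StDR → StSign → StRel1 → StNear → StSide → StLin → StLl := by
  intro _hDual hInt hDR hSign hRel1 hNear hSide hLin n K a ψ hK hn hC hcard l hl
  classical
  set A : Finset (Vec n) := sup K a with hA
  set B : Finset (Vec n) := A.erase l with hB
  have hmemA : ∀ v, v ∈ A ↔ a v ≠ 0 := by
    intro v
    rw [hA, sup, Finset.mem_filter]
    exact ⟨fun h => h.2, fun h => ⟨hC.supp v h, h⟩⟩
  have hBcard : B.card = n := by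
    rw [hB, Finset.card_erase_of_mem hl, hcard]
    rfl
  have hBA : B ⊆ A := Finset.erase_subset _ _
  have hlB : l ∉ B := Finset.notMem_erase _ _
  have hAB : insert l B = A := Finset.insert_erase hl
  have hskel : ∀ s ⊆ A, s.card + 1 ≤ n → s ∈ K := fun s hs h =>
    hC.skel s (fun v hv => (hmemA v).1 (hs hv)) h
  -- the relation
  have hrelZ : ∑ v ∈ A, a v • v = 0 := by
    rw [← hC.rel]
    refine Finset.sum_subset (Finset.filter_subset _ _) fun v _ hv => ?_
    have h0 : a v = 0 := by
      by_contra h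
      exact hv ((hmemA v).2 h)
    rw [h0, zero_smul]
  have hrel : lin A (fun v => (a v : ℝ)) = 0 := by
    rw [lin_int, hrelZ, toR_zero]
  have hal : (a l : ℝ) ≠ 0 := by
    exact_mod_cast (hmemA l).1 hl
  -- independence of `B`
  have hind : ∀ c : Vec n → ℝ, lin B c = 0 → ∀ v ∈ B, c v = 0 := by
    intro c hc v hv
    have h1 : lin A (fun v => if v = l then 0 else c v) = 0 := by
      rw [← hAB, lin_insert hlB, if_pos rfl, zero_smul, zero_add, ← hc]
      refine lin_congr fun w hw => ?_
      rw [if_neg]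
      rintro rfl
      exact hlB hw
    obtain ⟨t, ht⟩ := hRel1 n K hK hn A hskel (by omega) (fun v => (a v : ℝ))
      (fun v => if v = l then 0 else c v) hrel h1 ⟨l, hl, hal⟩
    have h2 := ht l hl
    simp only [if_pos] at h2
    have h3 : t = 0 := by
      rcases mul_eq_zero.1 h2.symm with h | h
      · exact h
      · exact absurd h hal
    have h4 := ht v (hBA hv)
    have hvl : v ≠ l := fun h => hlB (h ▸ hv)
    simp only [if_neg hvl, h3, zero_mul] at h4
    exact h4
  obtain ⟨-, hdual⟩ := hDR n B hBcard hind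
  choose! h hh using hdual
  -- the dual basis on `l`
  have hdl : ∀ v ∈ B, (a l : ℝ) * dot (h v) (toR l) = -(a v : ℝ) := by
    intro v hv
    have h1 : dot (h v) (lin A (fun v => (a v : ℝ))) = 0 := by rw [hrel, dot_zero]
    rw [← hAB, lin_insert hlB, dot_add, dot_smul, dot_lin] at h1
    have h2 : ∑ w ∈ B, (a w : ℝ) * dot (h v) (toR w) = a v := by
      rw [Finset.sum_eq_single v]
      · rw [hh v hv v hv, if_pos rfl, mul_one]
      · intro w hw hwv
        rw [hh v hv w hw, if_neg hwv, mul_zero]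
      · intro hv'
        exact absurd hv hv'
    rw [h2] at h1
    linarith
  -- values at the vectors of a face
  have hval : ∀ v ∈ B, ∀ τ ⊆ A, v ∉ τ → ∀ c : Vec n → ℝ,
      dot (h v) (lin τ c) = if l ∈ τ then c l * dot (h v) (toR l) else 0 := by
    intro v hv τ hτ hvτ c
    rw [dot_lin]
    split_ifs with hlτ
    · rw [Finset.sum_eq_single l]
      · intro w hw hwl
        have hwB : w ∈ B := Finset.mem_erase.2 ⟨hwl, hτ hw⟩
        rw [hh v hv w hwB, if_neg, mul_zero]
        rintro rfl
        exact hvτ hw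
      · intro hl'
        exact absurd hlτ hl'
    · refine Finset.sum_eq_zero fun w hw => ?_
      have hwl : w ≠ l := by
        rintro rfl
        exact hlτ hw
      have hwB : w ∈ B := Finset.mem_erase.2 ⟨hwl, hτ hw⟩
      rw [hh v hv w hwB, if_neg, mul_zero]
      rintro rfl
      exact hvτ hw
  -- the faces `B.erase w`
  have hface : ∀ w ∈ B, B.erase w ∈ K ∧ (B.erase w).card + 1 = n ∧ B.erase w ⊆ A ∧ l ∉ B.erase w ∧
      ∀ c : Vec n → ℝ, dot (h w) (lin (B.erase w) c) = 0 := by
    intro w hw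
    have h1 : (B.erase w).card + 1 = n := by
      rw [Finset.card_erase_of_mem hw, hBcard]
      omega
    have h2 : B.erase w ⊆ A := (Finset.erase_subset _ _).trans hBA
    have h3 : l ∉ B.erase w := fun h => hlB (Finset.mem_of_mem_erase h)
    refine ⟨hskel _ h2 (by omega), h1, h2, h3, fun c => ?_⟩
    rw [hval w hw _ h2 (Finset.notMem_erase _ _), if_neg h3]
  have hother : ∀ v ∈ B, ∃ w ∈ B, w ≠ v := by
    intro v _
    exact Finset.exists_mem_ne (by omega) v
  have hwall : ∀ τ p q b, Wall K τ p q b → bend ψ τ p q b ≠ 0 → τ ⊆ A := fun τ p q b hw hb v hv =>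
    (hmemA v).2 (hC.bd τ p q b hw hb v hv)
  -- the two cases
  have hcase : (∀ v ∈ B, ∀ v' ∈ B, a v * a l < 0 → a v' * a l < 0 → v = v') ∨
      (∀ v ∈ B, a v * a l < 0) := by
    have hs := hSign n K hK A hskel (fun v => (a v : ℝ)) hrel ⟨l, hl, hal⟩
    rcases hs with hs | hs
    · have h1 := exc hcard (fun v => 0 < (a v : ℝ)) hs
      have h2 : ∀ v ∈ A, ∀ v' ∈ A, a v < 0 → a v' < 0 → v = v' := by
        intro v hv v' hv' h3 h4
        refine h1 v hv v' hv' (fun h5 => ?_) (fun h5 => ?_)
        · have : (0 : ℤ) < a v := by exact_mod_cast h5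
          omega
        · have : (0 : ℤ) < a v' := by exact_mod_cast h5
          omega
      rcases lt_or_gt_of_ne ((hmemA l).1 hl) with h3 | h3
      · right
        intro v hv
        have hvl : v ≠ l := fun h => hlB (h ▸ hv)
        have h4 : 0 < a v := by
          rcases lt_or_gt_of_ne ((hmemA v).1 (hBA hv)) with h5 | h5
          · exact absurd (h2 v (hBA hv) l hl h5 h3) hvl
          · exact h5
        exact mul_neg_of_pos_of_neg h4 h3
      · left
        intro v hv v' hv' h4 h5
        refine h2 v (hBA hv) v' (hBA hv') ?_ ?_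
        · by_contra h6
          exact absurd (mul_nonneg (not_lt.1 h6) h3.le) (not_le.2 h4)
        · by_contra h6
          exact absurd (mul_nonneg (not_lt.1 h6) h3.le) (not_le.2 h5)
    · have h1 := exc hcard (fun v => (a v : ℝ) < 0) hs
      have h2 : ∀ v ∈ A, ∀ v' ∈ A, 0 < a v → 0 < a v' → v = v' := by
        intro v hv v' hv' h3 h4
        refine h1 v hv v' hv' (fun h5 => ?_) (fun h5 => ?_)
        · have : a v < 0 := by exact_mod_cast h5
          omega
        · have : a v' < 0 := by exact_mod_cast h5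
          omega
      rcases lt_or_gt_of_ne ((hmemA l).1 hl) with h3 | h3
      · left
        intro v hv v' hv' h4 h5
        refine h2 v (hBA hv) v' (hBA hv') ?_ ?_
        · by_contra h6
          exact absurd (mul_nonneg_of_nonpos_of_nonpos (not_lt.1 h6) h3.le) (not_le.2 h4)
        · by_contra h6
          exact absurd (mul_nonneg_of_nonpos_of_nonpos (not_lt.1 h6) h3.le) (not_le.2 h5)
      · right
        intro v hv
        have hvl : v ≠ l := fun h => hlB (h ▸ hv)
        have h4 : a v < 0 := by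
          rcases lt_or_gt_of_ne ((hmemA v).1 (hBA hv)) with h5 | h5
          · exact h5
          · exact absurd (h2 v (hBA hv) l hl h5 h3) hvl
        exact mul_neg_of_neg_of_pos h4 h3
  rcases hcase with hI | hII
  · -- case (I)
    have hΩ : ∀ τ p q b, Wall K τ p q b → bend ψ τ p q b ≠ 0 →
        ∀ x ∈ {x : Fin n → ℝ | ∀ v ∈ B, 0 < dot (h v) x}, ¬ InRel τ x := by
      intro τ p q b hw hb x hx hin
      have hτA := hwall τ p q b hw hb
      obtain ⟨c, hc, rfl⟩ := hin
      have hcd : 1 < (A \ τ).card := by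
        have h1 := Finset.card_sdiff_add_card_eq_card hτA
        have h2 := hw.2.1
        omega
      obtain ⟨v1, hv1, v2, hv2, hne⟩ := Finset.one_lt_card.1 hcd
      obtain ⟨hv1A, hv1τ⟩ := Finset.mem_sdiff.1 hv1
      obtain ⟨hv2A, hv2τ⟩ := Finset.mem_sdiff.1 hv2
      have key : ∀ v ∈ B, v ∉ τ → l ∈ τ ∧ a v * a l < 0 := by
        intro v hv hvτ
        have h1 : 0 < dot (h v) (lin τ c) := hx v hv
        rw [hval v hv τ hτA hvτ c] at h1
        split_ifs at h1 with h2
        · refine ⟨h2, ?_⟩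
          have h3 : 0 < dot (h v) (toR l) := by
            by_contra h4
            exact absurd (mul_nonpos_of_nonneg_of_nonpos (hc l h2).le (not_lt.1 h4)) (not_le.2 h1)
          have h4 := hdl v hv
          have h5 : 0 < (a l : ℝ) * a l := mul_self_pos.2 hal
          have h6 : (a v : ℝ) * a l = -((a l : ℝ) * a l * dot (h v) (toR l)) := by
            linear_combination (a l : ℝ) * h4
          have h7 : (a v : ℝ) * a l < 0 := by
            rw [h6]
            exact neg_neg_of_pos (mul_pos h5 h3)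
          exact_mod_cast h7
        · exact absurd h1 (lt_irrefl _)
      have hlτ : l ∈ τ := by
        by_cases h1 : v1 = l
        · have h2 : v2 ∈ B := Finset.mem_erase.2 ⟨fun h3 => hne (h1.trans h3.symm), hv2A⟩
          exact (key v2 h2 hv2τ).1
        · exact (key v1 (Finset.mem_erase.2 ⟨h1, hv1A⟩) hv1τ).1
      have h1 : v1 ∈ B := Finset.mem_erase.2 ⟨fun h3 => hv1τ (h3 ▸ hlτ), hv1A⟩
      have h2 : v2 ∈ B := Finset.mem_erase.2 ⟨fun h3 => hv2τ (h3 ▸ hlτ), hv2A⟩
      exact hne (hI v1 h1 v2 h2 (key v1 h1 hv1τ).2 (key v2 h2 hv2τ).2)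
    obtain ⟨m, hm⟩ := hLin n K hK (by omega) _ (posSet_convex B h) (posSet_open B h) ψ hΩ
    refine ⟨m, fun v hv => ?_⟩
    obtain ⟨w, hw, hwv⟩ := hother v hv
    obtain ⟨f1, f2, f3, f4, f5⟩ := hface w hw
    have hvτ : v ∈ B.erase w := Finset.mem_erase.2 ⟨hwv.symm, hv⟩
    have hy : ∀ c : Vec n → ℝ, toR w ≠ lin (B.erase w) c := by
      intro c hc
      have h1 : dot (h w) (toR w) = 1 := by rw [hh w hw w hw, if_pos rfl]
      rw [hc, f5 c] at h1
      exact zero_ne_one h1
    obtain ⟨κ, hκ, hτκ, hκn, ε, hε, hδ⟩ := hSide n K hK (B.erase w) f1 f2 (toR w) hy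
    refine hm κ hκ hκn ⟨_, ?_, hδ (ε / 2) (by linarith) (by linarith)⟩ v (hτκ hvτ)
    intro u hu
    rw [dot_add, dot_smul, dot_lin, hh u hu w hw]
    have h1 : 0 ≤ ∑ r ∈ B.erase w, (1 : ℝ) * dot (h u) (toR r) := by
      refine Finset.sum_nonneg fun r hr => ?_
      rw [hh u hu r (Finset.mem_of_mem_erase hr)]
      split_ifs <;> norm_num
    split_ifs with h2
    · linarith
    · have h3 : u ∈ B.erase w := Finset.mem_erase.2 ⟨fun h4 => h2 h4.symm, hu⟩
      have h4 : ∑ r ∈ B.erase w, (1 : ℝ) * dot (h u) (toR r) = 1 := by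
        rw [Finset.sum_eq_single u]
        · rw [hh u hu u hu, if_pos rfl, mul_one]
        · intro r hr hru
          rw [hh u hu r (Finset.mem_of_mem_erase hr), if_neg hru, mul_zero]
        · intro h5
          exact absurd h3 h5
      rw [h4]
      norm_num
  · -- case (II)
    have hpos : ∀ j ∈ B, 0 < dot (h j) (toR l) := by
      intro j hj
      have h1 := hdl j hj
      have h2 : (a j : ℝ) * a l < 0 := by exact_mod_cast hII j hj
      have h3 : 0 < (a l : ℝ) * a l := mul_self_pos.2 hal
      have h4 : 0 < (a l : ℝ) * a l * dot (h j) (toR l) := by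
        have h5 : (a l : ℝ) * a l * dot (h j) (toR l) = -((a j : ℝ) * a l) := by
          linear_combination (a l : ℝ) * h1
        rw [h5]
        linarith
      by_contra h5
      exact absurd (mul_nonpos_of_nonneg_of_nonpos h3.le (not_lt.1 h5)) (not_le.2 h4)
    have hm : ∀ j ∈ B, ∃ m : Vec n, ∀ σ ∈ K, σ.card = n →
        (∃ x ∈ {x : Fin n → ℝ | dot (h j) x < 0}, InRel σ x) → ∀ v ∈ σ, ψ v = pr m v := by
      intro j hj
      refine hLin n K hK (by omega) _ (negSet_convex (h j)) (negSet_open (h j)) ψ ?_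
      intro τ p q b hw hb x hx hin
      have hτA := hwall τ p q b hw hb
      obtain ⟨c, hc, rfl⟩ := hin
      have hx' : dot (h j) (lin τ c) < 0 := hx
      refine absurd hx' (not_lt.2 ?_)
      rw [dot_lin]
      refine Finset.sum_nonneg fun w hw' => mul_nonneg (hc w hw').le ?_
      by_cases hwl : w = l
      · rw [hwl]
        exact (hpos j hj).le
      · rw [hh j hj w (Finset.mem_erase.2 ⟨hwl, hτA hw'⟩)]
        split_ifs <;> norm_num
    choose! m hm using hm
    have hmm : ∀ j ∈ B, ∀ j' ∈ B, j ≠ j' → m j = m j' := by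
      intro j hj j' hj' hne
      obtain ⟨κ, ⟨hκ, hin⟩, -⟩ := hK.cover (-toR j - toR j')
      obtain ⟨σ, hσ, -, hσn, x', ⟨hx1, hx2⟩, hin'⟩ := hNear n K hK
        ({x : Fin n → ℝ | dot (h j) x < 0} ∩ {x : Fin n → ℝ | dot (h j') x < 0})
        ((negSet_open (h j)).inter (negSet_open (h j'))) κ hκ (-toR j - toR j') (by
          constructor
          · show dot (h j) (-toR j - toR j') < 0
            rw [sub_eq_add_neg, dot_add, dot_neg, dot_neg, hh j hj j hj, hh j hj j' hj', if_pos rfl,
              if_neg (Ne.symm hne)]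
            norm_num
          · show dot (h j') (-toR j - toR j') < 0
            rw [sub_eq_add_neg, dot_add, dot_neg, dot_neg, hh j' hj' j hj, hh j' hj' j' hj', if_pos rfl,
              if_neg hne]
            norm_num) hin
      refine (hInt n σ (hK.smooth σ hσ)).2 hσn _ _ fun v hv => ?_
      rw [← hm j hj σ hσ hσn ⟨x', hx1, hin'⟩ v hv, ← hm j' hj' σ hσ hσn ⟨x', hx2, hin'⟩ v hv]
    obtain ⟨j0, hj0⟩ : B.Nonempty := Finset.card_pos.1 (by omega)
    have hall : ∀ j ∈ B, m j = m j0 := by
      intro j hj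
      by_cases h1 : j = j0
      · rw [h1]
      · exact hmm j hj j0 hj0 h1
    refine ⟨m j0, fun v hv => ?_⟩
    obtain ⟨w, hw, hwv⟩ := hother v hv
    obtain ⟨f1, f2, f3, f4, f5⟩ := hface w hw
    have hvτ : v ∈ B.erase w := Finset.mem_erase.2 ⟨hwv.symm, hv⟩
    have hy : ∀ c : Vec n → ℝ, -toR w ≠ lin (B.erase w) c := by
      intro c hc
      have h1 : dot (h w) (-toR w) = -1 := by rw [dot_neg, hh w hw w hw, if_pos rfl]
      rw [hc, f5 c] at h1
      norm_num at h1
    obtain ⟨κ, hκ, hτκ, hκn, ε, hε, hδ⟩ := hSide n K hK (B.erase w) f1 f2 (-toR w) hy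
    rw [← hall w hw]
    refine hm w hw κ hκ hκn ⟨_, ?_, hδ (ε / 2) (by linarith) (by linarith)⟩ v (hτκ hvτ)
    show dot (h w) (lin (B.erase w) (fun _ => (1 : ℝ)) + (ε / 2) • (-toR w)) < 0
    rw [dot_add, dot_smul, f5, dot_neg, hh w hw w hw, if_pos rfl]
    linarith

end ToricPB
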