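import Pool.Agent.Lib.MP_3d51eb_gt.PB.Spec

set_option autoImplicit false

/-!
# MP_3d51eb_gt, project PB, module Loc: local structure of a fan
-/

noncomputable section

namespace ToricPB

open Finset MvPolynomial

/-- Points between two points of a relative interior. -/
private lemma loc_between {n : ℕ} {κ : Finset (Vec n)} {x y : Fin n → ℝ} {a b δ : ℝ}
    (ha : InRel κ (x + a • y)) (hb : InRel κ (x + b • y)) (h1 : a < δ) (h2 : δ < b) :
    InRel κ (x + δ • y) := by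
  have hab : 0 < b - a := by linarith
  have h := InRel.convex κ ha hb (div_pos (sub_pos.2 h2) hab).le (div_pos (sub_pos.2 h1) hab).le
    (by rw [← add_div]; exact (div_eq_one_iff_eq hab.ne').2 (by ring))
  have e : ((b - δ) / (b - a)) • (x + a • y) + ((δ - a) / (b - a)) • (x + b • y) = x + δ • y := by
    funext i
    simp only [Pi.add_apply, Pi.smul_apply, smul_eq_mul]
    field_simp
    ring
  rw [e] at h
  exact h

theorem tLoc : StDual → StUq → StLoc := by
  intro hD _ n K hK x y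
  have hex : ∀ m : ℕ, ∃ s : {s // s ∈ K}, InRel s.1 (x + (1 / ((m : ℝ) + 1)) • y) := by
    intro m
    obtain ⟨s, ⟨hs, h⟩, -⟩ := hK.cover (x + (1 / ((m : ℝ) + 1)) • y)
    exact ⟨⟨s, hs⟩, h⟩
  choose g hg using hex
  obtain ⟨κ, hκ⟩ := Finite.exists_infinite_fiber g
  have hinf : (g ⁻¹' {κ}).Infinite := Set.infinite_coe_iff.1 hκ
  obtain ⟨m0, hm0⟩ := hinf.nonempty
  have hgm : ∀ m ∈ g ⁻¹' {κ}, InRel κ.1 (x + (1 / ((m : ℝ) + 1)) • y) := by
    intro m hm
    have h := hg m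
    rwa [Set.mem_singleton_iff.1 hm] at h
  have hε : (0 : ℝ) < 1 / ((m0 : ℝ) + 1) := by positivity
  have hL : ∀ δ : ℝ, 0 < δ → δ < 1 / ((m0 : ℝ) + 1) → InRel κ.1 (x + δ • y) := by
    intro δ h0 h1
    obtain ⟨j, hj⟩ := exists_nat_one_div_lt h0
    obtain ⟨m1, hm1, hlt⟩ := hinf.exists_gt j
    refine loc_between (hgm m1 hm1) (hgm m0 hm0) (lt_of_le_of_lt ?_ hj) h1
    have h2 : (j : ℝ) + 1 ≤ (m1 : ℝ) + 1 := by
      have : (j : ℝ) ≤ m1 := by exact_mod_cast hlt.le
      linarith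
    exact one_div_le_one_div_of_le (by positivity) h2
  set ε : ℝ := 1 / ((m0 : ℝ) + 1) with hεdef
  obtain ⟨c1, -, e1⟩ := hL (ε / 3) (by linarith) (by linarith)
  obtain ⟨c2, -, e2⟩ := hL (2 * ε / 3) (by linarith) (by linarith)
  have hy : y = lin κ.1 (fun v => (3 / ε) * (c2 v - c1 v)) := by
    rw [lin_smul, lin_sub, ← e1, ← e2]
    funext i
    simp only [Pi.add_apply, Pi.smul_apply, Pi.sub_apply, smul_eq_mul]
    field_simp
    ring
  have hx : x = lin κ.1 (fun v => c1 v - (ε / 3) * ((3 / ε) * (c2 v - c1 v))) := by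
    rw [lin_sub κ.1 c1 (fun v => (ε / 3) * ((3 / ε) * (c2 v - c1 v))),
      lin_smul κ.1 (ε / 3) (fun v => (3 / ε) * (c2 v - c1 v)), ← hy, ← e1]
    abel
  have key : ∀ δ : ℝ, 0 < δ → δ < ε → ∀ v ∈ κ.1,
      0 < c1 v - (ε / 3) * ((3 / ε) * (c2 v - c1 v)) + δ * ((3 / ε) * (c2 v - c1 v)) := by
    intro δ h0 h1 v hv
    obtain ⟨c', hc', e⟩ := hL δ h0 h1
    have e3 : lin κ.1 (fun v => c' v - (c1 v - (ε / 3) * ((3 / ε) * (c2 v - c1 v)) +
        δ * ((3 / ε) * (c2 v - c1 v)))) = 0 := by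
      rw [lin_sub κ.1 c' (fun v => c1 v - (ε / 3) * ((3 / ε) * (c2 v - c1 v)) +
        δ * ((3 / ε) * (c2 v - c1 v))),
        lin_add κ.1 (fun v => c1 v - (ε / 3) * ((3 / ε) * (c2 v - c1 v)))
          (fun v => δ * ((3 / ε) * (c2 v - c1 v))),
        lin_smul κ.1 δ (fun v => (3 / ε) * (c2 v - c1 v)), ← hy, ← hx, ← e, sub_self]
    have e4 := (hD n κ.1 (hK.smooth κ.1 κ.2)).2.2.1 _ e3 v hv
    have h5 := hc' v hv
    linarith
  refine ⟨κ.1, κ.2, fun v => c1 v - (ε / 3) * ((3 / ε) * (c2 v - c1 v)),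
    fun v => (3 / ε) * (c2 v - c1 v), hx, hy, ?_, ?_, ε, hε, hL⟩
  · intro v hv
    change 0 ≤ c1 v - (ε / 3) * ((3 / ε) * (c2 v - c1 v))
    by_contra hneg
    push Not at hneg
    have key' := fun δ h0 h1 => key δ h0 h1 v hv
    generalize c1 v - (ε / 3) * ((3 / ε) * (c2 v - c1 v)) = C at key' hneg
    generalize (3 / ε) * (c2 v - c1 v) = D at key'
    have hD0 : 0 < |D| + 1 := by positivity
    have h1 : 0 < -C / (2 * (|D| + 1)) := div_pos (neg_pos.2 hneg) (by positivity)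
    have h2 := key' (min (ε / 2) (-C / (2 * (|D| + 1)))) (lt_min (by linarith) h1)
      (lt_of_le_of_lt (min_le_left _ _) (by linarith))
    have h3 : min (ε / 2) (-C / (2 * (|D| + 1))) * D ≤ -C / 2 := by
      calc min (ε / 2) (-C / (2 * (|D| + 1))) * D
          ≤ min (ε / 2) (-C / (2 * (|D| + 1))) * (|D| + 1) :=
            mul_le_mul_of_nonneg_left (by linarith [le_abs_self D])
              (le_min (by linarith) h1.le)
        _ ≤ -C / (2 * (|D| + 1)) * (|D| + 1) :=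
            mul_le_mul_of_nonneg_right (min_le_right _ _) hD0.le
        _ = -C / 2 := by field_simp
    linarith
  · intro v hv h0
    have h1 := key (ε / 2) (by linarith) (by linarith) v hv
    change c1 v - (ε / 3) * ((3 / ε) * (c2 v - c1 v)) = 0 at h0
    change 0 < (3 / ε) * (c2 v - c1 v)
    rw [h0, zero_add] at h1
    exact (pos_iff_pos_of_mul_pos h1).1 (by linarith)

end ToricPB
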