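import Pool.Agent.Lib.MP_3d51eb_gt.PB.Spec2

set_option autoImplicit false

noncomputable section

namespace ToricPB

open Finset MvPolynomial

theorem tMain : StStep → StMain := by
  intro hStep n K k
  induction k generalizing K with
  | zero =>
    intro e U hK hn hS hU
    refine ⟨fun _ h => absurd h (lt_irrefl 0), fun _ => ⟨K, hK, Blowups.refl K, RingHom.id _,
      Function.injective_id, fun y => ?_⟩⟩
    constructor
    · intro hy
      exact ⟨y, hS.hU hy, rfl⟩
    · rintro ⟨z, hz, rfl⟩
      obtain ⟨u, hu, c, hc⟩ := hS.gen z hz
      simp only [Finset.univ_eq_empty, Finset.sum_empty, add_zero] at hc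
      rw [hc]
      exact hu
  | succ k ih =>
    intro e U hK hn hS hU
    rcases hStep n K k e U hK hn hS hU with ⟨hP, hk, hU0⟩ |
      ⟨K0, S, e', U', π, hK0, hNT, hSK, hSn, hKb, hS', hinj, hUU, hbot, hsq⟩
    · subst hk
      exact ⟨fun _ _ => ⟨K, hP, Blowups.refl K⟩, fun h => absurd hU0 h⟩
    · have hU' : U' = ⊥ ∨ SqZero K0 U' := hU.imp hbot hsq
      obtain ⟨i1, i2⟩ := ih K0 e' U' hK0 hn hS' hU'
      constructor
      · intro hU0 _
        have hU'0 := hbot hU0
        have hk : 0 < k := by
          rcases Nat.eq_zero_or_pos k with h | h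
          · exfalso
            subst h
            have hz : ∀ v, cls K0 v = 0 := by
              intro v
              obtain ⟨u, hu, c, hc⟩ := hS'.gen _ (cls_mem v)
              rw [hU'0, Submodule.mem_bot] at hu
              simp only [Finset.univ_eq_empty, Finset.sum_empty, add_zero] at hc
              rw [hc, hu]
            have hS0 : S.Nonempty := by
              rw [← Finset.card_pos, hSn]; omega
            obtain ⟨v, hv⟩ := hS0
            have hm : mon K0 S = 0 := Finset.prod_eq_zero hv (hz v)
            have := hNT S hSK hSn 1 (by rw [hm, smul_zero])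
            exact absurd this one_ne_zero
          · exact h
        obtain ⟨K1, h1, h2⟩ := i1 hU'0 hk
        refine ⟨K1, h1, ?_⟩
        have h3 := Blowups.step (k - 1) K1 K0 S h2 hSK hSn
        rw [← hKb] at h3
        have : k + 1 - 1 = k - 1 + 1 := by omega
        rw [this]
        exact h3
      · intro hUne
        have hU'ne : U' ≠ ⊥ := by
          intro h
          apply hUne
          rw [Submodule.eq_bot_iff]
          intro y hy
          obtain ⟨z, hz, rfl⟩ := (hUU y).1 hy
          rw [h, Submodule.mem_bot] at hz
          rw [hz, map_zero]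
        obtain ⟨K1, h1, h2, ι, h3, h4⟩ := i2 hU'ne
        refine ⟨K1, h1, ?_, π.comp ι, ?_, ?_⟩
        · have h5 := Blowups.step k K1 K0 S h2 hSK hSn
          rw [← hKb] at h5
          exact h5
        · intro a b hab
          exact h3 (hinj hab)
        · intro y
          rw [hUU y]
          constructor
          · rintro ⟨z, hz, rfl⟩
            obtain ⟨w, hw, rfl⟩ := (h4 z).1 hz
            exact ⟨w, hw, rfl⟩
          · rintro ⟨w, hw, rfl⟩
            exact ⟨ι w, (h4 _).2 ⟨w, hw, rfl⟩, rfl⟩

end ToricPB
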