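import Pool.Agent.Lib.MP_3d51eb_gt.PB.Spec2

set_option autoImplicit false

noncomputable section

namespace ToricPB

open Finset MvPolynomial

namespace Mul_aux

variable {n : ℕ} {K : Finset (Finset (Vec n))}

open Classical in
/-- a class which vanishes on the wall -/
lemma cl_mul_mon {τ : Finset (Vec n)} {p q : Vec n} {b : Vec n → ℤ} (hW : Wall K τ p q b)
    (χ : Vec n → ℤ) (hχ : ∀ v ∈ τ, χ v = 0) :
    cl K χ * mon K τ = χ p • mon K (insert p τ) + χ q • mon K (insert q τ) := by
  obtain ⟨h1, h2, h3, h4, h5, h6, h7, h8, h9⟩ := hW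
  have hsub : ({p, q} : Finset (Vec n)) ⊆ verts K := by
    intro v hv
    rw [mem_insert, mem_singleton] at hv
    rcases hv with rfl | rfl
    · exact mem_verts_of_mem h6 (mem_insert_self _ _)
    · exact mem_verts_of_mem h7 (mem_insert_self _ _)
  rw [cl, Finset.sum_mul, ← Finset.sum_subset hsub (f := fun v => χ v • cls K v * mon K τ)]
  · rw [sum_pair h5, smul_mul_assoc, smul_mul_assoc, ← mon_insert h3, ← mon_insert h4]
  · intro v _ hv
    rw [mem_insert, mem_singleton] at hv
    by_cases hvτ : v ∈ τ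
    · rw [hχ v hvτ, zero_smul, zero_mul]
    · have : insert v τ ∉ K := fun h => hv (h8 v hvτ h)
      rw [smul_mul_assoc, ← mon_insert hvτ, mon_eq_zero this, smul_zero]

lemma pr_wall {τ : Finset (Vec n)} {p q : Vec n} {b : Vec n → ℤ} (hW : Wall K τ p q b)
    (m : Vec n) : pr m p + pr m q + ∑ v ∈ τ, b v * pr m v = 0 := by
  have h := congrArg (pr m) hW.2.2.2.2.2.2.2.2
  simpa only [pr_add, pr_sum, pr_smul, pr_zero] using h

end Mul_aux

open Mul_aux

open Classical in
theorem tMul : StInt → StMul := by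
  intro hInt n K hK τ p q b hW
  have hW' := hW
  obtain ⟨h1, h2, h3, h4, h5, h6, h7, h8, h9⟩ := hW'
  have hI := (hInt n (insert p τ) (hK.smooth _ h6)).1
  have h10 : mon K (insert q τ) = mon K (insert p τ) := by
    obtain ⟨m, hm⟩ := hI (fun v => if v = p then 1 else 0)
    have hmp : pr m p = 1 := by
      rw [hm p (mem_insert_self _ _), if_pos rfl]
    have hmτ : ∀ v ∈ τ, pr m v = 0 := by
      intro v hv
      rw [hm v (mem_insert_of_mem hv), if_neg (show ¬ v = p from fun h => h3 (h ▸ hv))]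
    have hmq : pr m q = -1 := by
      have := pr_wall hW m
      rw [Finset.sum_eq_zero (fun v hv => by rw [hmτ v hv, mul_zero]), hmp] at this
      linarith
    have h := cl_mul_mon hW (pr m) hmτ
    rw [cl_pr, zero_mul, hmp, hmq, one_smul, neg_smul, one_smul] at h
    exact (sub_eq_zero.1 (by rw [sub_eq_add_neg]; exact h.symm)).symm
  refine ⟨fun ψ => ?_, h10⟩
  obtain ⟨m, hm⟩ := hI ψ
  have hχτ : ∀ v ∈ τ, ψ v - pr m v = 0 := by
    intro v hv
    rw [hm v (mem_insert_of_mem hv), sub_self]
  have h := cl_mul_mon hW (fun v => ψ v - pr m v) hχτ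
  rw [cl_sub_pr] at h
  have hb : bend ψ τ p q b = ψ q - pr m q := by
    have h11 := pr_wall hW m
    have h12 : ∑ v ∈ τ, b v * pr m v = ∑ v ∈ τ, b v * ψ v :=
      Finset.sum_congr rfl (fun v hv => by rw [hm v (mem_insert_of_mem hv)])
    have h13 := hm p (mem_insert_self _ _)
    rw [bend]
    linarith
  rw [h, hb, h10]
  have : ψ p - pr m p = 0 := by rw [hm p (mem_insert_self _ _), sub_self]
  simp only [this, zero_smul, zero_add]

end ToricPB
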