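import Pool.Agent.Lib.MP_3d51eb_gt.PB.Spec

set_option autoImplicit false

/-!
# project PB: a cone near an open set is a face of a maximal cone
-/

noncomputable section

namespace ToricPB

open Finset MvPolynomial

theorem tNear : StDual → StUq → StLoc → StGen → StNear := by
  intro hD hQ hL hG n K hK Ω hΩ κ hκ x hx hxκ
  obtain ⟨y, hy⟩ := (hG n).1 (K.filter (fun s => s.card < n)) (fun s hs =>
    (Finset.mem_filter.1 hs).2)
  obtain ⟨σ, hσ, c, d, hxc, hyd, hc0, -, ε, hε, hrel⟩ := hL n K hK x y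
  have hcard : σ.card = n := by
    rcases lt_or_eq_of_le (hD n σ (hK.smooth σ hσ)).1 with h | h
    · exact absurd hyd (hy σ (Finset.mem_filter.2 ⟨hσ, h⟩) d)
    · exact h
  have hsub : κ ⊆ σ := by
    rw [hxc] at hxκ
    rw [(hQ n K hK).2 σ hσ κ hκ c hc0 hxκ]
    exact Finset.filter_subset _ _
  have hcont : Continuous (fun δ : ℝ => x + δ • y) := by fun_prop
  have hpre : IsOpen ((fun δ : ℝ => x + δ • y) ⁻¹' Ω) := hΩ.preimage hcont
  obtain ⟨ρ, hρ, hball⟩ := Metric.isOpen_iff.1 hpre 0 (by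
    show x + (0 : ℝ) • y ∈ Ω
    rw [zero_smul, add_zero]
    exact hx)
  have hm : 0 < min ε ρ := lt_min hε hρ
  refine ⟨σ, hσ, hsub, hcard, x + (min ε ρ / 2) • y, ?_, ?_⟩
  · apply hball
    rw [Metric.mem_ball, Real.dist_eq, sub_zero, abs_of_pos (by linarith)]
    have := min_le_right ε ρ
    linarith
  · apply hrel
    · linarith
    · have := min_le_left ε ρ
      linarith

end ToricPB
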