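import Pool.Agent.Lib.MP_3d51eb_gt.PB.Spec2

set_option autoImplicit false

noncomputable section

namespace ToricPB

open Finset MvPolynomial

open Classical in
theorem tNeg : StNegStep → StNegEnd → StNeg := by
  intro hStep hEnd n K ψ u hK hn hNT hpos hzero v hv
  by_contra hne
  have h0 : NegSt K ψ ∅ u := by
    refine ⟨hK.empty_mem, fun w hw => absurd hw (notMem_empty w),
      ⟨{v}, hK.single hv, empty_subset _, v, mem_singleton_self v, hne⟩,
      fun w hw => absurd hw (notMem_empty w), fun F hF _ hp w hw _ => hpos F hF hp w hw⟩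
  have hall : ∀ k : ℕ, k + 2 ≤ n → ∃ τ : Finset (Vec n), ∃ u' : Fin n → ℝ,
      τ.card = k ∧ NegSt K ψ τ u' := by
    intro k
    induction k with
    | zero => exact fun _ => ⟨∅, u, card_empty, h0⟩
    | succ k ih =>
      intro hk
      obtain ⟨τ, u', hτ, hst⟩ := ih (by omega)
      obtain ⟨q, hq, _, u'', hst'⟩ := hStep n K ψ τ u' hK hst (by omega)
      exact ⟨insert q τ, u'', by rw [card_insert_of_notMem hq, hτ], hst'⟩
  obtain ⟨τ, u', hτ, hst⟩ := hall (n - 2) (by omega)
  exact hEnd n K ψ τ u' hK hNT hst (by omega) (hzero τ hst.1 (by omega))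

end ToricPB
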