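import Pool.Agent.Lib.MP_3d51eb_gt.PB.Spec2

set_option autoImplicit false

noncomputable section

namespace ToricPB

open Finset MvPolynomial

namespace NegEnd_aux

open Classical in
/-- The discrete Dirichlet form. -/
lemma dirichlet {ι : Type} (S W : Finset ι) (hSW : S ⊆ W) (A : ι → ι → Prop) (x g : ι → ℝ)
    (hsymm : ∀ q ∈ S, ∀ p ∈ S, A q p → A p q) (hu : ∀ q ∈ S, 0 < g q)
    (hu' : ∀ q ∈ S, ∀ p ∈ W, A q p → 0 < g p) (hx : ∀ q ∈ S, x q ≠ 0)
    (hx0 : ∀ q ∈ S, ∀ p ∈ W, A q p → p ∉ S → x p = 0)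
    (hex : ∃ q ∈ S, ∃ p ∈ W, p ∉ S ∧ A q p) :
    ∑ q ∈ S, ∑ p ∈ W.filter (fun p => A q p), (x q * x p - x q ^ 2 * g p / g q) < 0 := by
  set f : ι → ι → ℝ := fun q p => if A q p then x q * x p - x q ^ 2 * g p / g q else 0 with hf
  have h1 : ∑ q ∈ S, ∑ p ∈ W.filter (fun p => A q p), (x q * x p - x q ^ 2 * g p / g q) =
      ∑ q ∈ S, ∑ p ∈ S, f q p + ∑ q ∈ S, ∑ p ∈ W \ S, f q p := by
    rw [← Finset.sum_add_distrib]
    refine Finset.sum_congr rfl (fun q _ => ?_)
    rw [Finset.sum_filter, add_comm, Finset.sum_sdiff hSW]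
  have h2 : ∑ q ∈ S, ∑ p ∈ S, f q p + ∑ q ∈ S, ∑ p ∈ S, f q p ≤ 0 := by
    have h3 : ∑ q ∈ S, ∑ p ∈ S, f q p = ∑ q ∈ S, ∑ p ∈ S, f p q := Finset.sum_comm
    nth_rewrite 2 [h3]
    rw [← Finset.sum_add_distrib]
    refine Finset.sum_nonpos (fun q hq => ?_)
    rw [← Finset.sum_add_distrib]
    refine Finset.sum_nonpos (fun p hp => ?_)
    have hq' := hu q hq
    have hp' := hu p hp
    by_cases hA : A q p
    · have hA' := hsymm q hq p hp hA
      simp only [hf, if_pos hA, if_pos hA']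
      have : x q * x p - x q ^ 2 * g p / g q + (x p * x q - x p ^ 2 * g q / g p) =
          -(g p * g q) * (x q / g q - x p / g p) ^ 2 := by
        field_simp
        ring
      rw [this]
      have := mul_nonneg (mul_pos hp' hq').le (sq_nonneg (x q / g q - x p / g p))
      linarith
    · have hA' : ¬ A p q := fun h => hA (hsymm p hp q hq h)
      simp only [hf, if_neg hA, if_neg hA']
      norm_num
  have hle : ∀ q ∈ S, ∀ p ∈ W \ S, f q p ≤ 0 := by
    intro q hq p hp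
    rw [Finset.mem_sdiff] at hp
    by_cases hA : A q p
    · simp only [hf, if_pos hA]
      rw [hx0 q hq p hp.1 hA hp.2]
      have := hu q hq
      have := hu' q hq p hp.1 hA
      have : 0 ≤ x q ^ 2 * g p / g q := by positivity
      linarith
    · simp only [hf, if_neg hA]
      exact le_refl _
  have h4 : ∑ q ∈ S, ∑ p ∈ W \ S, f q p < 0 := by
    obtain ⟨q0, hq0, p0, hp0, hpS, hA⟩ := hex
    refine Finset.sum_neg' (fun q hq => Finset.sum_nonpos (hle q hq)) ⟨q0, hq0, ?_⟩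
    refine Finset.sum_neg' (hle q0 hq0) ⟨p0, Finset.mem_sdiff.2 ⟨hp0, hpS⟩, ?_⟩
    simp only [hf, if_pos hA]
    rw [hx0 q0 hq0 p0 hp0 hA hpS]
    have h5 := hu q0 hq0
    have h6 := hu' q0 hq0 p0 hp0 hA
    have h7 := hx q0 hq0
    have : 0 < x q0 ^ 2 * g p0 / g q0 := by positivity
    linarith
  rw [h1]
  linarith

variable {n : ℕ}

/-- adjacency in the link of `τ` -/
def Adj (K : Finset (Finset (Vec n))) (τ : Finset (Vec n)) (q p : Vec n) : Prop :=
  p ∉ insert q τ ∧ insert p (insert q τ) ∈ K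

lemma Adj.symm {K : Finset (Finset (Vec n))} {τ : Finset (Vec n)} {q p : Vec n} (hq : q ∉ τ)
    (h : Adj K τ q p) : Adj K τ p q := by
  obtain ⟨h1, h2⟩ := h
  rw [mem_insert, not_or] at h1
  refine ⟨?_, ?_⟩
  · rw [mem_insert, not_or]
    exact ⟨fun h => h1.1 h.symm, hq⟩
  · rwa [Finset.insert_comm]

end NegEnd_aux

open NegEnd_aux

open Classical in
theorem tNegEnd : StWall → StMul → StPt → StNegStep → StNegEnd := by
  intro hWall hMul hPt hStep n K ψ τ u hK hNT hst hcard h0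
  obtain ⟨hτK, hψτ, -, huτ, hpos⟩ := id hst
  -- the vertices of the link where ψ is not zero
  set S : Finset (Vec n) := (verts K).filter (fun q => q ∉ τ ∧ insert q τ ∈ K ∧ ψ q ≠ 0) with hS
  have memS : ∀ q, q ∈ S ↔ q ∉ τ ∧ insert q τ ∈ K ∧ ψ q ≠ 0 := by
    intro q
    rw [hS, mem_filter]
    refine ⟨fun h => h.2, fun h => ⟨mem_verts_of_mem h.2.1 (mem_insert_self _ _), h⟩⟩
  have hSW : S ⊆ verts K := filter_subset _ _
  -- the wall through q
  have hw : ∀ q ∈ S, ∃ p1 p2 b, Wall K (insert q τ) p1 p2 b := by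
    intro q hq
    obtain ⟨h1, h2, h3⟩ := (memS q).1 hq
    exact hWall n K hK (insert q τ) h2 (by rw [card_insert_of_notMem h1]; omega)
  choose! p1 p2 b hw using hw
  -- the product with `mon K τ`
  have hm1 : cl K ψ * mon K τ = ∑ q ∈ S, ψ q • mon K (insert q τ) := by
    rw [cl, Finset.sum_mul]
    rw [← Finset.sum_subset hSW (f := fun v => ψ v • cls K v * mon K τ)]
    · refine Finset.sum_congr rfl (fun q hq => ?_)
      rw [smul_mul_assoc, mon_insert ((memS q).1 hq).1]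
    · intro v hv hvS
      by_cases hvτ : v ∈ τ
      · rw [hψτ v hvτ, zero_smul, zero_mul]
      · by_cases hψ : ψ v = 0
        · rw [hψ, zero_smul, zero_mul]
        · have : insert v τ ∉ K := fun h => hvS ((memS v).2 ⟨hvτ, h, hψ⟩)
          rw [smul_mul_assoc, ← mon_insert hvτ, mon_eq_zero this, smul_zero]
  -- the pair given by the descent
  obtain ⟨q0, hq0τ, hq0ψ, u', hst'⟩ := hStep n K ψ τ u hK hst (by omega)
  obtain ⟨-, -, ⟨F, hF, hτF, p0, hp0F, hp0ψ⟩, -, -⟩ := hst'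
  have hq0F : q0 ∈ F := hτF (mem_insert_self _ _)
  have hττF : τ ⊆ F := fun v hv => hτF (mem_insert_of_mem hv)
  have hp0τ : p0 ∉ τ := fun h => hp0ψ (hψτ p0 h)
  have hp0q0 : p0 ≠ q0 := fun h => hp0ψ (h ▸ hq0ψ)
  have hp0S : p0 ∈ S := (memS p0).2 ⟨hp0τ,
    hK.down F hF _ (insert_subset hp0F hττF), hp0ψ⟩
  have hA0 : Adj K τ p0 q0 := by
    refine ⟨?_, hK.down F hF _ (insert_subset hq0F (insert_subset hp0F hττF))⟩
    rw [mem_insert, not_or]
    exact ⟨fun h => hp0q0 h.symm, hq0τ⟩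
  have hq0S : q0 ∉ S := fun h => ((memS q0).1 h).2.2 hq0ψ
  have hq0W : q0 ∈ verts K := mem_verts_of_mem hF hq0F
  -- the class of a point
  set σ0 : Finset (Vec n) := insert (p1 p0) (insert p0 τ) with hσ0
  have hcardq : ∀ q ∈ S, (insert q τ).card + 1 = n := by
    intro q hq
    rw [card_insert_of_notMem ((memS q).1 hq).1]; omega
  have hmax : ∀ q ∈ S, insert (p1 q) (insert q τ) ∈ K ∧ (insert (p1 q) (insert q τ)).card = n := by
    intro q hq
    obtain ⟨h1, h2, h3, h4, h5, h6, h7, h8, h9⟩ := hw q hq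
    exact ⟨h6, by rw [card_insert_of_notMem h3, hcardq q hq]⟩
  have hPP : ∀ q ∈ S, mon K (insert (p1 q) (insert q τ)) = mon K σ0 := by
    intro q hq
    exact hPt n K hK (by omega) _ (hmax q hq).1 _ (hmax p0 hp0S).1 (hmax q hq).2 (hmax p0 hp0S).2
  have hm2 : cl K ψ * cl K ψ * mon K τ =
      (∑ q ∈ S, ψ q * bend ψ (insert q τ) (p1 q) (p2 q) (b q)) • mon K σ0 := by
    rw [mul_assoc, hm1, Finset.mul_sum, Finset.sum_smul]
    refine Finset.sum_congr rfl (fun q hq => ?_)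
    rw [mul_smul_comm, (hMul n K hK _ _ _ _ (hw q hq)).1 ψ, hPP q hq, smul_smul]
  have hzero : ∑ q ∈ S, ψ q * bend ψ (insert q τ) (p1 q) (p2 q) (b q) = 0 :=
    hNT σ0 (hmax p0 hp0S).1 (hmax p0 hp0S).2 _ (by rw [← hm2, h0])
  -- positivity of u
  set g : Vec n → ℝ := fun v => dot u (toR v) with hg
  have hgS : ∀ q ∈ S, 0 < g q := by
    intro q hq
    obtain ⟨h1, h2, h3⟩ := (memS q).1 hq
    exact hpos _ h2 (subset_insert _ _) ⟨q, mem_insert_self _ _, h3⟩ q (mem_insert_self _ _) h1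
  have hgA : ∀ q ∈ S, ∀ p, Adj K τ q p → 0 < g p := by
    intro q hq p hA
    obtain ⟨h1, h2, h3⟩ := (memS q).1 hq
    refine hpos _ hA.2 (fun v hv => mem_insert_of_mem (mem_insert_of_mem hv))
      ⟨q, mem_insert_of_mem (mem_insert_self _ _), h3⟩ p (mem_insert_self _ _) ?_
    exact fun h => hA.1 (mem_insert_of_mem h)
  -- the bends as sums over the neighbours
  have hbend : ∀ q ∈ S, ((ψ q * bend ψ (insert q τ) (p1 q) (p2 q) (b q) : ℤ) : ℝ) =
      ∑ p ∈ (verts K).filter (fun p => Adj K τ q p),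
        ((ψ q : ℝ) * (ψ p : ℝ) - (ψ q : ℝ) ^ 2 * g p / g q) := by
    intro q hq
    obtain ⟨h1, h2, h3, h4, h5, h6, h7, h8, h9⟩ := hw q hq
    have hqτ := ((memS q).1 hq).1
    have hN : (verts K).filter (fun p => Adj K τ q p) = {p1 q, p2 q} := by
      ext p
      rw [mem_filter, mem_insert, mem_singleton]
      refine ⟨fun h => h8 p h.2.1 h.2.2, ?_⟩
      rintro (rfl | rfl)
      · exact ⟨mem_verts_of_mem h6 (mem_insert_self _ _), h3, h6⟩
      · exact ⟨mem_verts_of_mem h7 (mem_insert_self _ _), h4, h7⟩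
    rw [hN, sum_pair h5]
    have hb1 : bend ψ (insert q τ) (p1 q) (p2 q) (b q) =
        ψ (p1 q) + ψ (p2 q) + b q q * ψ q := by
      rw [bend, sum_insert hqτ, Finset.sum_eq_zero (fun v hv => by rw [hψτ v hv, mul_zero]),
        add_zero]
    have hb2 : g (p1 q) + g (p2 q) + (b q q : ℝ) * g q = 0 := by
      have h10 := congrArg (fun v => dot u (toR v)) h9
      simp only [toR_add, toR_sum, toR_smul, toR_zero, dot_add, dot_sum, dot_smul, dot_zero] at h10
      rw [sum_insert hqτ, Finset.sum_eq_zero (fun v hv => by rw [huτ v hv, mul_zero]),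
        add_zero] at h10
      exact h10
    have hgq := hgS q hq
    have hb3 : (b q q : ℝ) = -(g (p1 q) + g (p2 q)) / g q := by
      rw [eq_div_iff hgq.ne']
      linarith
    rw [hb1]
    push_cast
    rw [hb3]
    field_simp
    ring
  have hlt := dirichlet S (verts K) hSW (Adj K τ) (fun v => (ψ v : ℝ)) g
    (fun q hq p _ h => h.symm ((memS q).1 hq).1) hgS (fun q hq p _ h => hgA q hq p h)
    (fun q hq => by exact_mod_cast ((memS q).1 hq).2.2)
    (fun q hq p _ hA hpS => by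
      by_contra hne
      refine hpS ((memS p).2 ⟨fun h => hA.1 (mem_insert_of_mem h), ?_, fun h => hne (by simp [h])⟩)
      exact hK.down _ hA.2 _ (insert_subset (mem_insert_self _ _)
        (fun v hv => mem_insert_of_mem (mem_insert_of_mem hv))))
    ⟨p0, hp0S, q0, hq0W, hq0S, hA0⟩
  rw [← Finset.sum_congr rfl hbend, ← Int.cast_sum, hzero] at hlt
  simp at hlt

end ToricPB
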