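import Pool.Agent.Lib.MP_3d51eb_gt.PB.Spec2

set_option autoImplicit false

/-!
# MP_3d51eb_gt, project PB, module NegStep: the descent step of the negativity lemma (helper2)
-/

noncomputable section

namespace ToricPB

open Finset MvPolynomial

variable {n : ℕ}

/-- Two different rays of the star of `τ` are not proportional modulo `τ` with positive factors. -/
private lemma ns_span {K : Finset (Finset (Vec n))} (hUq : StUq) (hK : IsFan K) {τ : Finset (Vec n)}
    {v v' : Vec n} (hv : v ∉ τ) (hv' : v' ∉ τ) (hvK : insert v τ ∈ K) (hvK' : insert v' τ ∈ K)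
    (hne : v ≠ v') {a b : ℝ} (ha : 0 < a) (hb : 0 < b) (c : Vec n → ℝ) :
    a • toR v - b • toR v' ≠ lin τ c := by
  intro h
  obtain ⟨M, hM⟩ : ∃ M : ℝ, ∀ w ∈ τ, 0 < M ∧ 0 < M + c w := by
    refine ⟨1 + ∑ w ∈ τ, |c w|, fun w hw => ?_⟩
    have h1 : |c w| ≤ ∑ w ∈ τ, |c w| :=
      Finset.single_le_sum (f := fun w => |c w|) (fun i _ => abs_nonneg (c i)) hw
    have h2 := neg_abs_le (c w)
    have h3 := abs_nonneg (c w)
    constructor <;> linarith
  have e1 : lin (insert v τ) (fun x => if x = v then a else M) = a • toR v + lin τ (fun _ => M) := by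
    rw [lin_insert hv, if_pos rfl]
    congr 1
    refine lin_congr fun x hx => ?_
    rw [if_neg]
    rintro rfl
    exact hv hx
  have e2 : lin (insert v' τ) (fun x => if x = v' then b else M + c x) =
      b • toR v' + (lin τ (fun _ => M) + lin τ c) := by
    rw [lin_insert hv', if_pos rfl, ← lin_add]
    congr 1
    refine lin_congr fun x hx => ?_
    rw [if_neg]
    rintro rfl
    exact hv' hx
  have e3 : lin (insert v τ) (fun x => if x = v then a else M) =
      lin (insert v' τ) (fun x => if x = v' then b else M + c x) := by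
    rw [e1, e2, ← h]
    abel
  have h4 := (hUq n K hK).1 (insert v τ) hvK (insert v' τ) hvK' _ _ (fun x hx => ?_)
    (fun x hx => ?_) e3
  · have h5 : v ∈ insert v' τ := by
      rw [← h4.1]
      exact Finset.mem_insert_self v τ
    rcases Finset.mem_insert.1 h5 with h6 | h6
    · exact hne h6
    · exact hv h6
  · show 0 < if x = v then a else M
    split_ifs with h5
    · exact ha
    · exact (hM x ((Finset.mem_insert.1 hx).resolve_left h5)).1
  · show 0 < if x = v' then b else M + c x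
    split_ifs with h5
    · exact hb
    · exact (hM x ((Finset.mem_insert.1 hx).resolve_left h5)).2

theorem tNegStep : StDual → StUq → StLoc → StGen → StNear → StNegStep := by
  classical
  intro _ hUq hLoc hGen hNear n K ψ τ u hK hN hcard
  obtain ⟨hτ, hψ, ⟨F0, hF0, hτF0, p0, hp0, hψp0⟩, hu0, hu⟩ := hN
  obtain ⟨T, hT⟩ : ∃ T : Finset (Vec n), ∀ v, v ∈ T ↔
      v ∉ τ ∧ ∃ F ∈ K, τ ⊆ F ∧ v ∈ F ∧ ∃ p ∈ F, ψ p ≠ 0 := by
    refine ⟨(verts K).filter (fun v => v ∉ τ ∧ ∃ F ∈ K, τ ⊆ F ∧ v ∈ F ∧ ∃ p ∈ F, ψ p ≠ 0),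
      fun v => ?_⟩
    rw [Finset.mem_filter]
    exact ⟨fun h => h.2, fun h => ⟨by
      obtain ⟨-, F, hF, -, hv, -⟩ := h
      exact mem_verts_of_mem hF hv, h⟩⟩
  have hTne : T.Nonempty := ⟨p0, (hT p0).2 ⟨fun h => hψp0 (hψ p0 h), F0, hF0, hτF0, hp0, p0, hp0, hψp0⟩⟩
  have huT : ∀ v ∈ T, 0 < dot u (toR v) := by
    intro v hv
    obtain ⟨h1, F, hF, h2, h3, h4⟩ := (hT v).1 hv
    exact hu F hF h2 h4 v h3 h1
  have hTK : ∀ v ∈ T, insert v τ ∈ K := by
    intro v hv
    obtain ⟨-, F, hF, h2, h3, -⟩ := (hT v).1 hv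
    exact hK.down F hF _ (Finset.insert_subset h3 h2)
  -- the generic form
  obtain ⟨w, hw0, hw⟩ := (hGen n).2 τ (((T ×ˢ T).filter (fun p => p.1 ≠ p.2)).image
    (fun p => dot u (toR p.2) • toR p.1 - dot u (toR p.1) • toR p.2)) (by
      intro z hz c
      obtain ⟨p, hp, rfl⟩ := Finset.mem_image.1 hz
      obtain ⟨hp1, hp2⟩ := Finset.mem_filter.1 hp
      obtain ⟨h1, h2⟩ := Finset.mem_product.1 hp1
      exact ns_span hUq hK ((hT _).1 h1).1 ((hT _).1 h2).1 (hTK _ h1) (hTK _ h2) hp2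
        (huT _ h2) (huT _ h1) c)
  obtain ⟨q, hq, hmax⟩ := Finset.exists_max_image T (fun v => dot w (toR v) / dot u (toR v)) hTne
  obtain ⟨c, hc⟩ : ∃ c : ℝ, c = dot w (toR q) / dot u (toR q) := ⟨_, rfl⟩
  obtain ⟨w', hw'⟩ : ∃ w' : Fin n → ℝ, ∀ x, dot w' x = dot w x - c * dot u x :=
    ⟨w - c • u, fun x => by rw [dot_sub_left, dot_smul_left]⟩
  have huq := huT q hq
  have hqτ : q ∉ τ := ((hT q).1 hq).1
  have w0 : ∀ v ∈ insert q τ, dot w' (toR v) = 0 := by
    intro v hv
    rcases Finset.mem_insert.1 hv with rfl | hv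
    · rw [hw', hc, div_mul_cancel₀ _ huq.ne', sub_self]
    · rw [hw', hw0 v hv, hu0 v hv, mul_zero, sub_zero]
  have wneg : ∀ v ∈ T, v ≠ q → dot w' (toR v) < 0 := by
    intro v hv hne
    have h1 := hmax v hv
    have h2 : dot w (toR v) / dot u (toR v) ≤ c := by rw [hc]; exact h1
    have h3 := (div_le_iff₀ (huT v hv)).1 h2
    have h4 : dot w (dot u (toR q) • toR v - dot u (toR v) • toR q) ≠ 0 :=
      hw _ (Finset.mem_image.2 ⟨(v, q), Finset.mem_filter.2
        ⟨Finset.mem_product.2 ⟨hv, hq⟩, hne⟩, rfl⟩)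
    rw [hw']
    rcases lt_or_eq_of_le h3 with h5 | h5
    · linarith
    · exfalso
      apply h4
      rw [sub_eq_add_neg, dot_add, dot_neg, dot_smul, dot_smul, h5, hc]
      field_simp
      ring
  have hqK := hTK q hq
  have hTof : ∀ F ∈ K, insert q τ ⊆ F → (∃ p ∈ F, ψ p ≠ 0) → ∀ v ∈ F, v ∉ insert q τ →
      dot w' (toR v) < 0 := by
    intro F hF hsub hp v hv hnv
    refine wneg v ((hT v).2 ⟨fun h => hnv (Finset.mem_insert_of_mem h), F, hF,
      (Finset.subset_insert q τ).trans hsub, hv, hp⟩) ?_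
    rintro rfl
    exact hnv (Finset.mem_insert_self v τ)
  have hψq : ψ q = 0 := by
    by_contra hψq
    have hall : ∀ F ∈ K, insert q τ ⊆ F → ∀ v ∈ F, v ∉ insert q τ → dot w' (toR v) < 0 :=
      fun F hF hsub => hTof F hF hsub ⟨q, hsub (Finset.mem_insert_self q τ), hψq⟩
    obtain ⟨σ, hσ, hsub, hσn, -⟩ := hNear n K hK Set.univ isOpen_univ (insert q τ) hqK
      (lin (insert q τ) (fun _ => (1 : ℝ))) (Set.mem_univ _) (InRel.one _)
    have hcq : (insert q τ).card < σ.card := by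
      rw [Finset.card_insert_of_notMem hqτ, hσn]
      omega
    obtain ⟨v, hv, hnv⟩ := Finset.exists_mem_notMem_of_card_lt_card hcq
    have hne : w' ≠ 0 := by
      rintro rfl
      have h1 := hall σ hσ hsub v hv hnv
      rw [dot_zero_left] at h1
      exact lt_irrefl _ h1
    obtain ⟨κ, hκ, c', d, hx, hy, hc0, hcd, -⟩ := hLoc n K hK (lin (insert q τ) (fun _ => (1 : ℝ))) w'
    have hfil := (hUq n K hK).2 κ hκ (insert q τ) hqK c' hc0 (by
      rw [← hx]
      exact InRel.one _)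
    have hsub' : insert q τ ⊆ κ := by
      rw [hfil]
      exact Finset.filter_subset _ _
    have hpos := dot_self_pos hne
    have hle : dot w' w' ≤ 0 := by
      have e : dot w' w' = dot w' (lin κ d) := by rw [← hy]
      rw [e, dot_lin]
      refine Finset.sum_nonpos fun x hxκ => ?_
      by_cases hxq : x ∈ insert q τ
      · rw [w0 x hxq, mul_zero]
      · have h1 : c' x = 0 := by
          by_contra h2
          apply hxq
          rw [hfil, Finset.mem_filter]
          exact ⟨hxκ, lt_of_le_of_ne (hc0 x hxκ) (Ne.symm h2)⟩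
        exact (mul_neg_of_pos_of_neg (hcd x hxκ h1) (hall κ hκ hsub' x hxκ hxq)).le
    exact absurd hpos (not_lt.2 hle)
  refine ⟨q, hqτ, hψq, -w', hqK, ?_, ?_, ?_, ?_⟩
  · intro v hv
    rcases Finset.mem_insert.1 hv with rfl | hv
    · exact hψq
    · exact hψ v hv
  · obtain ⟨-, F, hF, h2, h3, h4⟩ := (hT q).1 hq
    exact ⟨F, hF, Finset.insert_subset h3 h2, h4⟩
  · intro v hv
    rw [dot_neg_left, w0 v hv, neg_zero]
  · intro F hF hsub hp v hv hnv
    rw [dot_neg_left]
    exact neg_pos.2 (hTof F hF hsub hp v hv hnv)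

end ToricPB
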