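import Pool.Agent.Lib.MP_3d51eb_gt.PB.Spec

set_option autoImplicit false

/-!
# project PB, module NoN: the support of a class has exactly `n + 1` rays
-/

noncomputable section

namespace ToricPB

open Finset MvPolynomial

/-- a nonzero vector orthogonal to `n` dependent vectors -/
private lemma NoN_orth {n : ℕ} (A : Finset (Vec n)) (v0 : Vec n) (h0 : v0 ∈ A)
    (hA : A.card = n) (hn : 1 ≤ n) (a : Vec n → ℤ) (ha : a v0 ≠ 0)
    (hrel : ∑ v ∈ A, a v • v = 0) :
    ∃ h : Fin n → ℝ, h ≠ 0 ∧ ∀ v ∈ A, dot h (toR v) = 0 := by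
  let L : (Fin n → ℝ) →ₗ[ℝ] (↥(A.erase v0) → ℝ) :=
    { toFun := fun h v => dot h (toR v.1)
      map_add' := fun h h' => by
        funext v
        exact dot_add_left _ _ _
      map_smul' := fun c h => by
        funext v
        exact dot_smul_left _ _ _ }
  have hker : LinearMap.ker L ≠ ⊥ := by
    apply LinearMap.ker_ne_bot_of_finrank_lt
    rw [Module.finrank_fintype_fun_eq_card, Module.finrank_fintype_fun_eq_card,
      Fintype.card_coe, Finset.card_erase_of_mem h0, hA, Fintype.card_fin]
    omega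
  obtain ⟨h, hh, hne⟩ := Submodule.exists_mem_ne_zero_of_ne_bot hker
  have h1 : ∀ v ∈ A.erase v0, dot h (toR v) = 0 := by
    intro v hv
    have h2 : L h = 0 := by simpa using hh
    have h3 := congrFun h2 ⟨v, hv⟩
    exact h3
  refine ⟨h, hne, ?_⟩
  have h2 : dot h (lin A (fun v => (a v : ℝ))) = 0 := by
    rw [lin_int, hrel, toR_zero, dot_zero]
  rw [dot_lin, ← Finset.add_sum_erase _ _ h0] at h2
  have h3 : ∑ v ∈ A.erase v0, (a v : ℝ) * dot h (toR v) = 0 := by
    apply Finset.sum_eq_zero
    intro v hv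
    rw [h1 v hv, mul_zero]
  rw [h3, add_zero] at h2
  intro v hv
  by_cases hv0 : v = v0
  · subst hv0
    rcases mul_eq_zero.1 h2 with h4 | h4
    · exact absurd (by exact_mod_cast h4) ha
    · exact h4
  · exact h1 v (Finset.mem_erase.2 ⟨hv0, hv⟩)

theorem tNoN : StDual → StSide → StLin → StCardA → StNoN := by
  intro hDual hSide hLin hCardA n K a ψ hK hn hC
  have hmem : ∀ v, v ∈ sup K a ↔ a v ≠ 0 := by
    intro v
    unfold sup
    rw [Finset.mem_filter]
    exact ⟨fun h => h.2, fun h => ⟨hC.supp v h, h⟩⟩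
  generalize hAdef : sup K a = A at hmem ⊢
  have hskel : ∀ s ⊆ A, s.card + 1 ≤ n → s ∈ K := fun s hs hc =>
    hC.skel s (fun v hv => (hmem v).1 (hs hv)) hc
  have hle : A.card ≤ n + 1 := hCardA n K hK hn A hskel
  have hsub : A ⊆ verts K := fun v hv => hC.supp v ((hmem v).1 hv)
  have hrel : ∑ v ∈ A, a v • v = 0 := by
    rw [← hC.rel]
    apply Finset.sum_subset hsub
    intro v _ hv
    have : a v = 0 := by
      by_contra h
      exact hv ((hmem v).2 h)
    rw [this, zero_smul]
  have hone : ∑ v ∈ A, a v * ψ v = 1 := by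
    rw [← hC.one]
    apply Finset.sum_subset hsub
    intro v _ hv
    have : a v = 0 := by
      by_contra h
      exact hv ((hmem v).2 h)
    rw [this, zero_mul]
  have hge : n ≤ A.card := by
    by_contra h
    have hAK : A ∈ K := hskel A (Finset.Subset.refl _) (by omega)
    obtain ⟨-, -, hind, -⟩ := hDual n A (hK.smooth A hAK)
    have h1 : ∀ v ∈ A, ((a v : ℤ) : ℝ) = 0 := by
      apply hind (fun v => (a v : ℝ))
      rw [lin_int, hrel, toR_zero]
    have h2 : ∑ v ∈ A, a v * ψ v = 0 := by
      apply Finset.sum_eq_zero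
      intro v hv
      have : a v = 0 := by exact_mod_cast h1 v hv
      rw [this, zero_mul]
    rw [h2] at hone
    exact zero_ne_one hone
  by_contra hne
  have hA : A.card = n := by omega
  have hAne : A.Nonempty := by
    rw [← Finset.card_pos]
    omega
  obtain ⟨v0, hv0⟩ := hAne
  obtain ⟨h, hh, hdot⟩ := NoN_orth A v0 hv0 hA (by omega) a ((hmem v0).1 hv0) hrel
  have hpos := dot_self_pos hh
  have hconv : Convex ℝ {x : Fin n → ℝ | dot h x < 0} := by
    intro x hx y hy s t hs ht hst
    simp only [Set.mem_ofPred_eq] at hx hy ⊢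
    rw [dot_add, dot_smul, dot_smul]
    rcases eq_or_lt_of_le hs with h1 | h1
    · have ht1 : t = 1 := by linarith
      rw [← h1, ht1]
      linarith
    · have h2 := mul_neg_of_pos_of_neg h1 hx
      have h3 := mul_nonpos_of_nonneg_of_nonpos ht hy.le
      linarith
  have hopen : IsOpen {x : Fin n → ℝ | dot h x < 0} :=
    isOpen_lt (dot_continuous h) continuous_const
  obtain ⟨m, hm⟩ := hLin n K hK (by omega) {x : Fin n → ℝ | dot h x < 0} hconv hopen ψ (by
    intro τ p q b hw hb x hx hin
    have hτ := hC.bd τ p q b hw hb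
    obtain ⟨c, -, rfl⟩ := hin
    simp only [Set.mem_ofPred_eq] at hx
    rw [dot_lin] at hx
    have : ∑ v ∈ τ, c v * dot h (toR v) = 0 := by
      apply Finset.sum_eq_zero
      intro v hv
      rw [hdot v ((hmem v).2 (hτ v hv)), mul_zero]
    linarith)
  have hψ : ∀ v ∈ A, ψ v = pr m v := by
    intro v hv
    obtain ⟨w, hw⟩ : (A.erase v).Nonempty := by
      rw [← Finset.card_pos, Finset.card_erase_of_mem hv]
      omega
    obtain ⟨hwv, hwA⟩ := Finset.mem_erase.1 hw
    have hτc : (A.erase w).card + 1 = n := by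
      rw [Finset.card_erase_of_mem hwA]
      omega
    have hτ0 : ∀ c : Vec n → ℝ, dot h (lin (A.erase w) c) = 0 := by
      intro c
      rw [dot_lin]
      apply Finset.sum_eq_zero
      intro u hu
      rw [hdot u (Finset.mem_of_mem_erase hu), mul_zero]
    obtain ⟨κ, hκ, hsubκ, hκc, ε, hε, hin⟩ := hSide n K hK (A.erase w)
      (hskel _ (Finset.erase_subset _ _) (by omega)) hτc (-h) (by
        intro c hc
        have h1 := hτ0 c
        rw [← hc, dot_neg] at h1
        linarith)
    apply hm κ hκ hκc ⟨_, ?_, hin (ε / 2) (by linarith) (by linarith)⟩ v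
    · exact hsubκ (Finset.mem_erase.2 ⟨fun h' => hwv h'.symm, hv⟩)
    · simp only [Set.mem_ofPred_eq]
      rw [dot_add, hτ0, dot_smul, dot_neg]
      have := mul_pos (half_pos hε) hpos
      linarith
  have h1 : ∑ v ∈ A, a v * ψ v = pr m (∑ v ∈ A, a v • v) := by
    rw [pr_sum]
    apply Finset.sum_congr rfl
    intro v hv
    rw [pr_smul, hψ v hv]
  rw [hone, hrel, pr_zero] at h1
  exact one_ne_zero h1

end ToricPB
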