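import Pool.Agent.Lib.MP_3d51eb_gt.PB.Spec2

set_option autoImplicit false

/-!
# MP_3d51eb_gt, project PB: `U` cannot lie inside a cone
-/

noncomputable section

namespace ToricPB

open Finset MvPolynomial

private theorem mon_erase {n : ℕ} {K : Finset (Finset (Vec n))} {s : Finset (Vec n)} {v : Vec n}
    (hv : v ∈ s) : mon K s = cls K v * mon K (s.erase v) := by
  rw [← mon_insert (Finset.notMem_erase v s), Finset.insert_erase hv]

/-- A nonnegative combination of `B` which is not zero is positive for a functional which is one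
on `B`. -/
private theorem pos_lin {n : ℕ} {B : Finset (Vec n)} {m : Vec n} (hm : ∀ v ∈ B, pr m v = 1)
    {x : Fin n → ℝ} (hx : x ≠ 0) {c : Vec n → ℝ} (hc : ∀ v ∈ B, 0 ≤ c v) (h : x = lin B c) :
    0 < dot (toR m) x := by
  have h1 : dot (toR m) x = ∑ v ∈ B, c v := by
    rw [h, dot_lin]
    refine Finset.sum_congr rfl (fun v hv => ?_)
    rw [dot_toR, hm v hv]
    simp
  rw [h1]
  refine lt_of_le_of_ne (Finset.sum_nonneg hc) (fun h0 => hx ?_)
  have h2 := (Finset.sum_eq_zero_iff_of_nonneg hc).1 h0.symm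
  rw [h, lin_congr h2]
  exact lin_zero B

theorem tNoU : StDual → StInt → StNear → StInside → StNeg → StNoU := by
  intro hDual hInt hNear hIns hNeg n K k e U a hK hn hSp hDat hNT hU B hBc hBu hBK hPne hPa
  classical
  obtain ⟨i1, i2, -, i4⟩ := hIns n K B hK (by omega) hBc hBu hBK
  -- the classes of the rays inside the cone
  have hPU : ∀ p ∈ verts K, InRel B (toR p) → cls K p ∈ U := by
    intro p hp hr
    have h1 := hDat.1 p
    have h2 : ∑ i, a i p • e i = 0 :=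
      Finset.sum_eq_zero (fun i _ => by rw [hPa p hp hr i, zero_smul])
    rwa [h2, sub_zero] at h1
  have hcls0 : ∀ p ∈ verts K, cls K p ≠ 0 := by
    intro p hp h0
    obtain ⟨σ, hσ, hpσ, hσn, -⟩ := hNear n K hK Set.univ isOpen_univ {p} (hK.single hp) (toR p)
      trivial (InRel.singleton p)
    have h1 : mon K σ = 0 := by
      rw [mon_erase (hpσ (Finset.mem_singleton_self p)), h0, zero_mul]
    have h2 := hNT σ hσ hσn 1 (by rw [h1, smul_zero])
    exact one_ne_zero h2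
  obtain ⟨p0, hp0, hr0⟩ := hPne
  have hUne : U ≠ ⊥ := by
    intro h
    have := hPU p0 hp0 hr0
    rw [h, Submodule.mem_bot] at this
    exact hcls0 p0 hp0 this
  obtain ⟨x, hxU, hx0, hxx, hxa⟩ := hU.resolve_left hUne
  obtain ⟨ψ0, hψ0⟩ := exists_cl (hSp.hU hxU)
  obtain ⟨m, hm⟩ := (hInt n B hBu).1 ψ0
  obtain ⟨ψ, hψ⟩ : ∃ ψ : Vec n → ℤ, ψ = fun v => ψ0 v - pr m v := ⟨_, rfl⟩
  have hψx : cl K ψ = x := by
    rw [hψ, cl_sub_pr, hψ0]
  have hψB : ∀ v ∈ B, ψ v = 0 := by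
    intro v hv
    rw [hψ]
    show ψ0 v - pr m v = 0
    rw [hm v hv, sub_self]
  obtain ⟨ψ1, hψ1⟩ : ∃ ψ1 : Vec n → ℤ, ψ1 = fun v => if InRel B (toR v) then ψ v else 0 :=
    ⟨_, rfl⟩
  have hp1 : ∀ v, ψ1 v ≠ 0 → InRel B (toR v) := by
    intro v hv
    by_contra hc
    apply hv
    rw [hψ1]
    show (if InRel B (toR v) then ψ v else 0) = 0
    rw [if_neg hc]
  obtain ⟨ψ2, hψ2⟩ : ∃ ψ2 : Vec n → ℤ, ψ2 = fun v => ψ v - ψ1 v := ⟨_, rfl⟩
  have hp2 : ∀ v, ψ2 v ≠ 0 → v ∉ B ∧ ¬ InRel B (toR v) := by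
    intro v hv
    refine ⟨fun hvB => hv ?_, fun hr => hv ?_⟩
    · rw [hψ2]
      show ψ v - ψ1 v = 0
      rw [hψ1]
      show ψ v - (if InRel B (toR v) then ψ v else 0) = 0
      rw [hψB v hvB]
      split_ifs <;> rfl
    · rw [hψ2]
      show ψ v - ψ1 v = 0
      rw [hψ1]
      show ψ v - (if InRel B (toR v) then ψ v else 0) = 0
      rw [if_pos hr, sub_self]
  obtain ⟨x1, hx1⟩ : ∃ x1 : Coh K, x1 = cl K ψ1 := ⟨_, rfl⟩
  obtain ⟨x2, hx2⟩ : ∃ x2 : Coh K, x2 = cl K ψ2 := ⟨_, rfl⟩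
  have hx12 : x = x1 + x2 := by
    rw [hx1, hx2, hψ2, cl_sub, hψx]
    ring
  -- products
  have hz : ∀ p ρ : Vec n, InRel B (toR p) → ρ ∉ B → ¬ InRel B (toR ρ) →
      cls K p * cls K ρ = 0 := by
    intro p ρ hp hρ hρ'
    by_cases hρK : ρ ∈ verts K
    · refine cls_mul_eq_zero (fun h => hρ' (h ▸ hp)) (fun hF => ?_)
      obtain ⟨c, hc, hc'⟩ := i1 _ hF p (by simp) hp ρ (by simp)
      rcases i2 ρ hρK c hc hc' with h | h
      · exact hρ h
      · exact hρ' h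
    · rw [cls_eq_zero hρK, mul_zero]
  have h2p : ∀ p, InRel B (toR p) → x2 * cls K p = 0 := by
    intro p hp
    rw [hx2, cl, Finset.sum_mul]
    refine Finset.sum_eq_zero (fun v _ => ?_)
    by_cases h0 : ψ2 v = 0
    · rw [h0, zero_smul, zero_mul]
    · obtain ⟨h1, h2⟩ := hp2 v h0
      rw [smul_mul_assoc, mul_comm, hz p v hp h1 h2, smul_zero]
  have h1ρ : ∀ ρ, ρ ∉ B → ¬ InRel B (toR ρ) → x1 * cls K ρ = 0 := by
    intro ρ hρ hρ'
    rw [hx1, cl, Finset.sum_mul]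
    refine Finset.sum_eq_zero (fun v _ => ?_)
    by_cases h0 : ψ1 v = 0
    · rw [h0, zero_smul, zero_mul]
    · rw [smul_mul_assoc, hz v ρ (hp1 v h0) hρ hρ', smul_zero]
  have h12 : x1 * x2 = 0 := by
    rw [hx1, cl, Finset.sum_mul]
    refine Finset.sum_eq_zero (fun v _ => ?_)
    by_cases h0 : ψ1 v = 0
    · rw [h0, zero_smul, zero_mul]
    · rw [smul_mul_assoc, mul_comm, h2p v (hp1 v h0), smul_zero]
  have hsq : x1 * x1 + x2 * x2 = 0 := by
    have e1 : x1 * x1 + x2 * x2 = x * x - 2 * (x1 * x2) := by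
      rw [hx12]
      ring
    rw [e1, hxx, h12]
    ring
  have hv1 : ∀ v, v ∉ B → x1 * x1 * cls K v = 0 := by
    intro v hv
    by_cases hr : InRel B (toR v)
    · have e1 : x1 * x1 * cls K v = (x1 * x1 + x2 * x2) * cls K v - x2 * (x2 * cls K v) := by
        ring
      rw [e1, hsq, h2p v hr]
      ring
    · rw [mul_assoc, h1ρ v hv hr, mul_zero]
  have hv2 : ∀ v, x1 * x1 * cls K v = 0 := by
    intro v
    by_cases hv : v ∈ B
    · by_cases hvK : v ∈ verts K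
      · obtain ⟨u, hu1, hu2⟩ := (hDual n B hBu).2.1 v hv
        have h1 := lin_rel (K := K) u
        have h2 : x1 * x1 * ∑ w ∈ verts K, pr u w • cls K w = x1 * x1 * cls K v := by
          rw [Finset.mul_sum, Finset.sum_eq_single v]
          · rw [hu1, one_smul]
          · intro w _ hwv
            by_cases hw : w ∈ B
            · rw [hu2 w hw hwv, zero_smul, mul_zero]
            · rw [mul_smul_comm, hv1 w hw, smul_zero]
          · intro h
            exact absurd hvK h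
        rw [← h2, h1, mul_zero]
      · rw [cls_eq_zero hvK, mul_zero]
    · exact hv1 v hv
  have hmon : ∀ τ ∈ K, τ.card + 2 = n → x1 * x1 * mon K τ = 0 := by
    intro τ _ hτn
    obtain ⟨v, hv⟩ : τ.Nonempty := Finset.card_pos.1 (by omega)
    rw [mon_erase hv, ← mul_assoc, hv2 v, zero_mul]
  -- the positive functional
  obtain ⟨m1, hm1⟩ := (hInt n B hBu).1 (fun _ => 1)
  have hpos : ∀ χ : Vec n → ℤ, (∀ v, χ v ≠ 0 → InRel B (toR v)) →
      ∀ F ∈ K, (∃ p ∈ F, χ p ≠ 0) → ∀ w ∈ F, 0 < dot (toR m1) (toR w) := by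
    rintro χ hχ F hF ⟨p, hp, hp'⟩ w hw
    obtain ⟨c, hc, hc'⟩ := i1 F hF p hp (hχ p hp') w hw
    refine pos_lin hm1 (fun h0 => ?_) hc hc'
    have hs : ({w} : Finset (Vec n)) ∈ K := hK.single (mem_verts_of_mem hF hw)
    have h1 := (hDual n {w} (hK.smooth _ hs)).2.2.1 (fun _ => 1)
      (by rw [lin_singleton, h0, smul_zero]) w (by simp)
    exact one_ne_zero h1
  have hψ10 : ∀ v ∈ verts K, ψ1 v = 0 := by
    refine hNeg n K ψ1 (toR m1) hK (by omega) hNT (hpos ψ1 hp1) ?_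
    intro τ hτ hτn
    rw [← hx1]
    exact hmon τ hτ hτn
  have hx10 : x1 = 0 := by
    rw [hx1, cl]
    exact Finset.sum_eq_zero (fun v hv => by rw [hψ10 v hv, zero_smul])
  rw [hx10, zero_add] at hx12
  obtain ⟨N, M, hN, hNM⟩ := hxa (cls K p0) (hPU p0 hp0 hr0) (by rw [hx12]; exact h2p p0 hr0)
  obtain ⟨ψ3, hψ3⟩ : ∃ ψ3 : Vec n → ℤ, ψ3 = fun w => N * (if w = p0 then 1 else 0) := ⟨_, rfl⟩
  have h3 : cl K ψ3 = N • cls K p0 := by
    rw [hψ3, cl_smul, cl_single hp0]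
  have h33 : cl K ψ3 * cl K ψ3 = 0 := by
    rw [h3, hNM, smul_mul_smul_comm, hxx, smul_zero]
  have h4 : ∀ v, ψ3 v ≠ 0 → InRel B (toR v) := by
    intro v hv
    by_cases h : v = p0
    · rw [h]
      exact hr0
    · exfalso
      apply hv
      rw [hψ3]
      show N * (if v = p0 then 1 else 0) = 0
      rw [if_neg h, mul_zero]
  have h5 := hNeg n K ψ3 (toR m1) hK (by omega) hNT (hpos ψ3 h4)
    (fun τ _ _ => by rw [h33, zero_mul]) p0 hp0
  apply hN
  rw [hψ3] at h5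
  have h6 : N * (if p0 = p0 then 1 else 0) = 0 := h5
  rwa [if_pos rfl, mul_one] at h6

end ToricPB
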