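import Pool.Agent.Lib.MP_3d51eb_gt.PB.Spec2

set_option autoImplicit false

/-!
# MP_3d51eb_gt, project PB, module Proj: projective space
-/

noncomputable section

namespace ToricPB

open Finset MvPolynomial

/-- The fan consists of the proper subsets of `A`. -/
private lemma proj_fan (hD : StDual) {n : ℕ} {K : Finset (Finset (Vec n))} {A : Finset (Vec n)}
    (hK : IsFan K) (hA : Simp K A) (h0 : ∑ v ∈ A, v = 0) (hl : ∀ l ∈ A, A.erase l ∈ K) :
    K = A.powerset.erase A := by
  have hsub : ∀ s ⊆ A, s ≠ A → s ∈ K := by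
    intro s hs hne
    obtain ⟨l, hlA, hls⟩ := Finset.exists_of_ssubset (lt_of_le_of_ne hs hne)
    exact hK.down _ (hl l hlA) s fun v hv => Finset.mem_erase.2 ⟨fun h => hls (h ▸ hv), hs hv⟩
  ext s
  rw [Finset.mem_erase, Finset.mem_powerset]
  refine ⟨fun hs => ?_, fun hs => hsub s hs.2 hs.1⟩
  obtain ⟨l0, hl0⟩ : A.Nonempty := Finset.card_pos.1 (by rw [hA.card]; omega)
  have hBc : (A.erase l0).card = n := by
    rw [Finset.card_erase_of_mem hl0, hA.card]
    omega
  obtain ⟨c, hc⟩ := ((hD n _ (hA.uni l0 hl0)).2.2.2 hBc).2 (lin s (fun _ => (1 : ℝ)))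
  obtain ⟨c', hc'⟩ : ∃ c' : Vec n → ℝ, lin s (fun _ => (1 : ℝ)) = lin A c' := by
    refine ⟨fun v => if v = l0 then 0 else c v, ?_⟩
    rw [lin_subset (Finset.erase_subset l0 A) (fun v => if v = l0 then 0 else c v)
      (fun v hv hv' => if_pos (by
        by_contra h
        exact hv' (Finset.mem_erase.2 ⟨h, hv⟩))), hc]
    exact lin_congr fun v hv => (if_neg (Finset.ne_of_mem_erase hv)).symm
  obtain ⟨w, hw, hmin⟩ := Finset.exists_min_image A c' ⟨l0, hl0⟩
  have hconst : lin A (fun _ => c' w) = 0 := by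
    have e : lin A (fun _ => c' w) = c' w • toR (∑ v ∈ A, v) := by
      rw [toR_sum, lin, Finset.smul_sum]
    rw [e, h0, toR_zero, smul_zero]
  have hx : lin s (fun _ => (1 : ℝ)) = lin A (fun v => c' v - c' w) := by
    rw [lin_sub A c' (fun _ => c' w), hconst, sub_zero, hc']
  have htA : A.filter (fun v => 0 < c' v - c' w) ⊆ A := Finset.filter_subset _ _
  have hne : A.filter (fun v => 0 < c' v - c' w) ≠ A := by
    intro h
    have h1 : w ∈ A.filter (fun v => 0 < c' v - c' w) := by rw [h]; exact hw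
    have h2 := (Finset.mem_filter.1 h1).2
    rw [sub_self] at h2
    exact lt_irrefl _ h2
  have hin : InRel (A.filter (fun v => 0 < c' v - c' w)) (lin s (fun _ => (1 : ℝ))) := by
    refine ⟨fun v => c' v - c' w, fun v hv => (Finset.mem_filter.1 hv).2, ?_⟩
    rw [hx]
    refine lin_subset htA _ fun v hv hv' => ?_
    have h1 := hmin v hv
    have h2 : ¬ 0 < c' v - c' w := fun h => hv' (Finset.mem_filter.2 ⟨hv, h⟩)
    linarith
  have hst := hK.uniq hs (hsub _ htA hne) (InRel.one s) hin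
  rw [hst]
  exact ⟨hne, htA⟩

private lemma proj_is {n : ℕ} {K : Finset (Finset (Vec n))} {A : Finset (Vec n)}
    (hA : Simp K A) (h0 : ∑ v ∈ A, v = 0) (hKA : K = A.powerset.erase A) : IsProj K := by
  obtain ⟨l0, hl0⟩ : A.Nonempty := Finset.card_pos.1 (by rw [hA.card]; omega)
  obtain ⟨b, hb⟩ := hA.uni l0 hl0
  have hBc : (A.erase l0).card = n := by
    rw [Finset.card_erase_of_mem hl0, hA.card]
    omega
  have hB : A.erase l0 = univ.image b := by
    refine Finset.eq_of_subset_of_card_le (fun v hv => ?_) ?_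
    · obtain ⟨i, hi⟩ := hb v hv
      exact Finset.mem_image.2 ⟨i, Finset.mem_univ i, hi⟩
    · rw [hBc]
      exact Finset.card_image_le.trans (by rw [Finset.card_univ, Fintype.card_fin])
  have hs : ∑ i, b i = ∑ v ∈ A.erase l0, v := by
    rw [hB, Finset.sum_image fun i _ j _ h => b.injective h]
  have hl : -∑ i, b i = l0 := by
    rw [hs]
    have h1 := Finset.add_sum_erase A (fun v : Vec n => v) hl0
    rw [h0] at h1
    exact (eq_neg_of_add_eq_zero_left h1).symm
  refine ⟨b, ?_⟩
  rw [hl, ← hB, Finset.insert_erase hl0]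
  exact hKA

private lemma proj_cls (hD : StDual) {n : ℕ} {K : Finset (Finset (Vec n))} {A : Finset (Vec n)}
    (hA : Simp K A) (h0 : ∑ v ∈ A, v = 0) (hV : verts K = A) {v w : Vec n} (hv : v ∈ A)
    (hw : w ∈ A) : cls K v = cls K w := by
  by_cases hvw : v = w
  · rw [hvw]
  have hve : v ∈ A.erase w := Finset.mem_erase.2 ⟨hvw, hv⟩
  obtain ⟨u, hu1, hu2⟩ := (hD n _ (hA.uni w hw)).2.1 v hve
  have h1 : pr u w + 1 = 0 := by
    have h2 := pr_sum A u (fun z : Vec n => z)
    rw [h0, pr_zero, ← Finset.add_sum_erase A _ hw, Finset.sum_eq_single v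
      (fun z hz hzv => hu2 z hz hzv) (fun h => absurd hve h), hu1] at h2
    exact h2.symm
  have h3 := lin_rel (K := K) u
  rw [hV, ← Finset.add_sum_erase A _ hw, Finset.sum_eq_single v
    (fun z hz hzv => by rw [hu2 z hz hzv, zero_smul]) (fun h => absurd hve h), hu1,
    eq_neg_of_add_eq_zero_left h1, one_smul, neg_smul, one_smul] at h3
  exact (neg_add_eq_zero.1 h3).symm

theorem tProj : StDual → StUq → StProj := by
  intro hD _ n K A hK hn hA h0 hl
  have hKA := proj_fan hD hK hA h0 hl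
  refine ⟨proj_is hA h0 hKA, ?_⟩
  intro k e U a hS hDat i hi
  have hV : verts K = A := by
    ext v
    refine ⟨fun hv => ?_, hA.vert v⟩
    obtain ⟨s, hs, hvs⟩ := mem_verts.1 hv
    rw [hKA, Finset.mem_erase, Finset.mem_powerset] at hs
    exact hs.2 hvs
  obtain ⟨v1, hv1⟩ : A.Nonempty := Finset.card_pos.1 (by rw [hA.card]; omega)
  have ha : a i v1 ≠ 0 := by
    rw [← hi] at hv1
    exact (Finset.mem_filter.1 hv1).2
  have hH : ∀ y ∈ H2 K, ∃ N : ℤ, y = N • cls K v1 := by
    intro y hy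
    obtain ⟨ψ, rfl⟩ := exists_cl hy
    refine ⟨∑ v ∈ verts K, ψ v, ?_⟩
    rw [cl, Finset.sum_smul]
    refine Finset.sum_congr rfl fun v hv => ?_
    rw [hV] at hv
    rw [proj_cls hD hA h0 hV hv hv1]
  have hmul : ∀ N : ℤ, e i * (N • cls K v1) = 0 → N = 0 := by
    intro N h
    rw [mul_smul_comm, hDat.2.1 i v1, smul_smul] at h
    have h1 : (N * a i v1) • (e i) ^ n = 0 := by
      have e1 : (e i) ^ n = (e i * e i) * (e i) ^ (n - 2) := by
        rw [← pow_two, ← pow_add]
        congr 1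
        omega
      rw [e1, ← smul_mul_assoc, h, zero_mul]
    exact (mul_eq_zero.1 (hS.top i _ h1)).resolve_right ha
  refine ⟨?_, ?_⟩
  · rw [eq_bot_iff]
    intro y hy
    obtain ⟨N, rfl⟩ := hH y (hS.hU hy)
    rw [hmul N (hS.eu i _ hy), zero_smul]
    exact Submodule.zero_mem _
  · have hall : ∀ j : Fin k, j = i := by
      intro j
      by_contra hj
      obtain ⟨N, hN⟩ := hH (e j) (hS.he j)
      have h1 := hmul N (by rw [← hN]; exact hS.ee i j (Ne.symm hj))
      rw [h1, zero_smul] at hN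
      have h2 := hS.top j 1 (by rw [hN, zero_pow (by omega), smul_zero])
      exact one_ne_zero h2
    have h1 : Fintype.card (Fin k) = 1 := Fintype.card_eq_one_iff.2 ⟨i, hall⟩
    rwa [Fintype.card_fin] at h1

end ToricPB
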