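import Pool.Agent.Lib.MP_3d51eb_gt.PB.Spec

set_option autoImplicit false

noncomputable section

namespace ToricPB

open Finset MvPolynomial

theorem tPt : StWall → StConn → StMul → StPt := by
  intro hWall hConn hMul n K hK hn σ hσ σ' hσ' hc hc'
  refine hConn n K hK hn Set.univ convex_univ isOpen_univ (Coh K) (mon K) ?_ σ hσ σ' hσ' hc hc'
    ⟨_, Set.mem_univ _, InRel.one σ⟩ ⟨_, Set.mem_univ _, InRel.one σ'⟩
  intro κ hκ hκc _ σ1 h1 σ2 h2 hs1 hs2 hc1 hc2
  obtain ⟨p, q, b, hW⟩ := hWall n K hK κ hκ hκc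
  have hmul := (hMul n K hK κ p q b hW).2
  obtain ⟨_, _, hp, hq, hpq, hpK, hqK, hr, _⟩ := hW
  have key : ∀ s ∈ K, κ ⊆ s → s.card = n → s = insert p κ ∨ s = insert q κ := by
    intro s hs hsub hcard
    have h3 : (s \ κ).card = 1 := by
      rw [Finset.card_sdiff_of_subset hsub]; omega
    obtain ⟨r, hr1⟩ := Finset.card_eq_one.1 h3
    have hrs : r ∈ s \ κ := by rw [hr1]; exact Finset.mem_singleton_self r
    obtain ⟨hrs1, hrs2⟩ := Finset.mem_sdiff.1 hrs
    have hse : s = insert r κ := by
      ext x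
      constructor
      · intro hx
        by_cases hxk : x ∈ κ
        · exact Finset.mem_insert_of_mem hxk
        · have : x ∈ s \ κ := Finset.mem_sdiff.2 ⟨hx, hxk⟩
          rw [hr1, Finset.mem_singleton] at this
          rw [this]
          exact Finset.mem_insert_self _ _
      · intro hx
        rcases Finset.mem_insert.1 hx with h | h
        · rw [h]; exact hrs1
        · exact hsub h
    rcases hr r hrs2 (by rw [← hse]; exact hs) with h | h
    · left; rw [hse, h]
    · right; rw [hse, h]
  rcases key σ1 h1 hs1 hc1 with h | h <;> rcases key σ2 h2 hs2 hc2 with h' | h' <;> rw [h, h']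
  · exact hmul.symm
  · exact hmul

end ToricPB
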