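import Pool.Agent.Lib.MP_3d51eb_gt.PB.Spec2

set_option autoImplicit false

noncomputable section

namespace ToricPB

open Finset MvPolynomial

theorem tPull : StDown → StPull := by
  intro hDown n K S v0 hK hn hBD
  obtain ⟨d1, d2, d3, d4, d5, d6, d7, d8⟩ := hDown n K S v0 hK hn hBD
  obtain ⟨b1, b2, b3, b4, b5, b6, b7⟩ := hBD
  obtain ⟨x0, hx0⟩ : ∃ x, x = cls K v0 := ⟨_, rfl⟩
  obtain ⟨K0, hK0⟩ : ∃ K0, K0 = down K S v0 := ⟨_, rfl⟩
  rw [← hK0] at d4 d6 d7 d8 ⊢
  obtain ⟨φ, hφ⟩ : ∃ φ : Vec n → Coh K, φ = fun v => if v = v0 then 0 else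
      cls K v + if v ∈ S then x0 else 0 := ⟨_, rfl⟩
  have hφ0 : φ v0 = 0 := by rw [hφ]; simp
  have hφ1 : ∀ v, v ≠ v0 → φ v = cls K v + if v ∈ S then x0 else 0 := by
    intro v hv; rw [hφ]; simp [hv]
  -- products with the exceptional class
  have hw0 : ∀ w, w ∉ S → w ≠ v0 → cls K w * x0 = 0 := by
    intro w hw hwv
    rw [hx0]
    apply cls_mul_eq_zero hwv
    intro hmem
    obtain ⟨s, hs, _, hse⟩ := d2 _ hmem (by simp)
    have : w ∈ insert v0 s := by rw [← hse]; simp
    rcases Finset.mem_insert.1 this with h | h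
    · exact hwv h
    · exact hw (hs h)
  have hprod : ∀ w, w ∉ S → w ≠ v0 → ∀ t : Finset (Vec n), v0 ∉ t →
      cls K w * ∏ v ∈ t, φ v = cls K w * mon K t := by
    intro w hw hwv t
    induction t using Finset.induction_on with
    | empty => intro _; rw [Finset.prod_empty, mon_empty]
    | insert a t ha ih =>
      intro hv
      have hav : a ≠ v0 := fun h => hv (by rw [← h]; exact Finset.mem_insert_self _ _)
      have hvt : v0 ∉ t := fun h => hv (Finset.mem_insert_of_mem h)
      rw [Finset.prod_insert ha, mon_insert ha, hφ1 a hav]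
      have h1 := ih hvt
      have h2 : cls K w * (if a ∈ S then x0 else 0) = 0 := by
        split_ifs
        · exact hw0 w hw hwv
        · exact mul_zero _
      calc cls K w * ((cls K a + if a ∈ S then x0 else 0) * ∏ v ∈ t, φ v)
          = cls K a * (cls K w * ∏ v ∈ t, φ v) +
            (cls K w * (if a ∈ S then x0 else 0)) * ∏ v ∈ t, φ v := by ring
        _ = cls K a * (cls K w * mon K t) := by rw [h1, h2, zero_mul, add_zero]
        _ = cls K w * (cls K a * mon K t) := by ring
  have hP : ∀ s : Finset (Vec n), v0 ∉ s → (∃ w ∈ s, w ∉ S) → ∏ v ∈ s, φ v = mon K s := by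
    rintro s hs ⟨w, hw, hwS⟩
    have hwv : w ≠ v0 := fun h => hs (by rw [← h]; exact hw)
    have h1 : φ w = cls K w := by rw [hφ1 w hwv, if_neg hwS, add_zero]
    rw [← Finset.insert_erase hw, Finset.prod_insert (Finset.notMem_erase _ _), h1,
      hprod w hwS hwv _ (fun h => hs (Finset.mem_of_mem_erase h)),
      mon_insert (Finset.notMem_erase _ _)]
  have hKK : ∀ t, t ∈ K0 ↔ t = S ∨ (t ∈ K ∧ v0 ∉ t) := by
    intro t; rw [hK0]; simp [down]
  obtain ⟨π, hπ⟩ := coh_lift (K := K0) φ (by
    intro s hs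
    by_cases hv : v0 ∈ s
    · exact Finset.prod_eq_zero hv hφ0
    · have hsK : s ∉ K := fun h => hs ((hKK s).2 (Or.inr ⟨h, hv⟩))
      have hsS : ∃ w ∈ s, w ∉ S := by
        by_contra hc
        push Not at hc
        by_cases hSS : s = S
        · exact hs ((hKK s).2 (Or.inl hSS))
        · exact hsK (b6 s hc hSS)
      rw [hP s hv hsS, mon_eq_zero hsK]) (by
    intro u
    have h1 : ∀ v ∈ verts K0, pr u v • φ v = pr u v • cls K v +
        (if v ∈ S then pr u v • x0 else 0) := by
      intro v hv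
      have hvv : v ≠ v0 := fun h => d7 (by rw [← h]; exact hv)
      rw [hφ1 v hvv, smul_add]
      congr 1
      split_ifs <;> simp
    rw [Finset.sum_congr rfl h1, Finset.sum_add_distrib]
    have h2 : ∑ v ∈ verts K0, (if v ∈ S then pr u v • x0 else 0) = pr u v0 • x0 := by
      rw [← Finset.sum_filter]
      have : (verts K0).filter (fun v => v ∈ S) = S := by
        ext v
        simp only [Finset.mem_filter]
        exact ⟨fun h => h.2, fun h => ⟨d8 v h, h⟩⟩
      rw [this, ← Finset.sum_smul, ← pr_sum, ← b3]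
    have h3 := lin_rel (K := K) u
    rw [d6, Finset.sum_insert d7, ← hx0] at h3
    rw [h2, add_comm]
    exact h3)
  refine ⟨π, ?_, ?_⟩
  · intro v hv
    rw [hπ v, hφ1 v hv, hx0]
  · intro s hs hsS
    rw [mon, map_prod, Finset.prod_congr rfl (fun v _ => hπ v)]
    exact hP s hs hsS

end ToricPB
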