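import Pool.Agent.Lib.MP_3d51eb_gt.PB.Spec2

set_option autoImplicit false

noncomputable section

namespace ToricPB

open Finset MvPolynomial

theorem tPullA : StDual → StDown → StPullA := by
  intro hDual hDown n K S v0 π hK hn hBD hπ
  obtain ⟨d1, d2, d3, d4, d5, d6, d7, d8⟩ := hDown n K S v0 hK hn hBD
  obtain ⟨b1, b2, b3, b4, b5, b6, b7⟩ := hBD
  obtain ⟨x0, hx0⟩ : ∃ x, x = cls K v0 := ⟨_, rfl⟩
  rw [← hx0] at hπ ⊢
  have hw0 : ∀ w, w ∉ S → w ≠ v0 → cls K w * x0 = 0 := by
    intro w hw hwv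
    rw [hx0]
    apply cls_mul_eq_zero hwv
    intro hmem
    obtain ⟨s, hs, _, hse⟩ := d2 _ hmem (by simp)
    have : w ∈ insert v0 s := by rw [← hse]; simp
    rcases Finset.mem_insert.1 this with h | h
    · exact hwv h
    · exact hw (hs h)
  have hS0 : ∀ v ∈ S, (cls K v + x0) * x0 = 0 := by
    intro v hv
    obtain ⟨_, hd, _, _⟩ := hDual n S b2
    obtain ⟨u, hu1, hu2⟩ := hd v hv
    have hu0 : pr u v0 = 1 := by
      rw [b3, pr_sum, Finset.sum_eq_single v (fun w hw hwv => hu2 w hw hwv)
        (fun h => absurd hv h), hu1]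
    have h3 := lin_rel (K := K) u
    rw [d6, Finset.sum_insert d7, ← hx0, hu0, one_smul] at h3
    have h4 : (∑ w ∈ verts (down K S v0), pr u w • cls K w) * x0 = cls K v * x0 := by
      rw [Finset.sum_mul, Finset.sum_eq_single v]
      · rw [hu1, one_smul]
      · intro w hw hwv
        by_cases hwS : w ∈ S
        · rw [hu2 w hwS hwv, zero_smul, zero_mul]
        · rw [smul_mul_assoc, hw0 w hwS (ne_of_mem_of_not_mem hw d7), smul_zero]
      · intro h; exact absurd (d8 v hv) h
    calc (cls K v + x0) * x0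
        = cls K v * x0 + x0 * x0 := by ring
      _ = (x0 + ∑ w ∈ verts (down K S v0), pr u w • cls K w) * x0 := by rw [add_mul, h4]; ring
      _ = 0 := by rw [h3, zero_mul]
  have hterm : ∀ v ∈ verts (down K S v0), π (cls (down K S v0) v) ∈ H2 K ∧
      π (cls (down K S v0) v) * x0 = 0 := by
    intro v hv
    have hvv : v ≠ v0 := ne_of_mem_of_not_mem hv d7
    rw [hπ v hvv]
    constructor
    · refine Submodule.add_mem _ (cls_mem v) ?_
      split_ifs
      · rw [hx0]; exact cls_mem v0
      · exact Submodule.zero_mem _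
    · by_cases hvS : v ∈ S
      · rw [if_pos hvS]; exact hS0 v hvS
      · rw [if_neg hvS, add_zero]; exact hw0 v hvS hvv
  constructor
  · intro z hz
    obtain ⟨ψ, rfl⟩ := exists_cl hz
    rw [cl, map_sum]
    constructor
    · refine Submodule.sum_mem _ (fun v hv => ?_)
      rw [map_zsmul]
      exact Submodule.smul_mem _ _ (hterm v hv).1
    · rw [Finset.sum_mul]
      refine Finset.sum_eq_zero (fun v hv => ?_)
      rw [map_zsmul, smul_mul_assoc, (hterm v hv).2, smul_zero]
  · intro y hy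
    obtain ⟨ψ, rfl⟩ := exists_cl hy
    refine ⟨cl (down K S v0) ψ, cl_mem ψ, ψ v0 - ∑ v ∈ S, ψ v, ?_⟩
    have h1 : ∀ v ∈ verts (down K S v0), π (ψ v • cls (down K S v0) v) = ψ v • cls K v +
        (if v ∈ S then ψ v • x0 else 0) := by
      intro v hv
      have hvv : v ≠ v0 := ne_of_mem_of_not_mem hv d7
      rw [map_zsmul, hπ v hvv, smul_add]
      congr 1
      split_ifs <;> simp
    have h2 : ∑ v ∈ verts (down K S v0), (if v ∈ S then ψ v • x0 else 0) =
        (∑ v ∈ S, ψ v) • x0 := by
      rw [← Finset.sum_filter]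
      have : (verts (down K S v0)).filter (fun v => v ∈ S) = S := by
        ext v
        simp only [Finset.mem_filter]
        exact ⟨fun h => h.2, fun h => ⟨d8 v h, h⟩⟩
      rw [this, ← Finset.sum_smul]
    rw [cl, cl, map_sum, Finset.sum_congr rfl h1, Finset.sum_add_distrib, h2, d6,
      Finset.sum_insert d7, ← hx0, sub_smul]
    abel

end ToricPB
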