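import Pool.Agent.Lib.MP_3d51eb_gt.PB.Spec2

set_option autoImplicit false

noncomputable section

namespace ToricPB

open Finset MvPolynomial

theorem tRB : StZero → StRB := by
  intro hZero n K k e U a hK hn hS ha hNT v0 j hj hc
  obtain ⟨d1, d2, -, -, -⟩ := ha
  obtain ⟨x0, hx0⟩ : ∃ x, x = cls K v0 := ⟨_, rfl⟩
  have top2 : ∀ i, ∀ N : ℤ, N • (e i * e i) = 0 → N = 0 := by
    intro i N h
    apply hS.top i N
    have : (e i) ^ n = (e i * e i) * (e i) ^ (n - 2) := by
      rw [← pow_two, ← pow_add]; congr 1; omega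
    rw [this, ← smul_mul_assoc, h, zero_mul]
  have top3 : ∀ i, ∀ N : ℤ, N • (e i * e i * e i) = 0 → N = 0 := by
    intro i N h
    apply hS.top i N
    have : (e i) ^ n = (e i * e i * e i) * (e i) ^ (n - 3) := by
      have h3 : e i * e i * e i = (e i) ^ 3 := by ring
      rw [h3, ← pow_add]; congr 1; omega
    rw [this, ← smul_mul_assoc, h, zero_mul]
  have hx0mem : x0 ∈ H2 K := by rw [hx0]; exact cls_mem v0
  have m1 : ∀ i, x0 * e i = a i v0 • (e i * e i) := by
    intro i
    rw [hx0, mul_comm, d2 i v0]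
  rw [← hx0] at hc
  obtain ⟨cj, hcj⟩ := hc (e j) (hS.he j)
  have hcj' : a j v0 • (e j * e j) = cj • (x0 * x0) := by rw [← m1 j, hcj]
  have hxx : ∀ i, x0 * x0 * e i = (a i v0 * a i v0) • (e i * e i * e i) := by
    intro i
    calc x0 * x0 * e i = x0 * (x0 * e i) := by ring
      _ = x0 * (a i v0 • (e i * e i)) := by rw [m1]
      _ = a i v0 • (x0 * e i * e i) := by rw [mul_smul_comm]; congr 1; ring
      _ = a i v0 • (a i v0 • (e i * e i) * e i) := by rw [m1]
      _ = (a i v0 * a i v0) • (e i * e i * e i) := by rw [smul_mul_assoc, smul_smul]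
  have hcj0 : cj ≠ 0 := by
    intro h
    rw [h, zero_smul] at hcj'
    exact hj (top2 j _ hcj')
  have hai : ∀ i, i ≠ j → a i v0 = 0 := by
    intro i hij
    have h1 : (a j v0 • (e j * e j)) * e i = (cj • (x0 * x0)) * e i := by rw [hcj']
    rw [smul_mul_assoc, smul_mul_assoc, hxx i, mul_assoc, hS.ee j i (Ne.symm hij), mul_zero,
      smul_zero, smul_smul] at h1
    have h2 := top3 i _ h1.symm
    rcases mul_eq_zero.1 h2 with h | h
    · exact absurd h hcj0
    · exact mul_self_eq_zero.1 h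
  obtain ⟨u, hu⟩ : ∃ u, u = x0 - a j v0 • e j := ⟨_, rfl⟩
  have huU : u ∈ U := by
    have h1 := d1 v0
    rw [Finset.sum_eq_single j (fun i _ hij => by rw [hai i hij, zero_smul])
      (fun h => absurd (Finset.mem_univ j) h), ← hx0, ← hu] at h1
    exact h1
  have hx0u : x0 = u + a j v0 • e j := by rw [hu]; abel
  have hue : u * e j = 0 := by rw [mul_comm]; exact hS.eu j u huU
  have h6 : cj * a j v0 = 1 := by
    have h1 : (a j v0 • (e j * e j)) * e j = (cj • (x0 * x0)) * e j := by rw [hcj']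
    rw [smul_mul_assoc, smul_mul_assoc, hxx j, smul_smul] at h1
    have h2 : (a j v0 - cj * (a j v0 * a j v0)) • (e j * e j * e j) = 0 := by
      rw [sub_smul, h1, sub_self]
    have h3 := top3 j _ h2
    have h4 : a j v0 * (1 - cj * a j v0) = 0 := by linear_combination h3
    rcases mul_eq_zero.1 h4 with h | h
    · exact absurd h hj
    · linarith
  have haj : (a j v0 = 1 ∧ cj = 1) ∨ (a j v0 = -1 ∧ cj = -1) := by
    rcases Int.mul_eq_one_iff_eq_one_or_neg_one.1 h6 with ⟨h1, h2⟩ | ⟨h1, h2⟩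
    · exact Or.inl ⟨h2, h1⟩
    · exact Or.inr ⟨h2, h1⟩
  have h7 : e j * e j = x0 * x0 := by
    rcases haj with ⟨h1, h2⟩ | ⟨h1, h2⟩
    · rw [h1, h2, one_smul, one_smul] at hcj'
      exact hcj'
    · rw [h1, h2, neg_smul, neg_smul, one_smul, one_smul] at hcj'
      exact neg_injective hcj'
  have huy : ∀ y ∈ H2 K, u * y = 0 := by
    intro y hy
    obtain ⟨c, hcy⟩ := hc y hy
    obtain ⟨u', hu', c', hc'⟩ := hS.gen y hy
    have h8 : e j * y = c' j • (e j * e j) := by
      rw [hc', mul_add, hS.eu j u' hu', zero_add, Finset.mul_sum,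
        Finset.sum_eq_single j (fun i _ hij => by
          rw [mul_smul_comm, hS.ee j i (Ne.symm hij), smul_zero])
        (fun h => absurd (Finset.mem_univ j) h), mul_smul_comm]
    have h9 : u * y = (c - a j v0 * c' j) • (e j * e j) := by
      rw [hu, sub_mul, hcy, smul_mul_assoc, h8, ← h7, smul_smul, sub_smul]
    have h10 : (c - a j v0 * c' j) • (e j * e j * e j) = 0 := by
      rw [← smul_mul_assoc, ← h9]
      calc u * y * e j = u * e j * y := by ring
        _ = 0 := by rw [hue, zero_mul]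
    rw [h9, top3 j _ h10, zero_smul]
  have hu0 : u = 0 := hZero n K hK (by omega) hNT u (hS.hU huU) (fun v => huy _ (cls_mem v))
  refine ⟨a j v0, ?_, ?_⟩
  · rcases haj with ⟨h1, _⟩ | ⟨h1, _⟩
    · exact Or.inl h1
    · exact Or.inr h1
  · rw [← hx0, hx0u, hu0, zero_add]

end ToricPB
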