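import Pool.Agent.Lib.MP_3d51eb_gt.PB.Spec

set_option autoImplicit false

/-!
# project PB: relations are proportional
-/

noncomputable section

namespace ToricPB

open Finset MvPolynomial

namespace Rel1_aux

/-- the set of the parameters for which at least `n` values are positive is open -/
theorem isOpen_pos {α : Type} [DecidableEq α] (A : Finset α) (n : ℕ) (W : ℝ → α → ℝ)
    (hW : ∀ v, Continuous (fun θ => W θ v)) :
    IsOpen {θ : ℝ | n ≤ (A.filter (fun v => 0 < W θ v)).card} := by
  have e : {θ : ℝ | n ≤ (A.filter (fun v => 0 < W θ v)).card} =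
      ⋃ S ∈ {S : Finset α | S ⊆ A ∧ n ≤ S.card}, ⋂ v ∈ S, {θ : ℝ | 0 < W θ v} := by
    ext θ
    simp only [Set.mem_setOf_eq, Set.mem_iUnion, Set.mem_iInter, exists_prop]
    constructor
    · intro h
      exact ⟨_, ⟨Finset.filter_subset _ _, h⟩, fun v hv => (Finset.mem_filter.1 hv).2⟩
    · rintro ⟨S, ⟨hS, hn⟩, h⟩
      exact hn.trans (Finset.card_le_card (fun v hv => Finset.mem_filter.2 ⟨hS hv, h v hv⟩))
  rw [e]
  refine isOpen_biUnion (fun S _ => isOpen_biInter_finset (fun v _ => ?_))
  exact isOpen_lt continuous_const (hW v)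

end Rel1_aux

open Rel1_aux in
theorem tRel1 : StSign → StRel1 := by
  classical
  intro hSign n K hK hn A hsk hcard w w' hw hw' hne
  by_contra hcon
  push Not at hcon
  set W : ℝ → Vec n → ℝ := fun θ v => Real.cos θ * w v + Real.sin θ * w' v with hWdef
  have hlin : ∀ θ, lin A (W θ) = 0 := by
    intro θ
    have h1 : lin A (W θ) = lin A (fun v => Real.cos θ * w v) + lin A (fun v => Real.sin θ * w' v) :=
      lin_add A _ _
    rw [h1, lin_smul, lin_smul, hw, hw', smul_zero, smul_zero, add_zero]
  have hnz : ∀ θ, ∃ v ∈ A, W θ v ≠ 0 := by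
    intro θ
    by_contra hc
    push Not at hc
    by_cases hs : Real.sin θ = 0
    · have hcos : Real.cos θ ≠ 0 := by
        intro h
        have := Real.sin_sq_add_cos_sq θ
        rw [hs, h] at this
        norm_num at this
      obtain ⟨v, hv, hv0⟩ := hne
      have h1 := hc v hv
      simp only [hWdef, hs, zero_mul, add_zero] at h1
      exact hv0 ((mul_eq_zero.1 h1).resolve_left hcos)
    · obtain ⟨v, hv, hv0⟩ := hcon (-(Real.cos θ / Real.sin θ))
      apply hv0
      have h1 := hc v hv
      simp only [hWdef] at h1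
      field_simp
      linarith
  have hcont : ∀ v, Continuous (fun θ => W θ v) := by
    intro v
    simp only [hWdef]
    fun_prop
  have hP := isOpen_pos A n W hcont
  have hN' := isOpen_pos A n (fun θ v => -W θ v) (fun v => (hcont v).neg)
  set P : Set ℝ := {θ : ℝ | n ≤ (A.filter (fun v => 0 < W θ v)).card} with hPd
  set N : Set ℝ := {θ : ℝ | n ≤ (A.filter (fun v => 0 < -W θ v)).card} with hNd
  have hN : ∀ θ, θ ∈ N ↔ n ≤ (A.filter (fun v => W θ v < 0)).card := by
    intro θ
    rw [hNd, Set.mem_setOf_eq]
    have : A.filter (fun v => 0 < -W θ v) = A.filter (fun v => W θ v < 0) := by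
      apply Finset.filter_congr
      intro v _
      rw [neg_pos]
    rw [this]
  have hcov : ∀ θ, θ ∈ P ∨ θ ∈ N := by
    intro θ
    rw [hN θ]
    exact hSign n K hK A hsk (W θ) (hlin θ) (hnz θ)
  have hdisj : ∀ θ, θ ∈ P → θ ∈ N → False := by
    intro θ h1 h2
    rw [hN θ] at h2
    have h3 : n ≤ (A.filter (fun v => 0 < W θ v)).card := h1
    have hd : Disjoint (A.filter (fun v => 0 < W θ v)) (A.filter (fun v => W θ v < 0)) := by
      rw [Finset.disjoint_filter]
      intro v _ h4 h5
      exact lt_asymm h4 h5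
    have h6 : (A.filter (fun v => 0 < W θ v) ∪ A.filter (fun v => W θ v < 0)).card ≤ A.card :=
      Finset.card_le_card (Finset.union_subset (Finset.filter_subset _ _) (Finset.filter_subset _ _))
    rw [Finset.card_union_of_disjoint hd] at h6
    omega
  have hpi : ∀ v, W Real.pi v = -W 0 v := by
    intro v
    simp [hWdef]
  have hswap : (0 ∈ P → Real.pi ∈ N) ∧ (0 ∈ N → Real.pi ∈ P) := by
    constructor
    · intro h
      rw [hN]
      have h1 : n ≤ (A.filter (fun v => 0 < W 0 v)).card := h
      have e : A.filter (fun v => W Real.pi v < 0) = A.filter (fun v => 0 < W 0 v) := by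
        apply Finset.filter_congr
        intro v _
        rw [hpi v, neg_lt_zero]
      rw [e]
      exact h1
    · intro h
      rw [hN] at h
      have e : A.filter (fun v => 0 < W Real.pi v) = A.filter (fun v => W 0 v < 0) := by
        apply Finset.filter_congr
        intro v _
        rw [hpi v, neg_pos]
      show n ≤ (A.filter (fun v => 0 < W Real.pi v)).card
      rw [e]
      exact h
  have hPne : P.Nonempty := by
    rcases hcov 0 with h | h
    · exact ⟨0, h⟩
    · exact ⟨_, hswap.2 h⟩
  have hNne : N.Nonempty := by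
    rcases hcov 0 with h | h
    · exact ⟨_, hswap.1 h⟩
    · exact ⟨0, h⟩
  obtain ⟨θ, -, h1, h2⟩ := (isPreconnected_univ (α := ℝ)) P N hP hN' (fun θ _ => hcov θ)
    (by simpa using hPne) (by simpa using hNne)
  exact hdisj θ h1 h2

end ToricPB
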