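import Pool.Agent.Lib.MP_3d51eb_gt.PB.Spec2

set_option autoImplicit false

/-!
# MP_3d51eb_gt, project PB, module SD: the splitting downstairs
-/

noncomputable section

namespace ToricPB

open Finset MvPolynomial

namespace SD_aux

variable {n : ℕ}

/-- the preimage of `U` in degree two -/
private def UU {K K0 : Finset (Finset (Vec n))} (π : Coh K0 →+* Coh K)
    (U : Submodule ℤ (Coh K)) : Submodule ℤ (Coh K0) :=
  H2 K0 ⊓ U.comap (π.toAddMonoidHom.toIntLinearMap)

private lemma mem_UU {K K0 : Finset (Finset (Vec n))} {π : Coh K0 →+* Coh K}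
    {U : Submodule ℤ (Coh K)} {z : Coh K0} : z ∈ UU π U ↔ z ∈ H2 K0 ∧ π z ∈ U := by
  unfold UU
  rw [Submodule.mem_inf, Submodule.mem_comap]
  rfl

end SD_aux

open SD_aux in
theorem tSD : StSD := by
  intro n K K0 k e U π x0 j s hn hS hinj h1 h2 hs hx0
  -- the square of `e j` is not torsion
  have tor : ∀ N : ℤ, N • (e j * e j) = 0 → N = 0 := by
    intro N hN
    refine hS.top j N ?_
    have e1 : (e j) ^ n = (e j * e j) * (e j) ^ (n - 2) := by
      rw [← sq, ← pow_add]
      congr 1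
      omega
    rw [e1, ← smul_mul_assoc, hN, zero_mul]
  have hxx : x0 * x0 = e j * e j := by
    rw [hx0]
    rcases hs with rfl | rfl
    · rw [one_smul]
    · rw [neg_smul, one_smul]
      exact neg_mul_neg (e j) (e j)
  have hej : e j = s • x0 := by
    rw [hx0]
    rcases hs with rfl | rfl
    · rw [one_smul, one_smul]
    · rw [neg_smul, one_smul, neg_smul, one_smul, neg_neg]
  have key : ∀ y ∈ H2 K, y * e j = 0 → ∃ z ∈ H2 K0, π z = y := by
    intro y hy hy0
    obtain ⟨z, hz, c, hc⟩ := h2 y hy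
    have hc0 : c = 0 := by
      refine tor c ?_
      have e1 : y * x0 = 0 := by rw [hx0, mul_smul_comm, hy0, smul_zero]
      rw [hc, add_mul, (h1 z hz).2, zero_add, smul_mul_assoc, hxx] at e1
      exact e1
    refine ⟨z, hz, ?_⟩
    rw [hc, hc0, zero_smul, add_zero]
  have hE : ∀ i : Fin k, ∃ z ∈ H2 K0, π z = e (j.succAbove i) := fun i =>
    key _ (hS.he _) (hS.ee _ _ (Fin.succAbove_ne j i))
  choose e' he' hπe using hE
  have hUk : ∀ y ∈ U, ∃ z ∈ H2 K0, π z = y := fun y hy =>
    key y (hS.hU hy) (by rw [mul_comm]; exact hS.eu j y hy)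
  refine ⟨e', UU π U, ⟨he', fun z hz => (mem_UU.1 hz).1, ?_, ?_, ?_, ?_⟩, ?_, ?_, ?_⟩
  · intro z hz
    obtain ⟨u, hu, c, hc⟩ := hS.gen (π z) (h1 z hz).1
    have hcj : c j = 0 := by
      refine tor _ ?_
      have e1 : π z * e j = 0 := by rw [hej, mul_smul_comm, (h1 z hz).2, smul_zero]
      have e2 : u * e j = 0 := by rw [mul_comm]; exact hS.eu j u hu
      have e3 : (∑ i, c i • e i) * e j = c j • (e j * e j) := by
        rw [Finset.sum_mul, Finset.sum_eq_single_of_mem j (Finset.mem_univ j)]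
        · rw [smul_mul_assoc]
        · intro i _ hij
          rw [smul_mul_assoc, hS.ee i j hij, smul_zero]
      rw [← e3, ← e1, hc, add_mul, e2, zero_add]
    obtain ⟨u', hu', hπu⟩ := hUk u hu
    refine ⟨u', mem_UU.2 ⟨hu', by rw [hπu]; exact hu⟩, fun i => c (j.succAbove i), hinj ?_⟩
    rw [map_add, map_sum, hc, hπu, Fin.sum_univ_succAbove _ j, hcj, zero_smul, zero_add]
    congr 1
    refine Finset.sum_congr rfl fun i _ => ?_
    rw [map_zsmul, hπe]
  · intro i i' hii
    apply hinj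
    rw [map_mul, hπe, hπe, map_zero]
    exact hS.ee _ _ fun h => hii (Fin.succAbove_right_injective h)
  · intro i u hu
    apply hinj
    rw [map_mul, hπe, map_zero]
    exact hS.eu _ _ (mem_UU.1 hu).2
  · intro i N hN
    refine hS.top (j.succAbove i) N ?_
    have h := congrArg π hN
    rw [map_zsmul, map_pow, hπe, map_zero] at h
    exact h
  · intro y
    constructor
    · intro hy
      obtain ⟨z, hz, hzy⟩ := hUk y hy
      exact ⟨z, mem_UU.2 ⟨hz, by rw [hzy]; exact hy⟩, hzy⟩
    · rintro ⟨z, hz, rfl⟩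
      exact (mem_UU.1 hz).2
  · intro hU
    rw [eq_bot_iff]
    intro z hz
    have h := (mem_UU.1 hz).2
    rw [hU, Submodule.mem_bot] at h
    rw [Submodule.mem_bot]
    apply hinj
    rw [h, map_zero]
  · rintro ⟨x, hx, hx0', hxx', hann⟩
    obtain ⟨x', hx', hπx⟩ := hUk x hx
    refine ⟨x', mem_UU.2 ⟨hx', by rw [hπx]; exact hx⟩, ?_, ?_, ?_⟩
    · rintro rfl
      rw [map_zero] at hπx
      exact hx0' hπx.symm
    · apply hinj
      rw [map_mul, hπx, map_zero, hxx']
    · intro u hu hxu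
      have h := congrArg π hxu
      rw [map_mul, hπx, map_zero] at h
      obtain ⟨N, M, hN, hNM⟩ := hann (π u) (mem_UU.1 hu).2 h
      refine ⟨N, M, hN, hinj ?_⟩
      rw [map_zsmul, map_zsmul, hπx, hNM]

end ToricPB
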