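import Pool.Agent.Lib.MP_3d51eb_gt.PB.Spec

set_option autoImplicit false

/-!
# project PB, module Side: maximal cone at a given side of a wall
-/

noncomputable section

namespace ToricPB

open Finset MvPolynomial

theorem tSide : StDual → StUq → StLoc → StSide := by
  intro hD hU hL n K hK τ hτ hcard y hy
  obtain ⟨κ, hκ, c, d, hx, hyd, hc, -, ε, hε, hrel⟩ := hL n K hK (lin τ (fun _ => (1 : ℝ))) y
  have h1 : τ = κ.filter (fun v => 0 < c v) := by
    refine (hU n K hK).2 κ hκ τ hτ c hc ?_
    rw [← hx]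
    exact InRel.one τ
  have hsub : τ ⊆ κ := by
    rw [h1]
    exact Finset.filter_subset _ _
  have hne : τ ≠ κ := by
    intro h
    rw [← h] at hyd
    exact hy d hyd
  have h2 : τ.card < κ.card := Finset.card_lt_card (Finset.ssubset_iff_subset_ne.2 ⟨hsub, hne⟩)
  have h3 : κ.card ≤ n := (hD n κ (hK.smooth κ hκ)).1
  exact ⟨κ, hκ, hsub, by omega, ε, hε, hrel⟩

end ToricPB
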