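import Pool.Agent.Lib.MP_3d51eb_gt.PB.Spec

set_option autoImplicit false

/-!
# MP_3d51eb_gt, project PB: signs of relations
-/

noncomputable section

namespace ToricPB

open Finset MvPolynomial

theorem tSign : StUq → StSign := by
  intro hUq n K hK A hA w hw hne
  by_contra hcon
  rw [not_or, not_le, not_le] at hcon
  obtain ⟨hP, hN⟩ := hcon
  have hPK := hA _ (Finset.filter_subset (fun v => 0 < w v) A) (by omega)
  have hNK := hA _ (Finset.filter_subset (fun v => w v < 0) A) (by omega)
  have h1 : lin (A.filter (fun v => 0 < w v)) w + lin (A.filter (fun v => ¬ 0 < w v)) w =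
      lin A w := Finset.sum_filter_add_sum_filter_not A _ _
  have h2 : lin (A.filter (fun v => ¬ 0 < w v)) w = lin (A.filter (fun v => w v < 0)) w := by
    refine lin_subset ?_ w ?_
    · intro v hv
      rw [Finset.mem_filter] at hv ⊢
      exact ⟨hv.1, not_lt.2 hv.2.le⟩
    · intro v hv hv'
      rw [Finset.mem_filter] at hv hv'
      have h3 : ¬ w v < 0 := fun h => hv' ⟨hv.1, h⟩
      exact le_antisymm (not_lt.1 hv.2) (not_lt.1 h3)
  have h3 : lin (A.filter (fun v => w v < 0)) (fun v => - w v) =
      - lin (A.filter (fun v => w v < 0)) w := by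
    simp only [lin, neg_smul, Finset.sum_neg_distrib]
  have h4 : lin (A.filter (fun v => 0 < w v)) w =
      lin (A.filter (fun v => w v < 0)) (fun v => - w v) := by
    rw [h3, eq_neg_iff_add_eq_zero, ← h2, h1, hw]
  have h5 := ((hUq n K hK).1 _ hPK _ hNK w (fun v => - w v)
    (fun v hv => (Finset.mem_filter.1 hv).2)
    (fun v hv => neg_pos.2 (Finset.mem_filter.1 hv).2) h4).1
  obtain ⟨v, hv, hv'⟩ := hne
  rcases lt_or_gt_of_ne hv' with h | h
  · have h6 : v ∈ A.filter (fun v => w v < 0) := Finset.mem_filter.2 ⟨hv, h⟩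
    rw [← h5, Finset.mem_filter] at h6
    exact lt_asymm h h6.2
  · have h6 : v ∈ A.filter (fun v => 0 < w v) := Finset.mem_filter.2 ⟨hv, h⟩
    rw [h5, Finset.mem_filter] at h6
    exact lt_asymm h h6.2

end ToricPB
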