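import Pool.Agent.Lib.MP_3d51eb_gt.PB.Spec

set_option autoImplicit false

/-!
# project PB, module Skel: the skeleton property
-/

noncomputable section

namespace ToricPB

open Finset MvPolynomial

private lemma Skel_mul {n : ℕ} {K : Finset (Finset (Vec n))} (e : Coh K) (a : Vec n → ℤ)
    (h : ∀ v, e * cls K v = a v • (e * e)) (s : Finset (Vec n)) :
    e * mon K s = (∏ v ∈ s, a v) • e ^ (s.card + 1) := by
  classical
  induction s using Finset.induction_on with
  | empty => simp [mon_empty]
  | insert v s hv ih =>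
    rw [mon_insert hv, Finset.prod_insert hv, Finset.card_insert_of_notMem hv]
    calc e * (cls K v * mon K s) = cls K v * (e * mon K s) := by ring
      _ = cls K v * ((∏ v ∈ s, a v) • e ^ (s.card + 1)) := by rw [ih]
      _ = (∏ v ∈ s, a v) • (e ^ s.card * (e * cls K v)) := by
        simp only [zsmul_eq_mul]
        ring
      _ = (∏ v ∈ s, a v) • (e ^ s.card * (a v • (e * e))) := by rw [h]
      _ = (a v * ∏ v ∈ s, a v) • e ^ (s.card + 1 + 1) := by
        simp only [zsmul_eq_mul]
        push_cast
        ring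

theorem tSkel : StSkel := by
  intro n K k e U a _ hn hS hD i s hs hc
  by_contra hK
  have h0 := mon_eq_zero hK
  have h1 := Skel_mul (e i) (a i) (hD.2.1 i) s
  rw [h0, mul_zero] at h1
  have h2 : (∏ v ∈ s, a i v) • (e i) ^ n = 0 := by
    have h3 : (s.card + 1) + (n - (s.card + 1)) = n := by omega
    have h5 : (e i) ^ n = (e i) ^ (s.card + 1) * (e i) ^ (n - (s.card + 1)) := by
      rw [← pow_add]
      exact congrArg (fun j : ℕ => (e i) ^ j) h3.symm
    rw [h5, ← smul_mul_assoc, ← h1, zero_mul]
  have h3 := hS.top i _ h2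
  rw [Finset.prod_eq_zero_iff] at h3
  obtain ⟨v, hv, h4⟩ := h3
  exact hs v hv h4

end ToricPB
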