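import Pool.Agent.Lib.MP_3d51eb_gt.PB.Spec2

set_option autoImplicit false

noncomputable section

namespace ToricPB

open Finset MvPolynomial

theorem tStep : StCoef → StSkel → StBd → StSimp → StLeaf → StProj → StDown → StPull → StPullA →
    StPullB → StRB → StSD → StStep := by
  intro hCoef hSkel hBd hSimp hLeaf hProj hDown hPull hPullA hPullB hRB hSD
  intro n K k e U hK hn hS hU
  obtain ⟨a, ha⟩ := hCoef n K (k + 1) e U hK hn hS
  obtain ⟨hNT0, hbd⟩ := hBd n K (k + 1) e U a hK hn hS ha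
  have hNT : NT K := hNT0 (Nat.succ_pos k)
  have hsk := hSkel n K (k + 1) e U a hK hn hS ha
  have hComb : ∀ i, ∃ ψ, Comb K (a i) ψ := by
    intro i
    obtain ⟨ψ, hψ⟩ := exists_cl (hS.he i)
    exact ⟨ψ, ⟨ha.2.2.1 i, ha.2.2.2.1 i, ha.2.2.2.2 i ψ hψ, hsk i, hbd i ψ hψ⟩⟩
  have hSi : ∀ i, Simp K (sup K (a i)) := by
    intro i
    obtain ⟨ψ, hψ⟩ := hComb i
    exact hSimp n K (a i) ψ hK hn hψ
  obtain ⟨i, h1 | h2⟩ := hLeaf n K (k + 1) e U a hK hn (Nat.succ_pos k) hS ha hNT hSi hU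
  · right
    obtain ⟨v0, hv0, hsum, hfac⟩ := h1
    obtain ⟨A, hA⟩ : ∃ A, A = sup K (a i) := ⟨_, rfl⟩
    have hSA : Simp K A := by rw [hA]; exact hSi i
    rw [← hA] at hv0 hsum hfac
    obtain ⟨S, hSdef⟩ : ∃ S, S = A.erase v0 := ⟨_, rfl⟩
    rw [← hSdef] at hsum hfac
    have hScard : S.card = n := by
      rw [hSdef, Finset.card_erase_of_mem hv0, hSA.card]; rfl
    have hBD : BD K S v0 := by
      refine ⟨hScard, by rw [hSdef]; exact hSA.uni v0 hv0, hsum, hSA.vert v0 hv0, ?_, ?_, ?_⟩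
      · rw [hSdef]; exact Finset.notMem_erase v0 A
      · intro s hs hne
        refine hSA.skel s (hs.trans (by rw [hSdef]; exact Finset.erase_subset _ _)) ?_
        have := Finset.card_lt_card (Finset.ssubset_iff_subset_ne.2 ⟨hs, hne⟩)
        omega
      · intro l hl
        have hl' : l ∈ A.erase v0 := by rw [← hSdef]; exact hl
        have : insert v0 (S.erase l) = A.erase l := by
          rw [hSdef]
          ext x
          simp only [Finset.mem_insert, Finset.mem_erase]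
          have hne := (Finset.mem_erase.1 hl').1
          constructor
          · rintro (rfl | ⟨h1, h2, h3⟩)
            · exact ⟨fun h => hne h.symm, hv0⟩
            · exact ⟨h1, h3⟩
          · rintro ⟨h1, h2⟩
            by_cases hx : x = v0
            · exact Or.inl hx
            · exact Or.inr ⟨h1, hx, h2⟩
        rw [this]
        exact hfac l hl
    have hn2 : 2 ≤ n := by omega
    obtain ⟨d1, d2, d3, d4, d5, d6, d7, d8⟩ := hDown n K S v0 hK hn2 hBD
    obtain ⟨π, hπ1, hπ2⟩ := hPull n K S v0 hK hn2 hBD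
    obtain ⟨pa, pb⟩ := hPullA n K S v0 π hK hn2 hBD hπ1
    obtain ⟨pc, pd⟩ := hPullB n K S v0 π hK hn2 hBD hNT hπ1 hπ2
    have hav0 : a i v0 ≠ 0 := by
      have : v0 ∈ sup K (a i) := by rw [← hA]; exact hv0
      exact (Finset.mem_filter.1 this).2
    obtain ⟨s, hs1, hs2⟩ := hRB n K (k + 1) e U a hK hn hS ha hNT v0 i hav0 (by
      intro y hy
      obtain ⟨z, hz, c, rfl⟩ := pb y hy
      refine ⟨c, ?_⟩
      rw [mul_add, mul_comm, (pa z hz).2, zero_add, mul_smul_comm])
    obtain ⟨e', U', q1, q2, q3, q4⟩ := hSD n K (down K S v0) k e U π (cls K v0) i s hn hS pc pa pb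
      hs1 hs2
    exact ⟨down K S v0, S, e', U', π, d4, pd, Finset.mem_insert_self _ _, hScard, d5, q1, pc, q2,
      q3, q4⟩
  · left
    obtain ⟨hsum, hfac⟩ := h2
    obtain ⟨hP, hP2⟩ := hProj n K (sup K (a i)) hK hn (hSi i) hsum hfac
    obtain ⟨hU0, hk⟩ := hP2 (k + 1) e U a hS ha i rfl
    exact ⟨hP, by omega, hU0⟩

end ToricPB
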