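import Pool.Agent.Lib.MP_3d51eb_gt.PB.Spec3

set_option autoImplicit false

/-!
# MP_3d51eb_gt, project PB, module Top: the powers `e_i ^ n`
-/

noncomputable section

namespace ToricPB

open Finset MvPolynomial

theorem tTop : StNear → StWall → StLin → StMul → StDeg → StTop := by
  classical
  intro hNear _ hLin hMul hDeg n K k e U hK hn hS
  refine ⟨hS.he, hS.hU, hS.gen, hS.ee, hS.eu, fun i N hN => ?_⟩
  obtain ⟨ψ, hψ⟩ := exists_cl (hS.he i)
  -- multiples of divisor classes
  have hc : ∀ v, ∃ c : ℤ, e i * cls K v = c • (e i * e i) := by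
    intro v
    obtain ⟨u, hu, c, huc⟩ := hS.gen (cls K v) (cls_mem v)
    refine ⟨c i, ?_⟩
    rw [huc, mul_add, hS.eu i u hu, zero_add, Finset.mul_sum, Finset.sum_eq_single i]
    · rw [mul_smul_comm]
    · intro j _ hj
      rw [mul_smul_comm, hS.ee i j (Ne.symm hj), smul_zero]
    · intro h
      exact absurd (Finset.mem_univ i) h
  choose c hc using hc
  have hmon : ∀ s : Finset (Vec n), e i * mon K s = (∏ v ∈ s, c v) • (e i) ^ (s.card + 1) := by
    intro s
    induction s using Finset.induction_on with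
    | empty => simp [mon_empty]
    | insert v s hv ih =>
      rw [mon_insert hv, Finset.prod_insert hv, Finset.card_insert_of_notMem hv]
      calc e i * (cls K v * mon K s) = cls K v * (e i * mon K s) := by ring
        _ = cls K v * ((∏ v ∈ s, c v) • (e i) ^ (s.card + 1)) := by rw [ih]
        _ = (∏ v ∈ s, c v) • ((e i) ^ s.card * (e i * cls K v)) := by
            rw [mul_smul_comm, pow_succ]
            congr 1
            ring
        _ = (c v * ∏ v ∈ s, c v) • (e i) ^ (s.card + 1 + 1) := by
            rw [hc v, mul_smul_comm, smul_smul, mul_comm (∏ v ∈ s, c v) (c v), pow_succ, pow_succ]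
            congr 1
            ring
  -- a wall at which `ψ` bends
  by_contra hN0
  have hb : ∀ τ p q b, Wall K τ p q b → bend ψ τ p q b = 0 := by
    intro τ p q b hW
    have h1 := (hMul n K hK τ p q b hW).1 ψ
    rw [← hψ, hmon τ] at h1
    obtain ⟨-, hcard, hp, -, -, hpτ, -, -, -⟩ := hW
    rw [hcard] at h1
    have h2 : (N * bend ψ τ p q b) • mon K (insert p τ) = 0 := by
      rw [mul_smul, ← h1, smul_comm, hN, smul_zero]
    have h3 := hDeg n K hK (insert p τ) hpτ
      (by rw [Finset.card_insert_of_notMem hp, hcard]) _ h2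
    exact (mul_eq_zero.1 h3).resolve_left hN0
  obtain ⟨m, hm⟩ := hLin n K hK (by omega) Set.univ convex_univ isOpen_univ ψ
    (fun τ p q b hW hb' => absurd (hb τ p q b hW) hb')
  have hψm : ∀ v ∈ verts K, ψ v = pr m v := by
    intro v hv
    obtain ⟨σ, hσ, hvσ, hcard, x', hx', hin⟩ := hNear n K hK Set.univ isOpen_univ {v}
      (hK.single hv) (toR v) (Set.mem_univ _) (InRel.singleton v)
    exact hm σ hσ hcard ⟨x', hx', hin⟩ v (hvσ (Finset.mem_singleton_self v))
  apply hS.ne i
  rw [hψ, cl_congr hψm]
  exact cl_pr m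

end ToricPB
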