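import Pool.Agent.Lib.MP_3d51eb_gt.PB.Spec

set_option autoImplicit false

/-!
# project PB, module UniOf: `n` vectors which span the lattice are a basis
-/

noncomputable section

namespace ToricPB

open Finset MvPolynomial

theorem tUniOf : StUniOf := by
  classical
  intro n s hs h
  obtain ⟨e⟩ : Nonempty (s ≃ Fin n) := ⟨s.equivFinOfCardEq hs⟩
  let f : (Fin n → ℤ) →ₗ[ℤ] (Fin n → ℤ) :=
    Fintype.linearCombination ℤ (fun i : Fin n => ((e.symm i : s) : Vec n))
  have hf : ∀ c : Fin n → ℤ, f c = ∑ i, c i • ((e.symm i : s) : Vec n) := fun c =>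
    Fintype.linearCombination_apply ℤ _ c
  have hsur : Function.Surjective f := by
    intro y
    obtain ⟨c, hc⟩ := h y
    refine ⟨fun i => c ((e.symm i : s) : Vec n), ?_⟩
    rw [hf, hc, ← Finset.sum_coe_sort s]
    exact Equiv.sum_comp e.symm (fun v : s => c (v : Vec n) • (v : Vec n))
  have hinj : Function.Injective f := OrzechProperty.injective_of_surjective_endomorphism f hsur
  have hbij : Function.Bijective f := ⟨hinj, hsur⟩
  refine ⟨(Pi.basisFun ℤ (Fin n)).map (LinearEquiv.ofBijective f hbij), fun v hv => ?_⟩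
  refine ⟨e ⟨v, hv⟩, ?_⟩
  rw [Module.Basis.map_apply, Pi.basisFun_apply]
  change f (Pi.single (e ⟨v, hv⟩) 1) = v
  rw [hf]
  rw [Finset.sum_eq_single (e ⟨v, hv⟩)]
  · rw [Pi.single_eq_same, one_smul, Equiv.symm_apply_apply]
  · intro j _ hj
    rw [Pi.single_eq_of_ne hj, zero_smul]
  · intro hj
    exact absurd (Finset.mem_univ _) hj

end ToricPB
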