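import Pool.Agent.Lib.MP_3d51eb_gt.PB.Spec

set_option autoImplicit false

/-!
# project PB, module Uq: uniqueness in relative interiors
-/

noncomputable section

namespace ToricPB

open Finset MvPolynomial

theorem tUq : StDual → StUq := by
  intro hD n K hK
  refine ⟨?_, ?_⟩
  · intro s hs t ht α β hα hβ h
    have h1 : InRel s (lin s α) := ⟨α, hα, rfl⟩
    have h2 : InRel t (lin s α) := ⟨β, hβ, h⟩
    have hst : s = t := hK.uniq hs ht h1 h2
    subst hst
    refine ⟨rfl, fun v hv => ?_⟩
    have h3 : lin s (fun v => α v - β v) = 0 := by rw [lin_sub, h, sub_self]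
    exact sub_eq_zero.1 ((hD n s (hK.smooth s hs)).2.2.1 _ h3 v hv)
  · intro s hs t ht c hc h
    have hsub : s.filter (fun v => 0 < c v) ⊆ s := Finset.filter_subset _ _
    have h1 : lin s c = lin (s.filter (fun v => 0 < c v)) c := by
      refine lin_subset hsub c fun v hv hv' => ?_
      rw [Finset.mem_filter, not_and] at hv'
      exact le_antisymm (not_lt.1 (hv' hv)) (hc v hv)
    refine hK.uniq ht (hK.down s hs _ hsub) h ⟨c, fun v hv => ?_, h1⟩
    exact (Finset.mem_filter.1 hv).2

end ToricPB
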