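import Pool.Agent.Lib.MP_3d51eb_gt.PB.Spec

set_option autoImplicit false

/-!
# project PB: walls and wall relations
-/

noncomputable section

namespace ToricPB

open Finset MvPolynomial

namespace Wall_aux

variable {n : ℕ}

lemma lin_if {τ : Finset (Vec n)} {p : Vec n} (hp : p ∉ τ) (a : ℝ) (c : Vec n → ℝ) :
    lin (insert p τ) (fun v => if v = p then a else c v) = a • toR p + lin τ c := by
  rw [lin_insert hp]
  congr 1
  · simp
  · refine lin_congr (fun v hv => ?_)
    have : v ≠ p := fun h => hp (h ▸ hv)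
    simp [this]

/-- independence of `insert p τ` -/
lemma indep (hD : StDual) {τ : Finset (Vec n)} {p : Vec n} (hp : p ∉ τ)
    (hU : Uni (insert p τ)) {a : ℝ} {c : Vec n → ℝ} (h : a • toR p + lin τ c = 0) : a = 0 := by
  have h3 := (hD n _ hU).2.2.1 _ ((lin_if hp a c).trans h) p (Finset.mem_insert_self _ _)
  simpa using h3

lemma indep' (hD : StDual) {τ : Finset (Vec n)} {p : Vec n} (hp : p ∉ τ)
    (hU : Uni (insert p τ)) {a a' : ℝ} {c c' : Vec n → ℝ}
    (h : a • toR p + lin τ c = a' • toR p + lin τ c') : a = a' := by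
  have h1 : (a - a') • toR p + lin τ (fun v => c v - c' v) = 0 := by
    rw [lin_sub, sub_smul]
    have : a • toR p - a' • toR p + (lin τ c - lin τ c') =
      (a • toR p + lin τ c) - (a' • toR p + lin τ c') := by abel
    rw [this, h, sub_self]
  exact sub_eq_zero.1 (indep hD hp hU h1)

lemma card_ins {τ κ : Finset (Vec n)} (hc : τ.card + 1 = n) (hκ : κ.card = n) (hs : τ ⊆ κ) :
    ∃ p, p ∉ τ ∧ κ = insert p τ := by
  have h1 : (κ \ τ).card = 1 := by
    have := Finset.card_sdiff_add_card_eq_card hs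
    omega
  obtain ⟨p, hp⟩ := Finset.card_eq_one.1 h1
  have hpm : p ∈ κ \ τ := by rw [hp]; simp
  refine ⟨p, (Finset.mem_sdiff.1 hpm).2, ?_⟩
  have h2 : κ = (κ \ τ) ∪ τ := (Finset.sdiff_union_of_subset hs).symm
  rw [hp] at h2
  rw [h2]
  ext v
  simp

/-- one side of a wall -/
lemma side (hS : StSide) {K : Finset (Finset (Vec n))} (hK : IsFan K) {τ : Finset (Vec n)}
    (hτ : τ ∈ K) (hc : τ.card + 1 = n) {y : Fin n → ℝ} (hy : ∀ c : Vec n → ℝ, y ≠ lin τ c) :
    ∃ p, p ∉ τ ∧ insert p τ ∈ K ∧ ∃ α : ℝ, 0 < α ∧ ∃ d : Vec n → ℝ,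
      y = α • toR p + lin τ d := by
  obtain ⟨κ, hκ, hsub, hcard, ε, hε, h⟩ := hS n K hK τ hτ hc y hy
  obtain ⟨p, hp, rfl⟩ := card_ins hc hcard hsub
  obtain ⟨c, hcpos, hx⟩ := h (ε / 2) (by linarith) (by linarith)
  rw [lin_insert hp] at hx
  have hδ : (ε / 2) ≠ 0 := by positivity
  refine ⟨p, hp, hκ, c p / (ε / 2), div_pos (hcpos p (Finset.mem_insert_self _ _))
    (by linarith), fun v => (ε / 2)⁻¹ * (c v - 1), ?_⟩
  have h1 : (ε / 2) • y = c p • toR p + lin τ (fun v => c v - 1) := by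
    rw [lin_sub]
    have : (ε / 2) • y = (lin τ (fun _ => (1 : ℝ)) + (ε / 2) • y) - lin τ (fun _ => (1 : ℝ)) := by
      abel
    rw [this, hx]
    abel
  have h2 : y = (ε / 2)⁻¹ • ((ε / 2) • y) := by
    rw [smul_smul, inv_mul_cancel₀ hδ, one_smul]
  calc y = (ε / 2)⁻¹ • ((ε / 2) • y) := h2
    _ = (ε / 2)⁻¹ • (c p • toR p + lin τ (fun v => c v - 1)) := by rw [h1]
    _ = _ := by rw [smul_add, smul_smul, lin_smul, div_eq_inv_mul (c p)]

/-- uniqueness of the ray on one side -/
lemma uniq (hQ : StUq) {K : Finset (Finset (Vec n))} (hK : IsFan K) {τ : Finset (Vec n)}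
    {p r : Vec n} (hp : p ∉ τ) (hpK : insert p τ ∈ K) (hr : r ∉ τ) (hrK : insert r τ ∈ K)
    {g : ℝ} (hg : 0 < g) {e : Vec n → ℝ} (h : toR r = g • toR p + lin τ e) : r = p := by
  set N : ℝ := 1 + ∑ v ∈ τ, |e v| with hN
  have hN0 : 0 < N := by
    have : 0 ≤ ∑ v ∈ τ, |e v| := Finset.sum_nonneg (fun _ _ => abs_nonneg _)
    linarith
  have hNe : ∀ v ∈ τ, 0 < N + e v := by
    intro v hv
    have h1 : |e v| ≤ ∑ v ∈ τ, |e v| :=
      Finset.single_le_sum (f := fun v => |e v|) (fun _ _ => abs_nonneg _) hv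
    have h2 := neg_abs_le (e v)
    linarith
  clear_value N
  have key := (hQ n K hK).1 (insert r τ) hrK (insert p τ) hpK
    (fun v => if v = r then 1 else N) (fun v => if v = p then g else N + e v) ?_ ?_ ?_
  · have h1 : r ∈ insert p τ := key.1 ▸ Finset.mem_insert_self r τ
    rcases Finset.mem_insert.1 h1 with h2 | h2
    · exact h2
    · exact absurd h2 hr
  · intro v hv
    by_cases hvr : v = r
    · simp [hvr]
    · simp [hvr, hN0]
  · intro v hv
    rcases Finset.mem_insert.1 hv with h2 | h2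
    · simp [h2, hg]
    · have : v ≠ p := fun h => hp (h ▸ h2)
      simpa [this] using hNe v h2
  · rw [lin_if hr, lin_if hp, one_smul, h, lin_add]
    abel

end Wall_aux

open Wall_aux in
theorem tWall : StDual → StUq → StGen → StSide → StWall := by
  intro hD hQ hG hS n K hK τ hτ hc
  obtain ⟨y, hy⟩ := (hG n).1 {τ} (fun s hs => by
    rw [Finset.mem_singleton.1 hs]; omega)
  have hy1 : ∀ c : Vec n → ℝ, y ≠ lin τ c := hy τ (Finset.mem_singleton_self _)
  have hy2 : ∀ c : Vec n → ℝ, -y ≠ lin τ c := by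
    intro c h
    refine hy1 (fun v => (-1) * c v) ?_
    rw [lin_smul, ← h]
    simp
  obtain ⟨p, hp, hpK, α, hα, d, hd⟩ := side hS hK hτ hc hy1
  obtain ⟨q, hq, hqK, β, hβ, d', hd'⟩ := side hS hK hτ hc hy2
  have hUp := hK.smooth _ hpK
  have hUq := hK.smooth _ hqK
  have hcp : (insert p τ).card = n := by rw [Finset.card_insert_of_notMem hp]; exact hc
  have hcq : (insert q τ).card = n := by rw [Finset.card_insert_of_notMem hq]; exact hc
  have hsum : α • toR p + β • toR q + lin τ (fun v => d v + d' v) = 0 := by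
    rw [lin_add]
    have : α • toR p + β • toR q + (lin τ d + lin τ d') =
      (α • toR p + lin τ d) + (β • toR q + lin τ d') := by abel
    rw [this, ← hd, ← hd']
    abel
  have hpq : p ≠ q := by
    rintro rfl
    have := indep hD hp hUp (a := α + β) (c := fun v => d v + d' v) (by
      rw [add_smul]; exact hsum)
    linarith
  -- integral combinations
  obtain ⟨c, hcq1⟩ := ((hD n _ hUp).2.2.2 hcp).1 q
  obtain ⟨c', hcp1⟩ := ((hD n _ hUq).2.2.2 hcq).1 p
  rw [Finset.sum_insert hp] at hcq1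
  rw [Finset.sum_insert hq] at hcp1
  have hqR : toR q = (c p : ℝ) • toR p + lin τ (fun v => (c v : ℝ)) := by
    rw [lin_int, ← toR_smul, ← toR_add, ← hcq1]
  have hpR : toR p = (c' q : ℝ) • toR q + lin τ (fun v => (c' v : ℝ)) := by
    rw [lin_int, ← toR_smul, ← toR_add, ← hcp1]
  have h1 : α + β * c p = 0 := by
    refine indep hD hp hUp (c := fun v => β * (c v : ℝ) + (d v + d' v)) ?_
    rw [lin_add, lin_smul, add_smul, mul_smul]
    rw [hqR, smul_add] at hsum
    rw [← hsum]
    abel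
  have h2 : (c' q : ℝ) * c p = 1 := by
    refine indep' hD hp hUp (c := fun v => (c' q : ℝ) * (c v : ℝ) + (c' v : ℝ))
      (c' := fun _ => (0 : ℝ)) ?_
    rw [lin_zero, one_smul, add_zero, lin_add, lin_smul, mul_smul]
    rw [hqR, smul_add] at hpR
    exact (add_assoc _ _ _).symm.trans hpR.symm
  have h3 : c' q * c p = 1 := by exact_mod_cast h2
  have hcneg : (c p : ℝ) < 0 := by
    by_contra hcon
    push Not at hcon
    have := mul_nonneg hβ.le hcon
    linarith
  have hcneg' : c p < 0 := by exact_mod_cast hcneg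
  have h4 : c p = -1 := by
    rcases Int.eq_one_or_neg_one_of_mul_eq_one' h3 with ⟨_, h⟩ | ⟨_, h⟩
    · omega
    · exact h
  refine ⟨p, q, fun v => -c v, hτ, hc, hp, hq, hpq, hpK, hqK, ?_, ?_⟩
  · intro r hr hrK
    have hUr := hK.smooth _ hrK
    obtain ⟨g, hg⟩ := ((hD n _ hUp).2.2.2 hcp).2 (toR r)
    rw [lin_insert hp] at hg
    rcases lt_trichotomy (g p) 0 with hneg | hzero | hpos
    · right
      have hpq' : toR p = (-1 : ℝ) • toR q + lin τ (fun v => (c v : ℝ)) := by
        rw [hqR, h4]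
        simp
      refine uniq hQ hK hq hqK hr hrK (g := -g p) (by linarith)
        (e := fun v => g p * (c v : ℝ) + g v) ?_
      rw [hg, hpq', smul_add, lin_add, lin_smul, smul_smul]
      rw [show g p * (-1 : ℝ) = -g p by ring]
      abel
    · exfalso
      rw [hzero, zero_smul, zero_add] at hg
      have := indep' hD hr hUr (a := 1) (a' := 0) (c := fun _ => (0 : ℝ)) (c' := g) (by
        rw [one_smul, zero_smul, zero_add, lin_zero, add_zero]; exact hg)
      exact one_ne_zero this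
    · left
      exact uniq hQ hK hp hpK hr hrK hpos hg
  · rw [h4] at hcq1
    have : ∑ v ∈ τ, (-c v) • v = -∑ v ∈ τ, c v • v := by
      rw [← Finset.sum_neg_distrib]
      exact Finset.sum_congr rfl (fun v _ => neg_smul _ _)
    rw [this, hcq1]
    simp
end ToricPB
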