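import Pool.Agent.Lib.MP_3d51eb_gt.PB.Spec

set_option autoImplicit false

/-!
# MP_3d51eb_gt, project PB, module Zero: nondegeneracy in degree 2
-/

noncomputable section

namespace ToricPB

open Finset MvPolynomial

namespace Zero_aux

variable {n : ℕ}

/-- a class which annihilates all divisor classes does not bend at any wall -/
private lemma bend_zero (hMul : StMul) {K : Finset (Finset (Vec n))} (hK : IsFan K) (hn : 2 ≤ n)
    (hNT : NT K) {ψ : Vec n → ℤ} (h : ∀ v, cl K ψ * cls K v = 0) {τ : Finset (Vec n)}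
    {p q : Vec n} {b : Vec n → ℤ} (hW : Wall K τ p q b) : bend ψ τ p q b = 0 := by
  classical
  have h1 := (hMul n K hK τ p q b hW).1 ψ
  obtain ⟨-, hc, hp, -, -, hpτ, -, -, -⟩ := hW
  obtain ⟨v, hv⟩ : τ.Nonempty := by
    rw [← Finset.card_pos]
    omega
  have h2 : cl K ψ * mon K τ = 0 := by
    rw [← Finset.insert_erase hv, mon_insert (Finset.notMem_erase v τ), ← mul_assoc, h v, zero_mul]
  refine hNT (insert p τ) hpτ ?_ _ (h1.symm.trans h2)
  rw [Finset.card_insert_of_notMem hp, hc]

end Zero_aux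

theorem tZero : StNear → StWall → StLin → StMul → StZero := by
  classical
  intro hNear _ hLin hMul n K hK hn hNT y hy h
  obtain ⟨ψ, rfl⟩ := exists_cl hy
  obtain ⟨m, hm⟩ := hLin n K hK (by omega) Set.univ convex_univ isOpen_univ ψ
    (fun τ p q b hW hb => absurd (Zero_aux.bend_zero hMul hK hn hNT h hW) hb)
  have hψ : ∀ v ∈ verts K, ψ v = pr m v := by
    intro v hv
    obtain ⟨σ, hσ, hvσ, hcard, x', hx', hin⟩ := hNear n K hK Set.univ isOpen_univ {v}
      (hK.single hv) (toR v) (Set.mem_univ _) (InRel.singleton v)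
    exact hm σ hσ hcard ⟨x', hx', hin⟩ v (hvσ (Finset.mem_singleton_self v))
  rw [cl_congr hψ]
  exact cl_pr m

end ToricPB
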