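import Pool.Agent.Lib.MP_3d51eb_gt.PB.Dual
import Pool.Agent.Lib.MP_3d51eb_gt.PB.Int
import Pool.Agent.Lib.MP_3d51eb_gt.PB.UniOf
import Pool.Agent.Lib.MP_3d51eb_gt.PB.DR
import Pool.Agent.Lib.MP_3d51eb_gt.PB.Uq
import Pool.Agent.Lib.MP_3d51eb_gt.PB.Loc
import Pool.Agent.Lib.MP_3d51eb_gt.PB.Gen
import Pool.Agent.Lib.MP_3d51eb_gt.PB.Near
import Pool.Agent.Lib.MP_3d51eb_gt.PB.Side
import Pool.Agent.Lib.MP_3d51eb_gt.PB.Wall
import Pool.Agent.Lib.MP_3d51eb_gt.PB.Conn
import Pool.Agent.Lib.MP_3d51eb_gt.PB.Lin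
import Pool.Agent.Lib.MP_3d51eb_gt.PB.Mul
import Pool.Agent.Lib.MP_3d51eb_gt.PB.Pt
import Pool.Agent.Lib.MP_3d51eb_gt.PB.Zero
import Pool.Agent.Lib.MP_3d51eb_gt.PB.Coef
import Pool.Agent.Lib.MP_3d51eb_gt.PB.Skel
import Pool.Agent.Lib.MP_3d51eb_gt.PB.Bd
import Pool.Agent.Lib.MP_3d51eb_gt.PB.Sign
import Pool.Agent.Lib.MP_3d51eb_gt.PB.Rel1
import Pool.Agent.Lib.MP_3d51eb_gt.PB.CardA
import Pool.Agent.Lib.MP_3d51eb_gt.PB.NoN
import Pool.Agent.Lib.MP_3d51eb_gt.PB.Ll
import Pool.Agent.Lib.MP_3d51eb_gt.PB.Simp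
import Pool.Agent.Lib.MP_3d51eb_gt.PB.NegStep
import Pool.Agent.Lib.MP_3d51eb_gt.PB.NegEnd
import Pool.Agent.Lib.MP_3d51eb_gt.PB.Neg
import Pool.Agent.Lib.MP_3d51eb_gt.PB.Inside
import Pool.Agent.Lib.MP_3d51eb_gt.PB.NoU
import Pool.Agent.Lib.MP_3d51eb_gt.PB.Leaf
import Pool.Agent.Lib.MP_3d51eb_gt.PB.Proj
import Pool.Agent.Lib.MP_3d51eb_gt.PB.Down
import Pool.Agent.Lib.MP_3d51eb_gt.PB.Pull
import Pool.Agent.Lib.MP_3d51eb_gt.PB.PullA
import Pool.Agent.Lib.MP_3d51eb_gt.PB.PullB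
import Pool.Agent.Lib.MP_3d51eb_gt.PB.RB
import Pool.Agent.Lib.MP_3d51eb_gt.PB.SD
import Pool.Agent.Lib.MP_3d51eb_gt.PB.Step
import Pool.Agent.Lib.MP_3d51eb_gt.PB.Main
import Pool.Agent.Lib.MP_3d51eb_gt.PB.DegStep
import Pool.Agent.Lib.MP_3d51eb_gt.PB.Deg
import Pool.Agent.Lib.MP_3d51eb_gt.PB.Top

set_option autoImplicit false

/-! # project PB: assembly -/

namespace ToricPB

theorem aDual : StDual := tDual
theorem aInt : StInt := tInt aDual
theorem aUniOf : StUniOf := tUniOf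
theorem aDR : StDR := tDR
theorem aUq : StUq := tUq aDual
theorem aLoc : StLoc := tLoc aDual aUq
theorem aGen : StGen := tGen
theorem aNear : StNear := tNear aDual aUq aLoc aGen
theorem aSide : StSide := tSide aDual aUq aLoc
theorem aWall : StWall := tWall aDual aUq aGen aSide
theorem aConn : StConn := tConn aDual aUq aNear
theorem aLin : StLin := tLin aInt aWall aConn
theorem aMul : StMul := tMul aInt
theorem aPt : StPt := tPt aWall aConn aMul
theorem aZero : StZero := tZero aNear aWall aLin aMul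
theorem aCoef : StCoef := tCoef
theorem aSkel : StSkel := tSkel
theorem aBd : StBd := tBd aDual aWall aMul aPt aSkel
theorem aSign : StSign := tSign aUq
theorem aRel1 : StRel1 := tRel1 aSign
theorem aCardA : StCardA := tCardA aRel1
theorem aNoN : StNoN := tNoN aDual aSide aLin aCardA
theorem aLl : StLl := tLl aDual aInt aDR aSign aRel1 aNear aSide aLin
theorem aSimp : StSimp := tSimp aDual aUniOf aWall aSign aNoN aLl
theorem aNegStep : StNegStep := tNegStep aDual aUq aLoc aGen aNear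
theorem aNegEnd : StNegEnd := tNegEnd aWall aMul aPt aNegStep
theorem aNeg : StNeg := tNeg aNegStep aNegEnd
theorem aInside : StInside := tInside aDual aUq
theorem aNoU : StNoU := tNoU aDual aInt aNear aInside aNeg
theorem aLeaf : StLeaf := tLeaf aDual aInside aNoU
theorem aProj : StProj := tProj aDual aUq
theorem aDown : StDown := tDown aDual aUq
theorem aPull : StPull := tPull aDown
theorem aPullA : StPullA := tPullA aDual aDown
theorem aPullB : StPullB := tPullB aDual aWall aPt aDown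
theorem aRB : StRB := tRB aZero
theorem aSD : StSD := tSD
theorem aStep : StStep :=
  tStep aCoef aSkel aBd aSimp aLeaf aProj aDown aPull aPullA aPullB aRB aSD
theorem aMain : StMain := tMain aStep
theorem aDegStep : StDegStep := tDegStep aDual aWall
theorem aDeg : StDeg := tDeg aDual aDegStep
theorem aTop : StTop := tTop aNear aWall aLin aMul aDeg

end ToricPB
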