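import Pool.Agent.Lib.MP_3d51eb_gt.PB.Defs

set_option autoImplicit false

/-!
# project PB: auxiliary notions and basic lemmas (all proved)
-/

noncomputable section

namespace ToricPB

open Finset MvPolynomial

variable {n : ℕ}

/-- scalar product -/
def dot (u x : Fin n → ℝ) : ℝ := ∑ i, u i * x i

/-- the class with the coordinates `ψ` (a piecewise linear function, given by its values on the
rays) -/
def cl (K : Finset (Finset (Vec n))) (ψ : Vec n → ℤ) : Coh K := ∑ v ∈ verts K, ψ v • cls K v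

/-- squarefree monomial -/
def mon (K : Finset (Finset (Vec n))) (s : Finset (Vec n)) : Coh K := ∏ v ∈ s, cls K v

/-- `τ` is a wall, `p`, `q` are the two rays which complete it to a maximal cone, and
`p + q + ∑ b v • v = 0` is the wall relation -/
def Wall (K : Finset (Finset (Vec n))) (τ : Finset (Vec n)) (p q : Vec n) (b : Vec n → ℤ) : Prop :=
  τ ∈ K ∧ τ.card + 1 = n ∧ p ∉ τ ∧ q ∉ τ ∧ p ≠ q ∧ insert p τ ∈ K ∧ insert q τ ∈ K ∧
  (∀ r, r ∉ τ → insert r τ ∈ K → r = p ∨ r = q) ∧ p + q + ∑ v ∈ τ, b v • v = 0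

/-- the bend of the piecewise linear function `ψ` at the wall `τ` -/
def bend (ψ : Vec n → ℤ) (τ : Finset (Vec n)) (p q : Vec n) (b : Vec n → ℤ) : ℤ :=
  ψ p + ψ q + ∑ v ∈ τ, b v * ψ v

/-- the class of a point is not a torsion element -/
def NT (K : Finset (Finset (Vec n))) : Prop :=
  ∀ σ ∈ K, σ.card = n → ∀ N : ℤ, N • mon K σ = 0 → N = 0

/-- `a i v` is the coefficient of `e i` in `cls K v` -/
def Dat (K : Finset (Finset (Vec n))) (k : ℕ) (e : Fin k → Coh K) (U : Submodule ℤ (Coh K))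
    (a : Fin k → Vec n → ℤ) : Prop :=
  (∀ v, cls K v - ∑ i, a i v • e i ∈ U) ∧
  (∀ i v, e i * cls K v = a i v • (e i * e i)) ∧
  (∀ i v, a i v ≠ 0 → v ∈ verts K) ∧
  (∀ i, ∑ v ∈ verts K, a i v • v = 0) ∧
  ∀ i ψ, e i = cl K ψ → ∑ v ∈ verts K, a i v * ψ v = 1

/-- combinatorial part of the information about one class `e = cl K ψ` -/
structure Comb (K : Finset (Finset (Vec n))) (a ψ : Vec n → ℤ) : Prop where
  supp : ∀ v, a v ≠ 0 → v ∈ verts K
  rel : ∑ v ∈ verts K, a v • v = 0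
  one : ∑ v ∈ verts K, a v * ψ v = 1
  skel : ∀ s : Finset (Vec n), (∀ v ∈ s, a v ≠ 0) → s.card + 1 ≤ n → s ∈ K
  bd : ∀ τ p q b, Wall K τ p q b → bend ψ τ p q b ≠ 0 → ∀ v ∈ τ, a v ≠ 0

/-- the support of `a` -/
def sup (K : Finset (Finset (Vec n))) (a : Vec n → ℤ) : Finset (Vec n) :=
  (verts K).filter (fun v => a v ≠ 0)

/-- `A` is the vertex set of a unimodular simplex whose faces with at most `n - 1` elements are
cones -/
structure Simp (K : Finset (Finset (Vec n))) (A : Finset (Vec n)) : Prop where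
  vert : ∀ v ∈ A, v ∈ verts K
  card : A.card = n + 1
  skel : ∀ s ⊆ A, s.card + 1 ≤ n → s ∈ K
  uni : ∀ l ∈ A, Uni (A.erase l)
  type : ∑ v ∈ A, v = 0 ∨ ∃ v0 ∈ A, v0 = ∑ v ∈ A.erase v0, v

/-- state of the descent in the negativity lemma -/
def NegSt (K : Finset (Finset (Vec n))) (ψ : Vec n → ℤ) (τ : Finset (Vec n))
    (u : Fin n → ℝ) : Prop :=
  τ ∈ K ∧ (∀ v ∈ τ, ψ v = 0) ∧ (∃ F ∈ K, τ ⊆ F ∧ ∃ p ∈ F, ψ p ≠ 0) ∧
  (∀ v ∈ τ, dot u (toR v) = 0) ∧
  ∀ F ∈ K, τ ⊆ F → (∃ p ∈ F, ψ p ≠ 0) → ∀ v ∈ F, v ∉ τ → 0 < dot u (toR v)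

/-- blow-down: remove the ray `v0`, fill in the cone `S` -/
def down (K : Finset (Finset (Vec n))) (S : Finset (Vec n)) (v0 : Vec n) :
    Finset (Finset (Vec n)) := insert S (K.filter (fun t => v0 ∉ t))

/-! ## pairing -/

lemma pr_add (u v w : Vec n) : pr u (v + w) = pr u v + pr u w := by
  simp only [pr, Pi.add_apply, mul_add, Finset.sum_add_distrib]

lemma pr_add_left (u u' v : Vec n) : pr (u + u') v = pr u v + pr u' v := by
  simp only [pr, Pi.add_apply, add_mul, Finset.sum_add_distrib]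

lemma pr_zero (u : Vec n) : pr u 0 = 0 := by simp [pr]

lemma pr_zero_left (v : Vec n) : pr (0 : Vec n) v = 0 := by simp [pr]

lemma pr_smul (u : Vec n) (c : ℤ) (v : Vec n) : pr u (c • v) = c * pr u v := by
  simp only [pr, Pi.smul_apply, smul_eq_mul, Finset.mul_sum]
  exact Finset.sum_congr rfl (fun i _ => by ring)

lemma pr_smul_left (u : Vec n) (c : ℤ) (v : Vec n) : pr (c • u) v = c * pr u v := by
  simp only [pr, Pi.smul_apply, smul_eq_mul, Finset.mul_sum]
  exact Finset.sum_congr rfl (fun i _ => by ring)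

lemma pr_neg (u v : Vec n) : pr u (-v) = -pr u v := by
  simp [pr]

lemma pr_neg_left (u v : Vec n) : pr (-u) v = -pr u v := by
  simp [pr]

lemma pr_sub (u v w : Vec n) : pr u (v - w) = pr u v - pr u w := by
  rw [sub_eq_add_neg, pr_add, pr_neg, sub_eq_add_neg]

lemma pr_sub_left (u u' v : Vec n) : pr (u - u') v = pr u v - pr u' v := by
  rw [sub_eq_add_neg, pr_add_left, pr_neg_left, sub_eq_add_neg]

lemma pr_sum {ι : Type} (s : Finset ι) (u : Vec n) (f : ι → Vec n) :
    pr u (∑ i ∈ s, f i) = ∑ i ∈ s, pr u (f i) := by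
  classical
  induction s using Finset.induction_on with
  | empty => simp [pr_zero]
  | insert a s ha ih => rw [Finset.sum_insert ha, Finset.sum_insert ha, pr_add, ih]

lemma pr_sum_left {ι : Type} (s : Finset ι) (f : ι → Vec n) (v : Vec n) :
    pr (∑ i ∈ s, f i) v = ∑ i ∈ s, pr (f i) v := by
  classical
  induction s using Finset.induction_on with
  | empty => simp [pr_zero_left]
  | insert a s ha ih => rw [Finset.sum_insert ha, Finset.sum_insert ha, pr_add_left, ih]

/-! ## real vectors -/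

lemma toR_inj {v w : Vec n} (h : toR v = toR w) : v = w := by
  funext i
  have := congrFun h i
  simpa [toR] using this

lemma toR_add (v w : Vec n) : toR (v + w) = toR v + toR w := by
  funext i; simp [toR]

lemma toR_zero : toR (0 : Vec n) = 0 := by
  funext i; simp [toR]

lemma toR_neg (v : Vec n) : toR (-v) = -toR v := by
  funext i; simp [toR]

lemma toR_smul (c : ℤ) (v : Vec n) : toR (c • v) = (c : ℝ) • toR v := by
  funext i; simp [toR]

lemma toR_sum {ι : Type} (s : Finset ι) (f : ι → Vec n) :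
    toR (∑ i ∈ s, f i) = ∑ i ∈ s, toR (f i) := by
  classical
  induction s using Finset.induction_on with
  | empty => simp [toR_zero]
  | insert a s ha ih => rw [Finset.sum_insert ha, Finset.sum_insert ha, toR_add, ih]

lemma dot_add (u x y : Fin n → ℝ) : dot u (x + y) = dot u x + dot u y := by
  simp only [dot, Pi.add_apply, mul_add, Finset.sum_add_distrib]

lemma dot_add_left (u u' x : Fin n → ℝ) : dot (u + u') x = dot u x + dot u' x := by
  simp only [dot, Pi.add_apply, add_mul, Finset.sum_add_distrib]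

lemma dot_smul (u : Fin n → ℝ) (c : ℝ) (x : Fin n → ℝ) : dot u (c • x) = c * dot u x := by
  simp only [dot, Pi.smul_apply, smul_eq_mul, Finset.mul_sum]
  exact Finset.sum_congr rfl (fun i _ => by ring)

lemma dot_smul_left (u : Fin n → ℝ) (c : ℝ) (x : Fin n → ℝ) : dot (c • u) x = c * dot u x := by
  simp only [dot, Pi.smul_apply, smul_eq_mul, Finset.mul_sum]
  exact Finset.sum_congr rfl (fun i _ => by ring)

lemma dot_zero (u : Fin n → ℝ) : dot u 0 = 0 := by simp [dot]

lemma dot_zero_left (x : Fin n → ℝ) : dot (0 : Fin n → ℝ) x = 0 := by simp [dot]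

lemma dot_neg (u x : Fin n → ℝ) : dot u (-x) = -dot u x := by simp [dot]

lemma dot_neg_left (u x : Fin n → ℝ) : dot (-u) x = -dot u x := by simp [dot]

lemma dot_sub_left (u u' x : Fin n → ℝ) : dot (u - u') x = dot u x - dot u' x := by
  rw [sub_eq_add_neg, dot_add_left, dot_neg_left, sub_eq_add_neg]

lemma dot_self_pos {u : Fin n → ℝ} (h : u ≠ 0) : 0 < dot u u := by
  obtain ⟨i, hi⟩ : ∃ i, u i ≠ 0 := by
    by_contra hc
    push Not at hc
    exact h (funext hc)
  exact Finset.sum_pos' (fun j _ => mul_self_nonneg _) ⟨i, Finset.mem_univ _, mul_self_pos.2 hi⟩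

lemma dot_sum {ι : Type} (s : Finset ι) (u : Fin n → ℝ) (f : ι → Fin n → ℝ) :
    dot u (∑ i ∈ s, f i) = ∑ i ∈ s, dot u (f i) := by
  classical
  induction s using Finset.induction_on with
  | empty => simp [dot_zero]
  | insert a s ha ih => rw [Finset.sum_insert ha, Finset.sum_insert ha, dot_add, ih]

lemma dot_lin (u : Fin n → ℝ) (s : Finset (Vec n)) (c : Vec n → ℝ) :
    dot u (lin s c) = ∑ v ∈ s, c v * dot u (toR v) := by
  rw [lin, dot_sum]
  exact Finset.sum_congr rfl (fun v _ => dot_smul _ _ _)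

lemma dot_toR (u v : Vec n) : dot (toR u) (toR v) = (pr u v : ℝ) := by
  simp [dot, toR, pr]

lemma dot_continuous (u : Fin n → ℝ) : Continuous (fun x => dot u x) := by
  unfold dot
  fun_prop

lemma lin_add (s : Finset (Vec n)) (c d : Vec n → ℝ) :
    lin s (fun v => c v + d v) = lin s c + lin s d := by
  simp only [lin, add_smul, Finset.sum_add_distrib]

lemma lin_smul (s : Finset (Vec n)) (a : ℝ) (c : Vec n → ℝ) :
    lin s (fun v => a * c v) = a • lin s c := by
  simp only [lin, mul_smul, Finset.smul_sum]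

lemma lin_sub (s : Finset (Vec n)) (c d : Vec n → ℝ) :
    lin s (fun v => c v - d v) = lin s c - lin s d := by
  simp only [lin, sub_smul, Finset.sum_sub_distrib]

lemma lin_zero (s : Finset (Vec n)) : lin s (fun _ => (0 : ℝ)) = 0 := by
  simp [lin]

lemma lin_congr {s : Finset (Vec n)} {c d : Vec n → ℝ} (h : ∀ v ∈ s, c v = d v) :
    lin s c = lin s d :=
  Finset.sum_congr rfl (fun v hv => by rw [h v hv])

lemma lin_int (s : Finset (Vec n)) (c : Vec n → ℤ) :
    lin s (fun v => (c v : ℝ)) = toR (∑ v ∈ s, c v • v) := by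
  rw [toR_sum]
  exact Finset.sum_congr rfl (fun v _ => (toR_smul _ _).symm)

lemma lin_insert {s : Finset (Vec n)} {w : Vec n} (hw : w ∉ s) (c : Vec n → ℝ) :
    lin (insert w s) c = c w • toR w + lin s c := by
  rw [lin, Finset.sum_insert hw, lin]

lemma lin_subset {s t : Finset (Vec n)} (h : s ⊆ t) (c : Vec n → ℝ)
    (h0 : ∀ v ∈ t, v ∉ s → c v = 0) : lin t c = lin s c :=
  (Finset.sum_subset h (fun v hv hs => by rw [h0 v hv hs, zero_smul])).symm

lemma lin_single {s : Finset (Vec n)} {v : Vec n} (hv : v ∈ s) :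
    lin s (fun w => if w = v then (1 : ℝ) else 0) = toR v := by
  simp [lin, Finset.sum_ite_eq', hv]

lemma lin_singleton (v : Vec n) (c : Vec n → ℝ) : lin {v} c = c v • toR v := by
  simp [lin]

lemma InRel.one (s : Finset (Vec n)) : InRel s (lin s (fun _ => (1 : ℝ))) :=
  ⟨fun _ => 1, fun _ _ => one_pos, rfl⟩

lemma InRel.singleton (v : Vec n) : InRel {v} (toR v) :=
  ⟨fun _ => 1, fun _ _ => one_pos, by simp [lin]⟩

lemma InRel.convex (s : Finset (Vec n)) : Convex ℝ {x | InRel s x} := by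
  rintro x ⟨c, hc, rfl⟩ y ⟨d, hd, rfl⟩ a b ha hb hab
  refine ⟨fun v => a * c v + b * d v, fun v hv => ?_, ?_⟩
  · have h1 := hc v hv
    have h2 := hd v hv
    rcases eq_or_lt_of_le ha with h | h
    · have hb1 : b = 1 := by linarith
      subst hb1
      rw [← h]; simpa using h2
    · have := mul_pos h h1
      have := mul_nonneg hb h2.le
      show 0 < a * c v + b * d v
      linarith
  · rw [lin_add, lin_smul, lin_smul]

/-! ## fans -/

variable {K : Finset (Finset (Vec n))}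

lemma mem_verts {v : Vec n} : v ∈ verts K ↔ ∃ s ∈ K, v ∈ s := by
  simp [verts]

lemma IsFan.single (hK : IsFan K) {v : Vec n} (hv : v ∈ verts K) : {v} ∈ K := by
  obtain ⟨s, hs, hvs⟩ := mem_verts.1 hv
  exact hK.down s hs _ (by simpa using hvs)

lemma mem_verts_of_single {v : Vec n} (hv : {v} ∈ K) : v ∈ verts K :=
  mem_verts.2 ⟨_, hv, by simp⟩

lemma mem_verts_of_mem {v : Vec n} {s : Finset (Vec n)} (hs : s ∈ K) (hv : v ∈ s) : v ∈ verts K :=
  mem_verts.2 ⟨s, hs, hv⟩

lemma IsFan.uniq (hK : IsFan K) {s t : Finset (Vec n)} {x : Fin n → ℝ} (hs : s ∈ K) (ht : t ∈ K)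
    (h1 : InRel s x) (h2 : InRel t x) : s = t :=
  (hK.cover x).unique ⟨hs, h1⟩ ⟨ht, h2⟩

lemma IsFan.empty_mem (hK : IsFan K) : (∅ : Finset (Vec n)) ∈ K := by
  obtain ⟨s, ⟨hs, _⟩, _⟩ := hK.cover 0
  exact hK.down s hs _ (Finset.empty_subset _)

/-! ## the cohomology ring -/

lemma mk_prod (s : Finset (Vec n)) :
    Ideal.Quotient.mk (relIdeal K) (∏ v ∈ s, X v) = mon K s := by
  rw [map_prod]; rfl

lemma mon_eq_zero {s : Finset (Vec n)} (hs : s ∉ K) : mon K s = 0 := by
  rw [← mk_prod, Ideal.Quotient.eq_zero_iff_mem]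
  exact Ideal.subset_span (Or.inl ⟨s, hs, rfl⟩)

lemma mon_empty : mon K ∅ = 1 := by simp [mon]

lemma mon_singleton (v : Vec n) : mon K {v} = cls K v := by simp [mon]

lemma mon_insert {s : Finset (Vec n)} {v : Vec n} (hv : v ∉ s) :
    mon K (insert v s) = cls K v * mon K s := by
  rw [mon, Finset.prod_insert hv]; rfl

lemma mon_union {s t : Finset (Vec n)} (h : Disjoint s t) :
    mon K (s ∪ t) = mon K s * mon K t := by
  rw [mon, Finset.prod_union h]; rfl

lemma cls_eq_zero {v : Vec n} (hv : v ∉ verts K) : cls K v = 0 := by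
  rw [← mon_singleton]
  exact mon_eq_zero (fun h => hv (mem_verts_of_single h))

lemma cls_mul_eq_zero {v w : Vec n} (hvw : v ≠ w) (h : {v, w} ∉ K) : cls K v * cls K w = 0 := by
  have := mon_eq_zero h
  rwa [mon_insert (by simpa using hvw), mon_singleton] at this

lemma lin_rel (u : Vec n) : ∑ v ∈ verts K, pr u v • cls K v = 0 := by
  have h : Ideal.Quotient.mk (relIdeal K) (∑ v ∈ verts K, C (pr u v) * X v) = 0 := by
    rw [Ideal.Quotient.eq_zero_iff_mem]
    exact Ideal.subset_span (Or.inr ⟨u, rfl⟩)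
  rw [map_sum] at h
  rw [← h]
  refine Finset.sum_congr rfl (fun v _ => ?_)
  rw [map_mul, zsmul_eq_mul]
  congr 1

lemma cl_pr (m : Vec n) : cl K (pr m) = 0 := lin_rel m

lemma cl_add (ψ χ : Vec n → ℤ) : cl K (fun v => ψ v + χ v) = cl K ψ + cl K χ := by
  simp only [cl, add_smul, Finset.sum_add_distrib]

lemma cl_sub (ψ χ : Vec n → ℤ) : cl K (fun v => ψ v - χ v) = cl K ψ - cl K χ := by
  simp only [cl, sub_smul, Finset.sum_sub_distrib]

lemma cl_smul (c : ℤ) (ψ : Vec n → ℤ) : cl K (fun v => c * ψ v) = c • cl K ψ := by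
  simp only [cl, mul_smul, Finset.smul_sum]

lemma cl_sub_pr (ψ : Vec n → ℤ) (m : Vec n) : cl K (fun v => ψ v - pr m v) = cl K ψ := by
  rw [cl_sub, show cl K (fun v => pr m v) = 0 from cl_pr m, sub_zero]

lemma cl_congr {ψ χ : Vec n → ℤ} (h : ∀ v ∈ verts K, ψ v = χ v) : cl K ψ = cl K χ :=
  Finset.sum_congr rfl (fun v hv => by rw [h v hv])

lemma cl_single {v : Vec n} (hv : v ∈ verts K) :
    cl K (fun w => if w = v then 1 else 0) = cls K v := by
  simp [cl, Finset.sum_ite_eq', hv]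

lemma cl_mem (ψ : Vec n → ℤ) : cl K ψ ∈ H2 K :=
  Submodule.sum_mem _ (fun v _ => Submodule.smul_mem _ _ (Submodule.subset_span ⟨v, rfl⟩))

lemma cls_mem (v : Vec n) : cls K v ∈ H2 K := Submodule.subset_span ⟨v, rfl⟩

lemma exists_cl {y : Coh K} (hy : y ∈ H2 K) : ∃ ψ : Vec n → ℤ, y = cl K ψ := by
  refine Submodule.span_induction (p := fun y _ => ∃ ψ : Vec n → ℤ, y = cl K ψ) ?_ ?_ ?_ ?_ hy
  · rintro _ ⟨v, rfl⟩
    by_cases hv : v ∈ verts K
    · exact ⟨_, (cl_single hv).symm⟩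
    · exact ⟨fun _ => 0, by rw [cls_eq_zero hv]; simp [cl]⟩
  · exact ⟨fun _ => 0, by simp [cl]⟩
  · rintro x y _ _ ⟨ψ, rfl⟩ ⟨χ, rfl⟩
    exact ⟨_, (cl_add ψ χ).symm⟩
  · rintro c x _ ⟨ψ, rfl⟩
    exact ⟨_, (cl_smul c ψ).symm⟩

/-- induction over the cohomology ring -/
lemma coh_induction {P : Coh K → Prop} (hint : ∀ c : ℤ, P (c : Coh K)) (hcls : ∀ v, P (cls K v))
    (hadd : ∀ x y, P x → P y → P (x + y)) (hmul : ∀ x y, P x → P y → P (x * y)) (x : Coh K) :
    P x := by
  obtain ⟨f, rfl⟩ := Ideal.Quotient.mk_surjective x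
  induction f using MvPolynomial.induction_on with
  | C c =>
    have : (C c : MvPolynomial (Vec n) ℤ) = ((c : ℤ) : MvPolynomial (Vec n) ℤ) := by simp
    rw [this, map_intCast]
    exact hint c
  | add p q hp hq => rw [map_add]; exact hadd _ _ hp hq
  | mul_X p v hp => rw [map_mul]; exact hmul _ _ hp (hcls v)

/-- two ring homomorphisms which agree on the classes of the divisors are equal -/
lemma coh_hom_ext {R : Type} [CommRing R] {f g : Coh K →+* R} (h : ∀ v, f (cls K v) = g (cls K v)) :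
    f = g := by
  refine RingHom.ext (fun x => ?_)
  refine coh_induction (P := fun x => f x = g x) ?_ h ?_ ?_ x
  · intro c; simp
  · intro x y hx hy; rw [map_add, map_add, hx, hy]
  · intro x y hx hy; rw [map_mul, map_mul, hx, hy]

/-- a ring homomorphism from the cohomology ring is given by images of the divisor classes which
satisfy the relations -/
lemma coh_lift {R : Type} [CommRing R] (φ : Vec n → R)
    (h1 : ∀ s : Finset (Vec n), s ∉ K → ∏ v ∈ s, φ v = 0)
    (h2 : ∀ u : Vec n, ∑ v ∈ verts K, pr u v • φ v = 0) :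
    ∃ f : Coh K →+* R, ∀ v, f (cls K v) = φ v := by
  have hle : ∀ a ∈ relIdeal K, (eval₂Hom (Int.castRingHom R) φ) a = 0 := by
    intro a ha
    have : relIdeal K ≤ RingHom.ker (eval₂Hom (Int.castRingHom R) φ) := by
      refine Ideal.span_le.2 ?_
      rintro f (⟨s, hs, rfl⟩ | ⟨u, rfl⟩)
      · simp only [SetLike.mem_coe, RingHom.mem_ker, map_prod, coe_eval₂Hom, eval₂_X]
        exact h1 s hs
      · rw [SetLike.mem_coe, RingHom.mem_ker, map_sum, ← h2 u]
        refine Finset.sum_congr rfl (fun v _ => ?_)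
        rw [map_mul, zsmul_eq_mul]
        simp
    exact this ha
  exact ⟨Ideal.Quotient.lift (relIdeal K) _ hle, fun v => by
    show Ideal.Quotient.lift (relIdeal K) _ hle (Ideal.Quotient.mk _ (X v)) = _
    rw [Ideal.Quotient.lift_mk]; simp⟩

end ToricPB
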