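import Mathlib

set_option autoImplicit false

/-!
# MP_3d51eb_gt, project PB: toric manifolds whose cohomology ring is that of a connected sum
with copies of the complex projective space

Complete nonsingular fans in the lattice of integral vectors of length `n` (given by the sets of
primitive generators of their cones), their cohomology rings
(Stanley-Reisner ring modulo linear relations, Danilov-Jurkiewicz), point blow-ups.
-/

noncomputable section

namespace ToricPB

open Finset MvPolynomial

/-- lattice vectors -/
abbrev Vec (n : ℕ) := Fin n → ℤ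

variable {n : ℕ}

/-- a lattice vector as a real vector -/
def toR (v : Vec n) : Fin n → ℝ := fun i => (v i : ℝ)

/-- the value of the linear form `u` at the lattice vector `v` -/
def pr (u v : Vec n) : ℤ := ∑ i, u i * v i

/-- real linear combination of a finite set of lattice vectors -/
def lin (s : Finset (Vec n)) (c : Vec n → ℝ) : Fin n → ℝ := ∑ v ∈ s, c v • toR v

/-- `x` lies in the relative interior of the cone generated by `s` -/
def InRel (s : Finset (Vec n)) (x : Fin n → ℝ) : Prop :=
  ∃ c : Vec n → ℝ, (∀ v ∈ s, 0 < c v) ∧ x = lin s c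

/-- `s` is part of a basis of the lattice -/
def Uni (s : Finset (Vec n)) : Prop :=
  ∃ b : Module.Basis (Fin n) ℤ (Vec n), ∀ v ∈ s, ∃ i, b i = v

/-- `K` is (the set of the generator sets of the cones of) a complete nonsingular fan: closed
under passing to faces, every cone is generated by a part of a lattice basis, and the relative
interiors of the cones form a partition of the real vector space. -/
structure IsFan (K : Finset (Finset (Vec n))) : Prop where
  down : ∀ s ∈ K, ∀ t, t ⊆ s → t ∈ K
  smooth : ∀ s ∈ K, Uni s
  cover : ∀ x : Fin n → ℝ, ∃! s, s ∈ K ∧ InRel s x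

/-- the rays of the fan -/
def verts (K : Finset (Finset (Vec n))) : Finset (Vec n) := K.biUnion id

/-- the ideal of the relations between the classes of the invariant divisors: products over
non-cones, and linear relations -/
def relIdeal (K : Finset (Finset (Vec n))) : Ideal (MvPolynomial (Vec n) ℤ) :=
  Ideal.span ({f | ∃ s : Finset (Vec n), s ∉ K ∧ f = ∏ v ∈ s, X v} ∪
    {f | ∃ u : Vec n, f = ∑ v ∈ verts K, C (pr u v) * X v})

/-- the integral cohomology ring of the toric manifold of `K` (Danilov, Jurkiewicz) -/
abbrev Coh (K : Finset (Finset (Vec n))) := MvPolynomial (Vec n) ℤ ⧸ relIdeal K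

/-- the class of the invariant divisor of the ray `v` (zero if `v` is not a ray) -/
def cls (K : Finset (Finset (Vec n))) (v : Vec n) : Coh K := Ideal.Quotient.mk (relIdeal K) (X v)

/-- the second cohomology group -/
def H2 (K : Finset (Finset (Vec n))) : Submodule ℤ (Coh K) := Submodule.span ℤ (Set.range (cls K))

/-- blow-up of the fixed point of the maximal cone `s`: star subdivision at the sum of its
generators -/
def blow (K : Finset (Finset (Vec n))) (s : Finset (Vec n)) : Finset (Finset (Vec n)) :=
  K.filter (fun t => ¬ s ⊆ t) ∪ (s.powerset.erase s).image (fun a => insert (∑ v ∈ s, v) a)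

/-- `Blowups k K L`: `L` is obtained from `K` by `k` successive point blow-ups -/
inductive Blowups : ℕ → Finset (Finset (Vec n)) → Finset (Finset (Vec n)) → Prop
  | refl (K : Finset (Finset (Vec n))) : Blowups 0 K K
  | step (k : ℕ) (K L : Finset (Finset (Vec n))) (s : Finset (Vec n)) :
      Blowups k K L → s ∈ L → s.card = n → Blowups (k + 1) K (blow L s)

/-- the fan of the projective space: all proper subsets of `{b_1, …, b_n, - (b_1 + … + b_n)}` -/
def IsProj (K : Finset (Finset (Vec n))) : Prop :=
  ∃ b : Module.Basis (Fin n) ℤ (Vec n),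
    K = (insert (-∑ i, b i) (univ.image b)).powerset.erase (insert (-∑ i, b i) (univ.image b))

/-- The second cohomology group is `U + ℤ e_1 + … + ℤ e_k` with `e_i e_j = 0` for `i ≠ j`,
`e_i U = 0`, and no `e_i ^ n` is a torsion element: the shape of the second cohomology of a
connected sum of a manifold with `k` copies of the projective space. -/
structure Split (K : Finset (Finset (Vec n))) (k : ℕ) (e : Fin k → Coh K)
    (U : Submodule ℤ (Coh K)) : Prop where
  he : ∀ i, e i ∈ H2 K
  hU : U ≤ H2 K
  gen : ∀ y ∈ H2 K, ∃ u ∈ U, ∃ c : Fin k → ℤ, y = u + ∑ i, c i • e i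
  ee : ∀ i j, i ≠ j → e i * e j = 0
  eu : ∀ i, ∀ u ∈ U, e i * u = 0
  top : ∀ i, ∀ N : ℤ, N • (e i) ^ n = 0 → N = 0

/-- `U` contains an element of square zero, not zero, whose annihilator in `U` has rank one. -/
def SqZero (K : Finset (Finset (Vec n))) (U : Submodule ℤ (Coh K)) : Prop :=
  ∃ x ∈ U, x ≠ 0 ∧ x * x = 0 ∧ ∀ u ∈ U, x * u = 0 → ∃ N M : ℤ, N ≠ 0 ∧ N • u = M • x

end ToricPB
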