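import Pool.Agent.Lib.MP_3d51eb_gt.PB.Defs

set_option autoImplicit false

/-!
# MP_3d51eb_gt, project PB: the hypothesis of the final theorem
-/

noncomputable section

namespace ToricPB

open Finset MvPolynomial

variable {n : ℕ}

/-- The second cohomology group is `U + ℤ e_1 + … + ℤ e_k` with `e_i ≠ 0`, `e_i e_j = 0` for
`i ≠ j` and `e_i U = 0`. -/
structure OrthSplit (K : Finset (Finset (Vec n))) (k : ℕ) (e : Fin k → Coh K)
    (U : Submodule ℤ (Coh K)) : Prop where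
  he : ∀ i, e i ∈ H2 K
  hU : U ≤ H2 K
  gen : ∀ y ∈ H2 K, ∃ u ∈ U, ∃ c : Fin k → ℤ, y = u + ∑ i, c i • e i
  ne : ∀ i, e i ≠ 0
  ee : ∀ i j, i ≠ j → e i * e j = 0
  eu : ∀ i, ∀ u ∈ U, e i * u = 0

end ToricPB
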