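import Pool.Agent.Lib.MP_3d51eb_gt.PB.Spec

set_option autoImplicit false

/-!
# project PB, module Dual: dual bases of parts of a lattice basis
-/

noncomputable section

namespace ToricPB

open Finset MvPolynomial

theorem tDual : StDual := by
  classical
  intro n s hs
  obtain ⟨b, hb⟩ := hs
  rcases Nat.eq_zero_or_pos n with rfl | hpos
  · have hs0 : s = ∅ := by
      refine Finset.eq_empty_of_forall_notMem fun v hv => ?_
      obtain ⟨i, -⟩ := hb v hv
      exact i.elim0
    subst hs0
    refine ⟨by simp, fun v hv => absurd hv (Finset.notMem_empty v),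
      fun c _ v hv => absurd hv (Finset.notMem_empty v), fun _ => ⟨fun y => ⟨0, Subsingleton.elim _ _⟩,
        fun x => ⟨0, Subsingleton.elim _ _⟩⟩⟩
  have : Nonempty (Fin n) := ⟨⟨0, hpos⟩⟩
  choose! i hi using hb
  have hinj : ∀ v ∈ s, ∀ w ∈ s, i v = i w → v = w := fun v hv w hw h => by
    rw [← hi v hv, ← hi w hw, h]
  have hcard : s.card ≤ n := by
    have h := Finset.card_le_card_of_injOn (s := s) (t := (univ : Finset (Fin n))) i
      (fun _ _ => Finset.mem_coe.2 (Finset.mem_univ _)) (fun v hv w hw h => hinj v hv w hw h)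
    rwa [Finset.card_univ, Fintype.card_fin] at h
  set u : Fin n → Vec n := fun k j => b.coord k (fun l => if j = l then 1 else 0) with hu
  have hpr : ∀ (k : Fin n) (y : Vec n), pr (u k) y = b.repr y k := by
    intro k y
    rw [← Module.Basis.coord_apply, LinearMap.pi_apply_eq_sum_univ (b.coord k) y]
    unfold pr
    refine Finset.sum_congr rfl fun j _ => ?_
    rw [hu, smul_eq_mul, mul_comm]
  have h1 : ∀ v ∈ s, pr (u (i v)) v = 1 := by
    intro v hv
    have e : b.repr v = Finsupp.single (i v) 1 := by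
      have e1 := b.repr_self (i v)
      rwa [hi v hv] at e1
    rw [hpr, e, Finsupp.single_eq_same]
  have h0 : ∀ v ∈ s, ∀ w ∈ s, w ≠ v → pr (u (i v)) w = 0 := by
    intro v hv w hw hne
    rw [hpr]
    have e : b.repr w = Finsupp.single (i w) 1 := by
      have e1 := b.repr_self (i w)
      rwa [hi w hw] at e1
    rw [e, Finsupp.single_apply, if_neg]
    intro h
    exact hne (hinj w hw v hv h)
  refine ⟨hcard, fun v hv => ⟨u (i v), h1 v hv, fun w hw hne => h0 v hv w hw hne⟩, ?_, ?_⟩
  · intro c hc v hv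
    have h2 := dot_lin (toR (u (i v))) s c
    rw [hc, dot_zero, Finset.sum_eq_single_of_mem v hv fun w hw hne => by
      rw [dot_toR, h0 v hv w hw hne, Int.cast_zero, mul_zero], dot_toR, h1 v hv, Int.cast_one,
      mul_one] at h2
    exact h2.symm
  · intro hn
    have him : s.image i = univ := by
      refine Finset.eq_univ_of_card _ ?_
      rw [Finset.card_image_of_injOn fun v hv w hw h => hinj v hv w hw h, hn, Fintype.card_fin]
    have hint : ∀ y : Vec n, ∃ c : Vec n → ℤ, y = ∑ v ∈ s, c v • v := by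
      intro y
      refine ⟨fun v => b.repr y (i v), ?_⟩
      have h3 : ∑ v ∈ s, b.repr y (i v) • v = ∑ v ∈ s, b.repr y (i v) • b (i v) :=
        Finset.sum_congr rfl fun v hv => by rw [hi v hv]
      rw [h3]
      have h4 : ∑ v ∈ s, b.repr y (i v) • b (i v) = ∑ k ∈ s.image i, b.repr y k • b k :=
        (Finset.sum_image (f := fun k => b.repr y k • b k) fun v hv w hw h => hinj v hv w hw h).symm
      rw [h4, him]
      exact (b.sum_repr y).symm
    refine ⟨hint, fun x => ?_⟩
    choose c hc using fun j : Fin n => hint (Pi.single j 1)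
    refine ⟨fun v => ∑ j, x j * (c j v : ℝ), ?_⟩
    funext l
    have h5 : ∀ j : Fin n, (if l = j then (1 : ℝ) else 0) = ∑ v ∈ s, (c j v : ℝ) * (v l : ℝ) := by
      intro j
      have h6 := congrFun (hc j) l
      rw [Pi.single_apply, Finset.sum_apply] at h6
      have h7 : ((if l = j then (1 : ℤ) else 0 : ℤ) : ℝ) = ((∑ v ∈ s, (c j v • v) l : ℤ) : ℝ) := by
        rw [h6]
      push_cast at h7
      rw [h7]
      refine Finset.sum_congr rfl fun v _ => ?_
      rw [Pi.smul_apply, smul_eq_mul]
      push_cast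
      rfl
    unfold lin
    rw [Finset.sum_apply]
    have h8 : ∀ v ∈ s, ((∑ j, x j * (c j v : ℝ)) • toR v) l = ∑ j, x j * ((c j v : ℝ) * (v l : ℝ)) := by
      intro v _
      rw [Pi.smul_apply, smul_eq_mul, Finset.sum_mul]
      refine Finset.sum_congr rfl fun j _ => ?_
      unfold toR
      ring
    rw [Finset.sum_congr rfl h8, Finset.sum_comm]
    have h9 : ∀ j ∈ (univ : Finset (Fin n)), ∑ v ∈ s, x j * ((c j v : ℝ) * (v l : ℝ)) =
        x j * (if l = j then (1 : ℝ) else 0) := by
      intro j _
      rw [← Finset.mul_sum, h5 j]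
    rw [Finset.sum_congr rfl h9]
    simp

end ToricPB
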