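import Pool.Agent.Lib.MP_3d51eb_gt.PB.Spec2

set_option autoImplicit false

noncomputable section

namespace ToricPB

open Finset MvPolynomial

open Classical in
theorem tLin : StInt → StWall → StConn → StLin := by
  intro hInt hWall hConn n K hK hn Ω hΩc hΩo ψ hψ
  have hex : ∀ σ : Finset (Vec n), ∃ m : Vec n, σ ∈ K → ∀ v ∈ σ, pr m v = ψ v := by
    intro σ
    by_cases hσ : σ ∈ K
    · obtain ⟨m, hm⟩ := (hInt n σ (hK.smooth σ hσ)).1 ψ
      exact ⟨m, fun _ => hm⟩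
    · exact ⟨0, fun h => absurd h hσ⟩
  choose f hf using hex
  have hkey : ∀ κ ∈ K, κ.card + 1 = n → (∃ x ∈ Ω, InRel κ x) → ∀ σ ∈ K, ∀ σ' ∈ K, κ ⊆ σ →
      κ ⊆ σ' → σ.card = n → σ'.card = n → f σ = f σ' := by
    intro κ hκ hκn ⟨x, hx, hxκ⟩ σ hσ σ' hσ' hκσ hκσ' hσn hσn'
    obtain ⟨p, q, b, hW⟩ := hWall n K hK κ hκ hκn
    have hb : bend ψ κ p q b = 0 := by
      by_contra h
      exact hψ κ p q b hW h x hx hxκ
    obtain ⟨h1, h2, h3, h4, h5, h6, h7, h8, h9⟩ := hW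
    have hpq : f (insert p κ) = f (insert q κ) := by
      refine (hInt n (insert q κ) (hK.smooth _ h7)).2
        (by rw [card_insert_of_notMem h4, h2]) _ _ (fun v hv => ?_)
      rw [hf _ h7 v hv]
      rcases mem_insert.1 hv with rfl | hv
      · have h10 := congrArg (pr (f (insert p κ))) h9
        simp only [pr_add, pr_sum, pr_smul, pr_zero] at h10
        have h11 : ∑ w ∈ κ, b w * pr (f (insert p κ)) w = ∑ w ∈ κ, b w * ψ w :=
          Finset.sum_congr rfl (fun w hw => by rw [hf _ h6 w (mem_insert_of_mem hw)])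
        have h12 := hf _ h6 p (mem_insert_self _ _)
        rw [bend] at hb
        linarith
      · exact hf _ h6 v (mem_insert_of_mem hv)
    have hcase : ∀ s ∈ K, κ ⊆ s → s.card = n → f s = f (insert p κ) := by
      intro s hs hκs hsn
      obtain ⟨r, hr, hrs⟩ := Finset.exists_eq_insert_iff.2 ⟨hκs, by rw [hκn, hsn]⟩
      subst hrs
      rcases h8 r hr hs with rfl | rfl
      · rfl
      · exact hpq.symm
    rw [hcase σ hσ hκσ hσn, hcase σ' hσ' hκσ' hσn']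
  by_cases hne : ∃ σ ∈ K, σ.card = n ∧ ∃ x ∈ Ω, InRel σ x
  · obtain ⟨σ0, hσ0, hσ0n, hσ0Ω⟩ := hne
    refine ⟨f σ0, fun σ hσ hσn hσΩ v hv => ?_⟩
    rw [hConn n K hK hn Ω hΩc hΩo (Vec n) f hkey σ0 hσ0 σ hσ hσ0n hσn hσ0Ω hσΩ]
    exact (hf σ hσ v hv).symm
  · exact ⟨0, fun σ hσ hσn hσΩ => absurd ⟨σ, hσ, hσn, hσΩ⟩ hne⟩

end ToricPB
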