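import Pool.Agent.Lib.MP_3d51eb_gt.PB.Spec2

set_option autoImplicit false

/-!
# project PB: injectivity of the pull-back (`StPullB`)
-/

noncomputable section

namespace ToricPB

open Finset MvPolynomial

namespace PullB_aux

variable {n : ℕ}

/-- the class of a point is annihilated by all divisor classes -/
private lemma mon_mul_cls (hD : StDual) (K0 : Finset (Finset (Vec n))) (hK0 : IsFan K0)
    (S : Finset (Vec n)) (hS : S ∈ K0) (hcS : S.card = n) (hv : ∀ v ∈ S, v ∈ verts K0) (v : Vec n) :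
    mon K0 S * cls K0 v = 0 := by
  classical
  have h1 : ∀ w, w ∉ S → mon K0 S * cls K0 w = 0 := by
    intro w hw
    have h2 : insert w S ∉ K0 := by
      intro h
      have h3 := (hD n _ (hK0.smooth _ h)).1
      rw [Finset.card_insert_of_notMem hw] at h3
      omega
    rw [mul_comm, ← mon_insert hw]
    exact mon_eq_zero h2
  by_cases hvS : v ∈ S
  · obtain ⟨u, hu1, hu2⟩ := (hD n S (hK0.smooth S hS)).2.1 v hvS
    have h2 : mon K0 S * ∑ w ∈ verts K0, pr u w • cls K0 w = 0 := by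
      rw [lin_rel, mul_zero]
    rw [Finset.mul_sum, Finset.sum_eq_single v] at h2
    · rwa [hu1, one_smul] at h2
    · intro w _ hwv
      by_cases hwS : w ∈ S
      · rw [hu2 w hwS hwv, zero_smul, mul_zero]
      · rw [mul_smul_comm, h1 w hwS, smul_zero]
    · intro h
      exact absurd (hv v hvS) h
  · exact h1 v hvS

private lemma mul_mon (K0 : Finset (Finset (Vec n))) (S : Finset (Vec n))
    (h : ∀ v, mon K0 S * cls K0 v = 0) (r : Coh K0) : ∃ c : ℤ, r * mon K0 S = c • mon K0 S := by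
  refine coh_induction (P := fun r => ∃ c : ℤ, r * mon K0 S = c • mon K0 S) ?_ ?_ ?_ ?_ r
  · intro c
    exact ⟨c, by rw [zsmul_eq_mul]⟩
  · intro v
    exact ⟨0, by rw [mul_comm, h, zero_smul]⟩
  · rintro x y ⟨c, hc⟩ ⟨d, hd⟩
    exact ⟨c + d, by rw [add_mul, hc, hd, add_smul]⟩
  · rintro x y ⟨c, hc⟩ ⟨d, hd⟩
    exact ⟨d * c, by rw [mul_assoc, hd, mul_smul_comm, hc, smul_smul]⟩

private theorem main (hD : StDual) (hW : StWall) (hP : StPt) (K K0 : Finset (Finset (Vec n)))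
    (S : Finset (Vec n)) (v0 : Vec n) (π : Coh K0 →+* Coh K) (hn : 2 ≤ n) (hcS : S.card = n)
    (hNT : NT K) (hmem : ∀ t, t ∈ K0 ↔ t = S ∨ (t ∈ K ∧ v0 ∉ t)) (hK0 : IsFan K0)
    (hverts : verts K = insert v0 (verts K0)) (hv0 : v0 ∉ verts K0) (hSv : ∀ v ∈ S, v ∈ verts K0)
    (hπ : ∀ v, v ≠ v0 → π (cls K0 v) = cls K v + if v ∈ S then cls K v0 else 0)
    (hπm : ∀ s : Finset (Vec n), v0 ∉ s → (∃ w ∈ s, w ∉ S) → π (mon K0 s) = mon K s) :
    Function.Injective π ∧ NT K0 := by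
  classical
  have hSK0 : S ∈ K0 := (hmem S).2 (Or.inl rfl)
  obtain ⟨I, hI⟩ : ∃ I : Ideal (Coh K0), I = Ideal.span {mon K0 S} := ⟨_, rfl⟩
  have hmS : Ideal.Quotient.mk I (mon K0 S) = 0 := by
    rw [Ideal.Quotient.eq_zero_iff_mem, hI]
    exact Ideal.subset_span rfl
  -- the homomorphism to the quotient
  obtain ⟨θ, hθ⟩ : ∃ θ : Coh K →+* Coh K0 ⧸ I,
      ∀ v, θ (cls K v) = if v = v0 then 0 else Ideal.Quotient.mk I (cls K0 v) := by
    refine coh_lift (K := K) (R := Coh K0 ⧸ I)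
      (fun v => if v = v0 then 0 else Ideal.Quotient.mk I (cls K0 v)) ?_ ?_
    · intro s hs
      by_cases hv : v0 ∈ s
      · exact Finset.prod_eq_zero (M₀ := Coh K0 ⧸ I) hv (if_pos rfl)
      · have h0 : (∏ v ∈ s, if v = v0 then (0 : Coh K0 ⧸ I) else Ideal.Quotient.mk I (cls K0 v)) =
            Ideal.Quotient.mk I (mon K0 s) := by
          rw [mon, map_prod]
          refine Finset.prod_congr rfl (fun v hvs => ?_)
          have hne : v ≠ v0 := fun h => hv (h ▸ hvs)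
          rw [if_neg hne]
        rw [h0]
        by_cases hs0 : s ∈ K0
        · rcases (hmem s).1 hs0 with h | h
          · rw [h, hmS]
          · exact absurd h.1 hs
        · rw [mon_eq_zero hs0, map_zero]
    · intro u
      rw [hverts, Finset.sum_insert hv0, if_pos rfl, smul_zero, zero_add]
      have h1 := congrArg (Ideal.Quotient.mk I) (lin_rel (K := K0) u)
      rw [map_sum, map_zero] at h1
      rw [← h1]
      refine Finset.sum_congr rfl (fun v hv => ?_)
      have hne : v ≠ v0 := fun h => hv0 (h ▸ hv)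
      rw [if_neg hne]
      exact (map_zsmul (Ideal.Quotient.mk I) (pr u v) (cls K0 v)).symm
  have hcomp : θ.comp π = Ideal.Quotient.mk I := by
    refine coh_hom_ext (K := K0) (R := Coh K0 ⧸ I) (f := θ.comp π) (g := Ideal.Quotient.mk I) (fun v => ?_)
    show θ (π (cls K0 v)) = _
    by_cases hv : v = v0
    · rw [hv, cls_eq_zero hv0, map_zero, map_zero, map_zero]
    · rw [hπ v hv, map_add, hθ v, if_neg hv]
      by_cases hvS : v ∈ S
      · rw [if_pos hvS, hθ v0, if_pos rfl, add_zero]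
      · rw [if_neg hvS, map_zero, add_zero]
  -- the other maximal cone
  obtain ⟨σ', hσ'0, hcσ', hvσ', hwσ'⟩ : ∃ σ', σ' ∈ K0 ∧ σ'.card = n ∧ v0 ∉ σ' ∧ ∃ w ∈ σ', w ∉ S := by
    have hne : S.Nonempty := by
      rw [← Finset.card_pos, hcS]
      omega
    obtain ⟨l, hl⟩ := hne
    have hτ : S.erase l ∈ K0 := hK0.down S hSK0 _ (Finset.erase_subset _ _)
    have hcτ : (S.erase l).card + 1 = n := by
      rw [Finset.card_erase_of_mem hl, hcS]
      omega
    obtain ⟨p, q, b, -, -, hp, hq, hpq, hpK, hqK, -, -⟩ := hW n K0 hK0 _ hτ hcτ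
    obtain ⟨r, hrl, hrτ, hrK⟩ : ∃ r, r ≠ l ∧ r ∉ S.erase l ∧ insert r (S.erase l) ∈ K0 := by
      by_cases h : p = l
      · exact ⟨q, fun h2 => hpq (h.trans h2.symm), hq, hqK⟩
      · exact ⟨p, h, hp, hpK⟩
    have hrS : r ∉ S := fun h => hrτ (Finset.mem_erase.2 ⟨hrl, h⟩)
    refine ⟨insert r (S.erase l), hrK, ?_, ?_, r, Finset.mem_insert_self _ _, hrS⟩
    · rw [Finset.card_insert_of_notMem hrτ, hcτ]
    · rcases (hmem _).1 hrK with h | h
      · exact absurd (h ▸ Finset.mem_insert_self r (S.erase l)) hrS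
      · exact h.2
  have hσ'K : σ' ∈ K := by
    rcases (hmem _).1 hσ'0 with h | h
    · obtain ⟨w, hw, hwS⟩ := hwσ'
      exact absurd (h ▸ hw) hwS
    · exact h.1
  have hmon : π (mon K0 σ') = mon K σ' := hπm σ' hvσ' hwσ'
  refine ⟨?_, ?_⟩
  · rw [injective_iff_map_eq_zero]
    intro y hy
    have h1 : y ∈ I := by
      rw [← Ideal.Quotient.eq_zero_iff_mem, ← hcomp]
      show θ (π y) = 0
      rw [hy, map_zero]
    rw [hI] at h1
    obtain ⟨r, rfl⟩ := Ideal.mem_span_singleton'.1 h1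
    obtain ⟨c, hc⟩ := mul_mon K0 S (mon_mul_cls hD K0 hK0 S hSK0 hcS hSv) r
    rw [hc] at hy ⊢
    rw [hP n K0 hK0 (by omega) S hSK0 σ' hσ'0 hcS hcσ', map_zsmul, hmon] at hy
    rw [hNT σ' hσ'K hcσ' c hy, zero_smul]
  · intro σ hσ hcσ N hN
    rw [hP n K0 hK0 (by omega) σ hσ σ' hσ'0 hcσ hcσ'] at hN
    have h1 := congrArg π hN
    rw [map_zsmul, hmon, map_zero] at h1
    exact hNT σ' hσ'K hcσ' N h1

end PullB_aux

open PullB_aux in
theorem tPullB : StDual → StWall → StPt → StDown → StPullB := by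
  classical
  intro hD hW hP hDo n K S v0 π hK hn hBD hNT hπ hπm
  obtain ⟨-, -, -, hK0, -, hverts, hv0, hSv⟩ := hDo n K S v0 hK hn hBD
  refine main hD hW hP K (down K S v0) S v0 π hn hBD.1 hNT ?_ hK0 hverts hv0 hSv hπ hπm
  intro t
  rw [down, Finset.mem_insert, Finset.mem_filter]

end ToricPB
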