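import Pool.Agent.Lib.MP_3d51eb_gt.PB.Spec

set_option autoImplicit false

/-!
# MP_3d51eb_gt, project PB, module Simp: the unimodular simplex of a class
-/

noncomputable section

namespace ToricPB

open Finset MvPolynomial

namespace Simp_aux

variable {n : ℕ}

private lemma mem_sup {K : Finset (Finset (Vec n))} {a : Vec n → ℤ} {v : Vec n} :
    v ∈ sup K a ↔ v ∈ verts K ∧ a v ≠ 0 := by
  unfold sup
  exact Finset.mem_filter

private lemma relA {K : Finset (Finset (Vec n))} {a ψ : Vec n → ℤ} (hC : Comb K a ψ) :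
    ∑ v ∈ sup K a, a v • v = 0 := by
  rw [← hC.rel]
  unfold sup
  refine Finset.sum_filter_of_ne fun v _ h h0 => h ?_
  rw [h0, zero_smul]

private lemma oneA {K : Finset (Finset (Vec n))} {a ψ : Vec n → ℤ} (hC : Comb K a ψ) :
    ∑ v ∈ sup K a, a v * ψ v = 1 := by
  rw [← hC.one]
  unfold sup
  refine Finset.sum_filter_of_ne fun v _ h h0 => h ?_
  rw [h0, zero_mul]

private lemma one_l {K : Finset (Finset (Vec n))} {a ψ : Vec n → ℤ} (hC : Comb K a ψ)
    {l : Vec n} (hl : l ∈ sup K a) {m : Vec n} (hm : ∀ v ∈ (sup K a).erase l, ψ v = pr m v) :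
    a l * (ψ l - pr m l) = 1 := by
  have h1 : ∑ v ∈ sup K a, a v * (ψ v - pr m v) = 1 := by
    have e : ∀ v ∈ sup K a, a v * (ψ v - pr m v) = a v * ψ v - pr m (a v • v) := by
      intro v _
      rw [pr_smul]
      ring
    rw [Finset.sum_congr rfl e, Finset.sum_sub_distrib, oneA hC, ← pr_sum, relA hC, pr_zero,
      sub_zero]
  rw [← h1]
  symm
  refine Finset.sum_eq_single_of_mem l hl fun v hv hvl => ?_
  rw [hm v (Finset.mem_erase.2 ⟨hvl, hv⟩), sub_self, mul_zero]

private lemma data {K : Finset (Finset (Vec n))} {a ψ : Vec n → ℤ} (hC : Comb K a ψ)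
    {l : Vec n} (hl : l ∈ sup K a) {m : Vec n} (hm : ∀ v ∈ (sup K a).erase l, ψ v = pr m v) :
    (a l = 1 ∨ a l = -1) ∧ ψ l - pr m l = a l := by
  have h := one_l hC hl hm
  rcases Int.eq_one_or_neg_one_of_mul_eq_one h with h1 | h1
  · refine ⟨Or.inl h1, ?_⟩
    rw [h1] at h ⊢
    linarith
  · refine ⟨Or.inr h1, ?_⟩
    rw [h1] at h ⊢
    linarith

private lemma sgn_smul {s : ℤ} (hs : s = 1 ∨ s = -1) {x : Vec n} (h : s • x = 0) : x = 0 := by
  rcases hs with rfl | rfl
  · simpa using h
  · simpa using h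

private lemma type_aux (A : Finset (Vec n)) (a : Vec n → ℤ) (s : ℤ) (hs : s = 1 ∨ s = -1)
    (hA : A.card = n + 1) (ha : ∀ v ∈ A, a v = s ∨ a v = -s) (hrel : ∑ v ∈ A, a v • v = 0)
    (hn : n ≤ (A.filter (fun v => a v = s)).card) :
    ∑ v ∈ A, v = 0 ∨ ∃ v0 ∈ A, v0 = ∑ v ∈ A.erase v0, v := by
  by_cases h : ∃ v0 ∈ A, a v0 ≠ s
  · obtain ⟨v0, hv0, h0⟩ := h
    right
    refine ⟨v0, hv0, ?_⟩
    have hsub : A.filter (fun v => a v = s) ⊆ A.erase v0 := by
      intro v hv
      obtain ⟨h1, h2⟩ := Finset.mem_filter.1 hv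
      refine Finset.mem_erase.2 ⟨?_, h1⟩
      rintro rfl
      exact h0 h2
    have hc : (A.erase v0).card = n := by
      rw [Finset.card_erase_of_mem hv0, hA]
      rfl
    have heq := Finset.eq_of_subset_of_card_le hsub (by rw [hc]; exact hn)
    have hs0 : a v0 = -s := (ha v0 hv0).resolve_left h0
    have hv : ∀ v ∈ A.erase v0, a v • v = s • v := by
      intro v hv
      rw [← heq] at hv
      rw [(Finset.mem_filter.1 hv).2]
    rw [← Finset.add_sum_erase A _ hv0, Finset.sum_congr rfl hv, ← Finset.smul_sum, hs0] at hrel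
    have h2 : s • (v0 - ∑ v ∈ A.erase v0, v) = 0 := by
      rw [smul_sub, ← neg_eq_zero]
      rw [← hrel, neg_smul]
      abel
    exact sub_eq_zero.1 (sgn_smul hs h2)
  · push Not at h
    left
    have hv : ∀ v ∈ A, a v • v = s • v := fun v hv => by rw [h v hv]
    rw [Finset.sum_congr rfl hv, ← Finset.smul_sum] at hrel
    exact sgn_smul hs hrel

end Simp_aux

open Simp_aux in
theorem tSimp : StDual → StUniOf → StWall → StSign → StNoN → StLl → StSimp := by
  intro hDual hUniOf hWall hSign hNoN hLl n K a ψ hK hn hC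
  have hA := hNoN n K a ψ hK hn hC
  have hm := hLl n K a ψ hK hn hC hA
  have hskel : ∀ s ⊆ sup K a, s.card + 1 ≤ n → s ∈ K := fun s hs h =>
    hC.skel s (fun v hv => (mem_sup.1 (hs hv)).2) h
  refine ⟨fun v hv => (mem_sup.1 hv).1, hA, hskel, ?_, ?_⟩
  · intro l hl
    have hB : ((sup K a).erase l).card = n := by
      rw [Finset.card_erase_of_mem hl, hA]
      rfl
    obtain ⟨l', hl'⟩ : ((sup K a).erase l).Nonempty := by
      rw [← Finset.card_pos]
      omega
    have hl'A : l' ∈ sup K a := (Finset.mem_erase.1 hl').2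
    obtain ⟨τ, hτ⟩ : ∃ τ, τ = ((sup K a).erase l).erase l' := ⟨_, rfl⟩
    have hτc : τ.card + 1 = n := by
      rw [hτ, Finset.card_erase_of_mem hl', hB]
      omega
    have hτA : τ ⊆ sup K a := by
      rw [hτ]
      exact (Finset.erase_subset _ _).trans (Finset.erase_subset _ _)
    have hτK : τ ∈ K := hskel τ hτA hτc.le
    obtain ⟨p, q, b, hW⟩ := hWall n K hK τ hτK hτc
    obtain ⟨-, -, hp, -, -, hpK, -, -, -⟩ := hW
    have hcp : (insert p τ).card = n := by
      rw [Finset.card_insert_of_notMem hp]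
      exact hτc
    obtain ⟨-, -, -, hD⟩ := hDual n (insert p τ) (hK.smooth _ hpK)
    obtain ⟨hD1, -⟩ := hD hcp
    obtain ⟨c, hc⟩ := hD1 l'
    rw [Finset.sum_insert hp] at hc
    obtain ⟨ml, hml⟩ := hm l hl
    obtain ⟨ml', hml'⟩ := hm l' hl'A
    obtain ⟨hs, hd⟩ := data hC hl'A hml'
    have hlB : l' ∈ insert l' τ := Finset.mem_insert_self _ _
    have hBi : (sup K a).erase l = insert l' τ := by
      rw [hτ, Finset.insert_erase hl']
    have hl'τ : l' ∉ τ := by
      rw [hτ]
      exact Finset.notMem_erase _ _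
    -- the form
    have f1 : ∀ v ∈ τ, pr (ml - ml') v = 0 := by
      intro v hv
      have hvB : v ∈ (sup K a).erase l := by
        rw [hτ] at hv
        exact (Finset.mem_erase.1 hv).2
      have hvB' : v ∈ (sup K a).erase l' := by
        rw [hτ] at hv
        exact Finset.mem_erase.2 ⟨(Finset.mem_erase.1 hv).1, hτA (by rw [hτ]; exact hv)⟩
      rw [pr_sub_left, ← hml v hvB, ← hml' v hvB', sub_self]
    have f2 : pr (ml - ml') l' = a l' := by
      rw [pr_sub_left, ← hml l' hl', ← hd]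
    have f3 : c p * pr (ml - ml') p = a l' := by
      rw [← f2]
      conv_rhs => rw [hc]
      rw [pr_add, pr_smul, pr_sum, Finset.sum_eq_zero, add_zero]
      intro v hv
      rw [pr_smul, f1 v hv, mul_zero]
    have f4 : c p = 1 ∨ c p = -1 := by
      rcases hs with h | h
      · rw [h] at f3
        exact Int.eq_one_or_neg_one_of_mul_eq_one f3
      · rw [h] at f3
        have : c p * -pr (ml - ml') p = 1 := by rw [mul_neg, f3]; norm_num
        exact Int.eq_one_or_neg_one_of_mul_eq_one this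
    have f5 : c p * c p = 1 := by
      rcases f4 with h | h <;> rw [h] <;> norm_num
    refine hUniOf n _ hB fun y => ?_
    obtain ⟨d, hd'⟩ := hD1 y
    rw [Finset.sum_insert hp] at hd'
    obtain ⟨g, hg1, hg2⟩ : ∃ g : Vec n → ℤ, g l' = d p * c p ∧
        ∀ v ∈ τ, g v = d v - d p * c p * c v :=
      ⟨fun v => if v = l' then d p * c p else d v - d p * c p * c v, if_pos rfl,
        fun v hv => if_neg (by rintro rfl; exact hl'τ hv)⟩
    refine ⟨g, ?_⟩
    rw [hBi, Finset.sum_insert hl'τ, hg1]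
    have e1 : ∀ v ∈ τ, g v • v = d v • v - (d p * c p) • (c v • v) := by
      intro v hv
      rw [hg2 v hv, sub_smul, mul_smul (d p * c p)]
    rw [Finset.sum_congr rfl e1, Finset.sum_sub_distrib, ← Finset.smul_sum]
    conv_rhs => rw [hc]
    rw [smul_add, ← mul_smul, mul_assoc, f5, mul_one, hd']
    abel
  · have hsg : ∀ v ∈ sup K a, a v = 1 ∨ a v = -1 := by
      intro v hv
      obtain ⟨m, hm'⟩ := hm v hv
      exact (data hC hv hm').1
    have hne : ∃ v ∈ sup K a, ((a v : ℤ) : ℝ) ≠ 0 := by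
      obtain ⟨v, hv⟩ : (sup K a).Nonempty := by
        rw [← Finset.card_pos]
        omega
      exact ⟨v, hv, by exact_mod_cast (mem_sup.1 hv).2⟩
    have hlin : lin (sup K a) (fun v => ((a v : ℤ) : ℝ)) = 0 := by
      rw [lin_int, relA hC, toR_zero]
    rcases hSign n K hK (sup K a) hskel _ hlin hne with h | h
    · refine type_aux (sup K a) a 1 (Or.inl rfl) hA hsg (relA hC) (h.trans (le_of_eq ?_))
      congr 1
      refine Finset.filter_congr fun v hv => ?_
      rcases hsg v hv with h' | h' <;> rw [h'] <;> norm_num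
    · refine type_aux (sup K a) a (-1) (Or.inr rfl) hA
        (fun v hv => by rw [neg_neg]; exact (hsg v hv).symm) (relA hC) (h.trans (le_of_eq ?_))
      congr 1
      refine Finset.filter_congr fun v hv => ?_
      rcases hsg v hv with h' | h' <;> rw [h'] <;> norm_num

end ToricPB
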