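import Pool.Agent.Lib.MP_3d51eb_gt.PB.Bas

set_option autoImplicit false

/-!
# MP_3d51eb_gt, project PB: statements of the modules

Module `XXX.lean` imports this file and proves `theorem tXXX : (dependencies) → StXXX`.
Notation of `Defs.lean`, `Bas.lean`.
-/

noncomputable section

namespace ToricPB

open Finset MvPolynomial

/-! ## A. geometry of fans -/

/-- DUAL BASES. Proof. `b` a basis with `∀ v ∈ s, ∃ i, b i = v`; the `i = i(v)` is unique and
`v ↦ i(v)` is injective on `s`, so `s.card ≤ n` (`Finset.card_le_card_of_injOn` into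
`univ : Finset (Fin n)`). The linear form `b.coord (i v) : Vec n →ₗ[ℤ] ℤ` is `pr u` with
`u j = b.coord (i v) (Pi.single j 1)`. Real statement: if `lin s c = 0`, take `dot (toR u)` with
this `u`: `dot_lin`, `dot_toR` give `c v = 0`. If `s.card = n` then `i` is onto, so
`y = ∑ i, b.repr y i • b i` is a combination of the elements of `s`; real: the family `toR v`,
`v ∈ s`, is linearly independent with `n` elements, so it spans (or: every standard vector
`toR (Pi.single j 1)` is a real combination by the integral statement, and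
`x = ∑ j, x j • toR (Pi.single j 1)`). -/
def StDual : Prop := ∀ (n : ℕ) (s : Finset (Vec n)), Uni s →
  s.card ≤ n ∧
  (∀ v ∈ s, ∃ u : Vec n, pr u v = 1 ∧ ∀ w ∈ s, w ≠ v → pr u w = 0) ∧
  (∀ c : Vec n → ℝ, lin s c = 0 → ∀ v ∈ s, c v = 0) ∧
  (s.card = n → (∀ y : Vec n, ∃ c : Vec n → ℤ, y = ∑ v ∈ s, c v • v) ∧
    ∀ x : Fin n → ℝ, ∃ c : Vec n → ℝ, x = lin s c)

/-- INTERPOLATION by an integral linear form: immediate from `StDual` (`m = ∑ v ∈ s, ψ v • u_v`,
`pr_sum_left`, `pr_smul_left`); uniqueness if `s.card = n` (`y = ∑ c v • v`, `pr_sum`, `pr_smul`;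
`m j = pr m (Pi.single j 1)`). -/
def StInt : Prop := ∀ (n : ℕ) (s : Finset (Vec n)), Uni s →
  (∀ ψ : Vec n → ℤ, ∃ m : Vec n, ∀ v ∈ s, pr m v = ψ v) ∧
  (s.card = n → ∀ m m' : Vec n, (∀ v ∈ s, pr m v = pr m' v) → m = m')

/-- `n` lattice vectors which span the lattice are a basis. Proof: the map
`(s → ℤ) → Vec n`, `c ↦ ∑ c v • v`, is onto, and `s` has `n` elements: compose with a bijection
`Fin n ≃ s`; a surjective endomorphism of a finitely generated module over a commutative ring is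
injective (`OrzechProperty.injective_of_surjective_endomorphism`), so it is a linear equivalence
`(Fin n → ℤ) ≃ₗ Vec n`; `Module.Basis.ofEquivFun` (or `(Pi.basisFun ℤ (Fin n)).map`). -/
def StUniOf : Prop := ∀ (n : ℕ) (s : Finset (Vec n)), s.card = n →
  (∀ y : Vec n, ∃ c : Vec n → ℤ, y = ∑ v ∈ s, c v • v) → Uni s

/-- REAL DUAL BASIS. `n` linearly independent vectors of `ℝ^n` are a basis
(`basisOfLinearIndependentOfCardEqFinrank`, or `LinearIndependent.span_eq_top_of_card_eq_finrank`);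
the coordinate functionals are `dot h_v` with `h_v j = coord_v (Pi.single j 1)`. -/
def StDR : Prop := ∀ (n : ℕ) (B : Finset (Vec n)), B.card = n →
  (∀ c : Vec n → ℝ, lin B c = 0 → ∀ v ∈ B, c v = 0) →
  (∀ x : Fin n → ℝ, ∃ c : Vec n → ℝ, x = lin B c) ∧
  ∀ v ∈ B, ∃ h : Fin n → ℝ, ∀ w ∈ B, dot h (toR w) = if w = v then 1 else 0

/-- UNIQUENESS. (1) `lin s α` is in the relative interior of both cones, so `s = t` by
`IsFan.uniq`; then `lin s (α - β) = 0` and `StDual` (third part). (2) `lin s c = lin s' c` for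
`s' = s.filter (0 < c ·)` (`lin_subset`), `s' ∈ K` (`IsFan.down`), and `InRel s' _`; use
`IsFan.uniq`. -/
def StUq : Prop := ∀ (n : ℕ) (K : Finset (Finset (Vec n))), IsFan K →
  (∀ s ∈ K, ∀ t ∈ K, ∀ α β : Vec n → ℝ, (∀ v ∈ s, 0 < α v) → (∀ v ∈ t, 0 < β v) →
    lin s α = lin t β → s = t ∧ ∀ v ∈ s, α v = β v) ∧
  (∀ s ∈ K, ∀ t ∈ K, ∀ c : Vec n → ℝ, (∀ v ∈ s, 0 ≤ c v) → InRel t (lin s c) →
    t = s.filter (fun v => 0 < c v))

/-- LOCAL STRUCTURE. Proof. For `m : ℕ` let `κ_m ∈ K` be the face with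
`InRel κ_m (x + (1 / (m + 1)) • y)`. `K` is finite, so some `κ` equals `κ_m` for infinitely many
`m` (`Finite.exists_infinite_fiber` or a pigeonhole argument). Take `m0` with `κ_{m0} = κ`,
`ε = 1 / (m0 + 1)`; for `0 < δ < ε` there is `m1` with `κ_{m1} = κ`, `1/(m1+1) < δ`; the set
`{δ | InRel κ (x + δ • y)}` is convex (`InRel.convex`), so it contains `δ`. Now
`x + δ1 • y = lin κ c1`, `x + δ2 • y = lin κ c2` for two values `δ1 ≠ δ2` gives
`y = lin κ d`, `x = lin κ c` (`d = (c1 - c2)/(δ1 - δ2)`, `c = c1 - δ1 d`). For every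
`δ ∈ (0, ε)`, `x + δ • y = lin κ (c + δ d)` and it is `lin κ c'` with `c' > 0`; by independence
(`StDual`) `c v + δ * d v = c' v > 0` for `v ∈ κ`. So `c v ≥ 0` (let `δ → 0`: if `c v < 0`, a
small `δ` gives a contradiction) and if `c v = 0` then `d v > 0`. -/
def StLoc : Prop := ∀ (n : ℕ) (K : Finset (Finset (Vec n))), IsFan K → ∀ x y : Fin n → ℝ,
  ∃ κ ∈ K, ∃ c d : Vec n → ℝ, x = lin κ c ∧ y = lin κ d ∧ (∀ v ∈ κ, 0 ≤ c v) ∧
    (∀ v ∈ κ, c v = 0 → 0 < d v) ∧
    ∃ ε : ℝ, 0 < ε ∧ ∀ δ : ℝ, 0 < δ → δ < ε → InRel κ (x + δ • y)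

/-- GENERIC VECTORS. (1) The sets `{lin s c}` for `s ∈ 𝒮` are the subspaces
`Submodule.span ℝ (toR '' s)` of dimension `≤ s.card < n`
(`finrank_span_finset_le_card`), so they are proper; a real vector space is not a finite union of
proper subspaces (`Subspace.biUnion_ne_univ_of_top_notMem` or similar; or measure zero:
`MeasureTheory.Measure.addHaar_submodule`). (2) In the space
`W = {w | ∀ v ∈ τ, dot w (toR v) = 0}` the subspaces `{w ∈ W | dot w z = 0}`, `z ∈ Z`, are proper: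
if `dot w z = 0` for all `w ∈ W` then `z` is in the span of the `toR v`, `v ∈ τ` (double
orthogonal complement; or: choose a linear functional which vanishes on the span and not at `z`,
`Submodule.exists_le_ker_of_lt_top`/`Submodule.exists_le_ker_of_notMem`, and write it as
`dot w`). -/
def StGen : Prop := ∀ (n : ℕ),
  (∀ 𝒮 : Finset (Finset (Vec n)), (∀ s ∈ 𝒮, s.card < n) →
    ∃ y : Fin n → ℝ, ∀ s ∈ 𝒮, ∀ c : Vec n → ℝ, y ≠ lin s c) ∧
  (∀ (τ : Finset (Vec n)) (Z : Finset (Fin n → ℝ)), (∀ z ∈ Z, ∀ c : Vec n → ℝ, z ≠ lin τ c) →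
    ∃ w : Fin n → ℝ, (∀ v ∈ τ, dot w (toR v) = 0) ∧ ∀ z ∈ Z, dot w z ≠ 0)

/-- NEAR. A cone whose relative interior meets the open set `Ω` is a face of a maximal cone whose
interior meets `Ω`. Proof: `y` from `StGen` (1) for the faces with less than `n` elements; `StLoc`
for `x`, `y`: face `σ`, `y = lin σ d`, so `σ.card = n` (`≤ n` by `StDual`). `x = lin σ c` with
`c ≥ 0`, and `InRel κ x`, so `κ = σ.filter (0 < c ·) ⊆ σ` (`StUq` (2)). `InRel σ (x + δ • y)` for
small `δ`, and `x + δ • y ∈ Ω` for small `δ` (`Ω` open). -/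
def StNear : Prop := ∀ (n : ℕ) (K : Finset (Finset (Vec n))), IsFan K →
  ∀ Ω : Set (Fin n → ℝ), IsOpen Ω → ∀ κ ∈ K, ∀ x ∈ Ω, InRel κ x →
    ∃ σ ∈ K, κ ⊆ σ ∧ σ.card = n ∧ ∃ x' ∈ Ω, InRel σ x'

/-- SIDE. Proof: `StLoc` for `x = lin τ 1` and `y`: `κ`, `x = lin κ c`, `c ≥ 0`; `InRel τ x`, so
`τ = κ.filter (0 < c ·) ⊆ κ` (`StUq` (2)); `y = lin κ d` is not `lin τ d'`, so `κ ≠ τ`,
`n - 1 < κ.card ≤ n`. -/
def StSide : Prop := ∀ (n : ℕ) (K : Finset (Finset (Vec n))), IsFan K →
  ∀ τ ∈ K, τ.card + 1 = n → ∀ y : Fin n → ℝ, (∀ c : Vec n → ℝ, y ≠ lin τ c) →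
    ∃ κ ∈ K, τ ⊆ κ ∧ κ.card = n ∧ ∃ ε : ℝ, 0 < ε ∧ ∀ δ : ℝ, 0 < δ → δ < ε →
      InRel κ (lin τ (fun _ => (1 : ℝ)) + δ • y)

/-- WALLS. Proof. Let `y` be a vector outside the span of `τ` (`StGen` (1) for `𝒮 = {τ}`).
`StSide` for `y` and for `-y`: `κ = insert p τ`, `κ' = insert q τ`. In `κ`:
`x + δ y = lin κ c'` with `c' p > 0`; so `y = α toR p + lin τ _` with `α > 0` (compare:
`δ y = c' p toR p + lin τ (c' - 1)`). Similarly `y = - β toR q + lin τ _`, `β > 0`. So
`α toR p + β toR q ∈ span τ` (*). `p ≠ q`, otherwise `(α + β) toR p ∈ span τ` contradicts the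
independence of `insert p τ` (`StDual`). `q` is an integral combination of `insert p τ`
(`StDual`, last part): `q = - c p + …`, and `p = - c' q + …` integral; with (*) and independence
(real) `c = β⁻¹ α > 0`-like and `c c' = 1`: precisely, substitute one in the other:
`p = c' c p + …` so `c c' = 1` by independence of `insert p τ`, and `c = α / β > 0` from (*); so
`c = c' = 1` and `p + q + ∑ b v • v = 0`. Uniqueness: let `r ∉ τ`, `insert r τ ∈ K`. Write
`toR r = γ y + lin τ _` (`r` is a real combination of `insert p τ`, replace `toR p`), `γ ≠ 0` by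
independence of `insert r τ`. If `γ > 0`: for small `δ > 0` the point
`lin τ 1 + δ • toR r` is in the relative interior of `insert r τ`, and it is
`lin τ (1 + O(δ)) + (δ γ / α) toR p` up to `span τ`, in the relative interior of `insert p τ`
for small `δ`; by `IsFan.uniq` `insert r τ = insert p τ`, `r = p`. If `γ < 0` similarly
`r = q`. -/
def StWall : Prop := ∀ (n : ℕ) (K : Finset (Finset (Vec n))), IsFan K →
  ∀ τ ∈ K, τ.card + 1 = n → ∃ p q : Vec n, ∃ b : Vec n → ℤ, Wall K τ p q b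

/-- CONNECTEDNESS. Proof. Suppose `f σ ≠ f σ'`. Let `𝒜` be the set of all `σ'' ∈ K` with `n`
elements whose relative interior meets `Ω` and `f σ'' = f σ`, `ℬ` the same with
`f σ'' ≠ f σ`; `σ ∈ 𝒜`, `σ' ∈ ℬ`. Take `a0 ∈ Ω`, `InRel σ a0`, `b0 ∈ Ω`, `InRel σ' b0`.
GENERIC SEGMENT: we change `b0` to `b = b0 + δ y`, `δ > 0` small, such that `b ∈ Ω`,
`InRel σ' b` (the coefficients of `b` in the basis `σ'` stay positive, `StDual`), and the segment
`[a0, b]` meets no `lin κ _` with `κ ∈ K`, `κ.card + 2 ≤ n`, except possibly at `a0`, which does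
not happen since `a0` is in the interior of `σ`: for such `κ` the span `W` of `κ` and `a0` is
`{lin κ c + s • a0}`, of dimension `≤ n - 1`; choose `y` outside of all these `W` (finite union of
proper subspaces, as in `StGen`; as `a0` is not integral use the general theorem). Then
`b0 + δ y ∈ W` for at most one `δ`; so infinitely many small `δ` are good. If
`(1 - t) a0 + t b ∈ lin κ _`, then `t = 0` or `b ∈ W`; `t = 0` would be `a0 = lin κ c`, then
`a0 ∈ relint` ... (a point `lin κ c` with some `c` of any sign may be in `σ`): so choose instead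
to exclude only the points of the CONE: let `z = (1-t) a0 + t b`, `InRel κ z` with
`κ.card + 2 ≤ n`, `κ ∈ K`. `t = 0`: `InRel κ a0` and `InRel σ a0` give `κ = σ`, a contradiction
with the cardinalities. `t > 0`: `b = (z - (1-t) a0)/t ∈ W`, a contradiction. So every point of
the segment is in the relative interior of a `κ ∈ K` with `κ.card ≥ n - 1`.
COVER: for `t ∈ [0,1]`, `z_t = (1-t) a0 + t b ∈ Ω` (convex); let `InRel κ z_t`. If `κ.card = n`
then `κ ∈ 𝒜 ∪ ℬ`. If `κ.card = n - 1`, take `σ1 ⊇ κ` from `StNear`, `σ1 ∈ 𝒜 ∪ ℬ`, and `z_t` is in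
the closed cone of `σ1`. So `[0,1]` is covered by the closed sets
`F_𝒜 = {t | z_t ∈ closed cone of some element of 𝒜}`, `F_ℬ`. (The closed cone of `σ''`, for
`σ''.card = n`, is `{x | ∀ v ∈ σ'', 0 ≤ dot h_v x}` with the dual basis `h_v = toR u_v`,
`StDual`, so it is closed.) `0 ∈ F_𝒜`, `1 ∈ F_ℬ`; `[0,1]` is preconnected
(`isPreconnected_Icc`, `isPreconnected_closed_iff`), so there are `t`, `σ1 ∈ 𝒜`, `σ2 ∈ ℬ` with
`z_t` in both closed cones. Let `InRel κ z_t`; by `StUq` (2) `κ ⊆ σ1`, `κ ⊆ σ2`; `κ.card ≥ n-1`.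
`κ.card = n`: `σ1 = κ = σ2`, contradiction. `κ.card = n - 1`: the hypothesis gives
`f σ1 = f σ2`, contradiction. -/
def StConn : Prop := ∀ (n : ℕ) (K : Finset (Finset (Vec n))), IsFan K → 1 ≤ n →
  ∀ Ω : Set (Fin n → ℝ), Convex ℝ Ω → IsOpen Ω → ∀ (α : Type) (f : Finset (Vec n) → α),
  (∀ κ ∈ K, κ.card + 1 = n → (∃ x ∈ Ω, InRel κ x) → ∀ σ ∈ K, ∀ σ' ∈ K, κ ⊆ σ → κ ⊆ σ' →
    σ.card = n → σ'.card = n → f σ = f σ') →
  ∀ σ ∈ K, ∀ σ' ∈ K, σ.card = n → σ'.card = n → (∃ x ∈ Ω, InRel σ x) → (∃ x ∈ Ω, InRel σ' x) →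
    f σ = f σ'

/-- LINEARITY. A piecewise linear function which does not bend inside the convex open set `Ω` is
linear there. Proof. For `σ ∈ K`, `σ.card = n`, let `f σ` be the `m` with `pr m v = ψ v` for all
`v ∈ σ` (`StInt`, unique; `Classical.choose`, `0` for other sets). Hypothesis of `StConn`: let
`κ ∈ K` be a wall which meets `Ω`, `σ, σ' ⊇ κ` maximal; `StWall`: `Wall K κ p q b`; `σ`, `σ'` are
`insert p κ` or `insert q κ` (`σ = insert r κ` for the element `r` of `σ \ κ`). If they are equal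
there is nothing to prove. `bend ψ κ p q b = 0` by hypothesis. Let `m = f (insert p κ)`:
`pr m q = - pr m p - ∑ b v * pr m v = - ψ p - ∑ b v * ψ v = ψ q` (pair the wall relation with
`m`), so `m` also interpolates on `insert q κ`, and `m = f (insert q κ)` by uniqueness. If no
maximal cone meets `Ω` take `m = 0`, otherwise `m = f σ0` for one of them. -/
def StLin : Prop := ∀ (n : ℕ) (K : Finset (Finset (Vec n))), IsFan K → 1 ≤ n →
  ∀ Ω : Set (Fin n → ℝ), Convex ℝ Ω → IsOpen Ω → ∀ ψ : Vec n → ℤ,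
  (∀ τ p q b, Wall K τ p q b → bend ψ τ p q b ≠ 0 → ∀ x ∈ Ω, ¬ InRel τ x) →
  ∃ m : Vec n, ∀ σ ∈ K, σ.card = n → (∃ x ∈ Ω, InRel σ x) → ∀ v ∈ σ, ψ v = pr m v

/-! ## B. the ring -/

/-- MULTIPLICATION BY A WALL. Proof. (2) first: `StInt` for `insert p τ`: `m'` with
`pr m' p = 1`, `pr m' v = 0` on `τ`; pairing with the wall relation: `pr m' q = -1`. By `lin_rel`
`0 = ∑ v ∈ verts K, pr m' v • (cls K v * mon K τ)`; for `v ∈ τ` the coefficient is `0`; for
`v ∉ τ`, `cls K v * mon K τ = mon K (insert v τ)` (`mon_insert`) is `0` unless `insert v τ ∈ K`,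
i.e. `v = p` or `v = q`. So `0 = mon K (insert p τ) - mon K (insert q τ)`. (1): let `m`
interpolate `ψ` on `insert p τ`, `χ = ψ - pr m`; `cl K ψ = cl K χ` (`cl_sub_pr`); in the same way
`cl K χ * mon K τ = χ q • mon K (insert q τ)`, and `bend ψ = bend χ = χ q` (the bend of `pr m` is
`pr m` of the wall relation, i.e. `0`). -/
def StMul : Prop := ∀ (n : ℕ) (K : Finset (Finset (Vec n))), IsFan K →
  ∀ τ p q b, Wall K τ p q b →
    (∀ ψ : Vec n → ℤ, cl K ψ * mon K τ = bend ψ τ p q b • mon K (insert p τ)) ∧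
    mon K (insert q τ) = mon K (insert p τ)

/-- THE CLASS OF A POINT. `StConn` with `Ω = univ`, `f = mon K`; two maximal cones which contain
the wall `κ` are `insert p κ`, `insert q κ` (`StWall`), and `StMul` (2). (`InRel.one` gives points
of the relative interiors.) -/
def StPt : Prop := ∀ (n : ℕ) (K : Finset (Finset (Vec n))), IsFan K → 1 ≤ n →
  ∀ σ ∈ K, ∀ σ' ∈ K, σ.card = n → σ'.card = n → mon K σ = mon K σ'

/-- NONDEGENERACY in degree 2. `y = cl K ψ` (`exists_cl`). For a wall `τ` (it has `n - 1 ≥ 1`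
elements, so `mon K τ` is a multiple of some `cls K v`): `0 = y * mon K τ = bend ψ • mon K
(insert p τ)` (`StMul`), so `bend ψ τ p q b = 0` (`NT`). `StLin` with `Ω = univ`: `m` with
`ψ v = pr m v` for all `v` in maximal cones, and every ray is in a maximal cone (`StNear` with
`Ω = univ`, `κ = {v}`, `InRel.singleton`). So `y = cl K (pr m) = 0` (`cl_congr`, `cl_pr`). -/
def StZero : Prop := ∀ (n : ℕ) (K : Finset (Finset (Vec n))), IsFan K → 2 ≤ n → NT K →
  ∀ y ∈ H2 K, (∀ v, y * cls K v = 0) → y = 0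

/-! ## C. a splitting of the second cohomology -/

/-- COORDINATES. Proof. For every `v`, `Split.gen` for `cls K v` gives `u` and `c`; put
`a i v = c i` (choice). First clause clear. `e i * cls K v = e i * u + ∑ j, c j • (e i * e j) =
c i • (e i * e i)`. UNIQUENESS of coordinates: if `u + ∑ c i • e i = u' + ∑ c' i • e i`
with `u, u' ∈ U`, multiply by `(e i)^(n-1)` (`n ≥ 2`): `c i • (e i)^n = c' i • (e i)^n`, so
`c i = c' i` by `top`. If `v ∉ verts K` then `cls K v = 0` has the coordinates `0`. Clause 4: for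
a linear form `u : Vec n`, `0 = ∑ v ∈ verts K, pr u v • cls K v` (`lin_rel`) has the
`i`-th coordinate `∑ pr u v * a i v = pr u (∑ a i v • v)`; this vanishes for all `u`, so
`∑ a i v • v = 0` (take `u = Pi.single j 1`). Clause 5: `e i = cl K ψ = ∑ ψ v • cls K v` has the
`i`-th coordinate `∑ ψ v * a i v`, and also `1`. -/
def StCoef : Prop := ∀ (n : ℕ) (K : Finset (Finset (Vec n))) (k : ℕ) (e : Fin k → Coh K)
  (U : Submodule ℤ (Coh K)), IsFan K → 3 ≤ n → Split K k e U → ∃ a, Dat K k e U a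

/-- SKELETON (H1). Proof: suppose `s ∉ K`; `mon K s = 0` (`mon_eq_zero`). By induction on `s`,
`e i * mon K s = (∏ v ∈ s, a i v) • (e i)^(s.card + 1)` (second clause of `Dat`:
`(e i)^(m+1) * cls K v = a i v • (e i)^(m+2)`). Multiply by `(e i)^(n - 1 - s.card)`:
`(∏ a i v) • (e i)^n = 0`, so `∏ a i v = 0` by `top`: contradiction. -/
def StSkel : Prop := ∀ (n : ℕ) (K : Finset (Finset (Vec n))) (k : ℕ) (e : Fin k → Coh K)
  (U : Submodule ℤ (Coh K)) (a : Fin k → Vec n → ℤ), IsFan K → 3 ≤ n → Split K k e U →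
  Dat K k e U a → ∀ i, ∀ s : Finset (Vec n), (∀ v ∈ s, a i v ≠ 0) → s.card + 1 ≤ n → s ∈ K

/-- THE POINT IS NOT TORSION, AND THE BENDS OF `e i` (H2). Proof. As in `StSkel`, for a wall `τ`
(`τ.card = n - 1`) `e i * mon K τ = (∏ v ∈ τ, a i v) • (e i)^n`, and by `StMul`
`e i * mon K τ = bend ψ τ p q b • mon K (insert p τ)` if `e i = cl K ψ`.
(1) `NT K` if `0 < k`: take `i`. The support `A = {v ∈ verts K : a i v ≠ 0}` has at least `n`
elements: otherwise `A ∈ K` (`StSkel`) and the relation `∑ a i v • v = 0` (real version: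
`lin A (a i) = 0`, `lin_int`) contradicts independence (`StDual`), as `a i ≠ 0` somewhere by
clause 5 of `Dat`. So there is `τ ⊆ A` with `n - 1` elements, `τ ∈ K` (`StSkel`), a wall
(`StWall`). If `N • mon K σ = 0`, then (`StPt`) `N • mon K (insert p τ) = 0`, so
`(N * ∏ a i v) • (e i)^n = 0`, so `N = 0`.
(2) if `τ` is a wall and some `v ∈ τ` has `a i v = 0` then `0 = bend ψ • mon K (insert p τ)`, so
`bend ψ = 0` by (1) (`0 < k` since `i : Fin k`). -/
def StBd : Prop := ∀ (n : ℕ) (K : Finset (Finset (Vec n))) (k : ℕ) (e : Fin k → Coh K)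
  (U : Submodule ℤ (Coh K)) (a : Fin k → Vec n → ℤ), IsFan K → 3 ≤ n → Split K k e U →
  Dat K k e U a → (0 < k → NT K) ∧ ∀ i, ∀ ψ, e i = cl K ψ →
    ∀ τ p q b, Wall K τ p q b → bend ψ τ p q b ≠ 0 → ∀ v ∈ τ, a i v ≠ 0

/-! ## D. the simplex of a class -/

/-- SIGNS. Proof. Let `P = {0 < w}`, `N = {w < 0}` in `A`, and suppose both have at most `n - 1`
elements; both are in `K`. `lin P w = lin N (-w)` (split `lin A w = 0`; the other terms are
zero). By `StUq` (1) `P = N`; they are disjoint, so both are empty and `w = 0` on `A`. -/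
def StSign : Prop := ∀ (n : ℕ) (K : Finset (Finset (Vec n))), IsFan K → ∀ A : Finset (Vec n),
  (∀ s ⊆ A, s.card + 1 ≤ n → s ∈ K) → ∀ w : Vec n → ℝ, lin A w = 0 → (∃ v ∈ A, w v ≠ 0) →
  n ≤ (A.filter (fun v => 0 < w v)).card ∨ n ≤ (A.filter (fun v => w v < 0)).card

/-- RELATIONS ARE PROPORTIONAL. Proof. Suppose `w'` is not `c * w` on `A` for any `c`. For
`θ ∈ [0, π]` put `w_θ = cos θ * w + sin θ * w'`; it is a relation and not zero on `A`
(`sin θ ≠ 0`: `w' = - (cos θ / sin θ) w`; `sin θ = 0`: `w = 0`). By `StSign`, `[0, π]` is the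
union of `P = {θ | n ≤ #{v ∈ A | 0 < w_θ v}}` and `N`; both are open (if `w_θ v > 0` for `n`
elements `v`, then the same for `θ'` near `θ`) and disjoint since `2 n > n + 2 ≥ A.card`
(`n ≥ 3`). `w_π = - w_0`, so `0 ∈ P ↔ π ∈ N`; both `P` and `N` are nonempty: contradiction with
`isPreconnected_Icc` (`IsPreconnected` for open sets). -/
def StRel1 : Prop := ∀ (n : ℕ) (K : Finset (Finset (Vec n))), IsFan K → 3 ≤ n →
  ∀ A : Finset (Vec n), (∀ s ⊆ A, s.card + 1 ≤ n → s ∈ K) → A.card ≤ n + 2 →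
  ∀ w w' : Vec n → ℝ, lin A w = 0 → lin A w' = 0 → (∃ v ∈ A, w v ≠ 0) →
  ∃ c : ℝ, ∀ v ∈ A, w' v = c * w v

/-- Proof. Otherwise let `A' ⊆ A` with `n + 2` elements. `v1 ∈ A'`: the `n + 1` vectors of
`A'.erase v1` in `ℝ^n` have a nontrivial relation
(`Module.exists_nontrivial_relation_of_finrank_lt_card`; `toR` is injective, `toR_inj`): `w` with
`w v1 = 0`, `lin A' w = 0`, `w v2 ≠ 0` for some `v2 ∈ A'`. In the same way `w'` with `w' v2 = 0`,
not zero on `A'`. `StRel1`: `w' = c * w` on `A'`; at `v2`: `c = 0`, so `w' = 0`: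
contradiction. -/
def StCardA : Prop := ∀ (n : ℕ) (K : Finset (Finset (Vec n))), IsFan K → 3 ≤ n →
  ∀ A : Finset (Vec n), (∀ s ⊆ A, s.card + 1 ≤ n → s ∈ K) → A.card ≤ n + 1

/-- CARDINALITY `n + 1`. Let `A = sup K a`. `A` has the skeleton property (`Comb.skel`), so
`A.card ≤ n + 1` (`StCardA`). `A.card ≥ n`, otherwise `A ∈ K` and the relation (`Comb.rel`, sum
over `A` instead of `verts K`, real: `lin_int`), not trivial because of `Comb.one`, contradicts
independence (`StDual`). Suppose `A.card = n`. The vectors of `A` are dependent, so they do not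
span: there is `h ≠ 0`, `dot h (toR v) = 0` for `v ∈ A` (a proper subspace is in the kernel of a
nonzero functional; or from `StGen` (1)-style arguments; or use: the span of `n` dependent vectors
has dimension `< n`). `Ω = {x | dot h x < 0}` is convex and open. Walls `τ` with
`bend ψ ≠ 0` have `τ ⊆ A` (`Comb.bd`, `Comb.supp`), so `InRel τ x` implies `dot h x = 0`. `StLin`:
`m`. For `v ∈ A` choose `w ∈ A`, `w ≠ v`, `τ = A.erase w ∋ v`, `τ ∈ K`, `τ.card + 1 = n`. `StSide`
with `y = -h` (not in the span of `τ`: `dot h (-h) < 0`, `dot_lin`): `κ ⊇ τ`, `InRel κ (lin τ 1 -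
δ h)`, in `Ω`. So `ψ v = pr m v` for all `v ∈ A`, and `1 = ∑ a v * ψ v = pr m (∑ a v • v) = 0`
(sums over `A`): contradiction. -/
def StNoN : Prop := ∀ (n : ℕ) (K : Finset (Finset (Vec n))) (a ψ : Vec n → ℤ), IsFan K → 3 ≤ n →
  Comb K a ψ → (sup K a).card = n + 1

/-- `e` IS LINEAR ON THE CHAMBERS. Let `A = sup K a`, `B = A.erase l`, `B.card = n`.
Independence: if `lin B c = 0`, extend `c` by `0` at `l` to a relation on `A`; by `StRel1` (with
`w = a`, real) it is `t * a`, at `l`: `t * a l = 0`, so `t = 0` and `c = 0` on `B`. So `B` is a real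
basis, with dual vectors `h_v` (`StDR`). Signs: by `StSign` at least `n` of the `n + 1` numbers
`a v` have the same sign. Let `O = {v ∈ B | a v * a l < 0}`. Either (I) `O.card ≤ 1`, or
(II) `O = B` (then `l` is the element with the exceptional sign).
(I) `Ω = {x | ∀ v ∈ B, 0 < dot h_v x}`: convex, open. Let `τ` be a wall with `bend ψ ≠ 0`; then
`τ ⊆ A`, `τ.card = n - 1`, and let `InRel τ x`, `x = lin τ c`, `c > 0`. If `l ∉ τ`: `τ ⊂ B`, some
`v ∈ B` is not in `τ`, `dot h_v x = 0`, `x ∉ Ω`. If `l ∈ τ`: `A \ τ = {l', l''} ⊆ B`, `l' ≠ l''`;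
`dot h_{l'} (toR l) = - a l' / a l` (pair the relation with `h_{l'}`), so
`dot h_{l'} x = - c l * a l' / a l`, and the same for `l''`; if `x ∈ Ω` both `l', l'' ∈ O`,
contradiction. `StLin`: `m`. For `v ∈ B` choose `w ∈ B`, `w ≠ v` (`n ≥ 2`), `τ = B.erase w ∋ v`,
`τ ∈ K` (skeleton). `StSide` with `y = toR w`: `κ ⊇ τ`, `κ.card = n`, and
`lin τ 1 + δ • toR w ∈ Ω` (all coordinates positive), so `ψ v = pr m v`.
(II) For `j ∈ B` let `Ω_j = {x | dot h_j x < 0}`, convex, open. A wall `τ` with `bend ψ ≠ 0`: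
`τ ⊆ A`; all elements of `A` have `dot h_j (toR v) ≥ 0` (for `l`: `- a j / a l > 0`), so
`InRel τ x` implies `dot h_j x ≥ 0`. `StLin`: `m_j`. For `j ≠ j'` in `B`: the open set
`Ω_j ∩ Ω_{j'}` contains `- toR j - toR j'`; `StNear` for it (take the face `κ` with
`InRel κ (- toR j - toR j')`): a maximal cone `σ` whose relative interior meets it, so `m_j`,
`m_{j'}` agree on `σ` and `m_j = m_{j'}` (`StInt`, uniqueness). So all `m_j = m`. For `v ∈ B`
choose `w ∈ B`, `w ≠ v`, `τ = B.erase w`, `StSide` with `y = - toR w`: `κ ⊇ τ`, the point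
`lin τ 1 - δ • toR w ∈ Ω_w`. So `ψ v = pr m v`. -/
def StLl : Prop := ∀ (n : ℕ) (K : Finset (Finset (Vec n))) (a ψ : Vec n → ℤ), IsFan K → 3 ≤ n →
  Comb K a ψ → (sup K a).card = n + 1 → ∀ l ∈ sup K a, ∃ m : Vec n,
    ∀ v ∈ (sup K a).erase l, ψ v = pr m v

/-- THE SIMPLEX. `A = sup K a` has `n + 1` elements (`StNoN`). For `l ∈ A` let `m_l` be as in
`StLl`. From `∑ a v • v = 0`, `∑ a v * ψ v = 1` (sums over `A`): `∑ a v * (ψ v - pr m_l v) = 1`,
i.e. `a l * (ψ l - pr m_l l) = 1`; so `a l = ±1` and `ψ l - pr m_l l = a l`. UNIMODULARITY of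
`B = A.erase l`: choose `l' ∈ B`, `τ = B.erase l'`, a wall (skeleton, `StWall`), `insert p τ` is a
lattice basis. `l' = d • p + ∑ v ∈ τ, c v • v` with integers (`StDual`). The linear form
`m = m_l - m_{l'}` vanishes on `τ`, and `pr m l' = ψ l' - (ψ l' - a l') = a l' = ±1`; so
`d * pr m p = ±1`, `d = ±1`. Hence `p` is an integral combination of `insert l' τ = B`, and so is
every lattice vector; `StUniOf`. TYPE: by `StSign` at least `n` of the `a v` have the same sign
`s`; so either all `a v = s`, then `∑ v ∈ A, v = 0` (multiply by `s`), or exactly one `v0` has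
`a v0 = -s` and `v0 = ∑ v ∈ A.erase v0, v`. The other clauses of `Simp` are clear. -/
def StSimp : Prop := ∀ (n : ℕ) (K : Finset (Finset (Vec n))) (a ψ : Vec n → ℤ), IsFan K → 3 ≤ n →
  Comb K a ψ → Simp K (sup K a)

end ToricPB
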