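import Pool.Agent.Lib.MP_3d51eb_gt.PB.Spec

set_option autoImplicit false

/-!
# MP_3d51eb_gt, project PB: statements of the modules, second part
-/

noncomputable section

namespace ToricPB

open Finset MvPolynomial

/-! ## E. negativity lemma -/

/-- DESCENT. Let `T` be the set of the `v ∉ τ` which lie in some `F ∈ K` with `τ ⊆ F` and
`ψ p ≠ 0` for some `p ∈ F`; finite, nonempty (the third clause of `NegSt`: `p ∉ τ`), and
`u > 0` on `T`, `u = 0` on `τ`. GENERIC `w`: for `v ≠ v'` in `T` the vector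
`z = dot u v' • toR v - dot u v • toR v'` is not in the span of `τ`: otherwise, adding positive
multiples of the elements of `τ` on both sides, a point of the relative interior of `insert v τ`
equals a point of the relative interior of `insert v' τ` (both in `K`), so `v = v'` (`StUq` (1)).
`StGen` (2): `w` with `w = 0` on `τ` and `dot w z ≠ 0` for all these `z`. Let `q ∈ T` maximize
`dot w q / dot u q`; `c` = this maximum, `w' = w - c • u`: `w' = 0` on `τ` and `q`, and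
`dot w' (toR v) < 0` for `v ∈ T`, `v ≠ q` (no ties because of `dot w z ≠ 0`).
`ψ q = 0`: suppose `ψ q ≠ 0`. Then every `F ∈ K` with `insert q τ ⊆ F` has
`F \ insert q τ ⊆ T`, so `w' < 0` there. `(insert q τ).card ≤ n - 1`, so there is a maximal
`F ⊇ insert q τ` (`StNear`, `Ω = univ`) with another element `v`, `dot w' v < 0`; so `w' ≠ 0`.
`StLoc` for `x = lin (insert q τ) 1` and `y = w'`: `κ`, `x = lin κ c'`, `insert q τ ⊆ κ`
(`StUq` (2)), `y = lin κ d`, `d v > 0` for `v ∈ κ \ insert q τ` (there `c' v = 0` as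
`insert q τ = κ.filter (0 < c' ·)`). So `0 < dot w' w' = ∑ v ∈ κ, d v * dot w' (toR v) ≤ 0`:
contradiction.
Take `u' = - w'` and `τ' = insert q τ` (`∈ K` since `q ∈ F ⊇ τ`). The third clause of `NegSt` for
`τ'`: `q ∈ T` gives `F ∋ q`, `F ⊇ τ`, `ψ p ≠ 0`. The last clause: `F ⊇ τ'`, `ψ p ≠ 0`, `v ∈ F`,
`v ∉ τ'`: `v ∈ T`, `v ≠ q`, so `0 < dot u' v`. -/
def StNegStep : Prop := ∀ (n : ℕ) (K : Finset (Finset (Vec n))) (ψ : Vec n → ℤ)
  (τ : Finset (Vec n)) (u : Fin n → ℝ), IsFan K → NegSt K ψ τ u → τ.card + 2 ≤ n →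
  ∃ q, q ∉ τ ∧ ψ q = 0 ∧ ∃ u', NegSt K ψ (insert q τ) u'

/-- THE TWO-DIMENSIONAL CASE. Let `S = {q ∉ τ : insert q τ ∈ K, ψ q ≠ 0}` and write
`N(q) = {p ∉ insert q τ : insert p (insert q τ) ∈ K}` for `q ∉ τ`, `insert q τ ∈ K`
(it has exactly two elements `p1, p2`: `StWall` for the wall `insert q τ`:
`p1 + p2 + b q • q + ∑ v ∈ τ, b v • v = 0`). Since `ψ = 0` on `τ`,
`cl K ψ * mon K τ = ∑ q ∈ S, ψ q • mon K (insert q τ)`, and by `StMul`, `StPt`
`cl K ψ * cl K ψ * mon K τ = (∑ q ∈ S, ψ q * bend_q) • P`, `P` the class of a point,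
`bend_q = ψ p1 + ψ p2 + b q * ψ q`. By `NT` it is enough that `∑ q ∈ S, ψ q * bend_q < 0`. For
`q ∈ S` put `g = ψ / u` (on vectors with `u > 0`; `u` = `dot u (toR ·)`); `q, p1, p2` lie in a face
`⊇ τ` with an element (`q`) where `ψ ≠ 0`, so `u > 0` on them; pairing the wall relation with
`u`: `u p1 + u p2 + b q * u q = 0`. So
`ψ q * bend_q = ψ q * (ψ p1 + ψ p2) - (ψ q)^2 * (u p1 + u p2) / u q = ∑ p ∈ N(q), t(q,p)`,
`t(q,p) = ψ q * ψ p - (ψ q)^2 * u p / u q`. For `p ∉ S`, `p ∈ N(q)`: `ψ p = 0` (`insert p τ ∈ K`,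
`p ∉ τ`) and `t(q,p) < 0`. For `p, q ∈ S` adjacent:
`t(q,p) + t(p,q) = - (u p * u q) * (g q - g p)^2 ≤ 0`. Adjacency is symmetric, so the sum over all
ordered pairs `(q,p)`, `q ∈ S`, `p ∈ N(q)` is `≤ 0` (half the sum of `t(q,p) + t(p,q)` over the
pairs with both in `S`, plus the rest), and it is `< 0` if there is a pair with `q ∈ S`, `p ∉ S`:
`StNegStep` gives `q0 ∉ τ` with `ψ q0 = 0` and `NegSt K ψ (insert q0 τ) u'`, so there is `F ∈ K`
with `insert q0 τ ⊆ F`, `p0 ∈ F`, `ψ p0 ≠ 0`; `p0 ∈ S`, `q0 ∈ N(p0)`, `q0 ∉ S`. -/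
def StNegEnd : Prop := ∀ (n : ℕ) (K : Finset (Finset (Vec n))) (ψ : Vec n → ℤ)
  (τ : Finset (Vec n)) (u : Fin n → ℝ), IsFan K → NT K → NegSt K ψ τ u → τ.card + 2 = n →
  cl K ψ * cl K ψ * mon K τ ≠ 0

/-- NEGATIVITY LEMMA. Suppose `ψ v ≠ 0` for some `v ∈ verts K`. Then `NegSt K ψ ∅ u`. Apply
`StNegStep` repeatedly (induction) until `τ.card + 2 = n`, then `StNegEnd` contradicts the last
hypothesis. -/
def StNeg : Prop := ∀ (n : ℕ) (K : Finset (Finset (Vec n))) (ψ : Vec n → ℤ) (u : Fin n → ℝ),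
  IsFan K → 2 ≤ n → NT K →
  (∀ F ∈ K, (∃ p ∈ F, ψ p ≠ 0) → ∀ w ∈ F, 0 < dot u (toR w)) →
  (∀ τ ∈ K, τ.card + 2 = n → cl K ψ * cl K ψ * mon K τ = 0) → ∀ v ∈ verts K, ψ v = 0

/-! ## F. leaves -/

/-- THE INSIDE OF A UNIMODULAR CONE whose proper faces are cones of the fan. `B` is a real basis
(`StDual`). (4) `toR p = lin B (δ_p)`, coordinates are unique, and `B` has another element
(`n ≥ 2`). (1) `w = p`: clear. `w ≠ p`: `{p, w} ∈ K`. Let `toR p = lin B d`, `d > 0`,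
`toR w = lin B c`, and suppose some `c v < 0`. Let `t` be the minimum of `d v / (- c v)` over the
`v ∈ B` with `c v < 0`, `t > 0`. `toR p + t • toR w = lin B (d + t c)` has coordinates `≥ 0`, one of
them `0`; so it is in the relative interior of a proper subset `B' ∈ K` of `B` and in the relative
interior of `{p, w}`: `{p, w} = B'`, `p ∈ B`, contradiction with (4). (2) if all `c v > 0` then
`InRel B (toR ρ)`; otherwise `B' = B.filter (0 < c ·) ≠ B` is in `K`, `InRel B' (toR ρ)`,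
`{ρ} ∈ K` (`IsFan.single`), so `B' = {ρ}` and `ρ ∈ B`. (3) `x = lin B 1`, `κ ∈ K` with
`InRel κ x`, `x = lin κ c`. Not `κ ⊆ B` (then `κ ≠ B`, and the coordinates of `x` outside `κ` would
be `0`, but they are `1`). Take `ρ ∈ κ`, `ρ ∉ B`, `toR ρ = lin B r`. If some `r v < 0` let `s` be
the minimum of `1 / (- r v)`; `x + s • toR ρ` is in the relative interior of `κ`, and of a proper
subset `B' ∈ K` of `B`; so `κ = B' ⊆ B`, a contradiction. So `r ≥ 0` and (2) gives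
`InRel B (toR ρ)`. -/
def StInside : Prop := ∀ (n : ℕ) (K : Finset (Finset (Vec n))) (B : Finset (Vec n)), IsFan K →
  2 ≤ n → B.card = n → Uni B → (∀ s ⊆ B, s ≠ B → s ∈ K) →
  (∀ F ∈ K, ∀ p ∈ F, InRel B (toR p) → ∀ w ∈ F, ∃ c : Vec n → ℝ, (∀ v ∈ B, 0 ≤ c v) ∧
    toR w = lin B c) ∧
  (∀ ρ ∈ verts K, ∀ c : Vec n → ℝ, (∀ v ∈ B, 0 ≤ c v) → toR ρ = lin B c →
    ρ ∈ B ∨ InRel B (toR ρ)) ∧
  (B ∉ K → ∃ p ∈ verts K, InRel B (toR p)) ∧
  ∀ p ∈ B, ¬ InRel B (toR p)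

/-- `U` CANNOT LIE INSIDE A CONE. Proof. `P = {p ∈ verts K : InRel B (toR p)}`, not empty.
For `p ∈ P`: `cls K p ∈ U` (first clause of `Dat`, all `a i p = 0`), and `cls K p ≠ 0` (`p` is in
a maximal cone `σ`, `StNear` with `Ω = univ`, and `mon K σ` is a multiple of `cls K p`, not zero by
`NT`). So `U ≠ ⊥` and we have `x` from `SqZero`. `x = cl K ψ0`, `m` interpolates `ψ0` on `B`
(`StInt`), `ψ = ψ0 - pr m`, `x = cl K ψ`, `ψ = 0` on `B`. Let `ψ' = ψ` on `P`, `0` elsewhere, and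
`ψ'' = ψ - ψ'`; `x1 = cl K ψ'`, `x2 = cl K ψ''`. For `p ∈ P` and `ρ ∈ verts K`, `ρ ∉ B`, `ρ ∉ P`:
`{p, ρ} ∉ K` (`StInside` (1), (2)), so `cls K p * cls K ρ = 0`. So `x1 * x2 = 0`,
`x2 * cls K p = 0` for `p ∈ P`, `x1 * cls K ρ = 0` for `ρ ∉ B ∪ P`. `x1 ∈ U`.
`0 = x * x = x1 * x1 + x2 * x2`. CLAIM `x1 * x1 * cls K v = 0` for all `v`: for `v ∈ P`:
`= - x2 * x2 * cls K v = 0`; for `v ∉ B ∪ P` clear; for `v ∈ B` the linear form `u` dual to `v` in
`B` (`StDual`) gives (`lin_rel`) `cls K v = - ∑ pr u ρ • cls K ρ` over the rays `ρ ∉ B`. So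
`x1 * x1 * mon K τ = 0` for every `τ ∈ K` with `n - 2 ≥ 1` elements. Positive functional: the sum
`h` of the dual real vectors of `B`; if `F ∈ K` contains a `p` with `ψ' p ≠ 0` (so `p ∈ P`) then
every `w ∈ F` is `lin B c`, `c ≥ 0` (`StInside` (1)), `w ≠ 0` (`{w} ∈ K` is independent), so
`dot h (toR w) = ∑ c v > 0`. `StNeg`: `ψ' = 0` on `verts K`, `x1 = 0`, `x = x2`. For `p ∈ P`:
`x * cls K p = 0`, so `SqZero` gives `N ≠ 0`, `M` with `N • cls K p = M • x`. Then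
`(N • cls K p) * (N • cls K p) = 0`; `N • cls K p = cl K (N δ_p)`; `StNeg` for `N δ_p` (same
functional) gives `N = 0`: contradiction. -/
def StNoU : Prop := ∀ (n : ℕ) (K : Finset (Finset (Vec n))) (k : ℕ) (e : Fin k → Coh K)
  (U : Submodule ℤ (Coh K)) (a : Fin k → Vec n → ℤ), IsFan K → 3 ≤ n → Split K k e U →
  Dat K k e U a → NT K → (U = ⊥ ∨ SqZero K U) → ∀ B : Finset (Vec n), B.card = n → Uni B →
  (∀ s ⊆ B, s ≠ B → s ∈ K) → (∃ p ∈ verts K, InRel B (toR p)) →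
  (∀ p ∈ verts K, InRel B (toR p) → ∀ i, a i p = 0) → False

/-- LEAF. Notation `A_i = sup K (a i)`. Call `(i, l)` convex if `l ∈ A_i` and either
`∑ v ∈ A_i, v = 0` or there is `v0 ∈ A_i`, `v0 ≠ l`, `v0 = ∑ v ∈ A_i.erase v0, v`.
(b) If `A_i.erase l ∈ K` for all convex `(i, l)`, take any `i` (`0 < k`) and use `Simp.type`: in
the first case the second alternative holds, in the second case the first one.
(a) Otherwise choose a convex `(i, l)` with `B = A_i.erase l ∉ K` and the least number of rays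
`ρ ∈ verts K` in the closed cone of `B` (`∃ c ≥ 0 on B, toR ρ = lin B c`). `B.card = n`, `Uni B`,
and the proper subsets of `B` are in `K` (`Simp`). By `StInside` (3) there are rays `p` with
`InRel B (toR p)`; by `StNoU` one of them has `a j p ≠ 0` for some `j`, i.e. `p ∈ A_j`. For
`w ∈ A_j`: `{p, w} ∈ K` (`Simp.skel`, `2 + 1 ≤ n`), so `toR w` is in the closed cone of `B`
(`StInside` (1)). `∑ v ∈ A_j, v ≠ 0` (the sum of the `B`-coordinates is positive for every element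
of `A_j`, they are not zero). So `v0 = ∑ v ∈ A_j.erase v0, v` for a `v0 ∈ A_j`. CLAIM
`A_j.erase l' ∈ K` for all `l' ∈ A_j.erase v0` (this is the first alternative). Otherwise
`(j, l')` is convex, `B' = A_j.erase l' ∉ K`, and the closed cone of `B'` is contained in that of
`B`; the ray `l'` is in the closed cone of `B` and not in that of `B'`: `l' = v0 - ∑` (elements of
`A_j` other than `v0`, `l'`), coordinates in the basis `B'` are unique, and `-1` occurs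
(`n ≥ 2`). So `B'` has fewer rays, a contradiction to the choice. -/
def StLeaf : Prop := ∀ (n : ℕ) (K : Finset (Finset (Vec n))) (k : ℕ) (e : Fin k → Coh K)
  (U : Submodule ℤ (Coh K)) (a : Fin k → Vec n → ℤ), IsFan K → 3 ≤ n → 0 < k → Split K k e U →
  Dat K k e U a → NT K → (∀ i, Simp K (sup K (a i))) → (U = ⊥ ∨ SqZero K U) →
  ∃ i, (∃ v0 ∈ sup K (a i), v0 = ∑ v ∈ (sup K (a i)).erase v0, v ∧
      ∀ l ∈ (sup K (a i)).erase v0, (sup K (a i)).erase l ∈ K) ∨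
    (∑ v ∈ sup K (a i), v = 0 ∧ ∀ l ∈ sup K (a i), (sup K (a i)).erase l ∈ K)

/-- PROJECTIVE SPACE. (1) `⊇`: a proper subset of `A` is contained in some `A.erase l`. `⊆`: let
`s ∈ K`, `x = lin s 1`; fix `l0 ∈ A`, `B = A.erase l0` is a real basis, `x = lin B c`; put
`c l0 = 0` and `m = min_{v ∈ A} c v`; as `∑ v ∈ A, v = 0`, `x = lin A (c - m)`, all coefficients
`≥ 0` and one of them `0`; so `InRel t x` for `t = A.filter (0 < c - m) ≠ A`, `t ∈ K`, so `s = t`.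
`IsProj`: `Uni B`, `B.card = n`: the basis `b` has `univ.image b = B` (each `v ∈ B` is some
`b i`, cardinalities), and `l0 = - ∑ B = - ∑ i, b i`. (2) For `v ≠ w` in `A`: `u` dual to `v` in
the basis `A.erase w`; `pr u w = -1` (`∑ A = 0`), so by `lin_rel` `cls K v = cls K w`. So all
`cls K v`, `v ∈ A = verts K`, are equal to one `h`, and `H2 K = ℤ h` (`exists_cl`). `a i v ≠ 0` for
`v ∈ A = sup K (a i)`, `e i * h = a i v • (e i * e i)`. If `y ∈ U`, `y = N • h`: `0 = e i * y =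
(N * a i v) • (e i * e i)`, multiply by `(e i)^(n-2)`: `N = 0`, `y = 0`. If `j ≠ i`, `e j = N • h`:
`0 = e i * e j`, again `N = 0`, `e j = 0`, contradiction to `top` (`N = 1`). So `k = 1`. -/
def StProj : Prop := ∀ (n : ℕ) (K : Finset (Finset (Vec n))) (A : Finset (Vec n)), IsFan K →
  3 ≤ n → Simp K A → ∑ v ∈ A, v = 0 → (∀ l ∈ A, A.erase l ∈ K) →
  IsProj K ∧ ∀ (k : ℕ) (e : Fin k → Coh K) (U : Submodule ℤ (Coh K)) (a : Fin k → Vec n → ℤ),
    Split K k e U → Dat K k e U a → ∀ i, sup K (a i) = A → U = ⊥ ∧ k = 1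

/-! ## G. blow-down -/

/-- the situation of a point blow-up: `v0` is the sum of the lattice basis `S`, all proper faces
of `S` are cones, and the star of `v0` consists of the faces of the `insert v0 (S.erase l)` -/
def BD {n : ℕ} (K : Finset (Finset (Vec n))) (S : Finset (Vec n)) (v0 : Vec n) : Prop :=
  S.card = n ∧ Uni S ∧ v0 = ∑ v ∈ S, v ∧ v0 ∈ verts K ∧ v0 ∉ S ∧ (∀ s ⊆ S, s ≠ S → s ∈ K) ∧
  ∀ l ∈ S, insert v0 (S.erase l) ∈ K

/-- BLOW-DOWN OF A FAN. (3) first: `s ⊆ S`, `s ≠ S`: `s ⊆ S.erase l` for some `l`, so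
`insert v0 s ⊆ insert v0 (S.erase l) ∈ K`. KEY: if `x = lin S t` with all `t v > 0` then with
`m = min_{v ∈ S} t v > 0`: `x = m • toR v0 + lin S (t - m)` is in the relative interior of
`insert v0 s`, `s = S.filter (m < t ·) ≠ S`; conversely a point of the relative interior of
`insert v0 s`, `s ⊂ S`, is `lin S t` with `t > 0`. (1) `InRel S (toR v0)`, so `S ∈ K` would give
`S = {v0}`. (2) `F ∈ K`, `v0 ∈ F`: `x = toR v0 + δ • lin (F.erase v0) 1` for small `δ > 0` is in the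
relative interior of `F`, and all its `S`-coordinates are positive (those of `v0` are `1`); KEY
and `IsFan.uniq`. (4) `IsFan.down`, `IsFan.smooth`: clear. `cover`: let `s ∈ K` be the face with
`InRel s x`. If `v0 ∉ s` then `s` works; another `t ∈ down K S v0` with `InRel t x`: `t ∈ K` gives
`t = s`; `t = S`: by KEY `x` is in the relative interior of some `insert v0 s'`, so
`s = insert v0 s' ∋ v0`, contradiction. If `v0 ∈ s`: `s = insert v0 s'` by (2), so `InRel S x`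
(KEY); another `t ≠ S` would be in `K`, `t = s ∋ v0`, contradiction. (5) unfold `blow`; `v0 =
∑ v ∈ S, v`; use (1), (2), (3). (6) the rays of `down K S v0`: every `v ∈ S` is a ray of `K`
(`{v} ⊂ S`, `n ≥ 2`). -/
def StDown : Prop := ∀ (n : ℕ) (K : Finset (Finset (Vec n))) (S : Finset (Vec n)) (v0 : Vec n),
  IsFan K → 2 ≤ n → BD K S v0 →
  S ∉ K ∧ (∀ F ∈ K, v0 ∈ F → ∃ s, s ⊆ S ∧ s ≠ S ∧ F = insert v0 s) ∧
  (∀ s ⊆ S, s ≠ S → insert v0 s ∈ K) ∧ IsFan (down K S v0) ∧ K = blow (down K S v0) S ∧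
  verts K = insert v0 (verts (down K S v0)) ∧ v0 ∉ verts (down K S v0) ∧
  ∀ v ∈ S, v ∈ verts (down K S v0)

/-- PULL-BACK. Let `x0 = cls K v0`, `K0 = down K S v0`, `φ v0 = 0`,
`φ v = cls K v + (if v ∈ S then x0 else 0)` for `v ≠ v0`. For `w ∉ S`, `w ≠ v0`: `cls K w * x0 = 0`
(`{v0, w} ∉ K` by `StDown` (2); `cls_mul_eq_zero`). (P) if `s` does not contain `v0` and contains
some `w ∉ S` then `∏ v ∈ s, φ v = mon K s` (`φ w = cls K w`; by induction over `t`: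
`cls K w * ∏ v ∈ t, φ v = cls K w * mon K t` for `v0 ∉ t`, since `cls K w * x0 = 0`). Existence of
`π`: `coh_lift`. First condition: `s ∉ K0`; `v0 ∈ s`: a factor is `0`. `v0 ∉ s`: `s ∉ K`; not
`s ⊆ S` (then `s = S ∈ K0` or `s ∈ K`); by (P) the product is `mon K s = 0`. Second condition:
`∑ v ∈ verts K0, pr u v • φ v = ∑ v ∈ verts K0, pr u v • cls K v + (∑ v ∈ S, pr u v) • x0` and
`∑ v ∈ S, pr u v = pr u v0`, so it is `∑ v ∈ verts K, pr u v • cls K v = 0`. The last clause is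
(P) with `s ∈ K0`, `s ≠ S`, as a statement on `π (mon K0 s)`. -/
def StPull : Prop := ∀ (n : ℕ) (K : Finset (Finset (Vec n))) (S : Finset (Vec n)) (v0 : Vec n),
  IsFan K → 2 ≤ n → BD K S v0 → ∃ π : Coh (down K S v0) →+* Coh K,
    (∀ v, v ≠ v0 → π (cls (down K S v0) v) = cls K v + if v ∈ S then cls K v0 else 0) ∧
    ∀ s : Finset (Vec n), v0 ∉ s → (∃ w ∈ s, w ∉ S) → π (mon (down K S v0) s) = mon K s

/-- DEGREE TWO OF THE PULL-BACK. `x0 = cls K v0`. (a) `z = ∑ ψ v • cls K0 v` over `verts K0`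
(`exists_cl`, `v0 ∉ verts K0`); `π z ∈ H2 K` clear. `x0 * cls K v = 0` for `v ∉ S`, `v ≠ v0`
(`{v0, v} ∉ K`, `StDown` (2)), and `x0 * (cls K v + x0) = 0` for `v ∈ S`: the linear form `u` dual
to `v` in `S` (`StDual`) has `pr u v0 = 1`; multiply `lin_rel` by `x0`. So `π z * x0 = 0`.
(b) `y = cl K ψ`, sum over `verts K = insert v0 (verts K0)`: `y = π (cl K0 ψ) + c • x0` with
`c = ψ v0 - ∑ v ∈ S, ψ v`. -/
def StPullA : Prop := ∀ (n : ℕ) (K : Finset (Finset (Vec n))) (S : Finset (Vec n)) (v0 : Vec n)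
  (π : Coh (down K S v0) →+* Coh K), IsFan K → 2 ≤ n → BD K S v0 →
  (∀ v, v ≠ v0 → π (cls (down K S v0) v) = cls K v + if v ∈ S then cls K v0 else 0) →
  (∀ z ∈ H2 (down K S v0), π z ∈ H2 K ∧ π z * cls K v0 = 0) ∧
  ∀ y ∈ H2 K, ∃ z ∈ H2 (down K S v0), ∃ c : ℤ, y = π z + c • cls K v0

/-- INJECTIVITY. `K0 = down K S v0`, `I = Ideal.span {mon K0 S}`. `θ : Coh K →+* Coh K0 ⧸ I` with
`θ (cls K v0) = 0`, `θ (cls K v) = mk (cls K0 v)` for `v ≠ v0`: `coh_lift`; first condition: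
`s ∉ K`: `v0 ∈ s`: `0`; `v0 ∉ s`: `mon K0 s` is `0` if `s ∉ K0`, and if `s ∈ K0` then `s = S`, `0` in
the quotient. Second condition: the sum over `verts K = insert v0 (verts K0)` is the image of the
relation of `K0`. `θ.comp π = mk` (`coh_hom_ext`; for `v0`: `cls K0 v0 = 0` since
`v0 ∉ verts K0`, `cls_eq_zero`). So `π y = 0` implies `y ∈ I`, `y = r * mon K0 S`
(`Ideal.mem_span_singleton`). `mon K0 S * cls K0 v = 0` for all `v`: `v ∉ S`: `insert v S ∉ K0`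
(too many elements, `StDual` for the fan `K0`); `v ∈ S`: `lin_rel` for `u` dual to `v` in `S`,
multiplied by `mon K0 S`. So (`coh_induction`) for every `r` there is an integer `c` with
`r * mon K0 S = c • mon K0 S`. Let `l ∈ S`; the wall `S.erase l` of `K0` (`StWall`): one of its
`p, q` is not `l`, call it `q`: `q ∉ S`, `σ' = insert q (S.erase l) ∈ K0`, `σ' ≠ S`, so `σ' ∈ K`,
`v0 ∉ σ'`, `σ'.card = n`. `mon K0 S = mon K0 σ'` (`StPt`), `π (mon K0 σ') = mon K σ'`. So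
`0 = π y = c • mon K σ'`, `c = 0` (`NT K`), `y = 0`. `NT K0`: `N • mon K0 σ = 0` gives (`StPt`)
`N • mon K0 σ' = 0`, apply `π`. -/
def StPullB : Prop := ∀ (n : ℕ) (K : Finset (Finset (Vec n))) (S : Finset (Vec n)) (v0 : Vec n)
  (π : Coh (down K S v0) →+* Coh K), IsFan K → 2 ≤ n → BD K S v0 → NT K →
  (∀ v, v ≠ v0 → π (cls (down K S v0) v) = cls K v + if v ∈ S then cls K v0 else 0) →
  (∀ s : Finset (Vec n), v0 ∉ s → (∃ w ∈ s, w ∉ S) → π (mon (down K S v0) s) = mon K s) →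
  Function.Injective π ∧ NT (down K S v0)

/-- THE EXCEPTIONAL CLASS. `x0 = cls K v0`; `x0 = u + ∑ i, a i v0 • e i`, `u ∈ U` (`Dat`). For
`i`: `x0 * e i = a i v0 • (e i * e i) = c_i • (x0 * x0)`. `c_j ≠ 0` (`a j v0 ≠ 0` and `(e j)^2` is
not torsion by `top`). For `i ≠ j`: multiply `x0 * e j = c_j • x0 * x0` by `e i`:
`0 = c_j • (x0 * (x0 * e i)) = (c_j * (a i v0)^2) • (e i)^3`; so `a i v0 = 0` (`top`, `n ≥ 3`). So
`x0 = u + a j v0 • e j`, `x0 * x0 = u * u + (a j v0)^2 • (e j)^2`. Multiply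
`a j v0 • (e j)^2 = c_j • (x0 * x0)` by `e j`: `a j v0 = c_j * (a j v0)^2`, so
`a j v0 = c_j = ±1`, hence `u * u = 0` and `x0 * x0 = (e j)^2`. For `y ∈ H2 K`: `x0 * y = c •
(e j)^2`; `y = u' + ∑ c' i • e i` gives `e j * y = c' j • (e j)^2`; so
`u * y = (x0 - a j v0 • e j) * y = d • (e j)^2` with an integer `d`; multiply by `e j`:
`0 = d • (e j)^3`, `d = 0`, `u * y = 0`. `StZero`: `u = 0`. -/
def StRB : Prop := ∀ (n : ℕ) (K : Finset (Finset (Vec n))) (k : ℕ) (e : Fin k → Coh K)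
  (U : Submodule ℤ (Coh K)) (a : Fin k → Vec n → ℤ), IsFan K → 3 ≤ n → Split K k e U →
  Dat K k e U a → NT K → ∀ (v0 : Vec n) (j : Fin k), a j v0 ≠ 0 →
  (∀ y ∈ H2 K, ∃ c : ℤ, cls K v0 * y = c • (cls K v0 * cls K v0)) →
  ∃ s : ℤ, (s = 1 ∨ s = -1) ∧ cls K v0 = s • e j

/-- THE SPLITTING DOWNSTAIRS. For `y ∈ U` or `y = e i`, `i ≠ j`: `y = π z + c • x0`; multiply by
`x0 = s • e j`: `y * x0 = 0`, `π z * x0 = 0`, so `c • (x0 * x0) = c • (e j * e j) = 0`, `c = 0`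
(`top`), `y = π z`. Let `U' = {z ∈ H2 K0 | π z ∈ U}` and `π (e' i) = e (j.succAbove i)`. `gen`: for
`z ∈ H2 K0`, `π z = u + ∑ c i • e i`, multiply by `e j` (`π z * e j = ± π z * x0 = 0`): `c j = 0`;
`u = π u'`; `Fin.sum_univ_succAbove`; `z = u' + ∑ c (j.succAbove i) • e' i` by injectivity. The other
clauses of `Split` and `SqZero` follow from those for `K` and injectivity. -/
def StSD : Prop := ∀ (n : ℕ) (K K0 : Finset (Finset (Vec n))) (k : ℕ) (e : Fin (k + 1) → Coh K)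
  (U : Submodule ℤ (Coh K)) (π : Coh K0 →+* Coh K) (x0 : Coh K) (j : Fin (k + 1)) (s : ℤ),
  3 ≤ n → Split K (k + 1) e U → Function.Injective π →
  (∀ z ∈ H2 K0, π z ∈ H2 K ∧ π z * x0 = 0) →
  (∀ y ∈ H2 K, ∃ z ∈ H2 K0, ∃ c : ℤ, y = π z + c • x0) → (s = 1 ∨ s = -1) → x0 = s • e j →
  ∃ (e' : Fin k → Coh K0) (U' : Submodule ℤ (Coh K0)), Split K0 k e' U' ∧
    (∀ y, y ∈ U ↔ ∃ z ∈ U', π z = y) ∧ (U = ⊥ → U' = ⊥) ∧ (SqZero K U → SqZero K0 U')

/-! ## H. main theorem -/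

/-- ONE STEP. `StCoef`: `a`. `StBd`: `NT K`, and `Comb K (a i) ψ_i` for `e i = cl K ψ_i`
(`exists_cl`, `StSkel`, `Dat`). `StSimp`: `Simp K (sup K (a i))`. `StLeaf`: `i`. Second alternative:
`StProj`: `IsProj K`, `U = ⊥`, `k + 1 = 1`. First alternative: `A = sup K (a i)`, `S = A.erase v0`:
`BD K S v0` (`insert v0 (S.erase l) = A.erase l`; proper subsets of `S` have at most `n - 1`
elements, `Simp.skel`). `K0 = down K S v0`; `StDown`, `StPull`, `StPullA`, `StPullB`. For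
`y ∈ H2 K`, `y = π z + c • x0`: `x0 * y = c • (x0 * x0)`; `StRB` (`a i v0 ≠ 0` as
`v0 ∈ sup K (a i)`): `x0 = s • e i`. `StSD`. `S ∈ K0` by definition of `down`. -/
def StStep : Prop := ∀ (n : ℕ) (K : Finset (Finset (Vec n))) (k : ℕ) (e : Fin (k + 1) → Coh K)
  (U : Submodule ℤ (Coh K)), IsFan K → 3 ≤ n → Split K (k + 1) e U → (U = ⊥ ∨ SqZero K U) →
  (IsProj K ∧ k = 0 ∧ U = ⊥) ∨
  ∃ (K0 : Finset (Finset (Vec n))) (S : Finset (Vec n)) (e' : Fin k → Coh K0)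
    (U' : Submodule ℤ (Coh K0)) (π : Coh K0 →+* Coh K), IsFan K0 ∧ NT K0 ∧ S ∈ K0 ∧ S.card = n ∧
    K = blow K0 S ∧ Split K0 k e' U' ∧ Function.Injective π ∧ (∀ y, y ∈ U ↔ ∃ z ∈ U', π z = y) ∧
    (U = ⊥ → U' = ⊥) ∧ (SqZero K U → SqZero K0 U')

/-- MAIN THEOREM. Induction on `k` for all `K`. `k = 0`: the first part is empty; `U = H2 K`
(`gen`, `hU`), `K0 = K`, `ι = id`. `k + 1`: `StStep`. First alternative: `K0 = K`,
`Blowups.refl` (`U = ⊥`, so the second part is empty). Second alternative: if `U = ⊥` then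
`U' = ⊥`; `k ≠ 0`: otherwise `Split K0 0 e' ⊥` gives `H2 K0 = ⊥`, so `cls K0 v = 0` for all `v`,
`mon K0 S = 0` (`n ≥ 1`), contradiction to `NT K0` (`N = 1`). Induction hypothesis for `K0`, `k`,
and `Blowups.step`. If `U ≠ ⊥` then `U' ≠ ⊥` (`U` is the image of `U'`) and
`SqZero K0 U'`; induction hypothesis gives `K1`, `ι' : Coh K1 →+* Coh K0`; `ι = π.comp ι'`. -/
def StMain : Prop := ∀ (n : ℕ) (K : Finset (Finset (Vec n))) (k : ℕ) (e : Fin k → Coh K)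
  (U : Submodule ℤ (Coh K)), IsFan K → 3 ≤ n → Split K k e U → (U = ⊥ ∨ SqZero K U) →
  (U = ⊥ → 0 < k → ∃ K0 : Finset (Finset (Vec n)), IsProj K0 ∧ Blowups (k - 1) K0 K) ∧
  (U ≠ ⊥ → ∃ K0 : Finset (Finset (Vec n)), IsFan K0 ∧ Blowups k K0 K ∧
    ∃ ι : Coh K0 →+* Coh K, Function.Injective ι ∧ ∀ y, y ∈ U ↔ ∃ z ∈ H2 K0, ι z = y)

end ToricPB
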