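import Pool.Agent.Lib.MP_3d51eb_gt.PB.Spec2
import Pool.Agent.Lib.MP_3d51eb_gt.PB.Defs2

set_option autoImplicit false

/-!
# MP_3d51eb_gt, project PB: the degree map (the class of a point is never torsion)
-/

noncomputable section

namespace ToricPB

open Finset MvPolynomial

variable {n : ℕ}

/-- A system of degree functionals for the cones with at least `m` elements: `D τ f` is the degree
of the product of `f` with the monomial of `τ` (of its component of the right degree). -/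
def DegSys (K : Finset (Finset (Vec n))) (m : ℕ)
    (D : Finset (Vec n) → (MvPolynomial (Vec n) ℤ →ₗ[ℤ] ℤ)) : Prop :=
  ∀ τ ∈ K, m ≤ τ.card →
    (τ.card = n → D τ 1 = 1) ∧ (τ.card < n → D τ 1 = 0) ∧
    (∀ ρ, ρ ∉ τ → ∀ f, D τ (X ρ * f) = if insert ρ τ ∈ K then D (insert ρ τ) f else 0) ∧
    ∀ (w : Vec n) (f : MvPolynomial (Vec n) ℤ), D τ ((∑ v ∈ verts K, C (pr w v) * X v) * f) = 0

/-- DEGREE STEP. Given `D` for the cones with at least `m + 1` elements (`m < n`), we change `D` on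
the cones `τ ∈ K` with `τ.card = m`. For `ρ ∈ τ` let `u_ρ` be a dual form (`StDual`):
`pr u_ρ ρ = 1`, `pr u_ρ w = 0` for the other `w ∈ τ`. Put
`E ρ f = D (insert ρ τ) f` if `ρ ∉ τ`, `insert ρ τ ∈ K`; `E ρ f = 0` if `ρ ∉ τ`, `insert ρ τ ∉ K`;
`E ρ f = - ∑ v ∈ L, pr u_ρ v * D (insert v τ) f` if `ρ ∈ τ`, where
`L = {v ∈ verts K : v ∉ τ, insert v τ ∈ K}`. Each `E ρ` is linear in `f`.
CLAIM `E ρ (X ρ' * f) = E ρ' (X ρ * f)`. (a) `ρ, ρ' ∉ τ`, `ρ ≠ ρ'`: both are
`D (insert ρ' (insert ρ τ)) f` or `0` (third clause of `DegSys` at level `m + 1`; if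
`insert ρ τ ∉ K` then also `insert ρ (insert ρ' τ) ∉ K` by `IsFan.down`). (b) `ρ ∉ τ`, `ρ' ∈ τ`: if
`insert ρ τ ∈ K`, the last clause for `insert ρ τ` with `w = u_ρ'` gives
`D (insert ρ τ) (X ρ' * f) = - ∑ v ∈ verts K, v ∉ τ, pr u_ρ' v * D (insert ρ τ) (X v * f)`; for
`v ≠ ρ`, `D (insert ρ τ) (X v * f) = E'`, equal to `D (insert v τ) (X ρ * f)` if both make sense
and `0` if `insert v (insert ρ τ) ∉ K` (in both expressions); for `v = ρ` it is the same
expression. If `insert ρ τ ∉ K` both sides are `0`. (c) `ρ, ρ' ∈ τ`: by (b) both sides are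
`∑_{v, w ∈ L} pr u_ρ v * pr u_ρ' w * D (insert v τ) (X w * f)`, and
`D (insert v τ) (X w * f) = D (insert w τ) (X v * f)` by (a) (`v ≠ w`).
Define the new `D' τ` on monomials (`MvPolynomial.basisMonomials`, `Module.Basis.constr`): `0` on
the monomial `1`, and `E ρ (monomial (s - single ρ 1) 1)` on `monomial s 1`, `s ≠ 0`, `ρ` a chosen
element of `s.support`. The CLAIM gives `D' τ (X ρ * f) = E ρ f` for all `ρ` and `f` (check on
monomials). Third clause: definition of `E ρ` (`ρ ∉ τ`). Last clause: it is enough to take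
`f = 1` or `f = X ρ * g` (monomials): `D' τ (X ρ * (ℓ * g)) = E ρ (ℓ * g) = 0` by the last clause at
level `m + 1`. For `f = 1`: `D' τ ℓ = ∑ v ∈ verts K, pr w v * E v 1`; if `m + 1 < n` all
`D (insert v τ) 1 = 0`. If `m + 1 = n`: `τ` is a wall (`StWall`), `L = {p, q}`,
`D (insert p τ) 1 = D (insert q τ) 1 = 1`, and with `w' = w - ∑ v ∈ τ, pr w v • u_v` (it vanishes on
`τ`) `D' τ ℓ = pr w' p + pr w' q = 0` (pair the wall relation with `w'`). -/
def StDegStep : Prop := ∀ (n : ℕ) (K : Finset (Finset (Vec n))), IsFan K → ∀ m : ℕ, m < n →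
  (∃ D, DegSys K (m + 1) D) → ∃ D, DegSys K m D

/-- THE DEGREE MAP. `DegSys K n D` holds for `D τ f = constantCoeff f` (`coeff 0`): cones with
`n` elements have no `insert ρ τ ∈ K` (`StDual`), constant coefficients of multiples of variables
vanish. Downward induction with `StDegStep`: `DegSys K 0 D`. For `τ ∈ K` and `s` disjoint from `τ`:
`D τ ((∏ v ∈ s, X v) * f) = if τ ∪ s ∈ K then D (τ ∪ s) f else 0` (induction on `s`, third clause,
`IsFan.down`). So `D ∅` vanishes on `relIdeal K` (`Submodule.span_induction`: products of a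
generator with any polynomial), and `D ∅ (∏ v ∈ σ, X v) = 1` for `σ ∈ K`, `σ.card = n`. If
`N • mon K σ = 0` then `N • ∏ v ∈ σ, X v ∈ relIdeal K` (`mk_prod`,
`Ideal.Quotient.eq_zero_iff_mem`), so `N = 0`. -/
def StDeg : Prop := ∀ (n : ℕ) (K : Finset (Finset (Vec n))), IsFan K → NT K

/-- THE POWERS `e_i ^ n`. Proof. `e i ≠ 0`. There is a wall `τ` (`Wall K τ p q b`) with
`e i * mon K τ ≠ 0`: otherwise, with `e i = cl K ψ` (`exists_cl`), `bend ψ τ p q b = 0` for all
walls (`StMul`, `NT`), `StLin` with `Ω = univ` gives `ψ = pr m` on all rays (every ray is in a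
maximal cone: `StNear` with `Ω = univ`, `InRel.singleton`), and `e i = cl K (pr m) = 0`. For every
`v` there is an integer `c v` with `e i * cls K v = c v • (e i * e i)` (`gen` for `cls K v`, `ee`,
`eu`). So `e i * mon K τ = (∏ v ∈ τ, c v) • (e i)^n` (`τ.card = n - 1`; induction over subsets of
`τ`: `e i * mon K s = (∏ v ∈ s, c v) • (e i)^(s.card + 1)`). It is also
`bend ψ • mon K (insert p τ)` with `bend ψ ≠ 0`. If `N • (e i)^n = 0` then
`(N * bend ψ) • mon K (insert p τ) = 0`, so `N = 0` (`StDeg`). -/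
def StTop : Prop := ∀ (n : ℕ) (K : Finset (Finset (Vec n))) (k : ℕ) (e : Fin k → Coh K)
  (U : Submodule ℤ (Coh K)), IsFan K → 3 ≤ n → OrthSplit K k e U → Split K k e U

end ToricPB
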